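import Pool.Agent.Helper97K9.IP.NF

/-!
# Rigid witnesses: the hypotheses on the polynomial [ADM]
-/

set_option autoImplicit false

namespace Pool.Agent.Helper97K9.IP

open Finset Pool.Agent.H612 Pool.Agent.R537.RN
open Pool.Agent.NPC Pool.Agent.NPC.ER Pool.Agent.NPC.H612 Pool.Agent.NPC.R537HD

namespace ADL

/-! ### Degrees -/

theorem dg_sumT {d : ℕ} {l : List Tm} (h : ∀ t ∈ l, dg t ≤ d) : dg (sumT l) ≤ d := by
  induction l with
  | nil => exact Nat.zero_le _
  | cons a l ih =>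
    exact max_le (h a (by simp)) (ih fun t ht => h t (by simp [ht]))

theorem dg_sqT {d : ℕ} {t : Tm} (h : dg t ≤ d) : dg (sqT t) ≤ d + d := Nat.add_le_add h h

theorem dg_mul {d e : ℕ} {s t : Tm} (h : dg s ≤ d) (h' : dg t ≤ e) : dg (Tm.mul s t) ≤ d + e :=
  Nat.add_le_add h h'

theorem dg_add {d : ℕ} {s t : Tm} (h : dg s ≤ d) (h' : dg t ≤ d) : dg (Tm.add s t) ≤ d :=
  max_le h h'

theorem dg_subT {d : ℕ} {s t : Tm} (h : dg s ≤ d) (h' : dg t ≤ d) : dg (subT s t) ≤ d :=
  max_le h h'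

theorem dg_var (i : ℕ) : dg (Tm.var i) ≤ 1 := le_refl _

variable (p : Inp)

theorem dg_tr : dg (tr p) ≤ 2 := dg_sqT (dg_var _)

theorem dg_tt' : dg (tt' p) ≤ 2 := dg_sqT (dg_var _)

theorem dg_tσ : dg (tσ p) ≤ 1 := dg_var _

theorem dg_tPick (i : ℕ) : dg (tPick p i) ≤ 5 := by
  unfold tPick
  split_ifs with h1 h2
  · exact dg_mul (dg_mul (dg_tr p) (dg_tt' p)) (dg_var _)
  · exact (dg_mul (dg_mul (dg_tσ p) (dg_tt' p)) (dg_var _)).trans (by norm_num)
  · exact (dg_mul (dg_mul (dg_tσ p) (dg_tr p)) (dg_var _)).trans (by norm_num)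

theorem dg_tw : dg (tw p) ≤ 5 := dg_mul (dg_mul (dg_tσ p) (dg_tr p)) (dg_tt' p)

theorem dg_tCerr (c : ER.Con) : dg (tCerr p c) ≤ 10 := by
  unfold tCerr
  split_ifs
  · exact dg_mul (dg_tw p) (dg_subT (dg_tPick p _) (dg_tw p))
  · exact dg_mul (dg_tw p) (dg_subT (dg_add (dg_tPick p _) (dg_tPick p _)) (dg_tPick p _))
  · exact dg_subT (dg_mul (dg_tPick p _) (dg_tPick p _)) (dg_mul (dg_tw p) (dg_tPick p _))

theorem dg_tPhi : dg (tPhi p) ≤ 24 := by
  unfold tPhi
  have hQ : dg (tQ p) ≤ 20 := by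
    unfold tQ
    apply dg_sumT
    intro t ht
    obtain ⟨c, -, rfl⟩ := List.mem_map.1 ht
    exact dg_sqT (dg_tCerr p c)
  refine dg_add (dg_subT ?_ ?_) ?_
  · have h1 : dg (Tm.add (sqT (tr p)) (sqT (Tm.var (dn p + 1)))) ≤ 4 :=
      dg_add (dg_sqT (dg_tr p)) ((dg_sqT (dg_var _)).trans (by norm_num))
    exact dg_mul h1 hQ
  · exact (dg_mul (dg_mul (dg_sqT (dg_sqT (dg_tσ p)))
      (dg_mul (dg_sqT (dg_sqT (dg_tr p))) (dg_sqT (dg_tr p)))) (dg_var _)).trans (by norm_num)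
  · exact (dg_mul (dg_mul (dg_sqT (dg_sqT (dg_tσ p))) (dg_tσ p)) (dg_var _)).trans
      (by norm_num)

variable (I : In)

theorem dg_chq (b k : ℕ) : ∀ t ∈ chq b k, dg t ≤ 48 := by
  intro t ht
  obtain ⟨j, hj, rfl⟩ := List.mem_map.1 ht
  exact (dg_sqT (dg_subT ((dg_var _).trans (by norm_num)) (dg_sqT (dg_var _)))).trans
    (by norm_num)

theorem dg_pT : dg (pT I) ≤ 48 := by
  unfold pT
  apply dg_sumT
  unfold ltT
  intro t ht
  simp only [List.mem_append] at ht
  rcases ht with (ht | ht | ht | ht | ht)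
  · obtain ⟨i, hi, rfl⟩ := List.mem_map.1 ht
    exact (dg_sqT (dg_subT (dg_add (dg_sqT (dg_var _)) (dg_sqT (dg_var _)))
      (Nat.zero_le _))).trans (by norm_num)
  · simp only [List.mem_cons, List.not_mem_nil, or_false] at ht
    rcases ht with rfl | rfl | rfl | rfl
    · exact (dg_sqT (dg_subT ((dg_var _).trans (by norm_num)) (dg_tt' _))).trans (by norm_num)
    · exact (dg_sqT (dg_subT ((dg_var _).trans (by norm_num)) (dg_tr _))).trans (by norm_num)
    · exact (dg_sqT (dg_subT (dg_add (dg_var _) (dg_var _)) (Nat.zero_le _))).trans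
        (by norm_num)
    · exact (dg_sqT (dg_add (dg_tPhi _) ((dg_sqT (dg_var _)).trans (by norm_num)))).trans
        (by norm_num)
  · exact dg_chq _ _ t ht
  · exact dg_chq _ _ t ht
  · exact dg_chq _ _ t ht

/-! ### The base point -/

theorem sum_le_of (l : List ℝ) (h : ∀ a ∈ l, a ≤ 0) : l.sum ≤ 0 := by
  induction l with
  | nil => simp
  | cons a l ih =>
    have h1 := h a (by simp)
    have h2 := ih fun b hb => h b (by simp [hb])
    rw [List.sum_cons]
    linarith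

theorem base_val (v : ℕ → ℝ) (h0 : ∀ i < iM0 I, v i = 0) (h1 : ∀ i, iM0 I ≤ i → v i = 1) :
    (pT I).eval v ≤ 1 := by
  have hM : bS (pI I) + dk'' (pI I) + 1 < iM0 I := by unfold iM0; omega
  have e1 : v (bW (pI I)) = 0 := h0 _ (by unfold bS bR at hM; omega)
  have e2 : v (bR (pI I)) = 0 := h0 _ (by unfold bS at hM; omega)
  have e3 : v (bS (pI I)) = 0 := h0 _ (by omega)
  have e4 : v (dn (pI I)) = 0 := h0 _ (by unfold bS bR bW at hM; omega)
  have e5 : v (dn (pI I) + 1) = 0 := h0 _ (by unfold bS bR bW at hM; omega)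
  have e6 : v (dn (pI I) + dm (pI I) + 2) = 0 := h0 _ (by unfold bS bR bW at hM; omega)
  have e7 : v (bS (pI I) + dk'' (pI I)) = 0 := h0 _ (by omega)
  have e8 : v (bS (pI I) + dk'' (pI I) + 1) = 0 := h0 _ hM
  have e9 : (tPhi (pI I)).eval v = 0 := by
    unfold tPhi
    simp only [Tm.eval, eval_subT, eval_sqT, tσ, tr, e4, e5, e7]
    ring
  have hch : ∀ b k : ℕ, b + k < iM0 I → ∀ t ∈ chq b k, t.eval v ≤ 0 := by
    intro b k hbk t ht
    obtain ⟨j, hj, rfl⟩ := List.mem_map.1 ht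
    have hj' := List.mem_range.1 hj
    have f1 := h0 (b + j) (by omega)
    have f2 := h0 (b + j + 1) (by omega)
    simp only [eval_sqT, eval_subT, Tm.eval, f1, f2]
    norm_num
  have c1 : (((chq (bW (pI I)) (dk (pI I))).map (Tm.eval v)).sum) ≤ 0 := by
    apply sum_le_of
    rw [List.forall_mem_map]
    exact hch _ _ (by unfold bS bR at hM; omega)
  have c2 : (((chq (bR (pI I)) (dk' (pI I))).map (Tm.eval v)).sum) ≤ 0 := by
    apply sum_le_of
    rw [List.forall_mem_map]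
    exact hch _ _ (by unfold bS at hM; omega)
  have c3 : (((chq (bS (pI I)) (dk'' (pI I))).map (Tm.eval v)).sum) ≤ 0 := by
    apply sum_le_of
    rw [List.forall_mem_map]
    exact hch _ _ (by omega)
  have c4 : ((((List.range (iM0 I)).map (fun i =>
      sqT (subT (Tm.add (sqT (Tm.var i)) (sqT (Tm.var (iM0 I + i)))) Tm.one))).map
        (Tm.eval v)).sum) ≤ 0 := by
    apply sum_le_of
    rw [List.forall_mem_map, List.forall_mem_map]
    intro i hi
    have hi' := List.mem_range.1 hi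
    simp only [eval_sqT, eval_subT, Tm.eval, h0 i hi', h1 (iM0 I + i) (by omega)]
    norm_num
  unfold pT
  rw [eval_sumT]
  unfold ltT
  rw [List.map_append, List.map_append, List.map_append, List.map_append, List.sum_append,
    List.sum_append, List.sum_append, List.sum_append]
  have c5 : (([sqT (subT (Tm.var (bW (pI I))) (tt' (pI I))),
      sqT (subT (Tm.var (bR (pI I))) (tr (pI I))),
      sqT (subT (Tm.add (Tm.var (bS (pI I))) (Tm.var (bS (pI I)))) Tm.one),
      sqT (Tm.add (tPhi (pI I)) (sqT (Tm.var (bS (pI I) + dk'' (pI I) + 1))))].map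
        (Tm.eval v)).sum) = 1 := by
    generalize hF : tPhi (pI I) = F at *
    simp only [List.map_cons, List.map_nil, List.sum_cons, List.sum_nil, eval_sqT, eval_subT,
      Tm.eval, tt', tr, e1, e2, e3, e4, e6, e8, e9]
    norm_num
  linarith

/-! ### Coercivity -/

theorem coer_val (v : ℕ → ℝ) (k : ℕ) (h : (pT I).eval v ≤ k + 1) (i : ℕ) (hi : i < iM0 I) :
    v i ^ 2 + v (iM0 I + i) ^ 2 ≤ k + 2 := by
  have h1 : (sqT (subT (Tm.add (sqT (Tm.var i)) (sqT (Tm.var (iM0 I + i)))) Tm.one)).eval v ≤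
      (pT I).eval v := by
    unfold pT
    rw [eval_sumT]
    refine List.single_le_sum (NFL.ltT_nonneg I v) _ (List.mem_map.2 ⟨_, ?_, rfl⟩)
    unfold ltT
    exact List.mem_append_left _ (List.mem_map.2 ⟨i, List.mem_range.2 hi, rfl⟩)
  simp only [eval_sqT, eval_subT, Tm.eval] at h1
  have hk : (0 : ℝ) ≤ k := Nat.cast_nonneg k
  have h2 : (v i ^ 2 + v (iM0 I + i) ^ 2 - 1) ^ 2 ≤ ((k : ℝ) + 1) ^ 2 := by nlinarith
  have h3 := abs_le_of_sq_le_sq' h2 (by linarith)
  linarith [h3.2]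

end ADL

/-- [ADM] -/
theorem adm (hTM : S_TM) : S_ADM := by
  intro I
  obtain ⟨-, -, -, hdeg, hnorm, -⟩ := hTM
  refine ⟨fun z => ?_, ?_, fun z hz => ?_, ?_, ?_⟩
  · have h1 := NFL.pe_pp I (NFL.ext0 z)
    rw [NFL.ext0_val] at h1
    rw [h1]
    exact NFL.pT_nonneg I _
  · let v : ℕ → ℝ := fun i => if i < iM0 I then 0 else 1
    refine ⟨fun l => v l, fun l => ?_, fun j => ?_, ?_⟩
    · simp only [v]
      split_ifs <;> norm_num
    · have hj : (j : ℕ) < iM0 I := by
        have h1 := j.2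
        have h2 : ik I < iM0 I := by unfold ik iM0 bS bR bW; omega
        omega
      change v (j : ℕ) = 0
      simp only [v]
      rw [if_pos hj]
    · rw [NFL.pe_pp]
      refine ADL.base_val I v (fun i hi => ?_) (fun i hi => ?_)
      · simp only [v]
        rw [if_pos hi]
      · simp only [v]
        rw [if_neg (by omega)]
  · have h1 := NFL.pe_pp I (NFL.ext0 z)
    rw [NFL.ext0_val] at h1
    rw [h1] at hz
    have hk : (0 : ℝ) ≤ (ik I : ℕ) := Nat.cast_nonneg _
    intro l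
    have key : ∀ a : ℝ, a ^ 2 ≤ (ik I : ℝ) + 2 → |a| ≤ (ik I : ℝ) + 2 := by
      intro a ha
      refine abs_le_of_sq_le_sq ?_ (by linarith)
      nlinarith
    have hl : NFL.ext0 z l = z l := by simp [NFL.ext0]
    apply key
    rw [← hl]
    by_cases hlt : (l : ℕ) < iM0 I
    · have h2 := ADL.coer_val I (NFL.ext0 z) (ik I) hz l hlt
      have h3 := sq_nonneg (NFL.ext0 z (iM0 I + l))
      linarith
    · have hl2 : (l : ℕ) < iM0 I + iM0 I := l.2
      have h2 := ADL.coer_val I (NFL.ext0 z) (ik I) hz (l - iM0 I) (by omega)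
      have h3 := sq_nonneg (NFL.ext0 z ((l : ℕ) - iM0 I))
      have h4 : iM0 I + ((l : ℕ) - iM0 I) = l := by omega
      rw [h4] at h2
      linarith
  · exact (hdeg _ _).mono (ADL.dg_pT I)
  · refine (hnorm (iM I) (pT I)).trans ?_
    exact Nat.pow_le_pow_right (by norm_num) Nat.lt_two_pow_self.le

end Pool.Agent.Helper97K9.IP
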