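import Pool.Agent.Helper97K9.IP.Defs

/-!
# Rigid witnesses: basic properties of `H` and `V`
-/

set_option autoImplicit false

namespace Pool.Agent.Helper97K9.IP

open Finset Filter Topology Pool.Agent.H612 Pool.Agent.R537.RN

variable {k M : ℕ} (hk : k ≤ M) (p : MvPolynomial (Fin M) ℤ)

theorem cont_pe : Continuous (fun z : Fin M → ℝ => pe p z) := by
  unfold pe
  simp_rw [MvPolynomial.eval₂_eq']
  fun_prop

theorem cont_q : Continuous (fun s : (Fin k → ℝ) × (Fin M → ℝ) => q hk p s.1 s.2) := by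
  unfold q
  have h1 := (cont_pe p).comp (continuous_snd (X := Fin k → ℝ) (Y := Fin M → ℝ))
  refine Continuous.add (by fun_prop) h1

theorem cont_sx : Continuous (fun x : Fin k → ℝ => sx x) := by
  unfold sx
  fun_prop

theorem cont_gg : Continuous (fun s : (Fin k → ℝ) × (Fin M → ℝ) => gg hk p s.1 s.2) := by
  unfold gg
  exact (cont_q hk p).mul (continuous_const.sub (cont_sx.comp continuous_fst))

theorem cont_gint (ρ : ℕ) : Continuous (fun s : (Fin k → ℝ) × (Fin M → ℝ) =>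
    -gg hk p s.1 (fun l => (ρ : ℝ) * s.2 l)) := by
  refine Continuous.neg ?_
  exact (cont_gg hk p).comp (g := fun s : (Fin k → ℝ) × (Fin M → ℝ) => gg hk p s.1 s.2)
    (f := fun s : (Fin k → ℝ) × (Fin M → ℝ) => (s.1, fun l => (ρ : ℝ) * s.2 l)) (by fun_prop)

theorem cont_Hf (ρ : ℕ) : Continuous (Hf hk p ρ) :=
  (continuous_bmax (cont_gint hk p ρ)).neg

theorem cont_Vint (ρ : ℕ) : Continuous (fun s : (Fin k → ℝ) × (Fin k → ℝ) =>
    Hf hk p ρ s.2 - ∑ j, s.1 j * s.2 j) :=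
  ((cont_Hf hk p ρ).comp continuous_snd).sub (by fun_prop)

theorem cont_Vf (ρ : ℕ) : Continuous (Vf hk p ρ) := continuous_bmax (cont_Vint hk p ρ)

/-- `H(x) ≤ q(x, z) (1 - |x|²)` for `z` in the cube of radius `ρ > 0`. -/
theorem Hf_le {ρ : ℕ} (hρ : 0 < ρ) (x : Fin k → ℝ) {z : Fin M → ℝ} (hz : ∀ l, |z l| ≤ ρ) :
    Hf hk p ρ x ≤ gg hk p x z := by
  have hρ' : (0 : ℝ) < ρ := by exact_mod_cast hρ
  have h1 : (fun l => z l / ρ) ∈ cube M := by
    intro l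
    rw [abs_div, abs_of_pos hρ', div_le_one hρ']
    exact hz l
  have h2 := le_bmax (cont_gint hk p ρ) x h1
  have h3 : (fun l => (ρ : ℝ) * (z l / ρ)) = z := by
    funext l
    field_simp
  unfold Hf
  simp only [h3] at h2
  linarith

/-- The minimum is attained. -/
theorem exists_Hf (ρ : ℕ) (x : Fin k → ℝ) :
    ∃ z : Fin M → ℝ, (∀ l, |z l| ≤ ρ) ∧ gg hk p x z = Hf hk p ρ x := by
  obtain ⟨z, hz, h⟩ := exists_bmax (cont_gint hk p ρ) x
  refine ⟨fun l => (ρ : ℝ) * z l, fun l => ?_, ?_⟩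
  · rw [abs_mul, abs_of_nonneg (Nat.cast_nonneg ρ)]
    exact mul_le_of_le_one_right (Nat.cast_nonneg _) (hz l)
  · unfold Hf
    rw [← h]
    ring

theorem le_Vf (ρ : ℕ) (b : Fin k → ℝ) {x : Fin k → ℝ} (hx : ∀ j, |x j| ≤ 1) :
    Hf hk p ρ x - ∑ j, b j * x j ≤ Vf hk p ρ b :=
  le_bmax (cont_Vint hk p ρ) b hx

theorem exists_Vf (ρ : ℕ) (b : Fin k → ℝ) : ∃ x : Fin k → ℝ, (∀ j, |x j| ≤ 1) ∧
    Hf hk p ρ x - ∑ j, b j * x j = Vf hk p ρ b := by
  obtain ⟨x, hx, h⟩ := exists_bmax (cont_Vint hk p ρ) b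
  exact ⟨x, hx, h⟩

theorem abs_sum_le {b x : Fin k → ℝ} (hx : ∀ j, |x j| ≤ 1) :
    |∑ j, b j * x j| ≤ ∑ j, |b j| := by
  refine (Finset.abs_sum_le_sum_abs _ _).trans (Finset.sum_le_sum fun j _ => ?_)
  rw [abs_mul]
  exact mul_le_of_le_one_right (abs_nonneg _) (hx j)

/-- `V` is Lipschitz. -/
theorem Vf_lip (ρ : ℕ) (b b' : Fin k → ℝ) :
    Vf hk p ρ b ≤ Vf hk p ρ b' + ∑ j, |b j - b' j| := by
  obtain ⟨x, hx, h⟩ := exists_Vf hk p ρ b
  have h1 := le_Vf hk p ρ b' hx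
  have h2 := abs_sum_le (b := fun j => b' j - b j) hx
  have h3 : ∑ j, (b' j - b j) * x j = ∑ j, b' j * x j - ∑ j, b j * x j := by
    rw [← Finset.sum_sub_distrib]
    exact Finset.sum_congr rfl fun j _ => by ring
  have h4 : ∑ j, |b' j - b j| = ∑ j, |b j - b' j| :=
    Finset.sum_congr rfl fun j _ => abs_sub_comm _ _
  have h5 := abs_le.1 h2
  rw [h3, h4] at h5
  linarith [h5.2]

theorem q_nonneg {s : ℕ} (ha : Adm k M s hk p) (x : Fin k → ℝ) (z : Fin M → ℝ) :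
    0 ≤ q hk p x z :=
  add_nonneg (Finset.sum_nonneg fun _ _ => sq_nonneg _) (ha.nonneg z)

theorem sx_nonneg (x : Fin k → ℝ) : 0 ≤ sx x := Finset.sum_nonneg fun _ _ => sq_nonneg _

/-- At the point `z0` of the hypothesis, `q(x, z0) ≤ |x|² + 1`. -/
theorem q_base {s : ℕ} (ha : Adm k M s hk p) : ∃ z0 : Fin M → ℝ, (∀ l, |z0 l| ≤ 1) ∧
    ∀ x : Fin k → ℝ, q hk p x z0 ≤ sx x + 1 := by
  obtain ⟨z0, h1, h2, h3⟩ := ha.base
  refine ⟨z0, h1, fun x => ?_⟩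
  unfold q sx
  have : ∑ j, (z0 (Fin.castLE hk j) - x j) ^ 2 = ∑ j, x j ^ 2 :=
    Finset.sum_congr rfl fun j _ => by rw [h2]; ring
  rw [this]
  linarith

/-- `H(x) ≤ 0` outside the ball. -/
theorem Hf_nonpos {s : ℕ} (ha : Adm k M s hk p) {ρ : ℕ} (hρ : 0 < ρ) {x : Fin k → ℝ}
    (hx : 1 ≤ sx x) : Hf hk p ρ x ≤ 0 := by
  have h := Hf_le hk p hρ x (z := 0) (fun l => by simp)
  refine h.trans ?_
  unfold gg
  exact mul_nonpos_of_nonneg_of_nonpos (q_nonneg hk p ha x 0) (by linarith)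

/-- `H(x) ≤ 1`. -/
theorem Hf_le_one {s : ℕ} (ha : Adm k M s hk p) {ρ : ℕ} (hρ : 0 < ρ) (x : Fin k → ℝ) :
    Hf hk p ρ x ≤ 1 := by
  rcases le_or_gt 1 (sx x) with hx | hx
  · exact (Hf_nonpos hk p ha hρ hx).trans zero_le_one
  · obtain ⟨z0, h1, h2⟩ := q_base hk p ha
    have h0 : (1 : ℝ) ≤ ρ := by exact_mod_cast hρ
    have h := Hf_le hk p hρ x (z := z0) (fun l => (h1 l).trans h0)
    refine h.trans ?_
    unfold gg
    have h3 := sx_nonneg x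
    have h4 := h2 x
    nlinarith

theorem Vf_le {s : ℕ} (ha : Adm k M s hk p) {ρ : ℕ} (hρ : 0 < ρ) (b : Fin k → ℝ) :
    Vf hk p ρ b ≤ 1 + ∑ j, |b j| := by
  obtain ⟨x, hx, h⟩ := exists_Vf hk p ρ b
  have h1 := Hf_le_one hk p ha hρ x
  have h2 := abs_le.1 (abs_sum_le (b := b) hx)
  linarith [h2.1]

theorem hh_pos (a : ℕ) : 0 < hh a := by unfold hh; positivity

theorem hh_le_one (a : ℕ) : hh a ≤ 1 := by
  unfold hh
  exact pow_le_one₀ (by norm_num) (by norm_num)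

theorem hh_anti {a b : ℕ} (h : a ≤ b) : hh b ≤ hh a := by
  unfold hh
  exact pow_le_pow_of_le_one (by norm_num) (by norm_num) (Nat.pow_le_pow_right (by norm_num) h)

theorem hh_add (a n : ℕ) : hh (a + n) = hh a ^ (2 ^ n) := by
  unfold hh
  rw [← pow_mul, pow_add]

/-- `2^(-2^(a+n)) · 2^n ≤ 2^(-2^a)`-type estimate. -/
theorem two_pow_mul_hh (a n : ℕ) : 2 ^ n * hh (a + n) ≤ hh a := by
  have h1 : 2 ^ a + n ≤ 2 ^ (a + n) := by
    rw [pow_add]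
    have h2 : n + 1 ≤ 2 ^ n := Nat.lt_two_pow_self
    have h3 : 1 ≤ 2 ^ a := Nat.one_le_two_pow
    nlinarith
  have h2 : hh (a + n) ≤ (1 / 2) ^ (2 ^ a + n) := by
    unfold hh
    exact pow_le_pow_of_le_one (by norm_num) (by norm_num) h1
  calc 2 ^ n * hh (a + n) ≤ 2 ^ n * (1 / 2) ^ (2 ^ a + n) :=
        mul_le_mul_of_nonneg_left h2 (by positivity)
    _ = hh a * (2 ^ n * (1 / 2) ^ n) := by unfold hh; rw [pow_add]; ring
    _ = hh a := by rw [← mul_pow]; norm_num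

end Pool.Agent.Helper97K9.IP
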