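import Pool.Agent.Helper97K9.IP.Basic

/-!
# Rigid witnesses: critical points by local minimisation
-/

set_option autoImplicit false

namespace Pool.Agent.Helper97K9.IP

open Finset Filter Topology Pool.Agent.H612 Pool.Agent.R537.RN

section congr

variable {R : Type} [CommRing R] {k M : ℕ} (hk : k ≤ M) (p : MvPolynomial (Fin M) ℤ)

theorem zidx_lt (i : Fin (k + 1)) (l : Fin M) : 2 * k + 3 + (i : ℕ) * M + l < dN k M := by
  have h1 : (i : ℕ) * M + M ≤ (k + 1) * M := by
    have h := Nat.mul_le_mul_right M (show (i : ℕ) + 1 ≤ k + 1 by omega)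
    rw [Nat.add_mul, one_mul] at h
    exact h
  have := l.2
  unfold dN
  omega

/-- `Fsq` depends only on the first `dN k M` coordinates. -/
theorem Fsq_congr (A : R) (β : Fin k → R) {w w' : ℕ → R} (h : ∀ i < dN k M, w i = w' i) :
    Fsq hk p A β w = Fsq hk p A β w' := by
  have hd : 2 * k + 3 ≤ dN k M := by unfold dN; omega
  have h1 : xw k w = xw k w' := funext fun j => h _ (by omega)
  have h2 : ∀ i : Fin (k + 1), zw k M w i = zw k M w' i := fun i =>
    funext fun l => h _ (zidx_lt i l)
  have h3 : ∀ i : Fin (k + 1), μw k w i = μw k w' i := fun i => h _ (by omega)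
  have h4 : w k = w' k := h _ (by omega)
  have h5 : w (k + 1) = w' (k + 1) := h _ (by omega)
  unfold Fsq Ceq Eeq
  simp only [h1, h2, h3, h4, h5]

end congr

variable {k M : ℕ} (hk : k ≤ M) (p : MvPolynomial (Fin M) ℤ)

theorem Fsq_nonneg (A : ℝ) (β : Fin k → ℝ) (w : ℕ → ℝ) : 0 ≤ Fsq hk p A β w := by
  unfold Fsq
  positivity

/-- `Th` is differentiable along every differentiable family. -/
theorem Th_diff (b : Fin k → ℝ) (e : ℝ) (W : ℝ → ℕ → ℝ) (hW : ∀ i, Differentiable ℝ fun s => W s i) :
    Differentiable ℝ fun s => Th hk p b e (W s) := by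
  unfold Th Fsq Ceq Eeq q dq sx xw zw μw pe
  simp only [MvPolynomial.eval₂_eq']
  have hd : ∀ (l : Fin M) (i : Fin (k + 1)), Differentiable ℝ fun s =>
      (if h : (l : ℕ) < k then 2 * (W s (2 * k + 3 + i * M + l) -
        W s ((⟨l, h⟩ : Fin k) : ℕ)) else 0) := by
    intro l i
    by_cases h : (l : ℕ) < k
    · simp only [h, dif_pos]
      exact ((hW _).sub (hW _)).const_mul 2
    · simp only [h, dif_neg, not_false_eq_true]
      exact differentiable_const _
  have hp : ∀ (r : MvPolynomial (Fin M) ℤ) (i : Fin (k + 1)), Differentiable ℝ fun s =>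
      ∑ d ∈ r.support, (Int.castRingHom ℝ) (r.coeff d) *
        ∏ l : Fin M, W s (2 * k + 3 + i * M + l) ^ d l := by
    intro r i
    refine Differentiable.fun_sum fun d _ => Differentiable.const_mul ?_ _
    refine Differentiable.fun_finsetProd fun l _ => (hW _).pow _
  have hx : Differentiable ℝ fun s => ∑ j : Fin k, W s j ^ 2 :=
    Differentiable.fun_sum fun j _ => (hW _).pow 2
  have hq : ∀ i : Fin (k + 1), Differentiable ℝ fun s =>
      ∑ j : Fin k, (W s (2 * k + 3 + i * M + (Fin.castLE hk j : Fin M)) - W s j) ^ 2 :=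
    fun i => Differentiable.fun_sum fun j _ => ((hW _).sub (hW _)).pow 2
  refine Differentiable.add (Differentiable.add (Differentiable.add (Differentiable.const_mul
    (Differentiable.add (Differentiable.add ?_ ?_) ?_) _) ?_) ?_) ?_
  · exact Differentiable.fun_sum fun i _ => Differentiable.fun_sum fun l _ =>
      ((hd l i).add (hp _ i)).pow 2
  · exact Differentiable.fun_sum fun i _ => (((hq i).add (hp p i)).sub (hW _)).pow 2
  · exact ((Differentiable.fun_sum fun i _ => (hW _).pow 2).sub_const 1).pow 2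
  · refine Differentiable.fun_sum fun j _ => Differentiable.pow (Differentiable.sub_const
      (Differentiable.const_mul (Differentiable.sub (Differentiable.mul
        (Differentiable.const_sub hx 1) ?_) (((hW _).const_mul 2).mul (hW _))) _) _) 2
    exact Differentiable.fun_sum fun i _ => ((hW _).pow 2).mul (((hW _).sub (hW _)).const_mul 2)
  · refine Differentiable.pow (Differentiable.sub (Differentiable.const_mul (Differentiable.sub
      (Differentiable.mul (hW _) (Differentiable.const_sub hx 1)) (hW _)) _) ?_) 2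
    exact Differentiable.fun_sum fun j _ => (hW _).const_mul _
  · exact Differentiable.const_mul (Differentiable.fun_sum fun i _ => (hW _).pow _) _

/-- The extension by zero. -/
def ez (N : ℕ) (y : Fin N → ℝ) (i : ℕ) : ℝ := if h : i < N then y ⟨i, h⟩ else 0

theorem ez_lt {N : ℕ} (y : Fin N → ℝ) {i : ℕ} (h : i < N) : ez N y i = y ⟨i, h⟩ := dif_pos h

theorem ez_ge {N : ℕ} (y : Fin N → ℝ) {i : ℕ} (h : N ≤ i) : ez N y i = 0 :=
  dif_neg (not_lt.2 h)

theorem ez_update {N : ℕ} (y : Fin N → ℝ) {i : ℕ} (h : i < N) (s : ℝ) :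
    Function.update (ez N y) i s = ez N (Function.update y ⟨i, h⟩ s) := by
  funext j
  by_cases hj : j = i
  · subst hj
    rw [Function.update_self, ez_lt _ h, Function.update_self]
  · rw [Function.update_of_ne hj]
    by_cases hjN : j < N
    · rw [ez_lt _ hjN, ez_lt _ hjN, Function.update_of_ne]
      intro hh
      exact hj (congrArg Fin.val hh)
    · rw [ez_ge _ (not_lt.1 hjN), ez_ge _ (not_lt.1 hjN)]

theorem cont_ez (N i : ℕ) : Continuous fun y : Fin N → ℝ => ez N y i := by
  unfold ez
  split_ifs with h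
  · exact continuous_apply _
  · exact continuous_const

theorem cont_Fsq (A : ℝ) (β : Fin k → ℝ) {X : Type} [TopologicalSpace X] (W : X → ℕ → ℝ)
    (hW : ∀ i, Continuous fun s => W s i) : Continuous fun s => Fsq hk p A β (W s) := by
  unfold Fsq Ceq Eeq q dq sx xw zw μw pe
  simp only [MvPolynomial.eval₂_eq']
  have hd : ∀ (l : Fin M) (i : Fin (k + 1)), Continuous fun s =>
      (if h : (l : ℕ) < k then 2 * (W s (2 * k + 3 + i * M + l) -
        W s ((⟨l, h⟩ : Fin k) : ℕ)) else 0) := by
    intro l i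
    by_cases h : (l : ℕ) < k
    · simp only [h, dif_pos]
      exact continuous_const.mul ((hW _).sub (hW _))
    · simp only [h, dif_neg, not_false_eq_true]
      exact continuous_const
  have hp : ∀ (r : MvPolynomial (Fin M) ℤ) (i : Fin (k + 1)), Continuous fun s =>
      ∑ d ∈ r.support, (Int.castRingHom ℝ) (r.coeff d) *
        ∏ l : Fin M, W s (2 * k + 3 + i * M + l) ^ d l := by
    intro r i
    refine continuous_finsetSum _ fun d _ => continuous_const.mul ?_
    exact continuous_finsetProd _ fun l _ => (hW _).pow _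
  have hx : Continuous fun s => ∑ j : Fin k, W s j ^ 2 :=
    continuous_finsetSum _ fun j _ => (hW _).pow 2
  have hq : ∀ i : Fin (k + 1), Continuous fun s =>
      ∑ j : Fin k, (W s (2 * k + 3 + i * M + (Fin.castLE hk j : Fin M)) - W s j) ^ 2 :=
    fun i => continuous_finsetSum _ fun j _ => ((hW _).sub (hW _)).pow 2
  refine Continuous.add (Continuous.add (Continuous.mul continuous_const
    (Continuous.add (Continuous.add ?_ ?_) ?_)) ?_) ?_
  · exact continuous_finsetSum _ fun i _ => continuous_finsetSum _ fun l _ =>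
      ((hd l i).add (hp _ i)).pow 2
  · exact continuous_finsetSum _ fun i _ => (((hq i).add (hp p i)).sub (hW _)).pow 2
  · exact ((continuous_finsetSum _ fun i _ => (hW _).pow 2).sub continuous_const).pow 2
  · refine continuous_finsetSum _ fun j _ => Continuous.pow (Continuous.sub
      (Continuous.mul continuous_const (Continuous.sub (Continuous.mul
        (Continuous.sub continuous_const hx) ?_) ((continuous_const.mul (hW _)).mul (hW _))))
          continuous_const) 2
    exact continuous_finsetSum _ fun i _ =>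
      ((hW _).pow 2).mul (continuous_const.mul ((hW _).sub (hW _)))
  · refine Continuous.pow (Continuous.sub (Continuous.mul continuous_const (Continuous.sub
      (Continuous.mul (hW _) (Continuous.sub continuous_const hx)) (hW _))) ?_) 2
    exact continuous_finsetSum _ fun j _ => continuous_const.mul (hW _)

theorem cont_Th (b : Fin k → ℝ) (e : ℝ) {X : Type} [TopologicalSpace X] (W : X → ℕ → ℝ)
    (hW : ∀ i, Continuous fun s => W s i) : Continuous fun s => Th hk p b e (W s) := by
  unfold Th
  exact (cont_Fsq hk p 1 b W hW).add (continuous_const.mul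
    (continuous_finsetSum _ fun i _ => (hW _).pow _))

theorem slab : S_SLAB := by
  intro k M hk p b w0 v1 v2 c e hw0 hF0 hv1 hv2 he hec hlow
  obtain ⟨N, hN⟩ : ∃ N, N = dN k M := ⟨_, rfl⟩
  rw [← hN] at hec
  have hN3 : 3 ≤ N := by rw [hN]; unfold dN; omega
  have hkN : k + 1 < N := by rw [hN]; unfold dN; omega
  have hr : (rr k M : ℝ) = (k + 2) * N := by rw [hN]; unfold rr; push_cast; ring
  have hN1 : (3 : ℝ) ≤ N := by exact_mod_cast hN3
  have hk0 : (0 : ℝ) ≤ k := Nat.cast_nonneg k
  have hr0 : (k : ℝ) + 2 ≤ rr k M := by rw [hr]; nlinarith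
  obtain ⟨y0, hy0⟩ : ∃ y0 : Fin N → ℝ, ∀ i, y0 i = w0 i := ⟨fun i => w0 i, fun _ => rfl⟩
  have hez0 : ∀ i < N, ez N y0 i = w0 i := fun i hi => by rw [ez_lt _ hi, hy0]
  obtain ⟨Kc, hKc⟩ : ∃ Kc : Set (Fin N → ℝ), Kc = {y : Fin N → ℝ | (∀ i, |y i| ≤ rr k M) ∧
      v1 ≤ y ⟨k + 1, hkN⟩ ∧ y ⟨k + 1, hkN⟩ ≤ v2} := ⟨_, rfl⟩
  have hcomp : IsCompact Kc := by
    rw [hKc]
    refine IsCompact.of_isClosed_subset (isCompact_univ_pi fun _ : Fin N =>
      (isCompact_Icc (a := -(rr k M : ℝ)) (b := rr k M))) ?_ ?_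
    · refine IsClosed.inter ?_ (IsClosed.inter ?_ ?_)
      · have : {y : Fin N → ℝ | ∀ i, |y i| ≤ rr k M} =
            ⋂ i, {y : Fin N → ℝ | |y i| ≤ rr k M} := by
          ext y; simp
        have h2 : IsClosed {y : Fin N → ℝ | ∀ i, |y i| ≤ rr k M} := by
          rw [this]
          exact isClosed_iInter fun i => isClosed_le (by fun_prop) continuous_const
        exact h2
      · exact isClosed_le continuous_const (continuous_apply _)
      · exact isClosed_le (continuous_apply _) continuous_const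
    · rintro y ⟨hy, -⟩ i -
      exact abs_le.1 (hy i)
  have hmem0 : y0 ∈ Kc := by
    rw [hKc]
    refine ⟨fun i => ?_, ?_, ?_⟩
    · rw [hy0]; exact (hw0 _).trans hr0
    · rw [hy0]; exact hv1.le
    · rw [hy0]; exact hv2.le
  obtain ⟨ys, hys, hmin⟩ := hcomp.exists_isMinOn ⟨y0, hmem0⟩
    (cont_Th hk p b e (fun y : Fin N → ℝ => ez N y) (fun i => cont_ez N i)).continuousOn
  have hTh0 : Th hk p b e (ez N y0) ≤ e * (N * (k + 2) ^ 128) := by
    unfold Th
    rw [← hN, Fsq_congr hk p 1 b (w' := w0) (fun i hi => hez0 i (by rw [hN]; exact hi)), hF0,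
      zero_add]
    refine mul_le_mul_of_nonneg_left ?_ he.le
    calc ∑ i ∈ range N, ez N y0 i ^ 128 ≤ ∑ _i ∈ range N, ((k : ℝ) + 2) ^ 128 := by
          refine Finset.sum_le_sum fun i hi => ?_
          rw [hez0 i (mem_range.1 hi), ← Even.pow_abs (by decide)]
          exact pow_le_pow_left₀ (abs_nonneg _) (hw0 i) _
      _ = N * (k + 2) ^ 128 := by simp
  have hle : Th hk p b e (ez N ys) ≤ e * (N * (k + 2) ^ 128) := (hmin hmem0).trans hTh0
  rw [hKc] at hys
  obtain ⟨g1, g2, g3⟩ := hys
  have hsum : ∀ i : Fin N, e * ys i ^ 128 ≤ Th hk p b e (ez N ys) := by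
    intro i
    unfold Th
    rw [← hN]
    have h1 := Fsq_nonneg hk p 1 b (ez N ys)
    have h2 : ys i ^ 128 ≤ ∑ i ∈ range N, ez N ys i ^ 128 := by
      have h3 : ys i ^ 128 = ez N ys i ^ 128 := by rw [ez_lt _ i.2]
      rw [h3]
      exact Finset.single_le_sum (f := fun i => ez N ys i ^ 128)
        (fun j _ => Even.pow_nonneg (by decide) _) (mem_range.2 i.2)
    nlinarith
  have hFle : Fsq hk p 1 b (ez N ys) ≤ Th hk p b e (ez N ys) := by
    unfold Th
    have h1 : 0 ≤ ∑ i ∈ range (dN k M), ez N ys i ^ 128 :=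
      Finset.sum_nonneg fun j _ => Even.pow_nonneg (by decide) _
    have := mul_nonneg he.le h1
    linarith
  have hlow' : ∀ v, v = v1 ∨ v = v2 → ys ⟨k + 1, hkN⟩ ≠ v := by
    intro v hv hcon
    have h1 := hlow (ez N ys) (fun i hi => by
      rw [ez_lt _ (by rw [hN]; exact hi)]; exact g1 _) (by
      rw [ez_lt _ hkN, hcon]; exact hv)
    linarith
  have hv1' : v1 < ys ⟨k + 1, hkN⟩ := lt_of_le_of_ne g2 (hlow' v1 (Or.inl rfl)).symm
  have hv2' : ys ⟨k + 1, hkN⟩ < v2 := lt_of_le_of_ne g3 (hlow' v2 (Or.inr rfl))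
  have hint : ∀ i : Fin N, |ys i| < rr k M := by
    intro i
    refine lt_of_le_of_ne (g1 i) fun hcon => ?_
    have h1 := (hsum i).trans hle
    rw [← Even.pow_abs (by decide), hcon, hr, mul_pow] at h1
    have h2 : ((k : ℝ) + 2) ^ 128 * (N : ℝ) ^ 128 ≤ N * (k + 2) ^ 128 :=
      le_of_mul_le_mul_left h1 he
    have h3 : (0 : ℝ) < (k + 2) ^ 128 := by positivity
    have h4 : (N : ℝ) ^ 128 ≤ N := by
      have : ((k : ℝ) + 2) ^ 128 * (N : ℝ) ^ 128 ≤ (k + 2) ^ 128 * N := by linarith
      exact le_of_mul_le_mul_left this h3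
    have h5 : (N : ℝ) ^ 2 ≤ (N : ℝ) ^ 128 := pow_le_pow_right₀ (by linarith) (by norm_num)
    nlinarith
  refine ⟨ez N ys, fun i hi => ez_ge _ (by rw [hN]; exact hi), ?_, ?_, ?_⟩
  · rw [ez_lt _ hkN]; exact hv1'
  · rw [ez_lt _ hkN]; exact hv2'
  · intro i hi
    rw [← hN] at hi
    have hdiff : Differentiable ℝ fun s => Th hk p b e (Function.update (ez N ys) i s) := by
      refine Th_diff hk p b e (fun s => Function.update (ez N ys) i s) fun j => ?_
      by_cases hj : j = i
      · subst hj
        simp only [Function.update_self]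
        exact differentiable_id
      · simp only [Function.update_of_ne hj]
        exact differentiable_const _
    have hloc : IsLocalMin (fun s => Th hk p b e (Function.update (ez N ys) i s))
        (ez N ys i) := by
      have hcu : Continuous fun s : ℝ => Function.update ys ⟨i, hi⟩ s :=
        continuous_const.update _ continuous_id
      have hopen : IsOpen {y : Fin N → ℝ | (∀ i, |y i| < rr k M) ∧ v1 < y ⟨k + 1, hkN⟩ ∧
          y ⟨k + 1, hkN⟩ < v2} := by
        refine IsOpen.inter ?_ (IsOpen.inter ?_ ?_)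
        · have : {y : Fin N → ℝ | ∀ i, |y i| < rr k M} =
              ⋂ i, {y : Fin N → ℝ | |y i| < rr k M} := by
            ext y; simp
          have h2 : IsOpen {y : Fin N → ℝ | ∀ i, |y i| < rr k M} := by
            rw [this]
            exact isOpen_iInter_of_finite fun i => isOpen_lt (by fun_prop) continuous_const
          exact h2
        · exact isOpen_lt continuous_const (continuous_apply _)
        · exact isOpen_lt (continuous_apply _) continuous_const
      have hys' : Function.update ys ⟨i, hi⟩ (ys ⟨i, hi⟩) = ys := Function.update_eq_self _ _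
      have hev : ∀ᶠ s in 𝓝 (ys ⟨i, hi⟩), Function.update ys ⟨i, hi⟩ s ∈
          {y : Fin N → ℝ | (∀ i, |y i| < rr k M) ∧ v1 < y ⟨k + 1, hkN⟩ ∧
          y ⟨k + 1, hkN⟩ < v2} := by
        refine hcu.continuousAt.eventually (hopen.mem_nhds ?_)
        show Function.update ys ⟨i, hi⟩ (ys ⟨i, hi⟩) ∈ _
        rw [hys']
        exact ⟨hint, hv1', hv2'⟩
      rw [ez_lt _ hi]
      filter_upwards [hev] with s hs
      rw [ez_update _ hi, ez_update _ hi, hys']
      refine hmin ?_
      rw [hKc]
      exact ⟨fun i => (hs.1 i).le, hs.2.1.le, hs.2.2.le⟩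
    have hd := (hdiff (ez N ys i)).hasDerivAt
    have h0 := hloc.hasDerivAt_eq_zero hd
    rw [h0] at hd
    exact hd

end Pool.Agent.Helper97K9.IP
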