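import Pool.Agent.Helper97K9.IP.CGa
import Pool.Agent.Helper97K9.IP.Slab

/-!
# Rigid witnesses: the effective lower bound for the KKT equations [CG]
-/

set_option autoImplicit false

namespace Pool.Agent.Helper97K9.IP

open Finset Filter Topology Pool.Agent.H612 Pool.Agent.R537.RN

theorem ν_shift {K : Type} [CommRing K] (nr : RNorm K) (P Q : Polynomial K) (r : ℕ)
    (h : P = Polynomial.X ^ r * Q) : nr.poly.ν Q ≤ nr.poly.ν P := by
  rw [RNorm.poly_ν, RNorm.poly_ν]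
  unfold RNorm.pν
  have h1 : ∀ i, P.coeff (i + r) = Q.coeff i := fun i => by
    rw [h, Polynomial.coeff_X_pow_mul]
  calc ∑ i ∈ Q.support, nr.ν (Q.coeff i) = ∑ i ∈ Q.support, nr.ν (P.coeff (addRightEmbedding r i)) :=
        Finset.sum_congr rfl fun i _ => by rw [addRightEmbedding_apply, h1]
    _ = ∑ j ∈ Q.support.map (addRightEmbedding r), nr.ν (P.coeff j) :=
        (Finset.sum_map Q.support (addRightEmbedding r) (fun j => nr.ν (P.coeff j))).symm
    _ ≤ _ := by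
      refine Finset.sum_le_sum_of_subset fun j hj => ?_
      obtain ⟨i, hi, rfl⟩ := Finset.mem_map.1 hj
      rw [Polynomial.mem_support_iff, addRightEmbedding_apply, h1]
      exact Polynomial.mem_support_iff.1 hi

theorem coeff_zero_le {K : Type} [CommRing K] (nr : RNorm K) (φ : K →+* ℝ)
    (hφ : ∀ c, |φ c| ≤ nr.ν c) (Q : Polynomial K) (t : ℝ) (ht0 : 0 ≤ t) (ht1 : t ≤ 1)
    (h : Q.eval₂ φ t = 0) : |φ (Q.coeff 0)| ≤ nr.poly.ν Q * t := by
  classical
  have h0 : Q.eval₂ φ t = φ (Q.coeff 0) + ∑ i ∈ Q.support.erase 0, φ (Q.coeff i) * t ^ i := by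
    rw [Polynomial.eval₂_eq_sum, Polynomial.sum_def]
    by_cases h1 : 0 ∈ Q.support
    · rw [← Finset.add_sum_erase _ _ h1]
      simp
    · rw [Finset.erase_eq_of_notMem h1, Polynomial.notMem_support_iff.1 h1]
      simp
  rw [h] at h0
  have h1 : φ (Q.coeff 0) = -∑ i ∈ Q.support.erase 0, φ (Q.coeff i) * t ^ i := by linarith
  rw [h1, abs_neg]
  have h2 : (nr.poly.ν Q : ℝ) = ∑ i ∈ Q.support, (nr.ν (Q.coeff i) : ℝ) := by
    rw [RNorm.poly_ν]
    unfold RNorm.pν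
    push_cast
    rfl
  calc |∑ i ∈ Q.support.erase 0, φ (Q.coeff i) * t ^ i|
      ≤ ∑ i ∈ Q.support.erase 0, |φ (Q.coeff i) * t ^ i| := Finset.abs_sum_le_sum_abs _ _
    _ ≤ ∑ i ∈ Q.support.erase 0, (nr.ν (Q.coeff i) : ℝ) * t := by
      refine Finset.sum_le_sum fun i hi => ?_
      rw [abs_mul, abs_of_nonneg (pow_nonneg ht0 i)]
      refine mul_le_mul (hφ _) ?_ (pow_nonneg ht0 i) (Nat.cast_nonneg _)
      have hi0 : i ≠ 0 := Finset.ne_of_mem_erase hi
      exact pow_le_of_le_one ht0 ht1 hi0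
    _ ≤ ∑ i ∈ Q.support, (nr.ν (Q.coeff i) : ℝ) * t :=
      Finset.sum_le_sum_of_subset_of_nonneg (Finset.erase_subset _ _) fun _ _ _ =>
        mul_nonneg (Nat.cast_nonneg _) ht0
    _ = _ := by rw [← Finset.sum_mul, h2]

theorem Fsq_scale {k M : ℕ} (hk : k ≤ M) (p : MvPolynomial (Fin M) ℤ) (A : ℝ) (b : Fin k → ℝ)
    (w : ℕ → ℝ) : Fsq hk p A (fun j => A * b j) w = A ^ 2 * Fsq hk p 1 b w := by
  unfold Fsq
  have h1 : ∑ j, (A * Ceq hk w j - A * b j) ^ 2 = A ^ 2 * ∑ j, (1 * Ceq hk w j - b j) ^ 2 := by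
    rw [Finset.mul_sum]
    exact Finset.sum_congr rfl fun j _ => by ring
  have h2 : ∑ j, A * b j * xw k w j = A * ∑ j, b j * xw k w j := by
    rw [Finset.mul_sum]
    exact Finset.sum_congr rfl fun j _ => by ring
  rw [h1, h2]
  ring

/-- The radius and the number of variables as powers of `2`. -/
theorem rr_le (k M : ℕ) : rr k M * 2 ≤ 2 ^ (2 * k + M + 4) := by
  have h1 : k + 1 ≤ 2 ^ k := Nat.lt_two_pow_self
  have h2 : M + 1 ≤ 2 ^ M := Nat.lt_two_pow_self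
  have h3 : dN k M ≤ 3 * ((k + 1) * (M + 1)) := by
    unfold dN
    nlinarith [Nat.zero_le (k * M)]
  have h4 : k + 2 ≤ 2 * (k + 1) := by omega
  unfold rr
  calc (k + 2) * dN k M * 2 ≤ 2 * (k + 1) * (3 * ((k + 1) * (M + 1))) * 2 :=
        Nat.mul_le_mul_right _ (Nat.mul_le_mul h4 h3)
    _ = 12 * ((k + 1) * (k + 1) * (M + 1)) := by ring
    _ ≤ 16 * (2 ^ k * 2 ^ k * 2 ^ M) :=
        Nat.mul_le_mul (by norm_num) (Nat.mul_le_mul (Nat.mul_le_mul h1 h1) h2)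
    _ = _ := by
      rw [show 2 * k + M + 4 = k + k + M + 4 by ring, pow_add, pow_add, pow_add]
      ring

theorem exp_bound (k M s aK a : ℕ) (ha : a ≤ 2 ^ (2 * k + M + 4)) (hN : dN k M ≤ a) :
    1 + dN k M * (2 ^ 2 ^ aK * (52 * (k + 1) ^ 2 * (2 ^ 2 ^ s * a ^ 48))) ^ 2 ≤
      2 ^ 2 ^ (s + aK + k + M + 30) := by
  obtain ⟨α, hα⟩ : ∃ α, α = 2 * k + M + 4 := ⟨_, rfl⟩
  rw [← hα] at ha
  have h1 : k + 1 ≤ 2 ^ k := Nat.lt_two_pow_self
  have hT : 2 ^ 2 ^ aK * (52 * (k + 1) ^ 2 * (2 ^ 2 ^ s * a ^ 48)) ≤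
      2 ^ (2 ^ aK + (6 + 2 * k + (2 ^ s + α * 48))) := by
    rw [pow_add _ (2 ^ aK), pow_add _ (6 + 2 * k), pow_add _ 6, pow_add _ (2 ^ s), pow_mul _ α,
      mul_comm 2 k, pow_mul _ k]
    refine Nat.mul_le_mul_left _ (Nat.mul_le_mul (Nat.mul_le_mul (by norm_num)
      (Nat.pow_le_pow_left h1 2)) (Nat.mul_le_mul_left _ (Nat.pow_le_pow_left ha 48)))
  have h2 : dN k M * (2 ^ 2 ^ aK * (52 * (k + 1) ^ 2 * (2 ^ 2 ^ s * a ^ 48))) ^ 2 ≤
      2 ^ (α + (2 ^ aK + (6 + 2 * k + (2 ^ s + α * 48))) * 2) := by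
    rw [pow_add, pow_mul]
    exact Nat.mul_le_mul (hN.trans ha) (Nat.pow_le_pow_left hT 2)
  have h3 : 1 + 2 ^ (α + (2 ^ aK + (6 + 2 * k + (2 ^ s + α * 48))) * 2) ≤
      2 ^ (α + (2 ^ aK + (6 + 2 * k + (2 ^ s + α * 48))) * 2 + 1) := by
    rw [pow_succ]
    have : 1 ≤ 2 ^ (α + (2 ^ aK + (6 + 2 * k + (2 ^ s + α * 48))) * 2) := Nat.one_le_two_pow
    omega
  refine (Nat.add_le_add_left h2 1).trans (h3.trans (Nat.pow_le_pow_right (by norm_num) ?_))
  obtain ⟨X, hX⟩ : ∃ X, X = 2 ^ (s + aK + k + M) := ⟨_, rfl⟩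
  have e1 : 2 ^ aK ≤ X := by rw [hX]; exact Nat.pow_le_pow_right (by norm_num) (by omega)
  have e2 : 2 ^ s ≤ X := by rw [hX]; exact Nat.pow_le_pow_right (by norm_num) (by omega)
  have e3 : k + 1 ≤ X := by
    rw [hX]
    exact h1.trans (Nat.pow_le_pow_right (by norm_num) (by omega))
  have e4 : M + 1 ≤ X := by
    rw [hX]
    exact (show M + 1 ≤ 2 ^ M from Nat.lt_two_pow_self).trans
      (Nat.pow_le_pow_right (by norm_num) (by omega))
  have e5 : 2 ^ (s + aK + k + M + 30) = X * 2 ^ 30 := by rw [hX, pow_add]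
  rw [e5, hα]
  norm_num
  omega

theorem cg : S_CG := by
  intro k M s hk p ha aK aη hKη b hb hfin V hV
  obtain ⟨N, hN⟩ : ∃ N, N = dN k M := ⟨_, rfl⟩
  have hN3 : 3 ≤ N := by rw [hN]; unfold dN; omega
  have hkN : k + 1 < N := by rw [hN]; unfold dN; omega
  obtain ⟨A, hA⟩ : ∃ A : ℕ, A = 2 ^ 2 ^ aK := ⟨_, rfl⟩
  have hA1 : 1 ≤ A := by rw [hA]; exact Nat.one_le_two_pow
  have hAR : (1 : ℝ) ≤ A := by exact_mod_cast hA1
  have hβex : ∀ j, ∃ β : ℤ, (β : ℝ) = A * b j ∧ β.natAbs ≤ A := by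
    intro j
    rcases hb j with h0 | ⟨a, haK, ha'⟩
    · exact ⟨0, by rw [h0]; simp, by simp⟩
    · refine ⟨((2 ^ (2 ^ aK - 2 ^ a) : ℕ) : ℤ), ?_, ?_⟩
      · have hle : 2 ^ a ≤ 2 ^ aK := Nat.pow_le_pow_right (by norm_num) haK
        rw [ha', hA]
        unfold hh
        push_cast
        rw [one_div, inv_pow, eq_mul_inv_iff_mul_eq₀ (by positivity), ← pow_add,
          Nat.sub_add_cancel hle]
      · rw [Int.natAbs_natCast, hA]
        exact Nat.pow_le_pow_right (by norm_num) (Nat.sub_le _ _)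
  choose β hβ hβA using hβex
  -- the polynomial
  obtain ⟨W, hW⟩ : ∃ W : ℕ → MvPolynomial (Fin N) (MvPolynomial (Fin 1) ℤ), ∀ i, W i =
      if i = k + 1 then MvPolynomial.C (MvPolynomial.X 0) else
        if h : i < N then ((rr k M : ℕ) : MvPolynomial (Fin N) (MvPolynomial (Fin 1) ℤ)) *
          MvPolynomial.X ⟨i, h⟩ else 0 := ⟨_, fun _ => rfl⟩
  obtain ⟨Wr, hWr⟩ : ∃ Wr : ℝ → (Fin N → ℝ) → ℕ → ℝ, ∀ v y i, Wr v y i =
      if i = k + 1 then v else if h : i < N then (rr k M : ℝ) * y ⟨i, h⟩ else 0 :=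
    ⟨_, fun _ _ _ => rfl⟩
  obtain ⟨F, hFdef⟩ : ∃ F : MvPolynomial (Fin N) (MvPolynomial (Fin 1) ℤ), F =
      Fsq hk p ((A : ℕ) : MvPolynomial (Fin N) (MvPolynomial (Fin 1) ℤ))
        (fun j => Int.castRingHom _ (β j)) W := ⟨_, rfl⟩
  have hWφ : ∀ (t : (Unit × (Fin 1 → ℝ)) × (Fin N → ℝ)) (i : ℕ),
      ((Lvl.int.ext 1).ext N).φ t (W i) = Wr (t.1.2 0) t.2 i := by
    intro t i
    rw [hW, hWr]
    by_cases h1 : i = k + 1
    · rw [if_pos h1, if_pos h1, ext_φ_C, ext_φ_X]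
    · rw [if_neg h1, if_neg h1]
      by_cases h2 : i < N
      · rw [dif_pos h2, dif_pos h2, map_mul, map_natCast, ext_φ_X]
      · rw [dif_neg h2, dif_neg h2, map_zero]
  have hF : ∀ t, ((Lvl.int.ext 1).ext N).φ t F =
      Fsq hk p (A : ℝ) (fun j => (A : ℝ) * b j) (Wr (t.1.2 0) t.2) := by
    intro t
    rw [hFdef, Fsq_map, map_natCast]
    congr 1
    · funext j
      rw [← hβ j]
      simp
    · funext i
      exact hWφ t i
  have hFν : 1 + (wm (wm RNorm.int 1) N).ν F ≤ 2 ^ 2 ^ (s + aK + k + M + 30) := by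
    obtain ⟨a, haa⟩ : ∃ a, a = rr k M * 2 := ⟨_, rfl⟩
    have hrr6 : 6 ≤ rr k M := by
      unfold rr
      calc 6 = 2 * 3 := by norm_num
        _ ≤ (k + 2) * dN k M := Nat.mul_le_mul (by omega) (by rw [← hN]; exact hN3)
    have hdNa : dN k M ≤ a := by
      rw [haa]
      unfold rr
      nlinarith [Nat.zero_le (dN k M), Nat.zero_le (k * dN k M)]
    refine le_trans ?_ (exp_bound k M s aK a (by rw [haa]; exact rr_le k M) hdNa)
    refine Nat.add_le_add_left ?_ 1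
    rw [hFdef, ← hA]
    refine Fsq_ν _ hk p ha.deg ha.norm (by omega) hA1 _ _ _ (RNorm.natCast _ _)
      (fun j => (ν_int _ _).trans (hβA j)) fun i => ?_
    rw [hW]
    by_cases h1 : i = k + 1
    · rw [if_pos h1, wm_C]
      exact (wm_X _ _).trans (by omega)
    · rw [if_neg h1]
      by_cases h2 : i < N
      · rw [dif_pos h2, haa]
        exact (RNorm.mul _ _ _).trans (Nat.mul_le_mul (RNorm.natCast _ _) (wm_X _ _))
      · rw [dif_neg h2, RNorm.zero]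
        exact Nat.zero_le _
  -- the relation
  obtain ⟨h, hh'⟩ : ∃ h : (Unit × (Fin 1 → ℝ)) × (Fin N → ℝ) → ℝ, ∀ t,
      h t = -((Lvl.int.ext 1).ext N).φ t F := ⟨_, fun t => rfl⟩
  have hc : Continuous h := by
    have : h = fun t => -((Lvl.int.ext 1).ext N).φ t F := funext hh'
    rw [this]
    exact (((Lvl.int.ext 1).ext N).cont F).neg
  have hP0 : Polynomial.X + Polynomial.C F ≠ 0 := (Polynomial.monic_X_add_C F).ne_zero
  obtain ⟨Q, hQ0, hQν, hQ⟩ := (Lvl.int.ext 1).step (wm RNorm.int 1) (wm_pos RNorm.int int_pos)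
    (Polynomial.X + Polynomial.C F) hP0 _ ((ν_X_add_C _ F).trans hFν) Nat.one_le_two_pow h hc
    (fun t => by
      rw [Polynomial.eval₂_add, Polynomial.eval₂_X, Polynomial.eval₂_C, hh']; ring)
  obtain ⟨K, hK⟩ : ∃ K, K = K5 k M s aK := ⟨_, rfl⟩
  have hQν' : (wm RNorm.int 1).poly.ν (flip Q) ≤ 2 ^ 2 ^ K := by
    rw [hK]
    unfold K5
    rw [← hN]
    exact (flip_ν (wm RNorm.int 1) Q).trans (hQν.trans (bndL_le N _ _ (le_refl _)))
  have hK1 : 1 ≤ K := by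
    rw [hK]
    unfold K5 Gx
    exact Nat.mul_pos (by omega) (by omega)
  obtain ⟨r, Q', hfac, hc0, hcr⟩ := exists_trailing _ (flip_ne_zero Q hQ0)
  have hQ'ν : (wm RNorm.int 1).poly.ν Q' ≤ 2 ^ 2 ^ K := (ν_shift _ _ _ r hfac).trans hQν'
  -- the minimum
  obtain ⟨c, hcdef⟩ : ∃ c : ℝ → ℝ, ∀ v, c v = -bmax h ((), fun _ => v) := ⟨_, fun _ => rfl⟩
  have hcc : Continuous c := by
    have : c = fun v => -bmax h ((), fun _ => v) := funext hcdef
    rw [this]
    exact ((continuous_bmax hc).comp (by fun_prop)).neg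
  have hc1 : ∀ v, ∃ y : Fin N → ℝ, c v = (A : ℝ) ^ 2 * Fsq hk p 1 b (Wr v y) := by
    intro v
    obtain ⟨y, -, hy⟩ := exists_bmax hc ((), fun _ => v)
    refine ⟨y, ?_⟩
    rw [hcdef, ← hy, hh', neg_neg, hF, Fsq_scale]
  have hc2 : ∀ v, ∀ y ∈ cube N, c v ≤ (A : ℝ) ^ 2 * Fsq hk p 1 b (Wr v y) := by
    intro v y hy
    have h1 := le_bmax hc ((), fun _ => v) hy
    rw [hh', hF, Fsq_scale] at h1
    rw [hcdef]
    linarith
  have hc00 : ∀ v, 0 ≤ c v := by
    intro v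
    obtain ⟨y, hy⟩ := hc1 v
    rw [hy]
    exact mul_nonneg (by positivity) (Fsq_nonneg hk p 1 b _)
  have hrel : ∀ v : ℝ, (flip Q).eval₂ ((Lvl.int.ext 1).φ ((), fun _ => v)) (c v) = 0 := by
    intro v
    rw [flip_eval, hcdef, neg_neg]
    exact hQ ((), fun _ => v)
  have hrel' : ∀ v : ℝ, Q'.eval₂ ((Lvl.int.ext 1).φ ((), fun _ => v)) (c v) = 0 := by
    have hcl : IsClosed {v : ℝ | Q'.eval₂ ((Lvl.int.ext 1).φ ((), fun _ => v)) (c v) = 0} := by
      refine isClosed_eq ?_ continuous_const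
      simp_rw [Polynomial.eval₂_eq_sum, Polynomial.sum_def]
      refine continuous_finsetSum _ fun j _ => ?_
      refine Continuous.mul ?_ (hcc.pow j)
      exact ((Lvl.int.ext 1).cont _).comp (by fun_prop)
    have hdense := hfin.countable.dense_compl ℝ
    have hsub : {v : ℝ | ∃ w : ℕ → ℝ, Fsq hk p 1 b w = 0 ∧ w (k + 1) = v}ᶜ ⊆
        {v : ℝ | Q'.eval₂ ((Lvl.int.ext 1).φ ((), fun _ => v)) (c v) = 0} := by
      intro v hv
      have h1 := hrel v
      rw [hfac, Polynomial.eval₂_mul, Polynomial.eval₂_pow, Polynomial.eval₂_X] at h1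
      refine (mul_eq_zero.1 h1).resolve_left (pow_ne_zero _ ?_)
      intro h2
      apply hv
      obtain ⟨y, hy⟩ := hc1 v
      rw [h2] at hy
      refine ⟨Wr v y, ?_, ?_⟩
      · exact (mul_eq_zero.1 hy.symm).resolve_left (by positivity)
      · rw [hWr, if_pos rfl]
    intro v
    exact hcl.closure_subset_iff.2 hsub (hdense v)
  -- the coefficient
  obtain ⟨e, he⟩ : ∃ e : Polynomial ℤ, e = uni (Q'.coeff 0) := ⟨_, rfl⟩
  have he0 : e ≠ 0 := by rw [he]; exact uni_ne_zero hc0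
  have hcν : (wm RNorm.int 1).ν (Q'.coeff 0) ≤ 2 ^ 2 ^ K :=
    ((wm RNorm.int 1).ν_coeff_le Q' 0).trans hQ'ν
  have hedeg : e.natDegree ≤ 2 ^ K := by
    rw [he]
    refine uni_deg RNorm.int int_pos _ (lt_of_le_of_lt hcν ?_)
    exact Nat.pow_lt_pow_right (by norm_num) (Nat.lt_succ_self _)
  have heval : ∀ v : ℝ, e.eval₂ (Int.castRingHom ℝ) v =
      (Lvl.int.ext 1).φ ((), fun _ => v) (Q'.coeff 0) := by
    intro v
    rw [he, uni_eval]
    rfl
  obtain ⟨m, hm⟩ : ∃ m, m = 2 ^ aη + K + 1 := ⟨_, rfl⟩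
  have hδ : (((2 ^ K : ℕ) : ℝ) + 1) / 2 ^ m < hh aη := by
    unfold hh
    rw [div_lt_iff₀ (by positivity), hm, one_div, inv_pow, show 2 ^ aη + K + 1 = 2 ^ aη + (K + 1)
      by ring, pow_add, ← mul_assoc, inv_mul_cancel₀ (by positivity), one_mul, pow_succ]
    push_cast
    have : (2 : ℝ) ^ 1 ≤ 2 ^ K := pow_le_pow_right₀ (by norm_num) hK1
    linarith
  have hη2 : hh aη ≤ 1 / 2 := by
    unfold hh
    calc ((1 : ℝ) / 2) ^ (2 ^ aη) ≤ (1 / 2) ^ 1 :=
          pow_le_pow_of_le_one (by norm_num) (by norm_num) Nat.one_le_two_pow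
      _ = _ := pow_one _
  obtain ⟨v1, hv1a, hv1b, hv1c⟩ := exists_grid e he0 (2 ^ K) m hedeg (V - hh aη) (hh aη) hδ
  obtain ⟨v2, hv2a, hv2b, hv2c⟩ := exists_grid e he0 (2 ^ K) m hedeg V (hh aη) hδ
  have hV' := abs_le.1 hV
  rw [sub_add_cancel] at hv1b
  have hkey : ∀ v : ℝ, |v| ≤ 2 → 1 ≤ 2 ^ (m * 2 ^ K) * |e.eval₂ (Int.castRingHom ℝ) v| →
      1 ≤ 2 ^ (m * 2 ^ K) * (2 ^ 2 ^ K * c v) := by
    intro v hv h1
    rcases le_or_gt (c v) 1 with h2 | h2
    · refine h1.trans (mul_le_mul_of_nonneg_left ?_ (by positivity))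
      rw [heval]
      refine (coeff_zero_le (wm RNorm.int 1) _ (fun c => abs_φ_le c _ hv) Q' (c v) (hc00 v) h2
        (hrel' v)).trans (mul_le_mul_of_nonneg_right ?_ (hc00 v))
      exact_mod_cast hQ'ν
    · have e1 : (1 : ℝ) ≤ 2 ^ (m * 2 ^ K) := one_le_pow₀ (by norm_num)
      have e2 : (1 : ℝ) ≤ 2 ^ 2 ^ K := one_le_pow₀ (by norm_num)
      exact one_le_mul_of_one_le_of_one_le e1 (one_le_mul_of_one_le_of_one_le e2 h2.le)
  refine ⟨v1, v2, hv1a, hv1b, hv2a, hv2b, ?_⟩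
  intro w hw hwv
  obtain ⟨v, hv⟩ : ∃ v, v = w (k + 1) := ⟨_, rfl⟩
  have hkv : 1 ≤ 2 ^ (m * 2 ^ K) * (2 ^ 2 ^ K * c v) := by
    rcases hwv with h1 | h1
    · rw [hv, h1]
      exact hkey v1 (abs_le.2 ⟨by linarith, by linarith⟩) hv1c
    · rw [hv, h1]
      exact hkey v2 (abs_le.2 ⟨by linarith, by linarith⟩) hv2c
  have hrpos : (0 : ℝ) < rr k M := by
    have : 0 < rr k M := by
      unfold rr
      rw [← hN]
      exact Nat.mul_pos (by omega) (by omega)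
    exact_mod_cast this
  have hcF : c v ≤ (A : ℝ) ^ 2 * Fsq hk p 1 b w := by
    have h1 := hc2 v (fun i : Fin N => w i / rr k M) (fun i => by
      rw [abs_div, abs_of_pos hrpos, div_le_one hrpos]
      exact hw i (by rw [← hN]; exact i.2))
    rw [Fsq_congr hk p 1 b (w' := w)] at h1
    · exact h1
    · intro i hi
      rw [hWr]
      by_cases h2 : i = k + 1
      · rw [if_pos h2, h2, hv]
      · rw [if_neg h2, dif_pos (by rw [hN]; exact hi)]
        simp only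
        field_simp
  have hfinal : (1 : ℝ) ≤ 2 ^ (2 ^ ac k M s aK aη) * Fsq hk p 1 b w := by
    have h0 := Fsq_nonneg hk p 1 b w
    calc (1 : ℝ) ≤ 2 ^ (m * 2 ^ K) * (2 ^ 2 ^ K * ((A : ℝ) ^ 2 * Fsq hk p 1 b w)) := by
          refine hkv.trans ?_
          exact mul_le_mul_of_nonneg_left (mul_le_mul_of_nonneg_left hcF (by positivity))
            (by positivity)
      _ = 2 ^ (m * 2 ^ K + 2 ^ K + 2 ^ aK * 2) * Fsq hk p 1 b w := by
          rw [hA, pow_add, pow_add, pow_mul 2 (2 ^ aK) 2]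
          push_cast
          ring
      _ ≤ _ := by
          refine mul_le_mul_of_nonneg_right (pow_le_pow_right₀ (by norm_num) ?_) h0
          rw [hm]
          unfold ac
          rw [← hK]
          have e1 : K + 1 ≤ 2 ^ K := Nat.lt_two_pow_self
          have e2 : 1 ≤ 2 ^ aη := Nat.one_le_two_pow
          have e3 : 1 ≤ 2 ^ aK := Nat.one_le_two_pow
          have e4 : 2 ^ (aη + aK + 2 * K + 10) = 2 ^ aη * 2 ^ aK * (2 ^ K * 2 ^ K) * 1024 := by
            rw [show aη + aK + 2 * K + 10 = aη + aK + (K + K) + 10 by ring, pow_add, pow_add,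
              pow_add, pow_add]
            norm_num
          rw [e4]
          obtain ⟨x, hx⟩ : ∃ x, x = 2 ^ aη := ⟨_, rfl⟩
          obtain ⟨y, hy⟩ : ∃ y, y = 2 ^ aK := ⟨_, rfl⟩
          obtain ⟨z, hz⟩ : ∃ z, z = 2 ^ K := ⟨_, rfl⟩
          rw [← hx, ← hy, ← hz]
          rw [← hx] at e2
          rw [← hy] at e3
          rw [← hz] at e1
          have hz1 : 1 ≤ z := by omega
          have f1 : (x + K + 1) * z + z + y * 2 ≤ (x + z) * z + z + y * 2 := by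
            have : x + K + 1 ≤ x + z := by omega
            have := Nat.mul_le_mul_right z this
            omega
          refine f1.trans ?_
          have g1 : x * z ≤ x * y * (z * z) := by
            calc x * z = x * 1 * (1 * z) := by ring
              _ ≤ _ := Nat.mul_le_mul (Nat.mul_le_mul_left _ e3) (Nat.mul_le_mul_right _ hz1)
          have g2 : z * z ≤ x * y * (z * z) := by
            calc z * z = 1 * 1 * (z * z) := by ring
              _ ≤ _ := Nat.mul_le_mul_right _ (Nat.mul_le_mul e2 e3)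
          have g3 : z ≤ z * z := Nat.le_mul_of_pos_left _ hz1
          have g4 : y ≤ x * y * (z * z) := by
            calc y = 1 * y * (1 * 1) := by ring
              _ ≤ _ := Nat.mul_le_mul (Nat.mul_le_mul_right _ e2) (Nat.mul_le_mul hz1 hz1)
          have g5 : (x + z) * z = x * z + z * z := by ring
          rw [g5]
          omega
  unfold hh
  rw [one_div, inv_pow, inv_le_iff_one_le_mul₀ (by positivity), mul_comm]
  exact hfinal

end Pool.Agent.Helper97K9.IP
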