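import Pool.Agent.Helper97K9.IP.Nrm
import Pool.Agent.H612.Deg

/-!
# Rigid witnesses: tools for the effective lower bound [CG]
-/

set_option autoImplicit false

namespace Pool.Agent.Helper97K9.IP

open Finset Filter Topology Pool.Agent.H612 Pool.Agent.R537.RN

section nrm

variable {R : Type} [CommRing R] {k M : ℕ} (nr : RNorm R) (hk : k ≤ M)
  (p : MvPolynomial (Fin M) ℤ)

theorem ν_sq {x : R} {b : ℕ} (h : nr.ν x ≤ b) : nr.ν (x ^ 2) ≤ b ^ 2 := ν_pow nr _ _ _ h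

theorem dq_ν (hD : DegLE p 48) {s : ℕ} (hs : RNorm.int.mν p ≤ 2 ^ 2 ^ s) {a : ℕ} (ha : 1 ≤ a)
    (l : Fin M) (x : Fin k → R) (z : Fin M → R) (hx : ∀ j, nr.ν (x j) ≤ a)
    (hz : ∀ l, nr.ν (z l) ≤ a) : nr.ν (dq p l x z) ≤ 52 * (2 ^ 2 ^ s * a ^ 48) := by
  have two : nr.ν (2 : R) ≤ 2 := by simpa using nr.natCast 2
  have h1 : nr.ν (pe (MvPolynomial.pderiv l p) z) ≤ 48 * (2 ^ 2 ^ s) * a ^ 48 := by
    have h2 := pe_ν (MvPolynomial.pderiv l p) nr ((hD.pderiv l).mono (show 48 - 1 ≤ 48 by norm_num))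
      ha z hz
    refine h2.trans (Nat.mul_le_mul_right _ ?_)
    exact (RNorm.int.mν_pderiv p 48 hD l).trans (Nat.mul_le_mul_left _ hs)
  have h3 : a ≤ 2 ^ 2 ^ s * a ^ 48 := by
    calc a = 1 * a ^ 1 := by ring
      _ ≤ _ := Nat.mul_le_mul Nat.one_le_two_pow (Nat.pow_le_pow_right ha (by norm_num))
  have h4 : nr.ν (if h : (l : ℕ) < k then 2 * (z l - x ⟨l, h⟩) else 0) ≤ 4 * a := by
    split_ifs with h
    · refine (nr.mul _ _).trans ?_
      have h5 := (nr.sub (z l) (x ⟨l, h⟩)).trans (Nat.add_le_add (hz l) (hx ⟨l, h⟩))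
      calc _ ≤ 2 * (a + a) := Nat.mul_le_mul two h5
        _ = _ := by ring
    · rw [nr.zero]; exact Nat.zero_le _
  unfold dq
  refine (nr.add _ _).trans ?_
  calc _ ≤ 4 * (2 ^ 2 ^ s * a ^ 48) + 48 * (2 ^ 2 ^ s) * a ^ 48 :=
        Nat.add_le_add (h4.trans (Nat.mul_le_mul_left _ h3)) h1
    _ = _ := by ring

theorem Ceq_ν {a : ℕ} (ha : 1 ≤ a) (w : ℕ → R) (hw : ∀ i, nr.ν (w i) ≤ a) (j : Fin k) :
    nr.ν (Ceq hk w j) ≤ 6 * (k + 1) ^ 2 * a ^ 5 := by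
  have two : nr.ν (2 : R) ≤ 2 := by simpa using nr.natCast 2
  have h1 : nr.ν (1 - sx (xw k w)) ≤ (k + 1) * a ^ 2 := by
    refine (nr.sub _ _).trans ?_
    have h3 := sx_ν nr (xw k w) (fun j => hw _)
    have h4 := nr.one
    have h5 : 1 ≤ a ^ 2 := Nat.one_le_pow _ _ ha
    calc _ ≤ 1 + k * a ^ 2 := by omega
      _ ≤ a ^ 2 + k * a ^ 2 := by omega
      _ = _ := by ring
  have h2 : nr.ν (∑ i, μw k w i ^ 2 * (2 * (xw k w j - zw k M w i (Fin.castLE hk j)))) ≤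
      (k + 1) * (4 * a ^ 3) := by
    refine (nr.sum _ _).trans ?_
    calc _ ≤ ∑ _i : Fin (k + 1), 4 * a ^ 3 := by
          refine Finset.sum_le_sum fun i _ => ?_
          refine (nr.mul _ _).trans ?_
          have e1 : nr.ν (μw k w i ^ 2) ≤ a ^ 2 := ν_sq nr (hw _)
          have e2 : nr.ν (2 * (xw k w j - zw k M w i (Fin.castLE hk j))) ≤ 2 * (a + a) :=
            (nr.mul _ _).trans (Nat.mul_le_mul two ((nr.sub _ _).trans
              (Nat.add_le_add (hw _) (hw _))))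
          calc _ ≤ a ^ 2 * (2 * (a + a)) := Nat.mul_le_mul e1 e2
            _ = _ := by ring
      _ = _ := by simp
  have h3 : nr.ν (2 * w k * xw k w j) ≤ 2 * a * a :=
    (nr.mul _ _).trans (Nat.mul_le_mul ((nr.mul _ _).trans (Nat.mul_le_mul two (hw _))) (hw _))
  unfold Ceq
  refine (nr.sub _ _).trans ?_
  have h4 : a ^ 2 ≤ a ^ 5 := Nat.pow_le_pow_right ha (by norm_num)
  have h5 : 1 ≤ (k + 1) ^ 2 := Nat.one_le_pow _ _ (by omega)
  calc _ ≤ (k + 1) * a ^ 2 * ((k + 1) * (4 * a ^ 3)) + 2 * a * a :=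
        Nat.add_le_add ((nr.mul _ _).trans (Nat.mul_le_mul h1 h2)) h3
    _ = 4 * (k + 1) ^ 2 * a ^ 5 + 2 * (1 * a ^ 2) := by ring
    _ ≤ 4 * (k + 1) ^ 2 * a ^ 5 + 2 * ((k + 1) ^ 2 * a ^ 5) :=
        Nat.add_le_add_left (Nat.mul_le_mul_left _ (Nat.mul_le_mul h5 h4)) _
    _ = _ := by ring

theorem Eeq_ν {a : ℕ} (ha : 1 ≤ a) (w : ℕ → R) (hw : ∀ i, nr.ν (w i) ≤ a) :
    nr.ν (Eeq k w) ≤ (k + 2) * a ^ 3 := by
  have h1 : nr.ν (1 - sx (xw k w)) ≤ (k + 1) * a ^ 2 := by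
    refine (nr.sub _ _).trans ?_
    have h3 := sx_ν nr (xw k w) (fun j => hw _)
    have h4 := nr.one
    have h5 : 1 ≤ a ^ 2 := Nat.one_le_pow _ _ ha
    calc _ ≤ 1 + k * a ^ 2 := by omega
      _ ≤ a ^ 2 + k * a ^ 2 := by omega
      _ = _ := by ring
  unfold Eeq
  refine (nr.sub _ _).trans ?_
  have h4 : a ≤ a ^ 3 := by
    calc a = a ^ 1 := by ring
      _ ≤ _ := Nat.pow_le_pow_right ha (by norm_num)
  calc _ ≤ a * ((k + 1) * a ^ 2) + a :=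
        Nat.add_le_add ((nr.mul _ _).trans (Nat.mul_le_mul (hw _) h1)) (hw _)
    _ ≤ a * ((k + 1) * a ^ 2) + a ^ 3 := Nat.add_le_add_left h4 _
    _ = _ := by ring

/-- The norm of the sum of squares. -/
theorem Fsq_ν (hD : DegLE p 48) {s : ℕ} (hs : RNorm.int.mν p ≤ 2 ^ 2 ^ s) {a A' : ℕ}
    (ha : 1 ≤ a) (hA1 : 1 ≤ A') (A : R) (β : Fin k → R) (w : ℕ → R) (hA : nr.ν A ≤ A')
    (hβ : ∀ j, nr.ν (β j) ≤ A') (hw : ∀ i, nr.ν (w i) ≤ a) :
    nr.ν (Fsq hk p A β w) ≤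
      dN k M * (A' * (52 * (k + 1) ^ 2 * (2 ^ 2 ^ s * a ^ 48))) ^ 2 := by
  obtain ⟨T, hT⟩ : ∃ T, T = 52 * (k + 1) ^ 2 * (2 ^ 2 ^ s * a ^ 48) := ⟨_, rfl⟩
  rw [← hT]
  have hk1 : 1 ≤ (k + 1) ^ 2 := Nat.one_le_pow _ _ (by omega)
  have hs1 : 1 ≤ 2 ^ 2 ^ s := Nat.one_le_two_pow
  have hk2 : k + 1 ≤ (k + 1) ^ 2 := by nlinarith
  -- the pieces
  have p1 : ∀ (i : Fin (k + 1)) (l : Fin M), nr.ν (dq p l (xw k w) (zw k M w i)) ≤ T := by
    intro i l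
    refine (dq_ν nr p hD hs ha l _ _ (fun j => hw _) (fun l => hw _)).trans ?_
    rw [hT]
    calc 52 * (2 ^ 2 ^ s * a ^ 48) = 52 * 1 * (2 ^ 2 ^ s * a ^ 48) := by ring
      _ ≤ _ := Nat.mul_le_mul_right _ (Nat.mul_le_mul_left _ hk1)
  have hle : ∀ n ≤ 48, a ^ n ≤ 2 ^ 2 ^ s * a ^ 48 := by
    intro n hn
    calc a ^ n = 1 * a ^ n := by ring
      _ ≤ _ := Nat.mul_le_mul hs1 (Nat.pow_le_pow_right ha hn)
  obtain ⟨Y, hY⟩ : ∃ Y, Y = 2 ^ 2 ^ s * a ^ 48 := ⟨_, rfl⟩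
  rw [← hY] at hle hT
  have hle1 : a ≤ Y := by simpa using hle 1 (by norm_num)
  have hY1 : 1 ≤ Y := by simpa using hle 0 (by norm_num)
  have p2 : ∀ i : Fin (k + 1), nr.ν (q hk p (xw k w) (zw k M w i) - w k) ≤ T := by
    intro i
    refine (nr.sub _ _).trans ?_
    have h1 := q_ν hk p nr hD hs ha (xw k w) (zw k M w i) (fun j => hw _) (fun l => hw _)
    rw [← hY] at h1
    have h2 : 4 * k + 2 ≤ 52 * (k + 1) ^ 2 := by nlinarith
    calc _ ≤ Y * (4 * k + 1) + Y := Nat.add_le_add h1 ((hw _).trans hle1)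
      _ = (4 * k + 2) * Y := by ring
      _ ≤ T := by rw [hT]; exact Nat.mul_le_mul_right _ h2
  have p3 : nr.ν (∑ i, μw k w i ^ 2 - 1) ≤ T := by
    refine (nr.sub _ _).trans ?_
    have h1 := sum_sq_ν nr (μw k w) (fun j => hw _)
    have h2 := hle 2 (by norm_num)
    have h3 : k + 2 ≤ 52 * (k + 1) ^ 2 := by nlinarith
    calc _ ≤ (k + 1) * Y + Y := Nat.add_le_add (h1.trans (Nat.mul_le_mul_left _ h2))
          (nr.one.trans hY1)
      _ = (k + 2) * Y := by ring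
      _ ≤ T := by rw [hT]; exact Nat.mul_le_mul_right _ h3
  have p4 : ∀ j : Fin k, nr.ν (A * Ceq hk w j - β j) ≤ A' * T := by
    intro j
    refine (nr.sub _ _).trans ?_
    have h1 := Ceq_ν nr hk ha w hw j
    have h2 := hle 5 (by norm_num)
    have h3 : 6 * (k + 1) ^ 2 + 1 ≤ 52 * (k + 1) ^ 2 := by omega
    calc _ ≤ A' * (6 * (k + 1) ^ 2 * Y) + A' * Y := by
          refine Nat.add_le_add ((nr.mul _ _).trans (Nat.mul_le_mul hA
            (h1.trans (Nat.mul_le_mul_left _ h2)))) ?_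
          calc nr.ν (β j) ≤ A' * 1 := by rw [mul_one]; exact hβ j
            _ ≤ _ := Nat.mul_le_mul_left _ hY1
      _ = A' * ((6 * (k + 1) ^ 2 + 1) * Y) := by ring
      _ ≤ A' * T := by rw [hT]; exact Nat.mul_le_mul_left _ (Nat.mul_le_mul_right _ h3)
  have p5 : nr.ν (A * Eeq k w - ∑ j, β j * xw k w j) ≤ A' * T := by
    refine (nr.sub _ _).trans ?_
    have h1 := Eeq_ν (k := k) nr ha w hw
    have h2 := hle 3 (by norm_num)
    have h4 : nr.ν (∑ j, β j * xw k w j) ≤ k * (A' * Y) := by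
      refine (nr.sum _ _).trans ?_
      calc _ ≤ ∑ _j : Fin k, A' * Y := Finset.sum_le_sum fun j _ =>
            (nr.mul _ _).trans (Nat.mul_le_mul (hβ j) ((hw _).trans hle1))
        _ = _ := by simp
    have h3 : (k + 2) + k ≤ 52 * (k + 1) ^ 2 := by nlinarith
    calc _ ≤ A' * ((k + 2) * Y) + k * (A' * Y) :=
          Nat.add_le_add ((nr.mul _ _).trans (Nat.mul_le_mul hA
            (h1.trans (Nat.mul_le_mul_left _ h2)))) h4
      _ = A' * (((k + 2) + k) * Y) := by ring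
      _ ≤ A' * T := by rw [hT]; exact Nat.mul_le_mul_left _ (Nat.mul_le_mul_right _ h3)
  -- the sums
  have s1 : nr.ν (∑ i, ∑ l, dq p l (xw k w) (zw k M w i) ^ 2) ≤ (k + 1) * (M * T ^ 2) := by
    refine (nr.sum _ _).trans ?_
    calc _ ≤ ∑ _i : Fin (k + 1), M * T ^ 2 := by
          refine Finset.sum_le_sum fun i _ => ?_
          exact sum_sq_ν nr _ (p1 i)
      _ = _ := by simp
  have s2 : nr.ν (∑ i, (q hk p (xw k w) (zw k M w i) - w k) ^ 2) ≤ (k + 1) * T ^ 2 :=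
    sum_sq_ν nr _ p2
  have s3 : nr.ν ((∑ i, μw k w i ^ 2 - 1) ^ 2) ≤ T ^ 2 := ν_sq nr p3
  have s4 : nr.ν (∑ j, (A * Ceq hk w j - β j) ^ 2) ≤ k * (A' * T) ^ 2 := sum_sq_ν nr _ p4
  have s5 : nr.ν ((A * Eeq k w - ∑ j, β j * xw k w j) ^ 2) ≤ (A' * T) ^ 2 := ν_sq nr p5
  have s6 : nr.ν (A ^ 2) ≤ A' ^ 2 := ν_sq nr hA
  unfold Fsq
  calc _ ≤ A' ^ 2 * ((k + 1) * (M * T ^ 2) + (k + 1) * T ^ 2 + T ^ 2) + k * (A' * T) ^ 2 +
        (A' * T) ^ 2 := by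
        refine (nr.add _ _).trans (Nat.add_le_add ((nr.add _ _).trans
          (Nat.add_le_add ((nr.mul _ _).trans (Nat.mul_le_mul s6 ?_)) s4)) s5)
        exact (nr.add _ _).trans (Nat.add_le_add ((nr.add _ _).trans (Nat.add_le_add s1 s2)) s3)
    _ = _ := by unfold dN; ring

end nrm

/-! ### Values at dyadic numbers -/

theorem exists_grid (e : Polynomial ℤ) (he : e ≠ 0) (D m : ℕ) (hdeg : e.natDegree ≤ D)
    (V δ : ℝ) (hδ : ((D : ℝ) + 1) / 2 ^ m < δ) :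
    ∃ x : ℝ, V < x ∧ x < V + δ ∧ 1 ≤ 2 ^ (m * D) * |e.eval₂ (Int.castRingHom ℝ) x| := by
  classical
  have h2m : (0 : ℝ) < 2 ^ m := by positivity
  obtain ⟨i0, hi0⟩ : ∃ i0 : ℤ, i0 = ⌊V * 2 ^ m⌋ + 1 := ⟨_, rfl⟩
  have hlow : V * 2 ^ m < i0 := by rw [hi0]; push_cast; exact Int.lt_floor_add_one _
  have hup : (i0 : ℝ) ≤ V * 2 ^ m + 1 := by
    rw [hi0]; push_cast
    have := Int.floor_le (V * 2 ^ m)
    linarith
  obtain ⟨f, hf⟩ : ∃ f : Polynomial ℝ, f = e.map (Int.castRingHom ℝ) := ⟨_, rfl⟩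
  have hf0 : f ≠ 0 := by
    rw [hf]
    exact (Polynomial.map_ne_zero_iff Int.cast_injective).2 he
  have hfdeg : f.natDegree ≤ D := by
    rw [hf]
    exact Polynomial.natDegree_map_le.trans hdeg
  obtain ⟨j, hj, hroot⟩ : ∃ j ∈ range (D + 1), f.eval (((i0 + j : ℤ) : ℝ) / ((2 ^ m : ℤ) : ℝ)) ≠ 0 := by
    by_contra hcon
    push Not at hcon
    have hinj : Set.InjOn (fun j : ℕ => ((i0 + j : ℤ) : ℝ) / ((2 ^ m : ℤ) : ℝ))
        (range (D + 1) : Set ℕ) := by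
      intro a _ b _ hab
      simp only at hab
      have h1 : (((2 : ℤ) ^ m : ℤ) : ℝ) ≠ 0 := by push_cast; exact h2m.ne'
      rw [div_left_inj' h1] at hab
      have h2 : (i0 + a : ℤ) = i0 + b := by exact_mod_cast hab
      omega
    have h1 : (range (D + 1)).image (fun j : ℕ => ((i0 + j : ℤ) : ℝ) / ((2 ^ m : ℤ) : ℝ)) ⊆
        f.roots.toFinset := by
      intro x hx
      obtain ⟨j, hj, rfl⟩ := Finset.mem_image.1 hx
      rw [Multiset.mem_toFinset, Polynomial.mem_roots hf0]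
      exact hcon j hj
    have h2 := Finset.card_le_card h1
    rw [Finset.card_image_of_injOn hinj, Finset.card_range] at h2
    have h3 := (Multiset.toFinset_card_le f.roots).trans (Polynomial.card_roots' f)
    omega
  have hj' : (j : ℝ) ≤ D := by
    have := Finset.mem_range.1 hj
    exact_mod_cast (show j ≤ D by omega)
  refine ⟨((i0 + j : ℤ) : ℝ) / ((2 ^ m : ℤ) : ℝ), ?_, ?_, ?_⟩
  · push_cast
    rw [lt_div_iff₀ h2m]
    have : (0 : ℝ) ≤ j := Nat.cast_nonneg j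
    linarith
  · push_cast
    rw [div_lt_iff₀ h2m]
    rw [div_lt_iff₀ h2m] at hδ
    linarith
  · rw [Polynomial.eval₂_eq_eval_map]
    rw [← hf]
    have h1 := one_le_pow_mul_abs_eval_div (K := ℝ) (f := e) (a := i0 + j) (b := 2 ^ m)
      (by positivity) (by
        rw [hf] at hroot
        exact hroot)
    have h2 : (((2 : ℤ) ^ m : ℤ) : ℝ) ^ e.natDegree ≤ 2 ^ (m * D) := by
      push_cast
      rw [← pow_mul]
      exact pow_le_pow_right₀ (by norm_num) (Nat.mul_le_mul_left _ hdeg)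
    refine h1.trans (mul_le_mul ?_ (le_of_eq ?_) (abs_nonneg _) (by positivity))
    · exact h2
    · rw [hf]
      rfl

/-- The values of a polynomial on the interval `[-2, 2]` are bounded by the weighted norm. -/
theorem abs_φ_le (c : MvPolynomial (Fin 1) ℤ) (v : Fin 1 → ℝ) (hv : |v 0| ≤ 2) :
    |(Lvl.int.ext 1).φ ((), v) c| ≤ (wm RNorm.int 1).ν c := by
  change |MvPolynomial.eval₂ (Int.castRingHom ℝ) v c| ≤ (wν RNorm.int c : ℝ)
  rw [MvPolynomial.eval₂_eq']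
  unfold wν
  push_cast
  refine (Finset.abs_sum_le_sum_abs _ _).trans (Finset.sum_le_sum fun d _ => ?_)
  rw [abs_mul, Fin.prod_univ_one, Fin.sum_univ_one, abs_pow]
  refine mul_le_mul ?_ (pow_le_pow_left₀ (abs_nonneg _) hv _) (by positivity) (Nat.cast_nonneg _)
  change |((c.coeff d : ℤ) : ℝ)| ≤ ((c.coeff d).natAbs : ℝ)
  rw [Nat.cast_natAbs]
  push_cast
  exact le_refl _

end Pool.Agent.Helper97K9.IP
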