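import Pool.Agent.Helper97K9.IP.Th

/-!
# Rigid witnesses: correctness of the reduction
-/

set_option autoImplicit false

namespace Pool.Agent.Helper97K9.IP

open Finset Pool.Agent.H612 Pool.Agent.R537.RN Topology Filter
open Pool.Agent.NPC Pool.Agent.NPC.ER Pool.Agent.NPC.H612 Pool.Agent.NPC.R537HD

namespace CorL

section general

variable {k M : ℕ}

theorem Fsq_congr (hk : k ≤ M) (p : MvPolynomial (Fin M) ℤ) (A : ℝ) (β : Fin k → ℝ) {w w' : ℕ → ℝ}
    (h : ∀ i < dN k M, w i = w' i) : Fsq hk p A β w = Fsq hk p A β w' := by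
  have hd : 2 * k + 3 ≤ dN k M := by unfold dN; omega
  have e1 : xw k w = xw k w' := by
    funext j
    exact h _ (by have := j.2; omega)
  have e2 : ∀ i, μw k w i = μw k w' i := fun i => h _ (by have := i.2; omega)
  have e3 : ∀ i, zw k M w i = zw k M w' i := by
    intro i
    funext l
    refine h _ ?_
    have h1 : (i : ℕ) * M + M ≤ (k + 1) * M := by
      have := Nat.mul_le_mul_right M (show (i : ℕ) + 1 ≤ k + 1 by have := i.2; omega)
      linarith
    have := l.2
    unfold dN
    omega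
  have e4 : w k = w' k := h _ (by omega)
  have e5 : w (k + 1) = w' (k + 1) := h _ (by omega)
  unfold Fsq Ceq Eeq
  simp only [e1, e2, e3, e4, e5]

theorem Th_congr (hk : k ≤ M) (p : MvPolynomial (Fin M) ℤ) (b : Fin k → ℝ) (e : ℝ) {w w' : ℕ → ℝ}
    (h : ∀ i < dN k M, w i = w' i) : Th hk p b e w = Th hk p b e w' := by
  have h1 : ∑ i ∈ range (dN k M), w i ^ 128 = ∑ i ∈ range (dN k M), w' i ^ 128 :=
    Finset.sum_congr rfl fun i hi => by rw [h i (Finset.mem_range.1 hi)]
  rw [Th, Th, Fsq_congr hk p 1 b h, h1]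

theorem crit_congr (hk : k ≤ M) (p : MvPolynomial (Fin M) ℤ) (b : Fin k → ℝ) (e : ℝ)
    {w w' : ℕ → ℝ} (h : ∀ i < dN k M, w i = w' i) (hc : Crit hk p b e w) :
    Crit hk p b e w' := by
  intro i hi
  have h1 := hc i hi
  rw [h i hi] at h1
  have h2 : (fun s => Th hk p b e (Function.update w i s)) =
      fun s => Th hk p b e (Function.update w' i s) := by
    funext s
    refine Th_congr hk p b e fun i' hi' => ?_
    by_cases h3 : i' = i
    · subst h3; simp
    · simp [Function.update_of_ne h3, h i' hi']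
  rwa [h2] at h1

/-- The point with the given coordinates. -/
noncomputable def toE (n : ℕ) (v : ℕ → ℝ) : EuclideanSpace ℝ (Fin n) :=
  WithLp.toLp 2 fun i => v i

theorem asg_toE (n : ℕ) (v : ℕ → ℝ) (i : ℕ) : asg (toE n v) i = if i < n then v i else 0 := by
  unfold asg toE
  split_ifs with h
  · rfl
  · rfl

theorem asg_toE' {n : ℕ} {v : ℕ → ℝ} (h : ∀ i, n ≤ i → v i = 0) : asg (toE n v) = v := by
  funext i
  rw [asg_toE]
  split_ifs with h1
  · rfl
  · exact (h i (by omega)).symm

theorem asg_inj {n : ℕ} {x y : EuclideanSpace ℝ (Fin n)} (h : ∀ i < n, asg x i = asg y i) :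
    x = y := by
  ext i
  have h1 := h i i.2
  unfold asg at h1
  rw [dif_pos i.2, dif_pos i.2] at h1
  exact h1

theorem asg_ge {n : ℕ} (x : EuclideanSpace ℝ (Fin n)) {i : ℕ} (h : n ≤ i) : asg x i = 0 := by
  unfold asg
  rw [dif_neg (by omega)]

theorem cont_toE {n : ℕ} {c : ℝ → ℕ → ℝ} (h : ∀ i, Continuous fun t => c t i) :
    Continuous fun t => toE n (c t) := by
  unfold toE
  refine (PiLp.continuous_toLp 2 _).comp ?_
  exact continuous_pi fun i => h i

theorem no_curve {D : ℕ} {S : Set (EuclideanSpace ℝ (Fin D))} {x : EuclideanSpace ℝ (Fin D)}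
    {ε : ℝ} (hε : 0 < ε) (hiso : ∀ y ∈ S, dist y x < ε → y = x)
    {c : ℝ → EuclideanSpace ℝ (Fin D)} (hc : Continuous c) {t0 : ℝ} (h0 : c t0 = x)
    (h1 : ∀ t > t0, c t ∈ S) (h2 : ∀ t > t0, c t ≠ x) : False := by
  obtain ⟨δ, hδ, h⟩ := Metric.continuous_iff.1 hc t0 ε hε
  have h3 : t0 + δ / 2 > t0 := by linarith
  refine h2 _ h3 (hiso _ (h1 _ h3) ?_)
  rw [← h0]
  refine h _ ?_
  rw [Real.dist_eq, show t0 + δ / 2 - t0 = δ / 2 by ring, abs_of_pos (by linarith)]
  linarith

/-- The last coordinates are multiplied by `t`. -/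
noncomputable def scl (B : ℕ) (v : ℕ → ℝ) (t : ℝ) (i : ℕ) : ℝ := if i < B then v i else t * v i

theorem scl_one (B : ℕ) (v : ℕ → ℝ) : scl B v 1 = v := by
  funext i
  unfold scl
  split_ifs
  · rfl
  · rw [one_mul]

theorem scl_lt {B : ℕ} (v : ℕ → ℝ) (t : ℝ) {i : ℕ} (h : i < B) : scl B v t i = v i := if_pos h

theorem scl_ge {B : ℕ} (v : ℕ → ℝ) (t : ℝ) {i : ℕ} (h : B ≤ i) : scl B v t i = t * v i :=
  if_neg (by omega)

theorem cont_scl (n B : ℕ) (v : ℕ → ℝ) : Continuous fun t => toE n (scl B v t) := by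
  refine cont_toE fun i => ?_
  unfold scl
  split_ifs
  · exact continuous_const
  · fun_prop

/-- The points of the curve. -/
noncomputable def ptZ (B D : ℕ) (L : List ℕ) (v u : ℕ → ℝ) (ζ : ℝ) (i : ℕ) : ℝ :=
  if i < B then v i
  else if i = B then ζ
  else if i < D then ζ * u (L.getD (i - B - 1) 0)
  else 0

section ptZ

variable {B D : ℕ} {L : List ℕ} {v u : ℕ → ℝ}

theorem ptZ_lt (ζ : ℝ) {i : ℕ} (h : i < B) : ptZ B D L v u ζ i = v i := if_pos h

theorem ptZ_B (ζ : ℝ) : ptZ B D L v u ζ B = ζ := by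
  unfold ptZ
  rw [if_neg (lt_irrefl _), if_pos rfl]

theorem ptZ_ge (hBD : B < D) (ζ : ℝ) {i : ℕ} (h : D ≤ i) : ptZ B D L v u ζ i = 0 := by
  unfold ptZ
  rw [if_neg (by omega), if_neg (by omega), if_neg (by omega)]

theorem ptZ_idx (hD : B + 1 + L.length ≤ D) (ζ : ℝ) {i : ℕ} (hi : i ∈ L) :
    ptZ B D L v u ζ (B + 1 + L.idxOf i) = ζ * u i := by
  have h1 : L.idxOf i < L.length := List.idxOf_lt_length_iff.2 hi
  unfold ptZ
  rw [if_neg (by omega), if_neg (by omega), if_pos (by omega),
    show B + 1 + L.idxOf i - B - 1 = L.idxOf i by omega,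
    List.getD_eq_getElem _ _ h1, List.getElem_idxOf]

theorem ptZ_zero (h : ∀ i, B ≤ i → v i = 0) : ptZ B D L v u 0 = v := by
  funext i
  unfold ptZ
  split_ifs with h1 h2 h3
  · rfl
  · exact (h i (by omega)).symm
  · rw [zero_mul, h i (by omega)]
  · exact (h i (by omega)).symm

theorem cont_ptZ (n : ℕ) : Continuous fun t => toE n (ptZ B D L v u t) := by
  refine cont_toE fun i => ?_
  unfold ptZ
  split_ifs
  · exact continuous_const
  · fun_prop
  · fun_prop
  · exact continuous_const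

end ptZ

theorem near_finite {S : Set ℝ} (hS : S.Finite) (a : ℝ) : ∀ᶠ b in 𝓝 a, b ∈ S → b = a := by
  have h1 : IsOpen (S \ {a})ᶜ := (hS.subset Set.sdiff_subset).isClosed.isOpen_compl
  filter_upwards [h1.mem_nhds (by simp)] with b hb h2
  by_contra h3
  exact hb ⟨h2, h3⟩

end general

variable (I : In)

/-- The conditions on the rigid part. -/
def Base (v : ℕ → ℝ) : Prop :=
  (∀ t ≤ iL I, v t = hh t) ∧
  (∀ j ≤ ik I, Crit (hkI I) (pp I) (bb (ik I) (iea I) j) (hh (iL I)) (wb I v j)) ∧
  (∀ l < ik I, hh (iea I (l + 1)) * v (bX I + l) =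
    v (o I l + ik I + 1) - v (o I (l + 1) + ik I + 1)) ∧
  ∑ l ∈ Finset.range (ik I), v (bX I + l) ^ 2 < 1

theorem iea_le {l : ℕ} (hl : l < ik I) : iea I (l + 1) ≤ iL I := by
  have h1 : iea I (l + 1) ≤ iea I (ik I) := by
    unfold iea ea
    have h2 : l + 1 ≤ ik I := by omega
    have := Nat.mul_le_mul_right (K1 (ik I) (iM I) (is' I) + 1) h2
    omega
  refine h1.trans ?_
  unfold iL ae ac iea
  omega

theorem chain_iff (v : ℕ → ℝ) : (2 * v 0 = 1 ∧ ∀ j < iL I, v (0 + j + 1) = v (0 + j) ^ 2) ↔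
    ∀ t ≤ iL I, v t = hh t := by
  constructor
  · rintro ⟨h1, h2⟩ t ht
    have h3 := chain_val v 0 (iL I) h2 t ht
    rw [zero_add] at h3
    rw [h3, hh, show v 0 = 1 / 2 by linarith]
  · intro h
    refine ⟨?_, fun j hj => ?_⟩
    · rw [h 0 (by omega), hh]; norm_num
    · rw [zero_add, h _ (by omega), h _ (by omega), hh, hh, ← pow_mul]
      congr 1

theorem holds_base (h1 : S_TM) (h2 : S_TH) (v : ℕ → ℝ) :
    (conj (fBase I)).Holds v ↔ Base I v := by
  rw [holds_conj, fBase, List.forall_mem_cons, List.forall_mem_append, List.forall_mem_append,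
    List.forall_mem_append, holds_chain, ← and_assoc]
  unfold Base
  have e1 : (Fm.eq (dbl (Tm.var 0)) Tm.one).Holds v ↔ 2 * v 0 = 1 := by
    simp [Fm.Holds, Tm.eval]
  rw [e1, chain_iff]
  refine and_congr_right fun hv => and_congr ?_ (and_congr ?_ ?_)
  · have key : ∀ j ≤ ik I, ∀ i, ((dT (o I j + i) (tTh I j)).eval v = 0 ↔
        HasDerivAt (fun s => Th (hkI I) (pp I) (bb (ik I) (iea I) j) (hh (iL I))
          (Function.update (wb I v j) i s)) 0 (wb I v j i)) := by
      intro j hj i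
      have h3 := h1.1 (tTh I j) (o I j + i) v
      have h4 : (fun s => (tTh I j).eval (Function.update v (o I j + i) s)) =
          fun s => Th (hkI I) (pp I) (bb (ik I) (iea I) j) (hh (iL I))
            (Function.update (wb I v j) i s) := by
        funext s
        rw [h2 I (Function.update v (o I j + i) s) (fun t ht => by
          rw [Function.update_of_ne (by unfold o; omega), hv t ht]) j hj]
        congr 1
        funext i'
        unfold wb
        by_cases h5 : i' = i
        · subst h5; simp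
        · rw [Function.update_of_ne (by omega), Function.update_of_ne h5]
      rw [h4] at h3
      constructor
      · intro h5
        rw [h5] at h3
        exact h3
      · intro h5
        exact h3.unique h5
    simp only [List.mem_flatMap, List.mem_map, List.mem_range]
    constructor
    · intro h j hj i hi
      exact (key j hj i).1 (h _ ⟨j, by omega, i, hi, rfl⟩)
    · rintro h φ ⟨j, hj, i, hi, rfl⟩
      exact (key j (by omega) i).2 (h j (by omega) i hi)
  · simp only [List.mem_map, List.mem_range]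
    constructor
    · intro h l hl
      have h3 := h _ ⟨l, hl, rfl⟩
      simp only [Fm.Holds, Tm.eval, eval_subT] at h3
      rwa [hv _ (iea_le I hl)] at h3
    · rintro h φ ⟨l, hl, rfl⟩
      simp only [Fm.Holds, Tm.eval, eval_subT]
      rw [hv _ (iea_le I hl)]
      exact h l hl
  · rw [List.forall_mem_singleton]
    simp only [Fm.Holds, Tm.eval, eval_sumT_range, eval_sqT]
    rw [Finset.sum_range]

/-- The conditions on the ray. -/
def Ray (v : ℕ → ℝ) : Prop :=
  0 < v (bZ I) ∧ (∀ c ∈ rS I, c.Holds (fun i => v (bZ I + 1 + (rV I).idxOf i) / v (bZ I))) ∧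
    ∀ l < ik I, v (bZ I + 1 + (rV I).idxOf (2 * l)) = v (bZ I) * v (bX I + l)

theorem holds_rC {v : ℕ → ℝ} (hv : 0 < v (bZ I)) (c : ER.Con) : (rC I c).Holds v ↔
    c.Holds (fun i => v (bZ I + 1 + (rV I).idxOf i) / v (bZ I)) := by
  have h0 := hv.ne'
  cases c with
  | one i =>
    simp only [rC, Con.code, if_true, Fm.Holds, rX, Tm.eval, Con.Holds]
    rw [div_eq_one_iff_eq h0]
  | add i j k =>
    simp only [rC, Con.code, Fm.Holds, rX, Tm.eval, Con.Holds, one_ne_zero, if_false, if_true]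
    rw [← add_div, div_left_inj' h0]
  | mul i j k =>
    simp only [rC, Con.code, Fm.Holds, rX, Tm.eval, Con.Holds, OfNat.ofNat_ne_zero, if_false,
      OfNat.ofNat_ne_one]
    rw [div_mul_div_comm, div_eq_div_iff (mul_ne_zero h0 h0) h0]
    constructor
    · intro h; rw [h]; ring
    · intro h
      have h1 : (v (bZ I + 1 + (rV I).idxOf i) * v (bZ I + 1 + (rV I).idxOf j)) * v (bZ I) =
        (v (bZ I) * v (bZ I + 1 + (rV I).idxOf k)) * v (bZ I) := by rw [h]; ring
      exact mul_right_cancel₀ h0 h1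

theorem holds_ray (v : ℕ → ℝ) : (conj (fRay I)).Holds v ↔ Ray I v := by
  rw [holds_conj, fRay, List.forall_mem_cons, List.forall_mem_append]
  unfold Ray
  have e : (Fm.lt Tm.zero (Tm.var (bZ I))).Holds v ↔ 0 < v (bZ I) := Iff.rfl
  rw [e]
  refine and_congr_right fun hv => and_congr ?_ ?_
  · rw [List.forall_mem_map]
    exact forall₂_congr fun c _ => holds_rC I hv c
  · simp only [List.mem_map, List.mem_range, forall_exists_index, and_imp,
      forall_apply_eq_imp_iff₂, Fm.Holds, Tm.eval, rX]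

theorem holds_fml (h1 : S_TM) (h2 : S_TH) (v : ℕ → ℝ) : (fml I).Holds v ↔
    Base I v ∧ ((∀ j < (rV I).length + 2, v (bZ I + j) = 0) ∨ Ray I v) := by
  unfold fml
  simp only [Fm.Holds]
  rw [holds_base I h1 h2, holds_zer, holds_ray]

theorem bX_eq : bX I = iL I + 1 + (ik I + 1) * iN I := rfl

theorem o_lt {j i : ℕ} (hj : j ≤ ik I) (hi : i < iN I) : o I j + i < bX I := by
  have h1 : j * iN I + iN I ≤ (ik I + 1) * iN I := by
    have := Nat.mul_le_mul_right (iN I) (show j + 1 ≤ ik I + 1 by omega)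
    linarith
  unfold o bX
  omega

theorem iN_gt : 2 * ik I + 3 ≤ iN I := by unfold iN dN; omega

theorem base_congr {v v' : ℕ → ℝ} (h : ∀ i < bZ I, v i = v' i) (hb : Base I v) : Base I v' := by
  obtain ⟨h1, h2, h3, h4⟩ := hb
  have hZ : bZ I = bX I + ik I := rfl
  have hN := iN_gt I
  refine ⟨fun t ht => ?_, fun j hj => ?_, fun l hl => ?_, ?_⟩
  · rw [← h t (by unfold bZ bX; omega)]
    exact h1 t ht
  · refine crit_congr _ _ _ _ (fun i hi => ?_) (h2 j hj)
    have := o_lt I hj hi
    exact h _ (by omega)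
  · have e1 := o_lt I (show l ≤ ik I by omega) (show ik I + 1 < iN I by omega)
    have e2 := o_lt I (show l + 1 ≤ ik I by omega) (show ik I + 1 < iN I by omega)
    rw [← h (bX I + l) (by omega), ← h (o I l + ik I + 1) (by omega),
      ← h (o I (l + 1) + ik I + 1) (by omega)]
    exact h3 l hl
  · rw [Finset.sum_congr rfl fun l hl => by
      rw [← h (bX I + l) (by have := Finset.mem_range.1 hl; omega)]]
    exact h4

theorem finite_val1 (hd : DegLE (pp I) 48) (hf : S_FIN) {i : ℕ} (hi : i < bX I) :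
    {r : ℝ | ∃ v, Base I v ∧ v i = r}.Finite := by
  by_cases h1 : i ≤ iL I
  · refine (Set.finite_singleton (hh i)).subset ?_
    rintro r ⟨v, hv, rfl⟩
    exact hv.1 i h1
  · have hN := iN_gt I
    have hN0 : 0 < iN I := by omega
    set m := i - (iL I + 1) with hm
    have hmi : i = iL I + 1 + m := by omega
    have hj : m / iN I < ik I + 1 := by
      rw [Nat.div_lt_iff_lt_mul hN0]
      rw [bX_eq] at hi
      omega
    have hr : m % iN I < iN I := Nat.mod_lt _ hN0
    have hio : i = o I (m / iN I) + m % iN I := by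
      have := Nat.div_add_mod m (iN I)
      unfold o
      rw [mul_comm] at this
      omega
    have hF := (hf (ik I) (iM I) (hkI I) (pp I) hd (bb (ik I) (iea I) (m / iN I)) (hh (iL I))
      (by unfold hh; positivity)).image (fun w : ℕ → ℝ => w (m % iN I))
    refine hF.subset ?_
    rintro r ⟨v, hv, rfl⟩
    refine ⟨fun i' => if i' < iN I then wb I v (m / iN I) i' else 0, ⟨?_, ?_⟩, ?_⟩
    · intro i' hi'
      exact if_neg (by unfold iN; omega)
    · refine crit_congr _ _ _ _ (fun i' hi' => ?_) (hv.2.1 (m / iN I) (by omega))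
      exact (if_pos hi').symm
    · simp only
      rw [if_pos hr, wb, ← hio]

theorem finite_val (hd : DegLE (pp I) 48) (hf : S_FIN) {i : ℕ} (hi : i < bZ I) :
    {r : ℝ | ∃ v, Base I v ∧ v i = r}.Finite := by
  by_cases h1 : i < bX I
  · exact finite_val1 I hd hf h1
  · have hZ : bZ I = bX I + ik I := rfl
    have hN := iN_gt I
    obtain ⟨l, rfl⟩ : ∃ l, i = bX I + l := ⟨i - bX I, by omega⟩
    have hl : l < ik I := by omega
    have e1 := o_lt I (show l ≤ ik I by omega) (show ik I + 1 < iN I by omega)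
    have e2 := o_lt I (show l + 1 ≤ ik I by omega) (show ik I + 1 < iN I by omega)
    refine ((finite_val1 I hd hf e1).image2 (fun a b => (a - b) / hh (iea I (l + 1)))
      (finite_val1 I hd hf e2)).subset ?_
    rintro r ⟨v, hv, rfl⟩
    refine ⟨_, ⟨v, hv, rfl⟩, _, ⟨v, hv, rfl⟩, ?_⟩
    have h0 : hh (iea I (l + 1)) ≠ 0 := by unfold hh; positivity
    have h3 := hv.2.2.1 l hl
    simp only
    rw [div_eq_iff h0, mul_comm (v (bX I + l)), h3, ← add_assoc, ← add_assoc]

theorem near_base (hd : DegLE (pp I) 48) (hf : S_FIN) {D : ℕ}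
    (x : EuclideanSpace ℝ (Fin D)) :
    ∀ᶠ y in 𝓝 x, Base I (asg y) → ∀ i < bZ I, asg y i = asg x i := by
  have h1 : ∀ i ∈ Finset.range (bZ I), ∀ᶠ y in 𝓝 x, Base I (asg y) → asg y i = asg x i := by
    intro i hi
    have h2 := near_finite (finite_val I hd hf (Finset.mem_range.1 hi)) (asg x i)
    have h3 : ∀ᶠ y in 𝓝 x, asg y i ∈ {r : ℝ | ∃ v, Base I v ∧ v i = r} → asg y i = asg x i :=
      ((continuous_asg i).tendsto x).eventually h2
    filter_upwards [h3] with y hy hb
    exact hy ⟨_, hb, rfl⟩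
  have h4 := (Filter.eventually_all_finset _).2 h1
  filter_upwards [h4] with y hy hb i hi
  exact hy i (Finset.mem_range.2 hi) hb

theorem iD_eq : iD I = bZ I + 1 + ((rV I).length + 1) := rfl

theorem idx_le (i : ℕ) : (rV I).idxOf i ≤ (rV I).length := List.idxOf_le_length

theorem mem_rV {c : ER.Con} (hc : c ∈ rS I) {i : ℕ} (hi : i ∈ c.vars) : i ∈ rV I :=
  List.mem_append_right _ (List.mem_flatMap.2 ⟨c, hc, hi⟩)

theorem mem_rV' {l : ℕ} (hl : l < ik I) : 2 * l ∈ rV I :=
  List.mem_append_left _ (List.mem_map.2 ⟨l, List.mem_range.2 hl, rfl⟩)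

/-- A ray gives a zero of `q`. -/
theorem zero_of_ray (h1 : S_TM) (h2 : vlt (iM I) (pT I)) {v : ℕ → ℝ} (h : Ray I v)
    (x : Fin (ik I) → ℝ) (hx : ∀ l : Fin (ik I), v (bX I + l) = x l) :
    ∃ z : Fin (iM I) → ℝ, q (hkI I) (pp I) x z = 0 := by
  obtain ⟨hz, hc, hl⟩ := h
  set u : ℕ → ℝ := fun i => v (bZ I + 1 + (rV I).idxOf i) / v (bZ I) with hu
  have h3 := (sysOf_spec (Fm.eq (pT I) Tm.zero)).1 u hc
  have h4 : (pT I).eval (fun i => u (2 * i)) = 0 := h3
  refine ⟨fun l => u (2 * (l : ℕ)), ?_⟩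
  unfold q
  have h5 : pe (pp I) (fun l : Fin (iM I) => u (2 * (l : ℕ))) = 0 := by
    rw [← h4]
    exact h1.2.1 (iM I) (pT I) h2 fun i => u (2 * i)
  rw [h5, add_zero]
  refine Finset.sum_eq_zero fun j _ => ?_
  have h6 : u (2 * (j : ℕ)) = x j := by
    rw [hu]
    simp only
    rw [hl j j.2, hx j, mul_div_cancel_left₀ _ hz.ne']
  change (u (2 * (j : ℕ)) - x j) ^ 2 = 0
  rw [h6]
  simp

theorem ray_ptZ {v u : ℕ → ℝ} {ζ : ℝ} (hζ : 0 < ζ) (hu : SysHolds u (rS I))
    (hx : ∀ l < ik I, u (2 * l) = v (bX I + l)) :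
    Ray I (ptZ (bZ I) (iD I) (rV I) v u ζ) := by
  have hD : iD I = bZ I + 1 + ((rV I).length + 1) := rfl
  have hZ : bZ I = bX I + ik I := rfl
  have hz : ptZ (bZ I) (iD I) (rV I) v u ζ (bZ I) = ζ := ptZ_B ζ
  have hV : ∀ i ∈ rV I, ptZ (bZ I) (iD I) (rV I) v u ζ (bZ I + 1 + (rV I).idxOf i) = ζ * u i :=
    fun i hi => ptZ_idx (by omega) ζ hi
  refine ⟨by rw [hz]; exact hζ, fun c hc => ?_, fun l hl => ?_⟩
  · refine (Con.holds_congr fun i hi => ?_).2 (hu c hc)
    rw [hz, hV i (mem_rV I hc hi), mul_div_cancel_left₀ _ hζ.ne']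
  · rw [hz, hV _ (mem_rV' I hl), hx l hl, ptZ_lt ζ (by omega)]

theorem not_zero (h1 : S_TM) (h4 : S_TH) {x : EuclideanSpace ℝ (Fin (iD I))} {ε : ℝ} (hε : 0 < ε)
    (hiso : ∀ y ∈ semi (iD I) (fml I), dist y x < ε → y = x) (hb : Base I (asg x))
    (hz0 : ∀ i, bZ I ≤ i → asg x i = 0) {u : ℕ → ℝ} (hu : SysHolds u (rS I))
    (hux : ∀ l < ik I, u (2 * l) = asg x (bX I + l)) : False := by
  have hD : iD I = bZ I + 1 + ((rV I).length + 1) := rfl
  have hBD : bZ I < iD I := by omega
  set v := asg x with hv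
  have hvD : ∀ i, iD I ≤ i → v i = 0 := fun i hi => asg_ge x hi
  have hxv : toE (iD I) v = x := asg_inj fun i hi => by rw [asg_toE' hvD]
  have hc0 : toE (iD I) (ptZ (bZ I) (iD I) (rV I) v u 0) = x := by
    rw [ptZ_zero hz0, hxv]
  refine no_curve (S := semi (iD I) (fml I)) hε hiso (cont_ptZ _) hc0 (fun t ht => ?_)
    (fun t ht => ?_)
  · change (fml I).Holds (asg (toE (iD I) (ptZ (bZ I) (iD I) (rV I) v u t)))
    have h9 : asg (toE (iD I) (ptZ (bZ I) (iD I) (rV I) v u t)) = ptZ (bZ I) (iD I) (rV I) v u t :=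
      asg_toE' fun i hi => ptZ_ge hBD t hi
    rw [h9, holds_fml I h1 h4]
    exact ⟨base_congr I (fun i hi => (ptZ_lt t hi).symm) hb, Or.inr (ray_ptZ I ht hu hux)⟩
  · intro h7
    have h8 : asg (toE (iD I) (ptZ (bZ I) (iD I) (rV I) v u t)) (bZ I) = v (bZ I) := by
      rw [h7]
    have h9 : asg (toE (iD I) (ptZ (bZ I) (iD I) (rV I) v u t)) = ptZ (bZ I) (iD I) (rV I) v u t :=
      asg_toE' fun i hi => ptZ_ge hBD t hi
    rw [h9, ptZ_B, hz0 _ le_rfl] at h8
    linarith

theorem not_ray (h1 : S_TM) (h4 : S_TH) {x : EuclideanSpace ℝ (Fin (iD I))} {ε : ℝ} (hε : 0 < ε)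
    (hiso : ∀ y ∈ semi (iD I) (fml I), dist y x < ε → y = x) (hb : Base I (asg x))
    (hx2 : Ray I (asg x)) : False := by
  have hD : iD I = bZ I + 1 + ((rV I).length + 1) := rfl
  have hZ : bZ I = bX I + ik I := rfl
  set v := asg x with hv
  have hvD : ∀ i, iD I ≤ i → v i = 0 := fun i hi => asg_ge x hi
  have hxv : toE (iD I) v = x := asg_inj fun i hi => by rw [asg_toE' hvD]
  have hcD : ∀ t i, iD I ≤ i → scl (bZ I) v t i = 0 := by
    intro t i hi
    rw [scl_ge v t (by omega), hvD i hi, mul_zero]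
  have hc1 : toE (iD I) (scl (bZ I) v 1) = x := by
    rw [scl_one, hxv]
  refine no_curve (S := semi (iD I) (fml I)) hε hiso (cont_scl _ _ _) hc1 (fun t ht => ?_)
    (fun t ht => ?_)
  · change (fml I).Holds (asg (toE (iD I) (scl (bZ I) v t)))
    rw [asg_toE' (hcD t), holds_fml I h1 h4]
    have ht0 : (0 : ℝ) < t := by linarith
    refine ⟨base_congr I (fun i hi => (scl_lt v t hi).symm) hb, Or.inr ⟨?_, ?_, ?_⟩⟩
    · rw [scl_ge v t le_rfl]
      exact mul_pos ht0 hx2.1
    · intro con hcon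
      have h7 := hx2.2.1 con hcon
      have h8 : (fun i => scl (bZ I) v t (bZ I + 1 + (rV I).idxOf i) / scl (bZ I) v t (bZ I)) =
          fun i => v (bZ I + 1 + (rV I).idxOf i) / v (bZ I) := by
        funext i
        rw [scl_ge v t (by omega), scl_ge v t le_rfl, mul_div_mul_left _ _ ht0.ne']
      rw [h8]
      exact h7
    · intro l hl
      rw [scl_ge v t (by omega), scl_ge v t le_rfl, scl_lt v t (by omega), hx2.2.2 l hl,
        mul_assoc]
  · intro h7
    have h8 : asg (toE (iD I) (scl (bZ I) v t)) (bZ I) = v (bZ I) := by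
      rw [h7]
    rw [asg_toE' (hcD t), scl_ge v t le_rfl] at h8
    have h9 : 0 < v (bZ I) := hx2.1
    nlinarith

end CorL

open CorL

theorem cor : S_COR := by
  intro h1 h2 h3 h4 h5 h6 I
  have hnf := (h2 I).1
  have hadm := h3 I
  have hD : iD I = bZ I + 1 + ((rV I).length + 1) := rfl
  have hZ : bZ I = bX I + ik I := rfl
  have hN := iN_gt I
  have hlen : (List.replicate (iD I) ()).length = iD I := List.length_replicate
  have hIso : Iso (red I) ↔ HasIso (iD I) (fml I) := by
    unfold Iso red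
    rw [hlen]
  rw [(h2 I).2, hIso]
  constructor
  · intro hx
    obtain ⟨W, x, hW, hxW, hsx, hq⟩ := h6 (ik I) (iM I) (is' I) (hkI I) (pp I) hadm hx
    let v : ℕ → ℝ := fun t =>
      if t ≤ iL I then hh t
      else if t < bX I then W ((t - (iL I + 1)) / iN I) ((t - (iL I + 1)) % iN I)
      else if h : t - bX I < ik I then x ⟨t - bX I, h⟩ else 0
    have hv0 : ∀ t, bZ I ≤ t → v t = 0 := by
      intro t ht
      simp only [v]
      rw [if_neg (by unfold bZ bX at ht; omega), if_neg (by omega), dif_neg (by omega)]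
    have hvW : ∀ j ≤ ik I, ∀ i < iN I, v (o I j + i) = W j i := by
      intro j hj i hi
      have h7 := o_lt I hj hi
      have h8 : o I j + i - (iL I + 1) = j * iN I + i := by unfold o; omega
      simp only [v]
      rw [if_neg (by unfold o; omega), if_pos h7, h8]
      rw [show (j * iN I + i) / iN I = j by
        rw [mul_comm, Nat.mul_add_div (by omega), Nat.div_eq_of_lt hi, add_zero],
        show (j * iN I + i) % iN I = i by
        rw [mul_comm, Nat.mul_add_mod, Nat.mod_eq_of_lt hi]]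
    have hvx : ∀ l : Fin (ik I), v (bX I + l) = x l := by
      intro l
      simp only [v]
      have h7 : bX I + (l : ℕ) - bX I = l := by omega
      rw [if_neg (by unfold bX; omega), if_neg (by omega), dif_pos (by rw [h7]; exact l.2)]
      congr 1
      exact Fin.ext h7
    have hbase : Base I v := by
      refine ⟨fun t ht => ?_, fun j hj => ?_, fun l hl => ?_, ?_⟩
      · simp only [v]
        rw [if_pos ht]
      · refine crit_congr _ _ _ _ (fun i hi => ?_) (hW j hj).2
        exact (hvW j hj i hi).symm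
      · have h7 := hxW ⟨l, hl⟩
        have h8 := hvx ⟨l, hl⟩
        simp only at h7 h8
        rw [h8, add_assoc (o I l), add_assoc (o I (l + 1)), hvW l (by omega) _ (by omega),
          hvW (l + 1) (by omega) _ (by omega)]
        exact h7
      · rw [Finset.sum_range]
        have h7 : sx x = ∑ i : Fin (ik I), v (bX I + i) ^ 2 := by
          unfold sx
          exact Finset.sum_congr rfl fun i _ => by rw [hvx]
        rw [← h7]
        exact hsx
    have hasg : asg (toE (iD I) v) = v := asg_toE' fun i hi => hv0 i (by omega)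
    refine ⟨toE (iD I) v, ?_, ?_⟩
    · change (fml I).Holds (asg (toE (iD I) v))
      rw [hasg, holds_fml I h1 h4]
      exact ⟨hbase, Or.inl fun j _ => hv0 _ (by omega)⟩
    · obtain ⟨ε, hε, hnear⟩ := Metric.eventually_nhds_iff.1
        (near_base I hadm.deg h5 (toE (iD I) v))
      refine ⟨ε, hε, fun y hy hdist => ?_⟩
      have hy' : (fml I).Holds (asg y) := hy
      rw [holds_fml I h1 h4] at hy'
      obtain ⟨hyb, hy2⟩ := hy'
      have hyi := hnear hdist hyb
      rw [hasg] at hyi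
      rcases hy2 with hy2 | hy2
      · refine asg_inj fun i hi => ?_
        rw [hasg]
        by_cases h7 : i < bZ I
        · exact hyi i h7
        · rw [hv0 i (by omega)]
          have h8 := hy2 (i - bZ I) (by omega)
          rwa [show bZ I + (i - bZ I) = i by omega] at h8
      · exfalso
        obtain ⟨z, hz⟩ := zero_of_ray I h1 hnf hy2 x fun l => by
          rw [hyi _ (by have := l.2; omega), hvx]
        exact (hq z).ne' hz
  · rintro ⟨x, hx, ε, hε, hiso⟩
    have hx' : (fml I).Holds (asg x) := hx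
    rw [holds_fml I h1 h4] at hx'
    obtain ⟨hb, hx2⟩ := hx'
    set v := asg x with hv
    have hvD : ∀ i, iD I ≤ i → v i = 0 := fun i hi => asg_ge x hi
    have hxv : toE (iD I) v = x := asg_inj fun i hi => by rw [asg_toE' hvD]
    have hzer : ∀ j < (rV I).length + 2, v (bZ I + j) = 0 := by
      rcases hx2 with hx2 | hx2
      · exact hx2
      · exfalso
        exact not_ray I h1 h4 hε hiso hb hx2
    refine ⟨fun l => v (bX I + l), ?_, ?_⟩
    · have h7 := hb.2.2.2
      rw [Finset.sum_range] at h7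
      exact h7
    · intro z
      have hp := hadm.nonneg z
      have hs : 0 ≤ ∑ j, (z (Fin.castLE (hkI I) j) - v (bX I + j)) ^ 2 :=
        Finset.sum_nonneg fun _ _ => sq_nonneg _
      have hq0 : 0 ≤ q (hkI I) (pp I) (fun l : Fin (ik I) => v (bX I + l)) z := add_nonneg hs hp
      rcases hq0.lt_or_eq with h7 | h7
      · exact h7
      · exfalso
        have h8 : ∑ j, (z (Fin.castLE (hkI I) j) - v (bX I + j)) ^ 2 + pe (pp I) z = 0 := h7.symm
        have h9 : pe (pp I) z = 0 := by linarith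
        have h10 : ∑ j, (z (Fin.castLE (hkI I) j) - v (bX I + j)) ^ 2 = 0 := by linarith
        rw [Finset.sum_eq_zero_iff_of_nonneg fun _ _ => sq_nonneg _] at h10
        have h11 : ∀ j : Fin (ik I), z (Fin.castLE (hkI I) j) = v (bX I + j) := by
          intro j
          have := h10 j (Finset.mem_univ _)
          have := pow_eq_zero_iff (two_ne_zero) |>.1 this
          linarith
        let zz : ℕ → ℝ := fun i => if h : i < iM I then z ⟨i, h⟩ else 0
        have hzz : (fun l : Fin (iM I) => zz l) = z := by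
          funext l
          simp only [zz]
          rw [dif_pos l.2]
        have h12 : (pT I).eval zz = 0 := by
          rw [← h1.2.1 (iM I) (pT I) hnf zz, hzz]
          exact h9
        obtain ⟨u, hu1, hu2⟩ := (sysOf_spec (Fm.eq (pT I) Tm.zero)).2 zz h12
        have hux : ∀ l < ik I, u (2 * l) = v (bX I + l) := by
          intro l hl
          rw [hu1]
          simp only [zz]
          have h13 := h11 ⟨l, hl⟩
          have h14 : l < iM I := lt_of_lt_of_le hl (hkI I)
          rw [dif_pos h14]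
          exact h13
        refine not_zero I h1 h4 hε hiso hb (fun i hi => ?_) hu2 hux
        by_cases h13 : i < iD I
        · have h14 := hzer (i - bZ I) (by omega)
          rwa [show bZ I + (i - bZ I) = i by omega] at h14
        · exact hvD i (by omega)

end Pool.Agent.Helper97K9.IP
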