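import Pool.Agent.R537.RN.NFEff

/-!
# Rigid witnesses: definitions

`p` is an integer polynomial in `M` variables, `k ≤ M`. For `x ∈ ℝ^k` and `z ∈ ℝ^M` let
`q(x, z) = ∑_{j<k} (z_j - x_j)² + p(z)`. The functions below are defined over every commutative
ring, because they are also used with polynomials as arguments.
-/

set_option autoImplicit false

namespace Pool.Agent.Helper97K9.IP

open Finset Pool.Agent.H612 Pool.Agent.R537.RN

section ring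

variable {R : Type} [CommRing R] {k M : ℕ}

/-- The value of an integer polynomial. -/
noncomputable def pe (p : MvPolynomial (Fin M) ℤ) (z : Fin M → R) : R :=
  p.eval₂ (Int.castRingHom R) z

/-- `q(x, z) = ∑ (z_j - x_j)² + p(z)`. -/
noncomputable def q (hk : k ≤ M) (p : MvPolynomial (Fin M) ℤ) (x : Fin k → R) (z : Fin M → R) :
    R :=
  ∑ j, (z (Fin.castLE hk j) - x j) ^ 2 + pe p z

/-- `|x|²`. -/
def sx (x : Fin k → R) : R := ∑ j, x j ^ 2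

/-- `q(x, z) (1 - |x|²)`. -/
noncomputable def gg (hk : k ≤ M) (p : MvPolynomial (Fin M) ℤ) (x : Fin k → R) (z : Fin M → R) :
    R :=
  q hk p x z * (1 - sx x)

/-- `∂q/∂z_l`. -/
noncomputable def dq (p : MvPolynomial (Fin M) ℤ) (l : Fin M) (x : Fin k → R) (z : Fin M → R) :
    R :=
  (if h : (l : ℕ) < k then 2 * (z l - x ⟨l, h⟩) else 0) + pe (MvPolynomial.pderiv l p) z

/-- The coordinates `x` of a point `w`. -/
def xw (k : ℕ) (w : ℕ → R) : Fin k → R := fun j => w j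

/-- The coordinates `μ_i` of a point `w`. -/
def μw (k : ℕ) (w : ℕ → R) (i : Fin (k + 1)) : R := w (k + 2 + i)

/-- The coordinates `z^i` of a point `w`. -/
def zw (k M : ℕ) (w : ℕ → R) (i : Fin (k + 1)) : Fin M → R := fun l => w (2 * k + 3 + i * M + l)

/-- The number of the coordinates of `w`: `x` (`k` coordinates), `u`, `v`, `μ_i` (`k + 1`
coordinates), `z^i_l` (`(k + 1) M` coordinates). -/
def dN (k M : ℕ) : ℕ := 2 * k + 3 + (k + 1) * M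

/-- The equation of the multipliers. -/
def Ceq (hk : k ≤ M) (w : ℕ → R) (j : Fin k) : R :=
  (1 - sx (xw k w)) * ∑ i, μw k w i ^ 2 * (2 * (xw k w j - zw k M w i (Fin.castLE hk j))) -
    2 * w k * xw k w j

/-- The equation of the value. -/
def Eeq (k : ℕ) (w : ℕ → R) : R := w k * (1 - sx (xw k w)) - w (k + 1)

/-- The sum of the squares of the KKT equations for the max-min problem
`max_x min_z (q(x,z)(1 - |x|²) - b x)`, multiplied by `A²`, with `β = A b`. -/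
noncomputable def Fsq (hk : k ≤ M) (p : MvPolynomial (Fin M) ℤ) (A : R) (β : Fin k → R)
    (w : ℕ → R) : R :=
  A ^ 2 * (∑ i, ∑ l, dq p l (xw k w) (zw k M w i) ^ 2 +
      ∑ i, (q hk p (xw k w) (zw k M w i) - w k) ^ 2 + (∑ i, μw k w i ^ 2 - 1) ^ 2) +
    ∑ j, (A * Ceq hk w j - β j) ^ 2 + (A * Eeq k w - ∑ j, β j * xw k w j) ^ 2

end ring

/-! ### Functions of real variables -/

variable {k M : ℕ}

/-- `H(x)`: the minimum of `q(x, z)(1 - |x|²)` over the cube `|z_l| ≤ ρ`. -/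
noncomputable def Hf (hk : k ≤ M) (p : MvPolynomial (Fin M) ℤ) (ρ : ℕ) (x : Fin k → ℝ) : ℝ :=
  -bmax (fun s : (Fin k → ℝ) × (Fin M → ℝ) => -gg hk p s.1 (fun l => (ρ : ℝ) * s.2 l)) x

/-- `V(b)`: the maximum of `H(x) - b x` over the cube `|x_j| ≤ 1`. -/
noncomputable def Vf (hk : k ≤ M) (p : MvPolynomial (Fin M) ℤ) (ρ : ℕ) (b : Fin k → ℝ) : ℝ :=
  bmax (fun s : (Fin k → ℝ) × (Fin k → ℝ) => Hf hk p ρ s.2 - ∑ j, s.1 j * s.2 j) b

/-- The constants `2^(-2^a)`. -/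
noncomputable def hh (a : ℕ) : ℝ := (1 / 2) ^ (2 ^ a)

/-- The vector `(2^(-2^(a 1)), …, 2^(-2^(a j)), 0, …, 0)`. -/
noncomputable def bb (k : ℕ) (a : ℕ → ℕ) (j : ℕ) : Fin k → ℝ :=
  fun i => if (i : ℕ) < j then hh (a (i + 1)) else 0

/-- The function whose critical points are the rigid points. -/
noncomputable def Th (hk : k ≤ M) (p : MvPolynomial (Fin M) ℤ) (b : Fin k → ℝ) (e : ℝ)
    (w : ℕ → ℝ) : ℝ :=
  Fsq hk p 1 b w + e * ∑ i ∈ range (dN k M), w i ^ 128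

/-- The critical points of `Th` (only the first `dN k M` coordinates are used). -/
def Crit (hk : k ≤ M) (p : MvPolynomial (Fin M) ℤ) (b : Fin k → ℝ) (e : ℝ) (w : ℕ → ℝ) : Prop :=
  ∀ i < dN k M, HasDerivAt (fun s => Th hk p b e (Function.update w i s)) 0 (w i)

/-- The hypotheses on `p`. -/
structure Adm (k M s : ℕ) (hk : k ≤ M) (p : MvPolynomial (Fin M) ℤ) : Prop where
  nonneg : ∀ z : Fin M → ℝ, 0 ≤ pe p z
  base : ∃ z0 : Fin M → ℝ, (∀ l, |z0 l| ≤ 1) ∧ (∀ j : Fin k, z0 (Fin.castLE hk j) = 0) ∧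
    pe p z0 ≤ 1
  coer : ∀ z : Fin M → ℝ, pe p z ≤ k + 1 → ∀ l, |z l| ≤ (k : ℝ) + 2
  deg : DegLE p 48
  norm : RNorm.int.mν p ≤ 2 ^ 2 ^ s

/-! ### The exponents -/

/-- The exponent for `V(0)`. -/
def K3 (k M s : ℕ) : ℕ := Gx k (Gx M (s + k + 20))

/-- The exponent for the second differences. -/
def K1 (k M s : ℕ) : ℕ := Gx (k + k) (Gx (M + M + k) (Gx M (s + k + 20)))

/-- The exponents of the small numbers: `hh (ea 0)` is the accuracy, `hh (ea i)`, `i ≥ 1`, are the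
perturbations. -/
def ea (k M s : ℕ) (i : ℕ) : ℕ := K1 k M s + K3 k M s + k + 10 + i * (K1 k M s + 1)

/-- The radius of the cube for `w`. -/
def rr (k M : ℕ) : ℕ := (k + 2) * dN k M

/-- The exponent for the values of the KKT equations. -/
def K5 (k M s aK : ℕ) : ℕ := Gx (dN k M) (s + aK + k + M + 30)

/-- The exponent of the lower bound. -/
def ac (k M s aK aη : ℕ) : ℕ := aη + aK + 2 * K5 k M s aK + 10

/-- The exponent of the final perturbation. -/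
def ae (k M s : ℕ) : ℕ :=
  ac k M s (ea k M s k) (ea k M s k + 2) + dN k M + k + 20

/-! ### The leaves -/

/-- [GAP] -/
def S_GAP : Prop := ∀ (k M s : ℕ) (hk : k ≤ M) (p : MvPolynomial (Fin M) ℤ), Adm k M s hk p →
  (∃ x : Fin k → ℝ, sx x < 1 ∧ ∀ z : Fin M → ℝ, 0 < q hk p x z) →
  hh (K3 k M s) ≤ Vf hk p (k + 2) 0

/-- [SD] The second differences of `V` are small. -/
def S_SD : Prop := ∀ (k M s : ℕ) (hk : k ≤ M) (p : MvPolynomial (Fin M) ℤ), Adm k M s hk p →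
  ∀ (a : ℕ → ℕ), K1 k M s + 1 ≤ a 0 → (∀ i, a i + K1 k M s + 1 ≤ a (i + 1)) →
  ∀ j : Fin k, Vf hk p (k + 2) (bb k a j + Pi.single j (2 * hh (a (j + 1)))) -
    2 * Vf hk p (k + 2) (bb k a (j + 1)) + Vf hk p (k + 2) (bb k a j) ≤ hh (a 0) * hh (a (j + 1))

/-- [KKT] The value `V(b)` is the value of a KKT point. -/
def S_KKT : Prop := ∀ (k M s : ℕ) (hk : k ≤ M) (p : MvPolynomial (Fin M) ℤ), Adm k M s hk p →
  ∀ b : Fin k → ℝ, ∑ j, |b j| ≤ 1 → ∑ j, |b j| < Vf hk p (k + 2) b →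
  ∃ w : ℕ → ℝ, (∀ i, |w i| ≤ (k : ℝ) + 2) ∧ Fsq hk p 1 b w = 0 ∧
    w (k + 1) = Vf hk p (k + 2) b

/-- [SARD] There are only finitely many KKT values. -/
def S_SARD : Prop := ∀ (k M : ℕ) (hk : k ≤ M) (p : MvPolynomial (Fin M) ℤ) (b : Fin k → ℝ),
  {v : ℝ | ∃ w : ℕ → ℝ, Fsq hk p 1 b w = 0 ∧ w (k + 1) = v}.Finite

/-- [CG] Effective lower bound for the KKT equations at two values close to a given one. -/
def S_CG : Prop := ∀ (k M s : ℕ) (hk : k ≤ M) (p : MvPolynomial (Fin M) ℤ), Adm k M s hk p →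
  ∀ (aK aη : ℕ), aK ≤ aη → ∀ (b : Fin k → ℝ), (∀ j, b j = 0 ∨ ∃ a ≤ aK, b j = hh a) →
  {v : ℝ | ∃ w : ℕ → ℝ, Fsq hk p 1 b w = 0 ∧ w (k + 1) = v}.Finite →
  ∀ V : ℝ, |V| ≤ 3 / 2 → ∃ v1 v2 : ℝ, V - hh aη < v1 ∧ v1 < V ∧ V < v2 ∧ v2 < V + hh aη ∧
    ∀ w : ℕ → ℝ, (∀ i < dN k M, |w i| ≤ rr k M) → w (k + 1) = v1 ∨ w (k + 1) = v2 →
      hh (ac k M s aK aη) ≤ Fsq hk p 1 b w

/-- [SLAB] A local minimum. -/
def S_SLAB : Prop := ∀ (k M : ℕ) (hk : k ≤ M) (p : MvPolynomial (Fin M) ℤ) (b : Fin k → ℝ)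
  (w0 : ℕ → ℝ) (v1 v2 c e : ℝ), (∀ i, |w0 i| ≤ (k : ℝ) + 2) → Fsq hk p 1 b w0 = 0 →
  v1 < w0 (k + 1) → w0 (k + 1) < v2 → 0 < e → e * (dN k M * (k + 2) ^ 128) < c →
  (∀ w : ℕ → ℝ, (∀ i < dN k M, |w i| ≤ rr k M) → w (k + 1) = v1 ∨ w (k + 1) = v2 →
      c ≤ Fsq hk p 1 b w) →
  ∃ w : ℕ → ℝ, (∀ i, dN k M ≤ i → w i = 0) ∧ v1 < w (k + 1) ∧ w (k + 1) < v2 ∧
    Crit hk p b e w

/-- [FIN] The critical points are finitely many. -/
def S_FIN : Prop := ∀ (k M : ℕ) (hk : k ≤ M) (p : MvPolynomial (Fin M) ℤ), DegLE p 48 →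
  ∀ (b : Fin k → ℝ) (e : ℝ), e ≠ 0 →
  {w : ℕ → ℝ | (∀ i, dN k M ≤ i → w i = 0) ∧ Crit hk p b e w}.Finite

/-- [MAIN] The rigid witness. -/
def S_MAIN : Prop := ∀ (k M s : ℕ) (hk : k ≤ M) (p : MvPolynomial (Fin M) ℤ), Adm k M s hk p →
  (∃ x : Fin k → ℝ, sx x < 1 ∧ ∀ z : Fin M → ℝ, 0 < q hk p x z) →
  ∃ (W : ℕ → ℕ → ℝ) (x : Fin k → ℝ),
    (∀ j ≤ k, (∀ i, dN k M ≤ i → W j i = 0) ∧
      Crit hk p (bb k (ea k M s) j) (hh (ae k M s)) (W j)) ∧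
    (∀ j : Fin k, hh (ea k M s (j + 1)) * x j = W j (k + 1) - W (j + 1) (k + 1)) ∧
    sx x < 1 ∧ ∀ z : Fin M → ℝ, 0 < q hk p x z

end Pool.Agent.Helper97K9.IP
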