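import Pool.Agent.Helper97K9.IP.Nrm
import Pool.Agent.R537.RN.Crit

/-!
# Rigid witnesses: finiteness of the critical points [FIN]
-/

set_option autoImplicit false

namespace Pool.Agent.Helper97K9.IP

open Finset Filter Topology Pool.Agent.H612 Pool.Agent.R537.RN

namespace FNL

variable {R : Type} [CommRing R] {N : ℕ}

theorem degLE_sq {a : MvPolynomial (Fin N) R} {m : ℕ} (h : DegLE a m) : DegLE (a ^ 2) (m + m) := by
  rw [pow_two]
  exact h.mul h

theorem degLE_one (m : ℕ) : DegLE (1 : MvPolynomial (Fin N) R) m := by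
  have := degLE_C (N := N) (1 : R) m
  rwa [map_one] at this

theorem degLE_two (m : ℕ) : DegLE (2 : MvPolynomial (Fin N) R) m := by
  have := degLE_C (N := N) (2 : R) m
  rwa [map_ofNat] at this

theorem pe_deg {M : ℕ} {p : MvPolynomial (Fin M) ℤ} {D : ℕ} (hD : DegLE p D)
    (z : Fin M → MvPolynomial (Fin N) R) (hz : ∀ l, DegLE (z l) 1) : DegLE (pe p z) D := by
  unfold pe
  rw [MvPolynomial.eval₂_eq']
  refine DegLE.sum _ _ _ fun d hd => ?_
  have h1 : (Int.castRingHom (MvPolynomial (Fin N) R)) (p.coeff d) =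
      MvPolynomial.C ((p.coeff d : ℤ) : R) := by simp
  rw [h1]
  refine DegLE.C_mul _ (degLE_of_totalDegree ?_)
  refine (MvPolynomial.totalDegree_finsetProd _ _).trans ?_
  refine le_trans (Finset.sum_le_sum fun i _ => ?_) (hD d hd)
  refine (MvPolynomial.totalDegree_pow _ _).trans ?_
  exact (Nat.mul_le_mul_left _ (totalDegree_of_degLE (hz i))).trans (by rw [mul_one])

variable {k M : ℕ} (hk : k ≤ M) {p : MvPolynomial (Fin M) ℤ} (hD : DegLE p 48)

include hD

theorem q_deg (x : Fin k → MvPolynomial (Fin N) R) (z : Fin M → MvPolynomial (Fin N) R)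
    (hx : ∀ j, DegLE (x j) 1) (hz : ∀ l, DegLE (z l) 1) : DegLE (q hk p x z) 48 := by
  unfold q
  refine DegLE.add (DegLE.sum _ _ _ fun j _ => ?_) (pe_deg hD z hz)
  exact (degLE_sq ((hz _).sub (hx j))).mono (by norm_num)

theorem dq_deg (l : Fin M) (x : Fin k → MvPolynomial (Fin N) R)
    (z : Fin M → MvPolynomial (Fin N) R) (hx : ∀ j, DegLE (x j) 1) (hz : ∀ l, DegLE (z l) 1) :
    DegLE (dq p l x z) 48 := by
  unfold dq
  refine DegLE.add ?_ ((pe_deg (hD.pderiv l) z hz).mono (by norm_num))
  split_ifs with h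
  · exact ((degLE_two 0).mul ((hz _).sub (hx _))).mono (by norm_num)
  · exact degLE_zero _

omit hD in
theorem sx_deg (x : Fin k → MvPolynomial (Fin N) R) (hx : ∀ j, DegLE (x j) 1) :
    DegLE (sx x) 2 := by
  unfold sx
  exact DegLE.sum _ _ _ fun j _ => degLE_sq (hx j)

omit hD in
theorem Ceq_deg (w : ℕ → MvPolynomial (Fin N) R) (hw : ∀ i, DegLE (w i) 1) (j : Fin k) :
    DegLE (Ceq hk w j) 5 := by
  unfold Ceq
  refine DegLE.sub ?_ ?_
  · refine (DegLE.mul ((degLE_one 2).sub (sx_deg _ fun j => hw _)) (m' := 3) ?_)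
    refine DegLE.sum _ _ _ fun i _ => ?_
    exact (degLE_sq (hw _)).mul ((degLE_two 0).mul ((hw _).sub (hw _)))
  · exact (((degLE_two 0).mul (hw _)).mul (hw _)).mono (by norm_num)

omit hD in
theorem Eeq_deg (w : ℕ → MvPolynomial (Fin N) R) (hw : ∀ i, DegLE (w i) 1) :
    DegLE (Eeq k w) 3 := by
  unfold Eeq
  refine DegLE.sub ?_ ((hw _).mono (by norm_num))
  exact (hw _).mul ((degLE_one 2).sub (sx_deg _ fun j => hw _))

theorem Fsq_deg (β : Fin k → R) (w : ℕ → MvPolynomial (Fin N) R) (hw : ∀ i, DegLE (w i) 1) :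
    DegLE (Fsq hk p 1 (fun j => MvPolynomial.C (β j)) w) 96 := by
  unfold Fsq
  refine DegLE.add (DegLE.add ?_ ?_) ?_
  · rw [one_pow, one_mul]
    refine DegLE.add (DegLE.add ?_ ?_) ?_
    · refine DegLE.sum _ _ _ fun i _ => DegLE.sum _ _ _ fun l _ => ?_
      exact degLE_sq (dq_deg hD l _ _ (fun j => hw _) (fun l => hw _))
    · refine DegLE.sum _ _ _ fun i _ => ?_
      exact degLE_sq ((q_deg hk hD _ _ (fun j => hw _) (fun l => hw _)).sub
        ((hw _).mono (by norm_num)))
    · have h1 : DegLE (∑ i, μw k w i ^ 2 - 1) 2 :=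
        (DegLE.sum _ _ _ fun i _ => degLE_sq (hw _)).sub (degLE_one 2)
      exact (degLE_sq h1).mono (by norm_num)
  · refine DegLE.sum _ _ _ fun j _ => ?_
    rw [one_mul]
    exact (degLE_sq ((Ceq_deg hk w hw j).sub (degLE_C _ 5))).mono (by norm_num)
  · rw [one_mul]
    have h1 : DegLE (∑ j, MvPolynomial.C (β j) * xw k w j) 3 :=
      DegLE.sum _ _ _ fun j _ => (DegLE.C_mul _ (hw _)).mono (by norm_num)
    exact (degLE_sq ((Eeq_deg w hw).sub h1)).mono (by norm_num)

end FNL

/-- [FIN] -/
theorem fin : S_FIN := by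
  intro k M hk p hD b e he
  obtain ⟨N, hN⟩ : ∃ N, N = dN k M := ⟨_, rfl⟩
  rw [← hN]
  let ex : (Fin N → ℝ) → ℕ → ℝ := fun z i => if h : i < N then z ⟨i, h⟩ else 0
  let wX : ℕ → MvPolynomial (Fin N) ℝ := fun i => if h : i < N then MvPolynomial.X ⟨i, h⟩ else 0
  have hwX : ∀ i, DegLE (wX i) 1 := by
    intro i
    simp only [wX]
    split_ifs with h
    · exact degLE_X _
    · exact degLE_zero _
  obtain ⟨G, hG⟩ : ∃ G : MvPolynomial (Fin N) ℝ, G =
      Fsq hk p 1 (fun j => MvPolynomial.C (b j)) wX := ⟨_, rfl⟩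
  have hGdeg : DegLE G 96 := by rw [hG]; exact FNL.Fsq_deg hk hD b wX hwX
  have hGe : ∀ z : Fin N → ℝ, G.eval₂ (RingHom.id ℝ) z = Fsq hk p 1 b (ex z) := by
    intro z
    have h1 := Fsq_map hk p (MvPolynomial.eval₂Hom (RingHom.id ℝ) z) 1
      (fun j => MvPolynomial.C (b j)) wX
    rw [← hG] at h1
    have h2 : (fun j => (MvPolynomial.eval₂Hom (RingHom.id ℝ) z) (MvPolynomial.C (b j))) = b := by
      funext j
      simp
    have h3 : (fun i => (MvPolynomial.eval₂Hom (RingHom.id ℝ) z) (wX i)) = ex z := by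
      funext i
      simp only [wX, ex]
      split_ifs with h
      · simp
      · simp
    rw [h2, h3, map_one] at h1
    exact h1
  let V : Fin N → MvPolynomial (Fin N) ℝ := fun i =>
    MvPolynomial.C (-(1 / (128 * e))) * MvPolynomial.pderiv i G
  have hVdeg : ∀ i, ∀ γ ∈ (V i).support, (∑ j, γ j) < 127 := by
    intro i γ hγ
    have h1 : DegLE (V i) 95 := DegLE.C_mul _ (hGdeg.pderiv i)
    have := h1 γ hγ
    omega
  have hcrit : ∀ w : ℕ → ℝ, (∀ i, N ≤ i → w i = 0) → Crit hk p b e w →
      IsCritQ 127 V (RingHom.id ℝ) (fun i : Fin N => w i) := by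
    intro w hw hc i
    have hwe : ∀ s : ℝ, Function.update w i s = ex (Function.update (fun i : Fin N => w i) i s) := by
      intro s
      funext l
      simp only [ex]
      by_cases hl : l < N
      · rw [dif_pos hl]
        by_cases hli : l = i
        · subst hli
          have : (⟨(i : ℕ), hl⟩ : Fin N) = i := rfl
          rw [this, Function.update_self, Function.update_self]
        · rw [Function.update_of_ne hli, Function.update_of_ne (fun h => hli (by rw [← h]))]
      · rw [dif_neg hl, Function.update_of_ne (by have := i.2; omega), hw l (by omega)]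
    have hi : (i : ℕ) < dN k M := by rw [← hN]; exact i.2
    have h1 := hc i hi
    have h2 := hasDerivAt_eval₂ (RingHom.id ℝ) (fun i : Fin N => w i) i G
    have h3 : HasDerivAt (fun s : ℝ => e * ∑ l ∈ range N, (Function.update w i s l) ^ 128)
        (e * (128 * w i ^ 127)) (w i) := by
      refine HasDerivAt.const_mul e ?_
      have h4 : (fun s : ℝ => ∑ l ∈ range N, (Function.update w i s l) ^ 128) =
          fun s => s ^ 128 + ∑ l ∈ (range N).erase i, w l ^ 128 := by
        funext s
        have e1 := Finset.add_sum_erase (range N) (fun l => (Function.update w i s l) ^ 128)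
          (mem_range.2 i.2)
        have e2 : ∑ l ∈ (range N).erase i, (Function.update w i s l) ^ 128 =
            ∑ l ∈ (range N).erase i, w l ^ 128 :=
          Finset.sum_congr rfl fun l hl => by
            rw [Function.update_of_ne (Finset.ne_of_mem_erase hl)]
        rw [← e1, e2]
        simp only [Function.update_self]
      rw [h4]
      have h5 : HasDerivAt (fun s : ℝ => s ^ 128) (128 * w i ^ 127) (w i) := by
        have h6 := hasDerivAt_pow 128 (w i)
        have h7 : ((128 : ℕ) : ℝ) * w i ^ (128 - 1) = 128 * w i ^ 127 := by norm_num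
        rw [h7] at h6
        exact h6
      exact h5.add_const _
    have h6 : HasDerivAt (fun s : ℝ => Th hk p b e (Function.update w i s))
        ((MvPolynomial.pderiv i G).eval₂ (RingHom.id ℝ) (fun i : Fin N => w i) +
          e * (128 * w i ^ 127)) (w i) := by
      have h7 : (fun s : ℝ => Th hk p b e (Function.update w i s)) =
          fun s => G.eval₂ (RingHom.id ℝ) (Function.update (fun i : Fin N => w i) i s) +
            e * ∑ l ∈ range N, (Function.update w i s l) ^ 128 := by
        funext s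
        unfold Th
        rw [← hN, hGe, hwe s]
      rw [h7]
      exact h2.add h3
    have h8 := h1.unique h6
    change w i ^ 127 = (V i).eval₂ (RingHom.id ℝ) (fun i : Fin N => w i)
    simp only [V, MvPolynomial.eval₂_mul, MvPolynomial.eval₂_C, RingHom.id_apply]
    field_simp
    linarith
  -- the coordinates are roots of polynomials
  have hC : ∀ i, trN.mν (V i) ≤ 1 + ∑ i, trN.mν (V i) := by
    intro i
    have := Finset.single_le_sum (f := fun i => trN.mν (V i)) (fun _ _ => Nat.zero_le _)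
      (mem_univ i)
    omega
  have hroot : ∀ j : Fin N, ∃ χ : Polynomial ℝ, χ ≠ 0 ∧
      ∀ z : Fin N → ℝ, IsCritQ 127 V (RingHom.id ℝ) z → χ.eval (z j) = 0 := by
    intro j
    obtain ⟨χ, h1, -, h2⟩ := value_rootQ trN (by norm_num : 0 < 127) V _ (Nat.le_add_right 1 _)
      hVdeg hC (MvPolynomial.X j) 1 (degLE_X j)
    refine ⟨χ, h1.ne_zero, fun z hz => ?_⟩
    have h3 := h2 (RingHom.id ℝ) z hz
    rwa [MvPolynomial.eval₂_X, Polynomial.eval₂_id] at h3
  choose χ hχ0 hχ using hroot
  refine ((Fintype.piFinset fun j => (χ j).roots.toFinset).finite_toSet.image ex).subset ?_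
  rintro w ⟨hw, hc⟩
  refine ⟨fun i : Fin N => w i, ?_, ?_⟩
  · rw [Finset.mem_coe, Fintype.mem_piFinset]
    intro j
    rw [Multiset.mem_toFinset, Polynomial.mem_roots (hχ0 j)]
    exact hχ j _ (hcrit w hw hc)
  · funext i
    simp only [ex]
    split_ifs with h
    · rfl
    · exact (hw i (by omega)).symm

end Pool.Agent.Helper97K9.IP
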