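import Pool.Agent.Helper97K9.IP.Nrm

/-!
# Rigid witnesses: the effective lower bound for `V(0)` [GAP]
-/

set_option autoImplicit false

namespace Pool.Agent.Helper97K9.IP

open Finset Filter Topology Pool.Agent.H612 Pool.Agent.R537.RN

theorem Vf_zero_pos {k M s : ℕ} (hk : k ≤ M) (p : MvPolynomial (Fin M) ℤ)
    (h : ∃ x : Fin k → ℝ, sx x < 1 ∧ ∀ z : Fin M → ℝ, 0 < q hk p x z) :
    0 < Vf hk p s 0 := by
  obtain ⟨x, hx, hz⟩ := h
  have hx1 : ∀ j, |x j| ≤ 1 := by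
    intro j
    have h1 : x j ^ 2 ≤ sx x :=
      Finset.single_le_sum (f := fun j => x j ^ 2) (fun _ _ => sq_nonneg _) (mem_univ j)
    rw [← sq_abs] at h1
    nlinarith [abs_nonneg (x j)]
  obtain ⟨z, -, hz2⟩ := exists_Hf hk p s x
  have h1 := le_Vf hk p s 0 hx1
  have h2 : 0 < Hf hk p s x := by
    rw [← hz2]
    exact mul_pos (hz z) (by linarith)
  simp only [Pi.zero_apply, zero_mul, Finset.sum_const_zero, sub_zero] at h1
  linarith

/-- [GAP] -/
theorem gap : S_GAP := by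
  intro k M s hk p ha hx
  have hVpos : 0 < Vf hk p (k + 2) 0 := Vf_zero_pos hk p hx
  have hV1 : Vf hk p (k + 2) 0 ≤ 1 := by
    have := Vf_le hk p ha (ρ := k + 2) (by omega) 0
    simpa using this
  obtain ⟨F, hFdef⟩ : ∃ F : MvPolynomial (Fin M) (MvPolynomial (Fin k) ℤ), F =
      gg (R := MvPolynomial (Fin M) (MvPolynomial (Fin k) ℤ)) hk p
        (fun j => MvPolynomial.C (MvPolynomial.X j))
        (fun l => ((k + 2 : ℕ) : MvPolynomial (Fin M) (MvPolynomial (Fin k) ℤ)) *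
          MvPolynomial.X l) := ⟨_, rfl⟩
  have hF : ∀ t, ((Lvl.int.ext k).ext M).φ t F =
      gg hk p t.1.2 (fun l => ((k + 2 : ℕ) : ℝ) * t.2 l) := by
    intro t
    rw [hFdef, gg_map]
    simp only [ext_φ_C, ext_φ_X, map_mul, map_natCast]
  have hFν : (wm (wm RNorm.int k) M).ν F ≤ 2 ^ (2 ^ (s + k) * 1000) := by
    rw [hFdef]
    refine gg_ν' hk p _ ha.deg ha.norm _ _ (fun j => ?_) (fun l => ?_)
    · rw [wm_C]
      exact wm_X _ j
    · exact wm_X _ l
  obtain ⟨h, hh'⟩ : ∃ h : (Unit × (Fin k → ℝ)) × (Fin M → ℝ) → ℝ, ∀ t,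
      h t = -((Lvl.int.ext k).ext M).φ t F := ⟨_, fun t => rfl⟩
  have hc : Continuous h := by
    have : h = fun t => -((Lvl.int.ext k).ext M).φ t F := funext hh'
    rw [this]
    exact (((Lvl.int.ext k).ext M).cont F).neg
  have hP0 : Polynomial.X + Polynomial.C F ≠ 0 := (Polynomial.monic_X_add_C F).ne_zero
  have hB : (wm (wm RNorm.int k) M).poly.ν (Polynomial.X + Polynomial.C F) ≤
      2 ^ 2 ^ (s + k + 20) := by
    refine (ν_X_add_C _ F).trans ?_
    have h3 : 1 ≤ 2 ^ (2 ^ (s + k) * 1000) := Nat.one_le_two_pow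
    calc 1 + (wm (wm RNorm.int k) M).ν F ≤ 2 ^ (2 ^ (s + k) * 1000 + 1) := by
          rw [pow_succ]; omega
      _ ≤ 2 ^ 2 ^ (s + k + 20) := by
        refine Nat.pow_le_pow_right (by norm_num) ?_
        have h4 : 1 ≤ 2 ^ (s + k) := Nat.one_le_two_pow
        have h5 : 2 ^ (s + k + 20) = 2 ^ (s + k) * 2 ^ 20 := pow_add _ _ _
        omega
  obtain ⟨Q, hQ0, hQν, hQ⟩ := (Lvl.int.ext k).step (wm RNorm.int k) (wm_pos RNorm.int int_pos)
    (Polynomial.X + Polynomial.C F) hP0 _ hB Nat.one_le_two_pow h hc (fun t => by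
      rw [Polynomial.eval₂_add, Polynomial.eval₂_X, Polynomial.eval₂_C, hh']; ring)
  have hQν' := (flip_ν (wm RNorm.int k) Q).trans
    (hQν.trans (bndL_le M (s + k + 20) _ (le_refl _)))
  obtain ⟨h1, hh1⟩ : ∃ h1 : Unit × (Fin k → ℝ) → ℝ, ∀ t, h1 t = -bmax h t := ⟨_, fun t => rfl⟩
  have hc1 : Continuous h1 := by
    have : h1 = fun t => -bmax h t := funext hh1
    rw [this]
    exact (continuous_bmax hc).neg
  obtain ⟨Q1, hQ10, hQ1ν, hQ1⟩ := Lvl.int.step RNorm.int int_pos (flip Q) (flip_ne_zero Q hQ0) _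
    hQν' Nat.one_le_two_pow h1 hc1 (fun t => by
      rw [flip_eval, hh1, neg_neg]
      exact hQ t)
  have hQ1ν' : RNorm.int.poly.ν Q1 ≤ 2 ^ 2 ^ K3 k M s :=
    hQ1ν.trans (bndL_le k _ _ (le_refl _))
  have e1 : ∀ x : Fin k → ℝ, h1 ((), x) = Hf hk p (k + 2) x := by
    intro x
    rw [hh1]
    unfold Hf bmax
    simp only [hh', hF]
  have e2 : bmax h1 () = Vf hk p (k + 2) 0 := by
    unfold Vf bmax
    simp only [e1, Pi.zero_apply, zero_mul, Finset.sum_const_zero, sub_zero]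
  have h3 := hQ1 ()
  rw [e2] at h3
  have h4 := root_bound Q1 hQ10 (2 ^ 2 ^ K3 k M s) hQ1ν' _ hVpos hV1 h3
  unfold hh
  push_cast at h4
  rw [one_div, inv_pow, inv_le_iff_one_le_mul₀ (by positivity), mul_comm]
  exact h4

end Pool.Agent.Helper97K9.IP
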