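import Pool.Agent.Helper97K9.IP.Basic

/-!
# The value `V(b)` is the value of a KKT point
-/

set_option autoImplicit false

namespace Pool.Agent.Helper97K9.IP

open Finset Filter Topology Pool.Agent.H612 Pool.Agent.R537.RN

namespace KktL

variable {k M : ℕ} (hk : k ≤ M) (p : MvPolynomial (Fin M) ℤ)

/-- the maximum point and the minimum -/
theorem setup {s : ℕ} (ha : Adm k M s hk p) (b : Fin k → ℝ)
    (hb : ∑ j, |b j| < Vf hk p (k + 2) b) :
    ∃ (x : Fin k → ℝ) (G : ℝ), sx x < 1 ∧ 0 ≤ G ∧ G ≤ k + 1 ∧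
      Vf hk p (k + 2) b = G * (1 - sx x) - ∑ j, b j * x j ∧
      (∃ z : Fin M → ℝ, (∀ l, |z l| ≤ (k : ℝ) + 2) ∧ q hk p x z = G) ∧
      (∀ z, G ≤ q hk p x z) ∧
      (∀ x' : Fin k → ℝ, (∀ j, |x' j| ≤ 1) → ∃ z : Fin M → ℝ, (∀ l, |z l| ≤ (k : ℝ) + 2) ∧
        gg hk p x' z - ∑ j, b j * x' j ≤ Vf hk p (k + 2) b) := by
  have hcast : ((k + 2 : ℕ) : ℝ) = (k : ℝ) + 2 := by push_cast; ring
  have hρ : 0 < k + 2 := by omega
  obtain ⟨x, hx, hV⟩ := exists_Vf hk p (k + 2) b
  obtain ⟨z, hz, hzH⟩ := exists_Hf hk p (k + 2) x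
  rw [hcast] at hz
  have hHpos : 0 < Hf hk p (k + 2) x := by
    have := (abs_le.1 (abs_sum_le (b := b) hx)).1
    linarith
  have hsx : sx x < 1 := by
    by_contra h
    have := Hf_nonpos hk p ha hρ (not_lt.1 h)
    linarith
  have h1 : 0 < 1 - sx x := by linarith
  have hcube : ∀ z' : Fin M → ℝ, (∀ l, |z' l| ≤ (k : ℝ) + 2) → q hk p x z ≤ q hk p x z' := by
    intro z' hz'
    have h2 := Hf_le hk p hρ x (z := z') (by rw [hcast]; exact hz')
    rw [← hzH] at h2
    unfold gg at h2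
    exact le_of_mul_le_mul_right h2 h1
  have hG : q hk p x z ≤ k + 1 := by
    obtain ⟨z0, h2, h3⟩ := q_base hk p ha
    have h4 := hcube z0 (fun l => (h2 l).trans (by
      have : (0 : ℝ) ≤ k := Nat.cast_nonneg k
      linarith))
    refine (h4.trans (h3 x)).trans ?_
    rcases Nat.eq_zero_or_pos k with h0 | h0
    · subst h0
      simp [sx]
    · have : (1 : ℝ) ≤ k := by exact_mod_cast h0
      linarith
  refine ⟨x, q hk p x z, hsx, q_nonneg hk p ha x z, hG, ?_, ⟨z, hz, rfl⟩, ?_, ?_⟩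
  · rw [← hV, ← hzH]; rfl
  · intro z'
    by_cases h : ∀ l, |z' l| ≤ (k : ℝ) + 2
    · exact hcube z' h
    · have h2 : ¬ pe p z' ≤ k + 1 := fun h3 => h (ha.coer z' h3)
      refine hG.trans ((not_le.1 h2).le.trans ?_)
      exact le_add_of_nonneg_left (Finset.sum_nonneg fun _ _ => sq_nonneg _)
  · intro x' hx'
    obtain ⟨z', hz', hzH'⟩ := exists_Hf hk p (k + 2) x'
    rw [hcast] at hz'
    refine ⟨z', hz', ?_⟩
    rw [hzH']
    exact le_Vf hk p (k + 2) b hx'

theorem sum_dite' (hk : k ≤ M) (g : Fin k → Fin M → ℝ) :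
    ∑ l : Fin M, (if h : (l : ℕ) < k then g ⟨l, h⟩ l else 0) = ∑ j, g j (Fin.castLE hk j) := by
  obtain ⟨m, rfl⟩ := Nat.exists_eq_add_of_le hk
  rw [Fin.sum_univ_add]
  have h1 : ∑ i : Fin m, (if h : ((Fin.natAdd k i : Fin (k + m)) : ℕ) < k then
      g ⟨(Fin.natAdd k i : Fin (k + m)), h⟩ (Fin.natAdd k i) else 0) = 0 := by
    refine Finset.sum_eq_zero fun i _ => ?_
    rw [dif_neg]
    simp
  rw [h1, add_zero]
  refine Finset.sum_congr rfl fun i _ => ?_
  rw [dif_pos (by simp)]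
  rfl

theorem hasDerivAt_q (x : Fin k → ℝ) (z : Fin M → ℝ) (l : Fin M) :
    HasDerivAt (fun t : ℝ => q hk p x (Function.update z l t)) (dq p l x z) (z l) := by
  classical
  have h1 : HasDerivAt (fun t : ℝ => pe p (Function.update z l t))
      (pe (MvPolynomial.pderiv l p) z) (z l) := hasDerivAt_eval₂ _ _ _ _
  have h2 : HasDerivAt (fun t : ℝ => ∑ j, (Function.update z l t (Fin.castLE hk j) - x j) ^ 2)
      (∑ j, (if Fin.castLE hk j = l then 2 * (z (Fin.castLE hk j) - x j) else 0)) (z l) := by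
    refine HasDerivAt.fun_sum fun j _ => ?_
    split_ifs with h
    · subst h
      simp only [Function.update_self]
      have := ((hasDerivAt_id' (z (Fin.castLE hk j))).sub_const (x j)).fun_pow 2
      simpa using this
    · simp only [Function.update_of_ne h]
      exact hasDerivAt_const _ _
  have h3 : ∑ j, (if Fin.castLE hk j = l then 2 * (z (Fin.castLE hk j) - x j) else 0) =
      if h : (l : ℕ) < k then 2 * (z l - x ⟨l, h⟩) else 0 := by
    rw [← sum_dite' hk (fun j l' => if l' = l then 2 * (z l' - x j) else 0),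
      Finset.sum_eq_single l]
    · simp
    · intro b _ hb
      simp [hb]
    · intro h; exact absurd (Finset.mem_univ _) h
  rw [h3] at h2
  exact h2.add h1

theorem dq_zero (x : Fin k → ℝ) (z : Fin M → ℝ) (h : ∀ z', q hk p x z ≤ q hk p x z')
    (l : Fin M) : dq p l x z = 0 := by
  have h1 : IsLocalMin (fun t : ℝ => q hk p x (Function.update z l t)) (z l) := by
    refine Filter.Eventually.of_forall fun t => ?_
    show q hk p x (Function.update z l (z l)) ≤ _
    rw [Function.update_eq_self]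
    exact h _
  exact h1.hasDerivAt_eq_zero (hasDerivAt_q hk p x z l)

theorem q_move (x d : Fin k → ℝ) (s : ℝ) (z : Fin M → ℝ) :
    q hk p (fun j => x j + s * d j) z = q hk p x z -
      2 * s * ∑ j, (z (Fin.castLE hk j) - x j) * d j + s ^ 2 * ∑ j, d j ^ 2 := by
  unfold q
  rw [Finset.mul_sum, Finset.mul_sum]
  have : ∑ j, (z (Fin.castLE hk j) - (x j + s * d j)) ^ 2 =
      ∑ j, (z (Fin.castLE hk j) - x j) ^ 2 - ∑ j, 2 * s * ((z (Fin.castLE hk j) - x j) * d j) +
        ∑ j, s ^ 2 * d j ^ 2 := by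
    rw [← Finset.sum_sub_distrib, ← Finset.sum_add_distrib]
    exact Finset.sum_congr rfl fun j _ => by ring
  rw [this]
  ring

theorem sx_move (x d : Fin k → ℝ) (s : ℝ) :
    sx (fun j => x j + s * d j) = sx x + 2 * s * ∑ j, x j * d j + s ^ 2 * ∑ j, d j ^ 2 := by
  unfold sx
  rw [Finset.mul_sum, Finset.mul_sum, ← Finset.sum_add_distrib, ← Finset.sum_add_distrib]
  exact Finset.sum_congr rfl fun j _ => by ring

/-- the difference quotient -/
noncomputable def QQ (b x d : Fin k → ℝ) (s : ℝ) (z : Fin M → ℝ) : ℝ :=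
  (-2 * ∑ j, (z (Fin.castLE hk j) - x j) * d j + s * ∑ j, d j ^ 2) *
    (1 - sx x - 2 * s * ∑ j, x j * d j - s ^ 2 * ∑ j, d j ^ 2) +
    q hk p x z * (-2 * ∑ j, x j * d j - s * ∑ j, d j ^ 2) - ∑ j, b j * d j

theorem gg_move (b x d : Fin k → ℝ) (s : ℝ) (z : Fin M → ℝ) :
    gg hk p (fun j => x j + s * d j) z - ∑ j, b j * (x j + s * d j) =
      gg hk p x z - ∑ j, b j * x j + s * QQ hk p b x d s z := by
  unfold gg QQ
  rw [q_move, sx_move]
  have : ∑ j, b j * (x j + s * d j) = ∑ j, b j * x j + s * ∑ j, b j * d j := by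
    rw [Finset.mul_sum, ← Finset.sum_add_distrib]
    exact Finset.sum_congr rfl fun j _ => by ring
  rw [this]
  ring

/-- the gradient in `x` -/
noncomputable def gr (b x : Fin k → ℝ) (G : ℝ) (z : Fin M → ℝ) : Fin k → ℝ := fun j =>
  (1 - sx x) * (2 * (x j - z (Fin.castLE hk j))) - 2 * G * x j - b j

theorem QQ_zero (b x d : Fin k → ℝ) (z : Fin M → ℝ) :
    QQ hk p b x d 0 z = ∑ j, gr hk b x (q hk p x z) z j * d j := by
  unfold QQ gr
  have : ∑ j, ((1 - sx x) * (2 * (x j - z (Fin.castLE hk j))) - 2 * q hk p x z * x j - b j) * d j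
      = (1 - sx x) * (-2 * ∑ j, (z (Fin.castLE hk j) - x j) * d j) -
        2 * q hk p x z * ∑ j, x j * d j - ∑ j, b j * d j := by
    simp only [Finset.mul_sum]
    rw [← Finset.sum_sub_distrib, ← Finset.sum_sub_distrib]
    exact Finset.sum_congr rfl fun j _ => by ring
  rw [this]
  ring

theorem cont_QQ (b x d : Fin k → ℝ) :
    Continuous (fun s : ℝ × (Fin M → ℝ) => QQ hk p b x d s.1 s.2) := by
  unfold QQ
  have h : Continuous (fun s : ℝ × (Fin M → ℝ) => q hk p x s.2) :=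
    (cont_q hk p).comp (g := fun s : (Fin k → ℝ) × (Fin M → ℝ) => q hk p s.1 s.2)
      (f := fun s : ℝ × (Fin M → ℝ) => (x, s.2)) (by fun_prop)
  fun_prop

theorem isCompact_cube (ρ : ℝ) : IsCompact {z : Fin M → ℝ | ∀ l, |z l| ≤ ρ} := by
  have : {z : Fin M → ℝ | ∀ l, |z l| ≤ ρ} = Set.pi Set.univ (fun _ => Set.Icc (-ρ) ρ) := by
    ext z
    simp only [Set.mem_ofPred_eq, Set.mem_pi, Set.mem_univ, true_implies, Set.mem_Icc, abs_le]
  rw [this]
  exact isCompact_univ_pi fun _ => isCompact_Icc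

theorem hull_eq {s : Set (Fin k → ℝ)} {x0 : Fin k → ℝ} (hx0 : x0 ∈ s) :
    convexHull ℝ s = (fun p : (Fin (k + 1) → ℝ) × (Fin (k + 1) → Fin k → ℝ) =>
      ∑ i, p.1 i • p.2 i) ''
      ((stdSimplex ℝ (Fin (k + 1))) ×ˢ (Set.pi Set.univ (fun _ : Fin (k + 1) => s))) := by
  classical
  apply Set.Subset.antisymm
  · intro x hx
    obtain ⟨ι, hι, z, w, hz, hai, hw0, hw1, hwz⟩ := eq_pos_convex_span_of_mem_convexHull hx
    have hcard : Fintype.card ι ≤ Fintype.card (Fin (k + 1)) := by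
      have h1 := hai.card_le_finrank_succ
      have h2 := Submodule.finrank_le (vectorSpan ℝ (Set.range z))
      rw [Module.finrank_fin_fun] at h2
      rw [Fintype.card_fin]
      omega
    obtain ⟨e⟩ := Function.Embedding.nonempty_of_card_le hcard
    refine ⟨(Function.extend e w 0, Function.extend e z (fun _ => x0)), ⟨⟨?_, ?_⟩, ?_⟩, ?_⟩
    · intro j
      show (0 : ℝ) ≤ Function.extend e w 0 j
      by_cases hj : ∃ i, e i = j
      · obtain ⟨i, rfl⟩ := hj
        rw [e.injective.extend_apply]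
        exact (hw0 i).le
      · rw [Function.extend_apply' _ _ _ hj]
        exact le_rfl
    · rw [← hw1]
      symm
      refine Fintype.sum_of_injective e e.injective _ _ ?_ ?_
      · intro j hj
        show Function.extend e w 0 j = 0
        rw [Function.extend_apply' _ _ _ hj]
        rfl
      · intro i
        show w i = Function.extend e w 0 (e i)
        rw [e.injective.extend_apply]
    · intro j _
      by_cases hj : ∃ i, e i = j
      · obtain ⟨i, rfl⟩ := hj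
        show Function.extend e z (fun _ => x0) (e i) ∈ s
        rw [e.injective.extend_apply]
        exact hz ⟨i, rfl⟩
      · show Function.extend e z (fun _ => x0) j ∈ s
        rw [Function.extend_apply' _ _ _ hj]
        exact hx0
    · rw [← hwz]
      symm
      refine Fintype.sum_of_injective e e.injective _ _ ?_ ?_
      · intro j hj
        show Function.extend e w 0 j • Function.extend e z (fun _ => x0) j = 0
        rw [Function.extend_apply' w _ _ hj]
        simp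
      · intro i
        show w i • z i = Function.extend e w 0 (e i) • Function.extend e z (fun _ => x0) (e i)
        rw [e.injective.extend_apply, e.injective.extend_apply]
  · rintro _ ⟨⟨w, z⟩, ⟨⟨hw0, hw1⟩, hz⟩, rfl⟩
    refine (convex_convexHull ℝ s).sum_mem (fun i _ => hw0 i) hw1 (fun i _ => ?_)
    exact subset_convexHull ℝ s (hz i (Set.mem_univ i))

theorem isClosed_hull {s : Set (Fin k → ℝ)} {x0 : Fin k → ℝ} (hx0 : x0 ∈ s) (hs : IsCompact s) :
    IsClosed (convexHull ℝ s) := by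
  rw [hull_eq hx0]
  have hK : IsCompact ((stdSimplex ℝ (Fin (k + 1))) ×ˢ
      (Set.pi Set.univ (fun _ : Fin (k + 1) => s))) :=
    (isCompact_stdSimplex ℝ (Fin (k + 1))).prod (isCompact_univ_pi fun _ => hs)
  have hcont : Continuous (fun p : (Fin (k + 1) → ℝ) × (Fin (k + 1) → Fin k → ℝ) =>
      ∑ i, p.1 i • p.2 i) := by
    refine continuous_finsetSum _ fun i _ => ?_
    exact ((continuous_apply i).comp continuous_fst).smul ((continuous_apply i).comp continuous_snd)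
  exact (hK.image hcont).isClosed

/-- `0` is in the convex hull of the gradients -/
theorem zero_mem (b x : Fin k → ℝ) (G V : ℝ) (hsx : sx x < 1)
    (hV : V = G * (1 - sx x) - ∑ j, b j * x j)
    (hz : ∃ z : Fin M → ℝ, (∀ l, |z l| ≤ (k : ℝ) + 2) ∧ q hk p x z = G)
    (hG : ∀ z, G ≤ q hk p x z)
    (hmax : ∀ x' : Fin k → ℝ, (∀ j, |x' j| ≤ 1) → ∃ z : Fin M → ℝ, (∀ l, |z l| ≤ (k : ℝ) + 2) ∧
        gg hk p x' z - ∑ j, b j * x' j ≤ V) :
    (0 : Fin k → ℝ) ∈ convexHull ℝ (gr hk b x G ''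
      {z : Fin M → ℝ | (∀ l, |z l| ≤ (k : ℝ) + 2) ∧ q hk p x z = G}) := by
  classical
  by_contra h0
  obtain ⟨z1, hz1, hqz1⟩ := hz
  have hcq : Continuous (fun z : Fin M → ℝ => q hk p x z) :=
    (cont_q hk p).comp (g := fun s : (Fin k → ℝ) × (Fin M → ℝ) => q hk p s.1 s.2)
      (f := fun z : Fin M → ℝ => (x, z)) (by fun_prop)
  have hZ : IsCompact {z : Fin M → ℝ | (∀ l, |z l| ≤ (k : ℝ) + 2) ∧ q hk p x z = G} :=
    (isCompact_cube _).inter_right (isClosed_eq hcq continuous_const)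
  have hgr : Continuous (gr hk b x G : (Fin M → ℝ) → Fin k → ℝ) := by
    unfold gr
    fun_prop
  have hcl := isClosed_hull (Set.mem_image_of_mem (gr hk b x G)
    (show z1 ∈ {z : Fin M → ℝ | (∀ l, |z l| ≤ (k : ℝ) + 2) ∧ q hk p x z = G} from ⟨hz1, hqz1⟩))
    (hZ.image hgr)
  obtain ⟨f, u, hf0, hf⟩ := geometric_hahn_banach_point_closed (convex_convexHull ℝ _) hcl h0
  rw [map_zero] at hf0
  let d : Fin k → ℝ := fun j => f (fun i => if j = i then 1 else 0)
  have hfd : ∀ y, f y = ∑ j, y j * d j := by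
    intro y
    have := (f : (Fin k → ℝ) →ₗ[ℝ] ℝ).pi_apply_eq_sum_univ y
    simpa [smul_eq_mul] using this
  have hpos : ∀ z : Fin M → ℝ, (∀ l, |z l| ≤ (k : ℝ) + 2) → q hk p x z = G →
      0 < QQ hk p b x d 0 z := by
    intro z hz hqz
    have h1 := hf _ (subset_convexHull ℝ _ (Set.mem_image_of_mem (gr hk b x G)
      (show z ∈ {z : Fin M → ℝ | (∀ l, |z l| ≤ (k : ℝ) + 2) ∧ q hk p x z = G} from ⟨hz, hqz⟩)))
    rw [hfd] at h1
    rw [QQ_zero, hqz]
    linarith
  have hc1 : Continuous (fun s : ℝ × (Fin M → ℝ) =>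
      gg hk p (fun j => x j + s.1 * d j) s.2 - ∑ j, b j * (x j + s.1 * d j)) := by
    refine Continuous.sub ?_ (by fun_prop)
    exact (cont_gg hk p).comp (g := fun s : (Fin k → ℝ) × (Fin M → ℝ) => gg hk p s.1 s.2)
      (f := fun s : ℝ × (Fin M → ℝ) => (fun j => x j + s.1 * d j, s.2)) (by fun_prop)
  have h1 : 0 < 1 - sx x := by linarith
  have hge : ∀ z : Fin M → ℝ, V ≤ gg hk p x z - ∑ j, b j * x j := by
    intro z
    rw [hV]
    unfold gg
    have := mul_le_mul_of_nonneg_right (hG z) h1.le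
    linarith
  have key : ∀ᶠ s in 𝓝 (0 : ℝ), ∀ z ∈ {z : Fin M → ℝ | ∀ l, |z l| ≤ (k : ℝ) + 2}, 0 < s →
      V < gg hk p (fun j => x j + s * d j) z - ∑ j, b j * (x j + s * d j) := by
    refine IsCompact.eventually_forall_of_forall_eventually (P := fun (s : ℝ) (z : Fin M → ℝ) =>
      0 < s → V < gg hk p (fun j => x j + s * d j) z - ∑ j, b j * (x j + s * d j))
      (isCompact_cube _) ?_
    intro z hz
    rcases (hG z).lt_or_eq with hlt | heq
    · have h2 : V < gg hk p (fun j => x j + (0 : ℝ) * d j) z - ∑ j, b j * (x j + (0 : ℝ) * d j) := by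
        simp only [zero_mul, add_zero]
        rw [hV]
        unfold gg
        have := mul_lt_mul_of_pos_right hlt h1
        linarith
      have h3 : ∀ᶠ s : ℝ × (Fin M → ℝ) in 𝓝 ((0 : ℝ), z),
          V < gg hk p (fun j => x j + s.1 * d j) s.2 - ∑ j, b j * (x j + s.1 * d j) :=
        Filter.Tendsto.eventually_const_lt h2 (hc1.tendsto ((0 : ℝ), z))
      exact h3.mono fun s hs _ => hs
    · have h2 := hpos z hz heq.symm
      have h3 : ∀ᶠ s : ℝ × (Fin M → ℝ) in 𝓝 ((0 : ℝ), z), 0 < QQ hk p b x d s.1 s.2 :=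
        Filter.Tendsto.eventually_const_lt h2 ((cont_QQ hk p b x d).tendsto ((0 : ℝ), z))
      refine h3.mono fun s hs hs0 => ?_
      rw [gg_move]
      have h4 := hge s.2
      have h5 := mul_pos hs0 hs
      linarith
  have hcube : ∀ᶠ s in 𝓝 (0 : ℝ), ∀ j, |x j + s * d j| ≤ 1 := by
    rw [eventually_all]
    intro j
    have hxj : |x j| < 1 := by
      rw [← sq_lt_one_iff_abs_lt_one]
      refine lt_of_le_of_lt ?_ hsx
      exact Finset.single_le_sum (f := fun j => x j ^ 2) (fun _ _ => sq_nonneg _)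
        (Finset.mem_univ j)
    have h2 : Continuous (fun s : ℝ => |x j + s * d j|) := by fun_prop
    have h3 : |x j + (0 : ℝ) * d j| < 1 := by simpa using hxj
    have h4 : ∀ᶠ s in 𝓝 (0 : ℝ), |x j + s * d j| < 1 :=
      Filter.Tendsto.eventually_lt_const h3 (h2.tendsto 0)
    exact h4.mono fun s hs => hs.le
  have hex : ∃ s : ℝ, 0 < s ∧ (∀ z ∈ {z : Fin M → ℝ | ∀ l, |z l| ≤ (k : ℝ) + 2}, 0 < s →
      V < gg hk p (fun j => x j + s * d j) z - ∑ j, b j * (x j + s * d j)) ∧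
      ∀ j, |x j + s * d j| ≤ 1 := by
    have h2 : ∀ᶠ s in 𝓝[>] (0 : ℝ), 0 < s := eventually_mem_nhdsWithin
    exact (h2.and ((key.filter_mono nhdsWithin_le_nhds).and
      (hcube.filter_mono nhdsWithin_le_nhds))).exists
  obtain ⟨s, hs, h2, h3⟩ := hex
  obtain ⟨z, hz, h4⟩ := hmax (fun j => x j + s * d j) h3
  exact absurd h4 (not_le.2 (h2 z hz hs))

/-- the point of `Fsq` -/
noncomputable def pt (k M : ℕ) (x : Fin k → ℝ) (G V : ℝ) (μ : Fin (k + 1) → ℝ)
    (Z : Fin (k + 1) → Fin M → ℝ) (i : ℕ) : ℝ :=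
  if h : i < k then x ⟨i, h⟩ else if i = k then G else if i = k + 1 then V else
    if h : i - (k + 2) < k + 1 then μ ⟨i - (k + 2), h⟩ else
      if h : (i - (2 * k + 3)) / M < k + 1 ∧ (i - (2 * k + 3)) % M < M then
        Z ⟨_, h.1⟩ ⟨_, h.2⟩ else 0

theorem pt_x (x : Fin k → ℝ) (G V : ℝ) (μ : Fin (k + 1) → ℝ) (Z : Fin (k + 1) → Fin M → ℝ) :
    xw k (pt k M x G V μ Z) = x := by
  funext j
  rw [xw, pt, dif_pos j.2]

theorem pt_k (x : Fin k → ℝ) (G V : ℝ) (μ : Fin (k + 1) → ℝ) (Z : Fin (k + 1) → Fin M → ℝ) :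
    pt k M x G V μ Z k = G := by
  rw [pt, dif_neg (lt_irrefl k), if_pos rfl]

theorem pt_k1 (x : Fin k → ℝ) (G V : ℝ) (μ : Fin (k + 1) → ℝ) (Z : Fin (k + 1) → Fin M → ℝ) :
    pt k M x G V μ Z (k + 1) = V := by
  rw [pt, dif_neg (by omega), if_neg (by omega), if_pos rfl]

theorem pt_μ (x : Fin k → ℝ) (G V : ℝ) (μ : Fin (k + 1) → ℝ) (Z : Fin (k + 1) → Fin M → ℝ)
    (i : Fin (k + 1)) : μw k (pt k M x G V μ Z) i = μ i := by
  have h : k + 2 + (i : ℕ) - (k + 2) = i := by omega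
  rw [μw, pt, dif_neg (by omega), if_neg (by omega), if_neg (by omega),
    dif_pos (by rw [h]; exact i.2)]
  congr 1
  exact Fin.ext h

theorem pt_z (x : Fin k → ℝ) (G V : ℝ) (μ : Fin (k + 1) → ℝ) (Z : Fin (k + 1) → Fin M → ℝ)
    (i : Fin (k + 1)) : zw k M (pt k M x G V μ Z) i = Z i := by
  funext l
  have h : 2 * k + 3 + (i : ℕ) * M + (l : ℕ) - (2 * k + 3) = l + M * i := by
    rw [mul_comm M]; omega
  have hM : 0 < M := lt_of_le_of_lt (Nat.zero_le _) l.2
  have h1 : ((l : ℕ) + M * i) / M = i := by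
    rw [Nat.add_mul_div_left _ _ hM, Nat.div_eq_of_lt l.2, zero_add]
  have h2 : ((l : ℕ) + M * i) % M = l := by
    rw [Nat.add_mul_mod_self_left, Nat.mod_eq_of_lt l.2]
  rw [zw, pt, dif_neg (by omega), if_neg (by omega), if_neg (by omega), dif_neg (by omega),
    dif_pos (by rw [h, h1, h2]; exact ⟨i.2, l.2⟩)]
  have aux : ∀ (a b : ℕ) (ha : a < k + 1) (hb : b < M), a = i → b = l →
      Z ⟨a, ha⟩ ⟨b, hb⟩ = Z i l := by
    rintro a b ha hb rfl rfl; rfl
  exact aux _ _ _ _ (by rw [h, h1]) (by rw [h, h2])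

theorem pt_abs {x : Fin k → ℝ} {G V : ℝ} {μ : Fin (k + 1) → ℝ} {Z : Fin (k + 1) → Fin M → ℝ}
    {B : ℝ} (hx : ∀ j, |x j| ≤ B) (hG : |G| ≤ B) (hV : |V| ≤ B) (hμ : ∀ i, |μ i| ≤ B)
    (hZ : ∀ i l, |Z i l| ≤ B) (i : ℕ) : |pt k M x G V μ Z i| ≤ B := by
  unfold pt
  split_ifs
  · exact hx _
  · exact hG
  · exact hV
  · exact hμ _
  · exact hZ _ _
  · rw [abs_zero]
    exact (abs_nonneg _).trans hG

end KktL

open KktL in
/-- `S_KKT` -/
theorem kkt : S_KKT := by
  intro k M s hk p ha b hb1 hbV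
  obtain ⟨x, G, hsx, hG0, hG1, hV, hz, hG, hmax⟩ := setup hk p ha b hbV
  have h0 := zero_mem hk p b x G _ hsx hV hz hG hmax
  obtain ⟨z1, hz1, hqz1⟩ := hz
  rw [hull_eq (Set.mem_image_of_mem (gr hk b x G)
    (show z1 ∈ {z : Fin M → ℝ | (∀ l, |z l| ≤ (k : ℝ) + 2) ∧ q hk p x z = G} from
      ⟨hz1, hqz1⟩))] at h0
  obtain ⟨⟨w, y⟩, ⟨⟨hw0, hw1⟩, hy⟩, hwy⟩ := h0
  have hy' : ∀ i, ∃ z : Fin M → ℝ, ((∀ l, |z l| ≤ (k : ℝ) + 2) ∧ q hk p x z = G) ∧
      gr hk b x G z = y i := fun i => hy i (Set.mem_univ i)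
  choose Z hZ hZy using hy'
  have hk0 : (0 : ℝ) ≤ k := Nat.cast_nonneg k
  have hμ2 : ∀ i, Real.sqrt (w i) ^ 2 = w i := fun i => Real.sq_sqrt (hw0 i)
  have hw1' : ∀ i, w i ≤ 1 := by
    intro i
    rw [← hw1]
    exact Finset.single_le_sum (f := w) (fun i _ => hw0 i) (Finset.mem_univ i)
  refine ⟨pt k M x G (Vf hk p (k + 2) b) (fun i => Real.sqrt (w i)) Z, ?_, ?_, pt_k1 _ _ _ _ _⟩
  · refine pt_abs ?_ ?_ ?_ ?_ ?_
    · intro j
      have hxj : |x j| < 1 := by
        rw [← sq_lt_one_iff_abs_lt_one]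
        refine lt_of_le_of_lt ?_ hsx
        exact Finset.single_le_sum (f := fun j => x j ^ 2) (fun _ _ => sq_nonneg _)
          (Finset.mem_univ j)
      linarith
    · rw [abs_of_nonneg hG0]; linarith
    · have h1 := Vf_le hk p ha (ρ := k + 2) (by omega) b
      have h2 : 0 ≤ ∑ j, |b j| := Finset.sum_nonneg fun _ _ => abs_nonneg _
      rw [abs_of_nonneg (by linarith)]
      linarith
    · intro i
      rw [abs_of_nonneg (Real.sqrt_nonneg _)]
      have : Real.sqrt (w i) ≤ 1 := Real.sqrt_le_one.2 (hw1' i)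
      linarith
    · exact fun i l => (hZ i).1 l
  · unfold Fsq
    have hC : ∀ j, Ceq hk (pt k M x G (Vf hk p (k + 2) b) (fun i => Real.sqrt (w i)) Z) j =
        b j := by
      intro j
      unfold Ceq
      rw [pt_x, pt_k]
      simp only [pt_μ, pt_z, hμ2]
      have h1 := congrFun hwy j
      simp only [Finset.sum_apply, Pi.smul_apply, smul_eq_mul, Pi.zero_apply] at h1
      have h2 : ∀ i, w i * y i j = (1 - sx x) * (w i * (2 * (x j - Z i (Fin.castLE hk j)))) -
          w i * (2 * G * x j + b j) := by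
        intro i
        rw [← hZy i, gr]
        ring
      rw [Finset.sum_congr rfl fun i _ => h2 i, Finset.sum_sub_distrib, ← Finset.mul_sum,
        ← Finset.sum_mul, hw1] at h1
      linarith
    have hE : Eeq k (pt k M x G (Vf hk p (k + 2) b) (fun i => Real.sqrt (w i)) Z) =
        ∑ j, b j * x j := by
      unfold Eeq
      rw [pt_x, pt_k, pt_k1, hV]
      ring
    rw [hE, pt_x, pt_k]
    simp only [pt_μ, pt_z, hμ2, hw1, hC, one_mul, sub_self]
    have hd : ∀ i l, dq p l x (Z i) = 0 := fun i l => dq_zero hk p x (Z i) (by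
      rw [(hZ i).2]; exact hG) l
    simp only [hd, (hZ _).2, sub_self]
    simp

end Pool.Agent.Helper97K9.IP
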