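import Pool.Agent.Helper97K9.IP.Nrm

/-!
# Lacunary points: an integer polynomial of bounded norm does not vanish at a lacunary point
-/

set_option autoImplicit false

namespace Pool.Agent.Helper97K9.IP

open Finset Filter Topology Pool.Agent.H612 Pool.Agent.R537.RN

/-- Two monomials of degree at most `D` at a lacunary point. -/
theorem lac_pair (B : ℝ) (hB : 1 ≤ B) (D : ℕ) (hD : 1 ≤ D) (t : ℕ → ℝ) : ∀ m : ℕ,
    (∀ n < m, 0 < t n) → (∀ n < m, t n ≤ 1) → (0 < m → B * t 0 ≤ 1) →
    (∀ n, n + 1 < m → B * t (n + 1) ≤ t n ^ D) → ∀ d d' : ℕ → ℕ,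
    ∑ i ∈ range m, d i ≤ D → ∑ i ∈ range m, d' i ≤ D → (∃ i < m, d i ≠ d' i) →
    B * ∏ i ∈ range m, t i ^ d' i ≤ ∏ i ∈ range m, t i ^ d i ∨
      B * ∏ i ∈ range m, t i ^ d i ≤ ∏ i ∈ range m, t i ^ d' i := by
  intro m
  induction m with
  | zero =>
    intro _ _ _ _ d d' _ _ h
    obtain ⟨i, hi, _⟩ := h
    omega
  | succ m ih =>
    intro hp h1 h0 hs d d' hd hd' hne
    have hanti : ∀ n, n + 1 < m + 1 → t (n + 1) ≤ t n := by
      intro n hn
      have h2 := hs n hn
      have h3 : t (n + 1) ≤ B * t (n + 1) := le_mul_of_one_le_left (hp _ hn).le hB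
      have h4 : t n ^ D ≤ t n ^ 1 :=
        pow_le_pow_of_le_one (hp n (by omega)).le (h1 n (by omega)) hD
      rw [pow_one] at h4
      linarith
    have hanti2 : ∀ n, ∀ i ≤ n, n < m + 1 → t n ≤ t i := by
      intro n
      induction n with
      | zero => intro i hi _; rw [Nat.le_zero.1 hi]
      | succ n ihn =>
        intro i hi hn
        rcases Nat.lt_or_ge i (n + 1) with h | h
        · exact (hanti n hn).trans (ihn i (by omega) (by omega))
        · rw [le_antisymm hi h]
    -- the lower bound for a product of degree at most `D`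
    have hlow : ∀ e : ℕ → ℕ, ∑ i ∈ range (m + 1), e i ≤ D →
        B * t m ≤ ∏ i ∈ range m, t i ^ e i := by
      intro e he
      rcases Nat.eq_zero_or_pos m with h | h
      · subst h
        simpa using h0 (by omega)
      · obtain ⟨n, rfl⟩ : ∃ n, m = n + 1 := ⟨m - 1, by omega⟩
        refine (hs n (by omega)).trans ?_
        have he2 : ∑ i ∈ range (n + 1), e i ≤ D := by
          rw [Finset.sum_range_succ] at he
          omega
        calc t n ^ D ≤ t n ^ (∑ i ∈ range (n + 1), e i) :=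
              pow_le_pow_of_le_one (hp n (by omega)).le (h1 n (by omega)) he2
          _ = ∏ i ∈ range (n + 1), t n ^ e i := (Finset.prod_pow_eq_pow_sum _ _ _).symm
          _ ≤ ∏ i ∈ range (n + 1), t i ^ e i := by
              refine Finset.prod_le_prod (fun i _ => (pow_pos (hp n (by omega)) _).le)
                fun i hi => ?_
              have hi' := Finset.mem_range.1 hi
              exact pow_le_pow_left₀ (hp n (by omega)).le (hanti2 n i (by omega) (by omega)) _
    have hle1 : ∀ e : ℕ → ℕ, ∏ i ∈ range m, t i ^ e i ≤ 1 := by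
      intro e
      refine Finset.prod_le_one (fun i hi => (pow_pos (hp i ?_) _).le) fun i hi => ?_
      · have := Finset.mem_range.1 hi; omega
      · have := Finset.mem_range.1 hi
        exact pow_le_one₀ (hp i (by omega)).le (h1 i (by omega))
    have hkey : ∀ e e' : ℕ → ℕ, ∑ i ∈ range (m + 1), e i ≤ D → e m < e' m →
        B * ∏ i ∈ range (m + 1), t i ^ e' i ≤ ∏ i ∈ range (m + 1), t i ^ e i := by
      intro e e' he hlt
      rw [Finset.prod_range_succ, Finset.prod_range_succ]
      have hpm := hp m (by omega)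
      have h5 : t m ^ e' m ≤ t m ^ (e m + 1) :=
        pow_le_pow_of_le_one hpm.le (h1 m (by omega)) hlt
      have h6 := hle1 e'
      have h7 := hlow e he
      have h8 : 0 < t m ^ e m := pow_pos hpm _
      have h9 : 0 ≤ t m ^ e' m := (pow_pos hpm _).le
      calc B * ((∏ i ∈ range m, t i ^ e' i) * t m ^ e' m)
          ≤ B * (1 * t m ^ (e m + 1)) := by
            refine mul_le_mul_of_nonneg_left ?_ (by linarith)
            exact mul_le_mul h6 h5 h9 zero_le_one
        _ = (B * t m) * t m ^ e m := by rw [pow_succ]; ring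
        _ ≤ _ := mul_le_mul_of_nonneg_right h7 h8.le
    rcases lt_trichotomy (d m) (d' m) with h | h | h
    · exact Or.inl (hkey d d' hd h)
    · have hd2 : ∑ i ∈ range m, d i ≤ D := by rw [Finset.sum_range_succ] at hd; omega
      have hd2' : ∑ i ∈ range m, d' i ≤ D := by rw [Finset.sum_range_succ] at hd'; omega
      have hne2 : ∃ i < m, d i ≠ d' i := by
        obtain ⟨i, hi, hi2⟩ := hne
        rcases Nat.lt_or_ge i m with h' | h'
        · exact ⟨i, h', hi2⟩
        · exfalso
          have : i = m := by omega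
          rw [this] at hi2
          exact hi2 h
      have hpm : 0 < t m ^ d m := pow_pos (hp m (by omega)) _
      rcases ih (fun n hn => hp n (by omega)) (fun n hn => h1 n (by omega))
        (fun _ => h0 (by omega)) (fun n hn => hs n (by omega)) d d' hd2 hd2' hne2 with h3 | h3
      · left
        rw [Finset.prod_range_succ, Finset.prod_range_succ, ← h, ← mul_assoc]
        exact mul_le_mul_of_nonneg_right h3 hpm.le
      · right
        rw [Finset.prod_range_succ, Finset.prod_range_succ, ← h, ← mul_assoc]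
        exact mul_le_mul_of_nonneg_right h3 hpm.le
    · exact Or.inr (hkey d' d hd' h)

/-- An integer polynomial of bounded norm does not vanish at a lacunary point. -/
theorem lac_ne {m : ℕ} (c : MvPolynomial (Fin m) ℤ) (hc : c ≠ 0) (K : ℕ)
    (hB : (wm RNorm.int m).ν c ≤ 2 ^ 2 ^ K) (t : Fin m → ℝ) (ht0 : ∀ i, 0 < t i)
    (ht1 : ∀ i, t i ≤ 1) (h0 : ∀ i : Fin m, (i : ℕ) = 0 → 2 * 2 ^ 2 ^ K * t i ≤ 1)
    (hs : ∀ i i' : Fin m, (i : ℕ) + 1 = i' → 2 * 2 ^ 2 ^ K * t i' ≤ t i ^ (2 ^ K)) :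
    MvPolynomial.eval₂ (Int.castRingHom ℝ) t c ≠ 0 := by
  classical
  obtain ⟨u, hu⟩ : ∃ u : ℕ → ℝ, ∀ n, u n = if h : n < m then t ⟨n, h⟩ else 0 := ⟨_, fun n => rfl⟩
  have hut : ∀ i : Fin m, u i = t i := by
    intro i
    rw [hu, dif_pos i.2]
  obtain ⟨w, hw⟩ : ∃ w : (Fin m →₀ ℕ) → ℝ, ∀ d, w d = ∏ i, t i ^ d i := ⟨_, fun d => rfl⟩
  have hwpos : ∀ d, 0 < w d := fun d => by
    rw [hw]
    exact Finset.prod_pos fun i _ => pow_pos (ht0 i) _
  obtain ⟨B, hBdef⟩ : ∃ B : ℝ, B = 2 * 2 ^ 2 ^ K := ⟨_, rfl⟩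
  have hB2 : 2 ≤ B := by
    rw [hBdef]
    have : (1 : ℝ) ≤ 2 ^ 2 ^ K := one_le_pow₀ (by norm_num)
    linarith
  have hdeg : ∀ d ∈ c.support, ∑ i, d i ≤ 2 ^ K := by
    intro d hd
    have h1 := (two_pow_le_wν RNorm.int int_pos hd).trans hB
    exact (Nat.pow_le_pow_iff_right (by norm_num)).1 h1
  have hpair : ∀ d ∈ c.support, ∀ d' ∈ c.support, d ≠ d' → B * w d' ≤ w d ∨ B * w d ≤ w d' := by
    intro d hd d' hd' hne
    obtain ⟨e, he⟩ : ∃ e : ℕ → ℕ, ∀ n, e n = if h : n < m then d ⟨n, h⟩ else 0 :=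
      ⟨_, fun n => rfl⟩
    obtain ⟨e', he'⟩ : ∃ e : ℕ → ℕ, ∀ n, e n = if h : n < m then d' ⟨n, h⟩ else 0 :=
      ⟨_, fun n => rfl⟩
    have hed : ∀ i : Fin m, e i = d i := fun i => by rw [he, dif_pos i.2]
    have hed' : ∀ i : Fin m, e' i = d' i := fun i => by rw [he', dif_pos i.2]
    have hprod : ∏ i ∈ range m, u i ^ e i = w d := by
      rw [Finset.prod_range, hw]
      exact Finset.prod_congr rfl fun i _ => by rw [hut, hed]
    have hprod' : ∏ i ∈ range m, u i ^ e' i = w d' := by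
      rw [Finset.prod_range, hw]
      exact Finset.prod_congr rfl fun i _ => by rw [hut, hed']
    have h1 := lac_pair B (by linarith) (2 ^ K) Nat.one_le_two_pow u m
      (fun n hn => by rw [hu, dif_pos hn]; exact ht0 _)
      (fun n hn => by rw [hu, dif_pos hn]; exact ht1 _)
      (fun hm => by rw [hu, dif_pos hm, hBdef]; exact h0 ⟨0, hm⟩ rfl)
      (fun n hn => by
        rw [hu, dif_pos hn, hu, dif_pos (show n < m by omega), hBdef]
        exact hs ⟨n, by omega⟩ ⟨n + 1, hn⟩ rfl) e e'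
      (by rw [Finset.sum_range]; simp_rw [hed]; exact hdeg d hd)
      (by rw [Finset.sum_range]; simp_rw [hed']; exact hdeg d' hd')
      (by
        by_contra hcon
        push Not at hcon
        apply hne
        ext i
        rw [← hed, ← hed']
        exact hcon i i.2)
    rw [hprod, hprod'] at h1
    exact h1
  obtain ⟨ds, hds, hmax⟩ := Finset.exists_max_image c.support w
    (MvPolynomial.support_nonempty.2 hc)
  intro hzero
  rw [MvPolynomial.eval₂_eq', ← Finset.add_sum_erase _ _ hds] at hzero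
  have h1 : |∑ d ∈ c.support.erase ds, (Int.castRingHom ℝ) (c.coeff d) * ∏ i, t i ^ d i| ≤
      w ds / 2 := by
    refine (Finset.abs_sum_le_sum_abs _ _).trans ?_
    have h2 : ∀ d ∈ c.support.erase ds,
        |(Int.castRingHom ℝ) (c.coeff d) * ∏ i, t i ^ d i| ≤
          |((c.coeff d : ℤ) : ℝ)| * (w ds / B) := by
      intro d hd
      rw [← hw, abs_mul, abs_of_pos (hwpos d)]
      simp only [eq_intCast]
      refine mul_le_mul_of_nonneg_left ?_ (abs_nonneg _)
      rw [le_div_iff₀ (by linarith), mul_comm]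
      have hdd := Finset.mem_of_mem_erase hd
      rcases hpair d hdd ds hds (Finset.ne_of_mem_erase hd) with h3 | h3
      · exfalso
        have h4 := hmax d hdd
        have h5 := hwpos ds
        nlinarith
      · exact h3
    refine (Finset.sum_le_sum h2).trans ?_
    rw [← Finset.sum_mul]
    have h3 : ∑ d ∈ c.support.erase ds, |((c.coeff d : ℤ) : ℝ)| ≤ 2 ^ 2 ^ K := by
      have h7 : ∑ i ∈ c.support.erase ds, |((c.coeff i : ℤ) : ℝ)| ≤ ∑ i ∈ c.support, |((c.coeff i : ℤ) : ℝ)| :=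
        Finset.sum_le_sum_of_subset_of_nonneg (Finset.erase_subset _ _) fun _ _ _ => abs_nonneg _
      refine h7.trans ?_
      have h8 : (∑ i ∈ c.support, (c.coeff i).natAbs : ℕ) ≤ 2 ^ 2 ^ K :=
        (mν_le_wν RNorm.int c).trans hB
      have h9 : ((∑ i ∈ c.support, (c.coeff i).natAbs : ℕ) : ℝ) ≤ ((2 ^ 2 ^ K : ℕ) : ℝ) := by
        exact_mod_cast h8
      push_cast at h9
      refine le_trans (le_of_eq ?_) h9
      refine Finset.sum_congr rfl fun i _ => ?_
      rw [Nat.cast_natAbs, Int.cast_abs]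
    have h4 : 0 < w ds / B := div_pos (hwpos ds) (by linarith)
    calc _ ≤ 2 ^ 2 ^ K * (w ds / B) := mul_le_mul_of_nonneg_right h3 h4.le
      _ = w ds / 2 := by
        rw [hBdef]
        field_simp
  have h2 : 1 ≤ |((c.coeff ds : ℤ) : ℝ)| := by
    have h3 : c.coeff ds ≠ 0 := MvPolynomial.mem_support_iff.1 hds
    have h4 : 1 ≤ |c.coeff ds| := Int.one_le_abs h3
    exact_mod_cast h4
  have h3 : |(Int.castRingHom ℝ) (c.coeff ds) * ∏ i, t i ^ ds i| = |((c.coeff ds : ℤ) : ℝ)| * w ds := by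
    rw [← hw, abs_mul, abs_of_pos (hwpos ds)]
    simp
  have h4 : (Int.castRingHom ℝ) (c.coeff ds) * ∏ i, t i ^ ds i =
      -∑ d ∈ c.support.erase ds, (Int.castRingHom ℝ) (c.coeff d) * ∏ i, t i ^ d i := by
    linarith
  rw [h4, abs_neg] at h3
  rw [h3] at h1
  have h5 := hwpos ds
  nlinarith

end Pool.Agent.Helper97K9.IP
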