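import Pool.Agent.Helper97K9.IP.Basic

/-!
# Rigid witnesses: assembly of the analytic part
-/

set_option autoImplicit false

namespace Pool.Agent.Helper97K9.IP

open Finset Filter Topology Pool.Agent.H612 Pool.Agent.R537.RN

theorem k_le_K1 (k M s : ℕ) : k + 1 ≤ K1 k M s := by
  unfold K1
  generalize Gx (M + M + k) (Gx M (s + k + 20)) = A
  unfold Gx
  nlinarith

theorem ea_succ (k M s i : ℕ) : ea k M s (i + 1) = ea k M s i + K1 k M s + 1 := by
  unfold ea; ring

theorem ea_mono (k M s : ℕ) {i j : ℕ} (h : i ≤ j) : ea k M s i ≤ ea k M s j := by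
  unfold ea
  have := Nat.mul_le_mul_right (K1 k M s + 1) h
  omega

/-- The product estimate for consecutive small numbers. -/
theorem hh_stepM {a c n : ℕ} (h : c ≤ a) : 2 ^ n * hh (a + n + 1) ≤ hh a * hh c := by
  have h1 : hh (a + 1) = hh a ^ 2 := by rw [hh_add]; norm_num
  have h2 := two_pow_mul_hh (a + 1) n
  have h3 : hh (a + n + 1) = hh (a + 1 + n) := by congr 1; ring
  rw [h3]
  refine h2.trans ?_
  rw [h1, pow_two]
  exact mul_le_mul_of_nonneg_left (hh_anti h) (hh_pos a).le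

variable {k M s : ℕ} (hk : k ≤ M) (p : MvPolynomial (Fin M) ℤ)

theorem t0_gamma (k M s : ℕ) : 1024 * (k + 1) * hh (ea k M s 0) ≤ hh (K3 k M s) := by
  have h1 := two_pow_mul_hh (K3 k M s) (K1 k M s + k + 10)
  have h2 : ea k M s 0 = K3 k M s + (K1 k M s + k + 10) := by unfold ea; ring
  rw [← h2] at h1
  refine le_trans (mul_le_mul_of_nonneg_right ?_ (hh_pos _).le) h1
  have h3 : (k : ℝ) + 1 ≤ 2 ^ k := by
    have : k + 1 ≤ 2 ^ k := Nat.lt_two_pow_self
    exact_mod_cast this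
  have h4 : (1 : ℝ) ≤ 2 ^ (K1 k M s) := one_le_pow₀ (by norm_num)
  have h5 : (2 : ℝ) ^ (K1 k M s + k + 10) = 2 ^ (K1 k M s) * 2 ^ k * 1024 := by
    rw [pow_add, pow_add]; norm_num
  rw [h5]
  have h6 : (0 : ℝ) < 2 ^ k := by positivity
  nlinarith

theorem bb_nonneg (a : ℕ → ℕ) (j : ℕ) (i : Fin k) : 0 ≤ bb k a j i := by
  unfold bb
  split_ifs
  · exact (hh_pos _).le
  · exact le_refl _

/-- The tails of the small numbers. -/
theorem tail_le (k M s j : ℕ) :
    2 * ((k : ℝ) * hh (ea k M s (j + 1))) ≤ hh (ea k M s j) * hh (ea k M s 0) := by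
  have h1 := hh_stepM (n := K1 k M s) (ea_mono k M s (Nat.zero_le j))
  rw [← ea_succ] at h1
  refine le_trans ?_ h1
  rw [← mul_assoc]
  refine mul_le_mul_of_nonneg_right ?_ (hh_pos _).le
  have h2 : k + 1 ≤ 2 ^ k := Nat.lt_two_pow_self
  have h3 : 2 ^ (k + 1) ≤ 2 ^ K1 k M s := Nat.pow_le_pow_right (by norm_num) (k_le_K1 k M s)
  have h4 : 2 * k ≤ 2 ^ K1 k M s := by rw [pow_succ] at h3; omega
  exact_mod_cast h4

theorem sum_bb_le (k M s j : ℕ) : ∑ i, |bb k (ea k M s) j i| ≤ hh (ea k M s 0) := by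
  have h1 : ∀ i : Fin k, |bb k (ea k M s) j i| ≤ hh (ea k M s 1) := by
    intro i
    rw [abs_of_nonneg (bb_nonneg _ _ _)]
    unfold bb
    split_ifs
    · exact hh_anti (ea_mono k M s (by omega))
    · exact (hh_pos _).le
  have h2 : ∑ i, |bb k (ea k M s) j i| ≤ k * hh (ea k M s 1) := by
    refine (Finset.sum_le_sum fun i _ => h1 i).trans (le_of_eq ?_)
    simp
  have h3 := tail_le k M s 0
  have h4 := hh_le_one (ea k M s 0)
  have h5 := hh_pos (ea k M s 0)
  have h6 : 0 ≤ (k : ℝ) * hh (ea k M s 1) := mul_nonneg (Nat.cast_nonneg _) (hh_pos _).le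
  rw [zero_add] at h3
  nlinarith

/-- The size of the last perturbation. -/
theorem last_lt (k M s : ℕ) : hh (ae k M s) * (dN k M * (k + 2) ^ 128) <
    hh (ac k M s (ea k M s k) (ea k M s k + 2)) := by
  obtain ⟨c, hc⟩ : ∃ c, c = ac k M s (ea k M s k) (ea k M s k + 2) := ⟨_, rfl⟩
  obtain ⟨n, hn⟩ : ∃ n, n = dN k M + k + 20 := ⟨_, rfl⟩
  have g2 : ae k M s = c + n := by rw [hc, hn]; unfold ae; ring
  rw [g2, ← hc, hh_add]
  have hc0 := hh_pos c
  have hc1 : hh c ≤ 1 / 2 := by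
    unfold hh
    calc ((1:ℝ) / 2) ^ 2 ^ c ≤ (1 / 2) ^ 1 :=
          pow_le_pow_of_le_one (by norm_num) (by norm_num) Nat.one_le_two_pow
      _ = 1 / 2 := pow_one _
  have e1 : dN k M < 2 ^ dN k M := Nat.lt_two_pow_self
  have e2 : k + 2 ≤ 2 ^ (k + 1) := Nat.lt_two_pow_self
  have e3 : dN k M * (k + 2) ^ 128 < 2 ^ (dN k M + (k + 1) * 128) := by
    rw [pow_add, pow_mul]
    exact Nat.mul_lt_mul_of_lt_of_le e1 (Nat.pow_le_pow_left e2 _) (by positivity)
  have e4 : dN k M + (k + 1) * 128 + 1 ≤ 2 ^ n := by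
    have f1 : dN k M + 1 ≤ 2 ^ dN k M := e1
    have f2 : k + 1 ≤ 2 ^ k := Nat.lt_two_pow_self
    have f3 : 2 ^ n = 2 ^ dN k M * 2 ^ k * 2 ^ 20 := by rw [hn, pow_add, pow_add]
    rw [f3]
    have f4 : (dN k M + 1) * (k + 1) ≤ 2 ^ dN k M * 2 ^ k := Nat.mul_le_mul f1 f2
    have f5 : (2:ℕ) ^ 20 = 1048576 := by norm_num
    rw [f5]
    nlinarith
  have e5 : hh c ^ 2 ^ n ≤ hh c * (1 / 2) ^ (dN k M + (k + 1) * 128) := by
    have f1 : hh c ^ 2 ^ n ≤ hh c ^ (dN k M + (k + 1) * 128 + 1) :=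
      pow_le_pow_of_le_one hc0.le (hh_le_one c) e4
    refine f1.trans ?_
    rw [pow_succ']
    exact mul_le_mul_of_nonneg_left (pow_le_pow_left₀ hc0.le hc1 _) hc0.le
  have e6 : (dN k M * (k + 2) ^ 128 : ℝ) < 2 ^ (dN k M + (k + 1) * 128) := by
    exact_mod_cast e3
  have e7 : (0:ℝ) ≤ dN k M * (k + 2) ^ 128 := by positivity
  calc hh c ^ 2 ^ n * (dN k M * (k + 2) ^ 128)
      ≤ hh c * (1 / 2) ^ (dN k M + (k + 1) * 128) * (dN k M * (k + 2) ^ 128) :=
        mul_le_mul_of_nonneg_right e5 e7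
    _ < hh c * (1 / 2) ^ (dN k M + (k + 1) * 128) * 2 ^ (dN k M + (k + 1) * 128) :=
        mul_lt_mul_of_pos_left e6 (by positivity)
    _ = hh c := by
        rw [mul_assoc, ← mul_pow]; norm_num

/-- The existence of the critical point of the block `j`. -/
theorem exists_block (h1 : S_GAP) (h3 : S_KKT) (h4 : S_SARD) (h5 : S_CG) (h6 : S_SLAB)
    (ha : Adm k M s hk p) (hx : ∃ x : Fin k → ℝ, sx x < 1 ∧ ∀ z : Fin M → ℝ, 0 < q hk p x z)
    {j : ℕ} (_ : j ≤ k) : ∃ w : ℕ → ℝ, (∀ i, dN k M ≤ i → w i = 0) ∧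
      Crit hk p (bb k (ea k M s) j) (hh (ae k M s)) w ∧
      |w (k + 1) - Vf hk p (k + 2) (bb k (ea k M s) j)| ≤ hh (ea k M s k + 2) := by
  have hγ := h1 k M s hk p ha hx
  have hb := sum_bb_le k M s j
  have ht := t0_gamma k M s
  have ht0 := hh_pos (ea k M s 0)
  have hk0 : (0 : ℝ) ≤ k := Nat.cast_nonneg k
  have hg1 := hh_le_one (K3 k M s)
  have hgt : 1024 * hh (ea k M s 0) ≤ hh (K3 k M s) := by nlinarith
  have hlip := Vf_lip hk p (k + 2) 0 (bb k (ea k M s) j)
  have e1 : ∑ i, |(0 : Fin k → ℝ) i - bb k (ea k M s) j i| = ∑ i, |bb k (ea k M s) j i| :=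
    Finset.sum_congr rfl fun i _ => by simp
  rw [e1] at hlip
  have hV : ∑ i, |bb k (ea k M s) j i| < Vf hk p (k + 2) (bb k (ea k M s) j) := by linarith
  have hle := Vf_le hk p ha (Nat.succ_pos (k + 1)) (bb k (ea k M s) j)
  have hb0 : 0 ≤ ∑ i, |bb k (ea k M s) j i| := Finset.sum_nonneg fun _ _ => abs_nonneg _
  obtain ⟨w0, hw0, hF0, hv0⟩ := h3 k M s hk p ha (bb k (ea k M s) j) (by linarith) hV
  have hVabs : |Vf hk p (k + 2) (bb k (ea k M s) j)| ≤ 3 / 2 := by
    have hle' : Vf hk p (k + 2) (bb k (ea k M s) j) ≤ 1 + ∑ i, |bb k (ea k M s) j i| := hle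
    rw [abs_le]
    constructor <;> linarith
  obtain ⟨v1, v2, e2, e3, e4, e5, hc⟩ := h5 k M s hk p ha (ea k M s k) (ea k M s k + 2)
    (by omega) (bb k (ea k M s) j) (fun i => by
      unfold bb
      split_ifs with h
      · exact Or.inr ⟨_, ea_mono k M s (by omega), rfl⟩
      · exact Or.inl rfl) (h4 k M hk p _) _ hVabs
  have he := last_lt k M s
  obtain ⟨w, hw1, hw2, hw3, hw4⟩ := h6 k M hk p (bb k (ea k M s) j) w0 v1 v2
    (hh (ac k M s (ea k M s k) (ea k M s k + 2))) (hh (ae k M s)) hw0 hF0 (by rw [hv0]; exact e3)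
    (by rw [hv0]; exact e4) (hh_pos _) he hc
  refine ⟨w, hw1, hw4, ?_⟩
  rw [abs_le]
  constructor <;> linarith

/-- `b_j + h e_j = b_{j+1}`. -/
theorem bb_succ (a : ℕ → ℕ) (j : Fin k) :
    bb k a (j + 1) = bb k a j + Pi.single j (hh (a (j + 1))) := by
  funext i
  simp only [bb, Pi.add_apply, Pi.single_apply]
  by_cases h1 : (i : ℕ) < j
  · have h2 : i ≠ j := by rintro rfl; omega
    simp [h1, h2, Nat.lt_succ_of_lt h1]
  · by_cases h2 : i = j
    · subst h2
      simp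
    · have h3 : ¬ (i : ℕ) < j + 1 := by
        intro h
        exact h2 (Fin.ext (by omega))
      simp [h1, h2, h3]

theorem main (h1 : S_GAP) (h2 : S_SD) (h3 : S_KKT) (h4 : S_SARD) (h5 : S_CG) (h6 : S_SLAB) :
    S_MAIN := by
  intro k M s hk p ha hx
  have hγ := h1 k M s hk p ha hx
  have hblk := fun (j : ℕ) (hj : j ≤ k) => exists_block hk p h1 h3 h4 h5 h6 ha hx hj
  choose! W hW1 hW2 hW3 using hblk
  obtain ⟨a, hadef⟩ : ∃ a, a = ea k M s := ⟨_, rfl⟩
  obtain ⟨t0, ht0def⟩ : ∃ t0, t0 = hh (ea k M s 0) := ⟨_, rfl⟩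
  have ht0 : 0 < t0 := by rw [ht0def]; exact hh_pos _
  have ht1 : t0 ≤ 1 := by rw [ht0def]; exact hh_le_one _
  have ht := t0_gamma k M s
  rw [← ht0def] at ht
  have hk0 : (0 : ℝ) ≤ k := Nat.cast_nonneg k
  have hρ : 0 < k + 2 := Nat.succ_pos _
  -- the maximum for the last perturbation
  obtain ⟨xs, hxs, hxv⟩ := exists_Vf hk p (k + 2) (bb k (ea k M s) k)
  -- the differences
  have hsec := h2 k M s hk p ha (ea k M s) (by unfold ea; omega) (fun i => by rw [ea_succ])
  have hpos : ∀ j : ℕ, 0 < hh (ea k M s j) := fun j => hh_pos _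
  -- distances of the vectors
  have hdist : ∀ (j : Fin k) (c : ℝ),
      ∑ i, |(bb k (ea k M s) k + (Pi.single j c : Fin k → ℝ)) i -
        (bb k (ea k M s) (j + 1) + (Pi.single j c : Fin k → ℝ)) i| ≤
          k * hh (ea k M s (j + 2)) := by
    intro j c
    have e1 : ∀ i : Fin k, |(bb k (ea k M s) k + (Pi.single j c : Fin k → ℝ)) i -
        (bb k (ea k M s) (j + 1) + (Pi.single j c : Fin k → ℝ)) i| ≤ hh (ea k M s (j + 2)) := by
      intro i
      simp only [Pi.add_apply, add_sub_add_right_eq_sub, bb, i.2, if_true]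
      split_ifs with h
      · simpa using (hh_pos _).le
      · rw [sub_zero, abs_of_pos (hh_pos _)]
        exact hh_anti (ea_mono k M s (by omega))
    refine (Finset.sum_le_sum fun i _ => e1 i).trans (le_of_eq ?_)
    simp
  have hclose : ∀ j : Fin k, |(W j (k + 1) - W (j + 1) (k + 1)) / hh (ea k M s (j + 1)) - xs j|
      ≤ 3 * t0 := by
    intro j
    have hh1 := hpos (j + 1)
    have hT := tail_le k M s (j + 1)
    rw [← ht0def, show (j : ℕ) + 1 + 1 = j + 2 by ring] at hT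
    have hs := hsec j
    rw [← ht0def] at hs
    have hb1 := bb_succ (k := k) (ea k M s) j
    have hb2 : bb k (ea k M s) (j + 1) + Pi.single j (hh (ea k M s (j + 1))) =
        bb k (ea k M s) j + Pi.single j (2 * hh (ea k M s (j + 1))) := by
      rw [hb1, add_assoc, ← Pi.single_add, two_mul]
    have hb3 : bb k (ea k M s) (j + 1) + Pi.single j (-hh (ea k M s (j + 1))) =
        bb k (ea k M s) j := by
      rw [hb1, add_assoc, ← Pi.single_add, add_neg_cancel, Pi.single_zero, add_zero]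
    -- moving from `b_{j+1}` to `b_k`
    have d0 := hdist j 0
    have dp := hdist j (hh (ea k M s (j + 1)))
    have dm := hdist j (-hh (ea k M s (j + 1)))
    simp only [Pi.single_zero, add_zero] at d0
    have l0 := Vf_lip hk p (k + 2) (bb k (ea k M s) (j + 1)) (bb k (ea k M s) k)
    have e0 : ∑ i, |bb k (ea k M s) (j + 1) i - bb k (ea k M s) k i| =
        ∑ i, |bb k (ea k M s) k i - bb k (ea k M s) (j + 1) i| :=
      Finset.sum_congr rfl fun i _ => abs_sub_comm _ _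
    rw [e0] at l0
    have lp := Vf_lip hk p (k + 2) (bb k (ea k M s) k + Pi.single j (hh (ea k M s (j + 1))))
      (bb k (ea k M s) (j + 1) + Pi.single j (hh (ea k M s (j + 1))))
    have lm := Vf_lip hk p (k + 2) (bb k (ea k M s) k + Pi.single j (-hh (ea k M s (j + 1))))
      (bb k (ea k M s) (j + 1) + Pi.single j (-hh (ea k M s (j + 1))))
    rw [hb2] at lp dp
    rw [hb3] at lm dm
    have mp := le_Vf hk p (k + 2) (bb k (ea k M s) k + Pi.single j (hh (ea k M s (j + 1)))) hxs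
    have mm := le_Vf hk p (k + 2) (bb k (ea k M s) k + Pi.single j (-hh (ea k M s (j + 1)))) hxs
    have hsum : ∀ c : ℝ, ∑ i, (bb k (ea k M s) k + (Pi.single j c : Fin k → ℝ)) i * xs i =
        ∑ i, bb k (ea k M s) k i * xs i + c * xs j := by
      intro c
      simp only [Pi.add_apply, add_mul, Finset.sum_add_distrib]
      congr 1
      rw [Finset.sum_eq_single j]
      · simp
      · intro i _ hij
        simp [hij]
      · simp
    rw [hsum] at mp mm
    have w1 := abs_le.1 (hW3 j j.2.le)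
    have w2 := abs_le.1 (hW3 (j + 1) j.2)
    have hη : 2 * hh (ea k M s k + 2) ≤ t0 * hh (ea k M s (j + 1)) := by
      have g1 : hh (ea k M s k + 2) = hh (ea k M s k) ^ 4 := by rw [hh_add]; norm_num
      have g2 : hh (ea k M s k) ≤ hh (ea k M s (j + 1)) := hh_anti (ea_mono k M s j.2)
      have g3 : hh (ea k M s k) ≤ t0 := by
        rw [ht0def]; exact hh_anti (ea_mono k M s (Nat.zero_le _))
      have g4 : hh (ea k M s k) ≤ 1 / 2 := by
        unfold hh
        calc ((1:ℝ) / 2) ^ 2 ^ ea k M s k ≤ (1 / 2) ^ 1 :=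
              pow_le_pow_of_le_one (by norm_num) (by norm_num) Nat.one_le_two_pow
          _ = 1 / 2 := pow_one _
      have g5 := hpos k
      have g6 : hh (ea k M s k) ^ 2 ≤ 1 / 2 := by nlinarith
      have g7 : hh (ea k M s k) * hh (ea k M s k) ≤ t0 * hh (ea k M s (j + 1)) :=
        mul_le_mul g3 g2 g5.le ht0.le
      rw [g1]
      have g8 : hh (ea k M s k) ^ 4 = (hh (ea k M s k) * hh (ea k M s k)) *
        hh (ea k M s k) ^ 2 := by ring
      rw [g8]
      have g9 : 0 ≤ hh (ea k M s k) * hh (ea k M s k) := mul_self_nonneg _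
      nlinarith
    rw [abs_le]
    constructor
    · rw [le_sub_iff_add_le, le_div_iff₀ hh1]
      nlinarith [w1.1, w1.2, w2.1, w2.2]
    · rw [sub_le_iff_le_add, div_le_iff₀ hh1]
      nlinarith [w1.1, w1.2, w2.1, w2.2]
  -- the margin at `xs`
  have hH : hh (K3 k M s) - 2 * t0 ≤ Hf hk p (k + 2) xs := by
    have hlip := Vf_lip hk p (k + 2) 0 (bb k (ea k M s) k)
    have e1 : ∑ i, |(0 : Fin k → ℝ) i - bb k (ea k M s) k i| = ∑ i, |bb k (ea k M s) k i| :=
      Finset.sum_congr rfl fun i _ => by simp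
    rw [e1] at hlip
    have hb := sum_bb_le k M s k
    rw [← ht0def] at hb
    have h7 := abs_le.1 (abs_sum_le (b := bb k (ea k M s) k) hxs)
    linarith [h7.1]
  have hgt : 1024 * t0 ≤ hh (K3 k M s) := by nlinarith
  have hsx : sx xs < 1 := by
    by_contra hcon
    have := Hf_nonpos hk p ha hρ (not_lt.1 hcon)
    linarith
  have hsx2 : hh (K3 k M s) / 2 ≤ 2 * (1 - sx xs) := by
    obtain ⟨z0, g1, g2⟩ := q_base hk p ha
    have g3 := Hf_le hk p hρ xs (z := z0) (fun l => (g1 l).trans (by push_cast; linarith))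
    have g4 := g2 xs
    unfold gg at g3
    have g5 := sx_nonneg xs
    nlinarith
  obtain ⟨xh, hxh⟩ : ∃ xh : Fin k → ℝ, ∀ j, xh j =
      (W j (k + 1) - W (j + 1) (k + 1)) / hh (ea k M s (j + 1)) := ⟨_, fun j => rfl⟩
  have hclose' : ∀ j, |xh j - xs j| ≤ 3 * t0 := fun j => by rw [hxh]; exact hclose j
  refine ⟨W, xh, fun j hj => ⟨hW1 j hj, hW2 j hj⟩, fun j => ?_, ?_, fun z => ?_⟩
  · rw [hxh, mul_div_cancel₀ _ (hpos _).ne']
  · -- `|xh|² < 1`
    have g1 : sx xh ≤ sx xs + k * (15 * t0) := by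
      unfold sx
      have g2 : ∀ j : Fin k, xh j ^ 2 ≤ xs j ^ 2 + 15 * t0 := by
        intro j
        have g3 := abs_le.1 (hclose' j)
        have g4 := abs_le.1 (hxs j)
        have g5 : xh j ^ 2 - xs j ^ 2 = (xh j - xs j) * (xh j - xs j + 2 * xs j) := by ring
        have g6 : |xh j ^ 2 - xs j ^ 2| ≤ (3 * t0) * 5 := by
          rw [g5, abs_mul]
          refine mul_le_mul (hclose' j) ?_ (abs_nonneg _) (by linarith)
          rw [abs_le]
          constructor <;> linarith [g3.1, g3.2, g4.1, g4.2]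
        have g7 := (abs_le.1 g6).2
        linarith
      refine (Finset.sum_le_sum fun j _ => g2 j).trans (le_of_eq ?_)
      rw [Finset.sum_add_distrib]
      simp
    nlinarith
  · -- `q(xh, z) > 0`
    refine lt_of_le_of_ne (q_nonneg hk p ha _ _) fun h0 => ?_
    have g0 : ∑ j, (z (Fin.castLE hk j) - xh j) ^ 2 = 0 ∧ pe p z = 0 := by
      have e1 : 0 ≤ ∑ j, (z (Fin.castLE hk j) - xh j) ^ 2 :=
        Finset.sum_nonneg fun _ _ => sq_nonneg _
      have e2 := ha.nonneg z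
      unfold q at h0
      constructor <;> linarith
    have g1 : ∀ j, z (Fin.castLE hk j) = xh j := by
      intro j
      have e1 := (Finset.sum_eq_zero_iff_of_nonneg (fun _ _ => sq_nonneg _)).1 g0.1 j
        (Finset.mem_univ j)
      have e2 := pow_eq_zero_iff (two_ne_zero) |>.1 e1
      linarith
    have g2 : ∀ l, |z l| ≤ ((k + 2 : ℕ) : ℝ) := by
      intro l
      have := ha.coer z (by rw [g0.2]; positivity) l
      push_cast
      exact this
    have g3 := Hf_le hk p hρ xs g2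
    have g4 : q hk p xs z ≤ k * (9 * t0 ^ 2) := by
      unfold q
      rw [g0.2, add_zero]
      have e1 : ∀ j : Fin k, (z (Fin.castLE hk j) - xs j) ^ 2 ≤ 9 * t0 ^ 2 := by
        intro j
        rw [g1]
        have := hclose' j
        have e2 : (xh j - xs j) ^ 2 ≤ (3 * t0) ^ 2 := by
          rw [← sq_abs]
          exact pow_le_pow_left₀ (abs_nonneg _) this 2
        linarith
      refine (Finset.sum_le_sum fun j _ => e1 j).trans (le_of_eq ?_)
      simp
    unfold gg at g3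
    have g5 := mul_nonneg (q_nonneg hk p ha xs z) (sx_nonneg xs)
    have g6 : t0 ^ 2 ≤ t0 := by nlinarith
    have g7 : (k : ℝ) * (9 * t0 ^ 2) ≤ k * (9 * t0) :=
      mul_le_mul_of_nonneg_left (by linarith) hk0
    have g8 : 0 ≤ (k : ℝ) * t0 := by positivity
    have g9 : q hk p xs z * (1 - sx xs) = q hk p xs z - q hk p xs z * sx xs := by ring
    rw [g9] at g3
    linarith

end Pool.Agent.Helper97K9.IP
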