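import Pool.Agent.Helper97K9.IP.Tms
import Pool.Agent.ER.ToSysPoly

/-!
# Rigid witnesses: membership of the isolated point problem in `∃∀ℝ` [MEM]
-/

set_option autoImplicit false

namespace Pool.Agent.Helper97K9.IP

open Pool.Agent.NPC Pool.Agent.NPC.ER Pool.Agent.NPC.H612 Pool.Agent.NPC.R537HD

namespace MML

/-! ### Substitution -/

/-- The variables `i < n` are shifted by `c`, the others are replaced by zero. -/
def sbT (n c : ℕ) : Tm → Tm
  | Tm.var i => if i < n then Tm.var (i + c) else Tm.zero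
  | Tm.zero => Tm.zero
  | Tm.one => Tm.one
  | Tm.add s t => Tm.add (sbT n c s) (sbT n c t)
  | Tm.neg s => Tm.neg (sbT n c s)
  | Tm.mul s t => Tm.mul (sbT n c s) (sbT n c t)

/-- The same for formulas. -/
def sbF (n c : ℕ) : Fm → Fm
  | Fm.eq s t => Fm.eq (sbT n c s) (sbT n c t)
  | Fm.lt s t => Fm.lt (sbT n c s) (sbT n c t)
  | Fm.le s t => Fm.le (sbT n c s) (sbT n c t)
  | Fm.not φ => Fm.not (sbF n c φ)
  | Fm.and φ ψ => Fm.and (sbF n c φ) (sbF n c ψ)
  | Fm.or φ ψ => Fm.or (sbF n c φ) (sbF n c ψ)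

theorem eval_sbT (n c : ℕ) (v : ℕ → ℝ) (t : Tm) : (sbT n c t).eval v =
    t.eval (fun i => if i < n then v (i + c) else 0) := by
  induction t with
  | var i =>
    simp only [sbT, Tm.eval]
    split_ifs <;> rfl
  | zero => rfl
  | one => rfl
  | add s t h1 h2 => simp only [sbT, Tm.eval, h1, h2]
  | neg s h1 => simp only [sbT, Tm.eval, h1]
  | mul s t h1 h2 => simp only [sbT, Tm.eval, h1, h2]

theorem holds_sbF (n c : ℕ) (v : ℕ → ℝ) (φ : Fm) : (sbF n c φ).Holds v ↔
    φ.Holds (fun i => if i < n then v (i + c) else 0) := by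
  induction φ with
  | eq s t => simp only [sbF, Fm.Holds, eval_sbT]
  | lt s t => simp only [sbF, Fm.Holds, eval_sbT]
  | le s t => simp only [sbF, Fm.Holds, eval_sbT]
  | not φ h1 => simp only [sbF, Fm.Holds, h1]
  | and φ ψ h1 h2 => simp only [sbF, Fm.Holds, h1, h2]
  | or φ ψ h1 h2 => simp only [sbF, Fm.Holds, h1, h2]

/-- The substitution of a symbol. -/
def sbK (n c : ℕ) : Tok → Tok
  | Tok.var i => if i < n then Tok.var (i + c) else Tok.zero
  | t => t

theorem toks_sbT (n c : ℕ) (t : Tm) : (sbT n c t).toks = t.toks.map (sbK n c) := by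
  induction t with
  | var i =>
    simp only [sbT, Tm.toks, sbK, List.map_cons, List.map_nil]
    split_ifs <;> rfl
  | zero => rfl
  | one => rfl
  | add s t h1 h2 => simp [sbT, Tm.toks, h1, h2, sbK]
  | neg s h1 => simp [sbT, Tm.toks, h1, sbK]
  | mul s t h1 h2 => simp [sbT, Tm.toks, h1, h2, sbK]

theorem toks_sbF (n c : ℕ) (φ : Fm) : (sbF n c φ).toks = φ.toks.map (sbK n c) := by
  induction φ with
  | eq s t => simp [sbF, Fm.toks, toks_sbT, sbK]
  | lt s t => simp [sbF, Fm.toks, toks_sbT, sbK]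
  | le s t => simp [sbF, Fm.toks, toks_sbT, sbK]
  | not φ h1 => simp [sbF, Fm.toks, h1, sbK]
  | and φ ψ h1 h2 => simp [sbF, Fm.toks, h1, h2, sbK]
  | or φ ψ h1 h2 => simp [sbF, Fm.toks, h1, h2, sbK]

theorem sbK_code (n c : ℕ) (t : Tok) : (sbK n c t).code =
    if t.code.1 = 0 then (if t.code.2 < n then (0, t.code.2 + c) else (1, 0)) else t.code := by
  cases t with
  | var i => by_cases h : i < n <;> simp [sbK, Tok.code, h]
  | _ => simp [sbK, Tok.code]

section

variable {α : Type} [TEnc α]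

theorem poly_sbK {n c : α → ℕ} {t : α → Tok} (hn : NPC.Poly n) (hc : NPC.Poly c)
    (ht : NPC.Poly t) : NPC.Poly (fun a => sbK (n a) (c a) (t a)) := by
  refine poly_tok_of_code' ?_
  have h2 := NPC.Poly.snd (poly_tok_code ht)
  have h1 := NPC.Poly.ite (NPC.Poly.decide_eq (NPC.Poly.fst (poly_tok_code ht))
    (NPC.Poly.const 0)) (NPC.Poly.ite (NPC.Poly.decide_lt h2 hn)
      ((NPC.Poly.const 0).pair (NPC.Poly.add h2 hc)) (NPC.Poly.const (1, 0))) (poly_tok_code ht)
  exact h1.congr fun a => (sbK_code _ _ _).symm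

theorem poly_sbF {n c : α → ℕ} {t : α → Fm} (hn : NPC.Poly n) (hc : NPC.Poly c)
    (ht : NPC.Poly t) : NPC.Poly (fun a => sbF (n a) (c a) (t a)) := by
  refine fm_of_toks (NPC.Poly.congr (f := fun a => (t a).toks.map (sbK (n a) (c a))) ?_
    fun a => (toks_sbF _ _ _).symm)
  exact NPC.Poly.map (F := fun a s => sbK (n a) (c a) s) (fm_toks ht)
    (poly_sbK (hn.comp (NPC.Poly.fst NPC.Poly.id)) (hc.comp (NPC.Poly.fst NPC.Poly.id))
      (NPC.Poly.snd NPC.Poly.id))

end

/-! ### The sentence -/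

/-- The sum `∑ (y_i - x_i)²`. -/
def dsT (n : ℕ) : Tm :=
  sumT ((List.range n).map fun i => sqT (subT (Tm.var (i + (n + 1))) (Tm.var i)))

/-- The sentence. -/
def iF (J : List Unit × Fm) : List ℕ × Fm :=
  (List.range (J.1.length + 1),
    Fm.and (sbF J.1.length 0 J.2) (Fm.and (Fm.lt Tm.zero (Tm.var J.1.length))
      (Fm.or (Fm.not (sbF J.1.length (J.1.length + 1) J.2))
        (Fm.or (Fm.le (sqT (Tm.var J.1.length)) (dsT J.1.length))
          (Fm.le (dsT J.1.length) Tm.zero)))))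

theorem eval_dsT (n : ℕ) (v : ℕ → ℝ) :
    (dsT n).eval v = ∑ i ∈ Finset.range n, (v (i + (n + 1)) - v i) ^ 2 := by
  unfold dsT
  rw [eval_sumT, List.map_map]
  have h : (Tm.eval v ∘ fun i => sqT (subT (Tm.var (i + (n + 1))) (Tm.var i))) =
      fun i => (v (i + (n + 1)) - v i) ^ 2 := by
    funext i
    simp [Tm.eval]
  rw [h]
  clear h
  generalize n + 1 = m
  induction n with
  | zero => simp
  | succ n ih => rw [List.range_succ, Finset.sum_range_succ, ← ih]; simp

theorem dist_sq {n : ℕ} (x y : EuclideanSpace ℝ (Fin n)) (v : ℕ → ℝ)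
    (hx : ∀ i (hi : i < n), v i = x ⟨i, hi⟩) (hy : ∀ i (hi : i < n), v (i + (n + 1)) = y ⟨i, hi⟩) :
    ∑ i ∈ Finset.range n, (v (i + (n + 1)) - v i) ^ 2 = dist y x ^ 2 := by
  rw [EuclideanSpace.dist_eq, Real.sq_sqrt (Finset.sum_nonneg fun _ _ => sq_nonneg _),
    ← Fin.sum_univ_eq_sum_range (fun i => (v (i + (n + 1)) - v i) ^ 2)]
  refine Finset.sum_congr rfl fun i _ => ?_
  rw [hx i i.2, hy i i.2, Real.dist_eq, sq_abs]

theorem asg_eq {n : ℕ} (x : EuclideanSpace ℝ (Fin n)) (v : ℕ → ℝ) (c : ℕ)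
    (h : ∀ i (hi : i < n), v (i + c) = x ⟨i, hi⟩) :
    (fun i => if i < n then v (i + c) else 0) = asg x := by
  funext i
  unfold asg
  split_ifs with hi
  · exact h i hi
  · rfl

theorem iF_spec (J : List Unit × Fm) : Iso J ↔ EAR (iF J) := by
  obtain ⟨L, φ⟩ := J
  unfold Iso HasIso EAR iF
  simp only
  generalize L.length = n
  have hm : ∀ X Y : ℕ → ℝ, (∀ i ≤ n, mixv (List.range (n + 1)) X Y i = X i) ∧
      ∀ i, n < i → mixv (List.range (n + 1)) X Y i = Y i := by
    intro X Y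
    constructor
    · intro i hi
      unfold mixv
      rw [if_pos (List.mem_range.2 (by omega))]
    · intro i hi
      unfold mixv
      rw [if_neg (by rw [List.mem_range]; omega)]
  constructor
  · rintro ⟨x, hx, ε, hε, h⟩
    refine ⟨fun i => if hi : i < n then x ⟨i, hi⟩ else ε, fun Y => ?_⟩
    obtain ⟨h1, h2⟩ := hm (fun i => if hi : i < n then x ⟨i, hi⟩ else ε) Y
    generalize mixv (List.range (n + 1)) (fun i => if hi : i < n then x ⟨i, hi⟩ else ε) Y = v
      at h1 h2
    have vx : ∀ i (hi : i < n), v i = x ⟨i, hi⟩ := by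
      intro i hi
      rw [h1 i hi.le, dif_pos hi]
    have vn : v n = ε := by
      rw [h1 n le_rfl, dif_neg (lt_irrefl n)]
    let y : EuclideanSpace ℝ (Fin n) := WithLp.toLp 2 fun i => v (i + (n + 1))
    have vy : ∀ i (hi : i < n), v (i + (n + 1)) = y ⟨i, hi⟩ := fun i hi => rfl
    simp only [Fm.Holds, holds_sbF, Tm.eval, eval_sqT, eval_dsT]
    rw [asg_eq x v 0 (fun i hi => vx i hi), asg_eq y v (n + 1) vy, dist_sq x y v vx vy, vn]
    refine ⟨hx, hε, ?_⟩
    by_cases hy : φ.Holds (asg y)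
    · right
      by_cases hd : dist y x < ε
      · right
        rw [h y hy hd, dist_self]
        norm_num
      · left
        exact pow_le_pow_left₀ hε.le (not_lt.1 hd) 2
    · exact Or.inl hy
  · rintro ⟨X, hX⟩
    let x : EuclideanSpace ℝ (Fin n) := WithLp.toLp 2 fun i => X i
    have key : ∀ y : EuclideanSpace ℝ (Fin n), φ.Holds (asg x) ∧ 0 < X n ∧
        (¬ φ.Holds (asg y) ∨ X n ^ 2 ≤ dist y x ^ 2 ∨ dist y x ^ 2 ≤ 0) := by
      intro y
      have h := hX (fun i => if hi : i - (n + 1) < n then y ⟨i - (n + 1), hi⟩ else 0)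
      obtain ⟨h1, h2⟩ := hm X (fun i => if hi : i - (n + 1) < n then y ⟨i - (n + 1), hi⟩ else 0)
      generalize mixv (List.range (n + 1)) X
        (fun i => if hi : i - (n + 1) < n then y ⟨i - (n + 1), hi⟩ else 0) = v at h h1 h2
      have vx : ∀ i (hi : i < n), v i = x ⟨i, hi⟩ := fun i hi => h1 i hi.le
      have vn : v n = X n := h1 n le_rfl
      have vy : ∀ i (hi : i < n), v (i + (n + 1)) = y ⟨i, hi⟩ := by
        intro i hi
        rw [h2 _ (by omega)]
        have e : i + (n + 1) - (n + 1) = i := by omega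
        rw [dif_pos (by omega : i + (n + 1) - (n + 1) < n)]
        exact congrArg (fun j => y j) (Fin.ext e)
      simp only [Fm.Holds, holds_sbF, Tm.eval, eval_sqT, eval_dsT] at h
      rw [asg_eq x v 0 (fun i hi => vx i hi), asg_eq y v (n + 1) vy, dist_sq x y v vx vy, vn] at h
      exact h
    have hx0 := key x
    refine ⟨x, hx0.1, X n, hx0.2.1, fun y hy hd => ?_⟩
    have hε := hx0.2.1
    rcases (key y).2.2 with h | h | h
    · exact absurd hy h
    · have h0 := dist_nonneg (x := y) (y := x)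
      nlinarith
    · have h0 : dist y x ^ 2 = 0 := le_antisymm h (sq_nonneg _)
      exact dist_eq_zero.1 (pow_eq_zero_iff two_ne_zero |>.1 h0)

theorem poly_iF : NPC.Poly iF := by
  have hU : UPoly (fun J : List Unit × Fm => J.1.length) :=
    UPoly.length (NPC.Poly.fst NPC.Poly.id)
  have hn : NPC.Poly (fun J : List Unit × Fm => J.1.length) := hU.toPoly
  have hn1 : NPC.Poly (fun J : List Unit × Fm => J.1.length + 1) :=
    NPC.Poly.add hn (NPC.Poly.const 1)
  have hφ : NPC.Poly (fun J : List Unit × Fm => J.2) := NPC.Poly.snd NPC.Poly.id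
  have hr : NPC.Poly (fun J : List Unit × Fm => List.range (J.1.length + 1)) :=
    UPoly.range (UPoly.add hU (UPoly.const 1))
  have hd : NPC.Poly (fun J : List Unit × Fm => dsT J.1.length) := by
    unfold dsT
    refine poly_sumT (NPC.Poly.map (F := fun (J : List Unit × Fm) (i : ℕ) =>
      sqT (subT (Tm.var (i + (J.1.length + 1))) (Tm.var i))) (UPoly.range hU) ?_)
    have hi : NPC.Poly (fun p : (List Unit × Fm) × ℕ => p.2) := NPC.Poly.snd NPC.Poly.id
    have hN : NPC.Poly (fun p : (List Unit × Fm) × ℕ => p.1.1.length + 1) :=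
      NPC.Poly.comp (g := fun J : List Unit × Fm => J.1.length + 1) hn1
        (NPC.Poly.fst NPC.Poly.id)
    have h1 : NPC.Poly (fun p : (List Unit × Fm) × ℕ =>
        subT (Tm.var (p.2 + (p.1.1.length + 1))) (Tm.var p.2)) :=
      poly_tadd (poly_tvar (NPC.Poly.add hi hN)) (poly_tneg (poly_tvar hi))
    exact poly_tmul h1 h1
  have hε : NPC.Poly (fun J : List Unit × Fm => Tm.var J.1.length) := poly_tvar hn
  exact NPC.Poly.pair hr (poly_fand (poly_sbF hn (NPC.Poly.const 0) hφ)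
    (poly_fand (poly_flt (NPC.Poly.const Tm.zero) hε)
      (poly_for (poly_fnot (poly_sbF hn hn1 hφ))
        (poly_for (poly_fle (poly_tmul hε hε) hd) (poly_fle hd (NPC.Poly.const Tm.zero))))))

end MML

/-- [MEM] -/
theorem mem : S_MEM := InEAR.of_poly MML.poly_iF MML.iF_spec

end Pool.Agent.Helper97K9.IP
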