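import Pool.Agent.Helper97K9.IP.Tms

/-!
# Rigid witnesses: the normal form [NF]
-/

set_option autoImplicit false

namespace Pool.Agent.Helper97K9.IP

open Finset Pool.Agent.H612 Pool.Agent.R537.RN
open Pool.Agent.NPC Pool.Agent.NPC.ER Pool.Agent.NPC.H612 Pool.Agent.NPC.R537HD

namespace NFL

/-! ### Variables of terms -/

theorem pe_pol (M : ℕ) (t : Tm) (ht : vlt M t) (v : ℕ → ℝ) :
    pe (pol M t) (fun l : Fin M => v l) = t.eval v := by
  induction t with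
  | var i =>
    have h : i < M := ht
    simp only [pol, dif_pos h, pe, MvPolynomial.eval₂_X, Tm.eval]
  | zero => simp [pol, pe, Tm.eval]
  | one => simp [pol, pe, Tm.eval]
  | add s t h1 h2 =>
    have := h1 ht.1
    have := h2 ht.2
    simp only [pol, pe, MvPolynomial.eval₂_add, Tm.eval] at *
    linarith
  | neg s h1 =>
    have := h1 ht
    simp only [pol, pe, Tm.eval] at *
    rw [← this]
    exact map_neg (MvPolynomial.eval₂Hom (Int.castRingHom ℝ) fun l : Fin M => v l) _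
  | mul s t h1 h2 =>
    have := h1 ht.1
    have := h2 ht.2
    simp only [pol, pe, MvPolynomial.eval₂_mul, Tm.eval] at *
    rw [h1 ht.1, h2 ht.2]

theorem vlt_sumT {M : ℕ} {l : List Tm} (h : ∀ t ∈ l, vlt M t) : vlt M (sumT l) := by
  induction l with
  | nil => exact trivial
  | cons a l ih =>
    exact ⟨h a (by simp), ih fun t ht => h t (by simp [ht])⟩

theorem vlt_sqT {M : ℕ} {t : Tm} (h : vlt M t) : vlt M (sqT t) := ⟨h, h⟩

theorem vlt_subT {M : ℕ} {s t : Tm} (h : vlt M s) (h' : vlt M t) : vlt M (subT s t) := ⟨h, h'⟩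

theorem vlt_mul {M : ℕ} {s t : Tm} (h : vlt M s) (h' : vlt M t) : vlt M (Tm.mul s t) := ⟨h, h'⟩

theorem vlt_add {M : ℕ} {s t : Tm} (h : vlt M s) (h' : vlt M t) : vlt M (Tm.add s t) := ⟨h, h'⟩

theorem vlt_var {M i : ℕ} (h : i < M) : vlt M (Tm.var i) := h

section

variable (p : Inp) {M : ℕ} (hM : bS p + dk'' p + 1 ≤ M)

include hM

theorem vlt_tr : vlt M (tr p) := vlt_sqT (vlt_var (by unfold bS bR bW at hM; omega))

theorem vlt_tt' : vlt M (tt' p) := vlt_sqT (vlt_var (by unfold bS bR bW at hM; omega))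

theorem vlt_tσ : vlt M (tσ p) := vlt_var (by omega)

theorem vlt_tPick (i : ℕ) : vlt M (tPick p i) := by
  unfold tPick
  split_ifs with h1 h2
  · have h3 : p.1.idxOf (i / 2) < p.1.length := List.idxOf_lt_length_iff.2 h1.2
    exact vlt_mul (vlt_mul (vlt_tr p hM) (vlt_tt' p hM))
      (vlt_var (by unfold bS bR bW dn at hM; omega))
  · have h3 : p.2.1.idxOf (i / 2) < p.2.1.length := List.idxOf_lt_length_iff.2 h2.2
    exact vlt_mul (vlt_mul (vlt_tσ p hM) (vlt_tt' p hM))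
      (vlt_var (by unfold bS bR bW dm at hM; omega))
  · have h3 : (vS p).idxOf i ≤ (vS p).length := List.idxOf_le_length
    exact vlt_mul (vlt_mul (vlt_tσ p hM) (vlt_tr p hM))
      (vlt_var (by unfold bS bR bW dl at hM; omega))

theorem vlt_tw : vlt M (tw p) :=
  vlt_mul (vlt_mul (vlt_tσ p hM) (vlt_tr p hM)) (vlt_tt' p hM)

theorem vlt_tCerr (c : ER.Con) : vlt M (tCerr p c) := by
  unfold tCerr
  split_ifs
  · exact vlt_mul (vlt_tw p hM) (vlt_subT (vlt_tPick p hM _) (vlt_tw p hM))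
  · exact vlt_mul (vlt_tw p hM) (vlt_subT (vlt_add (vlt_tPick p hM _) (vlt_tPick p hM _))
      (vlt_tPick p hM _))
  · exact vlt_subT (vlt_mul (vlt_tPick p hM _) (vlt_tPick p hM _))
      (vlt_mul (vlt_tw p hM) (vlt_tPick p hM _))

theorem vlt_tPhi : vlt M (tPhi p) := by
  unfold tPhi
  have hb1 : bW p + dk p < M := by unfold bS bR at hM; omega
  have hb2 : bR p + dk' p < M := by unfold bS at hM; omega
  have hb3 : dn p + 1 < M := by unfold bS bR bW at hM; omega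
  refine vlt_add (vlt_subT (vlt_mul (vlt_add (vlt_sqT (vlt_tr p hM)) (vlt_sqT (vlt_var hb3))) ?_)
    (vlt_mul (vlt_mul (vlt_sqT (vlt_sqT (vlt_tσ p hM)))
      (vlt_mul (vlt_sqT (vlt_sqT (vlt_tr p hM))) (vlt_sqT (vlt_tr p hM)))) (vlt_var hb1)))
    (vlt_mul (vlt_mul (vlt_sqT (vlt_sqT (vlt_tσ p hM))) (vlt_tσ p hM)) (vlt_var hb2))
  unfold tQ
  apply vlt_sumT
  intro t ht
  obtain ⟨c, -, rfl⟩ := List.mem_map.1 ht
  exact vlt_sqT (vlt_tCerr p hM c)

end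

variable (I : In)

theorem vlt_chq {M b k : ℕ} (h : b + k < M) : ∀ t ∈ chq b k, vlt M t := by
  intro t ht
  obtain ⟨j, hj, rfl⟩ := List.mem_map.1 ht
  have hj' := List.mem_range.1 hj
  exact vlt_sqT (vlt_subT (vlt_var (by omega)) (vlt_sqT (vlt_var (by omega))))

theorem vlt_pT : vlt (iM I) (pT I) := by
  have hM : bS (pI I) + dk'' (pI I) + 1 ≤ iM I := by unfold iM iM0; omega
  have hM2 : bS (pI I) + dk'' (pI I) + 1 < iM I := by unfold iM iM0; omega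
  unfold pT
  apply vlt_sumT
  unfold ltT
  intro t ht
  simp only [List.mem_append] at ht
  rcases ht with (ht | ht | ht | ht | ht)
  · obtain ⟨i, hi, rfl⟩ := List.mem_map.1 ht
    have hi' := List.mem_range.1 hi
    exact vlt_sqT (vlt_subT (vlt_add (vlt_sqT (vlt_var (by unfold iM; omega)))
      (vlt_sqT (vlt_var (by unfold iM; omega)))) trivial)
  · simp only [List.mem_cons, List.not_mem_nil, or_false] at ht
    rcases ht with rfl | rfl | rfl | rfl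
    · exact vlt_sqT (vlt_subT (vlt_var (by unfold bS bR at hM; omega)) (vlt_tt' _ hM))
    · exact vlt_sqT (vlt_subT (vlt_var (by unfold bS at hM; omega)) (vlt_tr _ hM))
    · exact vlt_sqT (vlt_subT (vlt_add (vlt_var (by omega)) (vlt_var (by omega))) trivial)
    · exact vlt_sqT (vlt_add (vlt_tPhi _ hM) (vlt_sqT (vlt_var hM2)))
  · exact vlt_chq (by unfold bS bR at hM; omega) t ht
  · exact vlt_chq (by unfold bS at hM; omega) t ht
  · exact vlt_chq (by omega) t ht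

/-! ### The zeros of `p` -/

theorem sum_zero_iff (l : List ℝ) (h : ∀ a ∈ l, 0 ≤ a) : l.sum = 0 ↔ ∀ a ∈ l, a = 0 := by
  induction l with
  | nil => simp
  | cons a l ih =>
    have h1 := h a (by simp)
    have h2 : ∀ b ∈ l, 0 ≤ b := fun b hb => h b (by simp [hb])
    have h3 : 0 ≤ l.sum := List.sum_nonneg h2
    rw [List.sum_cons, List.forall_mem_cons, ← ih h2]
    constructor
    · intro h4
      constructor <;> linarith
    · rintro ⟨h4, h5⟩
      rw [h4, h5, add_zero]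

theorem ltT_sq : ∀ t ∈ ltT I, ∃ s, t = sqT s := by
  intro t ht
  unfold ltT at ht
  simp only [List.mem_append] at ht
  rcases ht with (ht | ht | ht | ht | ht)
  · obtain ⟨i, hi, rfl⟩ := List.mem_map.1 ht
    exact ⟨_, rfl⟩
  · simp only [List.mem_cons, List.not_mem_nil, or_false] at ht
    rcases ht with rfl | rfl | rfl | rfl <;> exact ⟨_, rfl⟩
  all_goals
    obtain ⟨j, hj, rfl⟩ := List.mem_map.1 ht
    exact ⟨_, rfl⟩

theorem ltT_nonneg (v : ℕ → ℝ) : ∀ a ∈ (ltT I).map (Tm.eval v), 0 ≤ a := by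
  intro a ha
  obtain ⟨t, ht, rfl⟩ := List.mem_map.1 ha
  obtain ⟨s, rfl⟩ := ltT_sq I t ht
  rw [eval_sqT]
  positivity

theorem pT_nonneg (v : ℕ → ℝ) : 0 ≤ (pT I).eval v := by
  unfold pT
  rw [eval_sumT]
  exact List.sum_nonneg (ltT_nonneg I v)

theorem chq_zero_iff (v : ℕ → ℝ) (b k : ℕ) :
    (∀ t ∈ chq b k, t.eval v = 0) ↔ ∀ j < k, v (b + j + 1) = v (b + j) ^ 2 := by
  simp [chq, Tm.eval, sub_eq_zero]

theorem pT_zero_iff (v : ℕ → ℝ) : (pT I).eval v = 0 ↔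
    (∀ i < iM0 I, v i ^ 2 + v (iM0 I + i) ^ 2 = 1) ∧
    (v (bW (pI I)) = (v (dn (pI I) + dm (pI I) + 2)) ^ 2 ∧
      ∀ j < dk (pI I), v (bW (pI I) + j + 1) = v (bW (pI I) + j) ^ 2) ∧
    (v (bR (pI I)) = (v (dn (pI I))) ^ 2 ∧
      ∀ j < dk' (pI I), v (bR (pI I) + j + 1) = v (bR (pI I) + j) ^ 2) ∧
    (v (bS (pI I)) + v (bS (pI I)) = 1 ∧
      ∀ j < dk'' (pI I), v (bS (pI I) + j + 1) = v (bS (pI I) + j) ^ 2) ∧
    (tPhi (pI I)).eval v + v (bS (pI I) + dk'' (pI I) + 1) ^ 2 = 0 := by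
  unfold pT
  rw [eval_sumT, sum_zero_iff _ (ltT_nonneg I v), List.forall_mem_map]
  unfold ltT
  generalize hF : tPhi (pI I) = F
  simp only [List.forall_mem_append, List.forall_mem_cons, chq_zero_iff, List.not_mem_nil,
    false_implies, implies_true, and_true, List.forall_mem_map, eval_sqT, eval_subT, Tm.eval,
    pow_eq_zero_iff (two_ne_zero), sub_eq_zero, tt', tr, List.mem_range]
  constructor
  · rintro ⟨h1, ⟨h2, h3, h4, h5⟩, h6, h7, h8⟩
    exact ⟨h1, ⟨h2, h6⟩, ⟨h3, h7⟩, ⟨h4, h8⟩, h5⟩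
  · rintro ⟨h1, ⟨h2, h6⟩, ⟨h3, h7⟩, ⟨h4, h8⟩, h5⟩
    exact ⟨h1, ⟨h2, h3, h4, h5⟩, h6, h7, h8⟩

/-- The extension of a vector by zero. -/
noncomputable def ext0 {M : ℕ} (z : Fin M → ℝ) (i : ℕ) : ℝ := if h : i < M then z ⟨i, h⟩ else 0

theorem ext0_val {M : ℕ} (z : Fin M → ℝ) : (fun l : Fin M => ext0 z l) = z := by
  funext l
  simp [ext0]

theorem pe_pp (v : ℕ → ℝ) : pe (pp I) (fun l : Fin (iM I) => v l) = (pT I).eval v :=
  pe_pol _ _ (vlt_pT I) v

theorem q_nonneg (x : Fin (ik I) → ℝ) (z : Fin (iM I) → ℝ) : 0 ≤ q (hkI I) (pp I) x z := by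
  unfold q
  have h1 := pe_pp I (ext0 z)
  rw [ext0_val] at h1
  rw [h1]
  exact add_nonneg (Finset.sum_nonneg fun _ _ => sq_nonneg _) (pT_nonneg I (ext0 z))

theorem q_zero_iff (x : Fin (ik I) → ℝ) (v : ℕ → ℝ) :
    q (hkI I) (pp I) x (fun l : Fin (iM I) => v l) = 0 ↔
      (∀ j : Fin (ik I), v j = x j) ∧ (pT I).eval v = 0 := by
  unfold q
  rw [pe_pp]
  have h0 := pT_nonneg I v
  have h1 : 0 ≤ ∑ j : Fin (ik I), (v (Fin.castLE (hkI I) j) - x j) ^ 2 :=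
    Finset.sum_nonneg fun _ _ => sq_nonneg _
  constructor
  · intro h
    have h2 : ∑ j : Fin (ik I), (v (Fin.castLE (hkI I) j) - x j) ^ 2 = 0 := by linarith
    refine ⟨fun j => ?_, by linarith⟩
    have h3 := (Finset.sum_eq_zero_iff_of_nonneg (fun _ _ => sq_nonneg _)).1 h2 j (mem_univ j)
    have h4 := pow_eq_zero_iff (two_ne_zero) |>.1 h3
    have h5 : v (j : ℕ) - x j = 0 := h4
    linarith
  · rintro ⟨h2, h3⟩
    rw [h3, add_zero]
    refine Finset.sum_eq_zero fun j _ => ?_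
    have h4 : v ((Fin.castLE (hkI I) j : Fin (iM I)) : ℕ) - x j = 0 := sub_eq_zero.2 (h2 j)
    change (v ((Fin.castLE (hkI I) j : Fin (iM I)) : ℕ) - x j) ^ 2 = 0
    rw [h4]
    ring

/-! ### The sentence -/

theorem ear_iff : EAR I ↔ ¬ Sent (loc (pI I)) (nS (pI I)) := by
  rw [← eae_iff_sent]
  unfold EAE EAR pI
  have h : ∀ x w : ℕ → ℝ, mixv [] x w = w := by
    intro x w
    funext i
    simp [mixv]
  simp only [h]
  push Not
  constructor
  · rintro ⟨x, hx⟩ x'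
    exact ⟨x, fun z hz => hz (hx z)⟩
  · intro hh
    obtain ⟨y, hy⟩ := hh fun _ => 0
    refine ⟨y, fun z => ?_⟩
    have := hy z
    by_contra h1
    exact this h1

theorem exists_scale2 {l : ℕ} (z : Fin l → ℝ) (g : ℝ) :
    ∃ r : ℝ, 0 < r ∧ r < 1 ∧ r + ((r * g) ^ 2 + ∑ j, (r * z j) ^ 2) < 1 := by
  have h0 : 0 ≤ ∑ j, z j ^ 2 := Finset.sum_nonneg fun _ _ => sq_nonneg _
  have hg := sq_nonneg g
  have hd : 0 < 2 + ∑ j, z j ^ 2 + g ^ 2 := by positivity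
  have h1 : 1 / (2 + ∑ j, z j ^ 2 + g ^ 2) * (2 + ∑ j, z j ^ 2 + g ^ 2) = 1 := by
    field_simp
  obtain ⟨r, hr⟩ : ∃ r, r = 1 / (2 + ∑ j, z j ^ 2 + g ^ 2) := ⟨_, rfl⟩
  rw [← hr] at h1
  have hr0 : 0 < r := by rw [hr]; positivity
  refine ⟨r, hr0, by nlinarith, ?_⟩
  have h2 : ∑ j, (r * z j) ^ 2 = r ^ 2 * ∑ j, z j ^ 2 := by
    rw [Finset.mul_sum]
    exact Finset.sum_congr rfl fun j _ => by ring
  rw [h2]
  have h3 : r * (∑ j, z j ^ 2 + g ^ 2) < 1 := by nlinarith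
  have h4 : r * (r * (∑ j, z j ^ 2 + g ^ 2)) < r * 1 := mul_lt_mul_of_pos_left h3 hr0
  nlinarith

theorem sent_of_ball {n m l : ℕ} (loc : ℕ → Fin n ⊕ (Fin m ⊕ Fin l)) (S : List ER.Con)
    {σ : ℝ} (h0 : 0 < σ) (x : Fin n → ℝ)
    (h : ∀ Y : Fin (m + 2) → ℝ, ∑ j, Y j ^ 2 < 1 → ∃ U ∈ cube (l + 1),
      Phi loc S σ ((Y 0) ^ 2) (Y 1) ((U 0) ^ 2) (((U 0) ^ 2) ^ (2 ^ kap l S.length))
        (((Y 0) ^ 2) ^ (2 ^ kap' m l S.length)) x (fun j => Y j.succ.succ)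
        (fun j => U j.succ) ≤ 0) : Sent loc S := by
  refine ⟨fun j => σ⁻¹ * x j, fun y => ?_⟩
  by_contra hno
  obtain ⟨c, hc0, hc⟩ := L1 loc S (fun j => σ⁻¹ * x j) y hno
  obtain ⟨γ, hγ⟩ : ∃ γ : ℝ, 1 ≤ (1 + γ ^ 2) * c := by
    refine ⟨1 / c + 1, ?_⟩
    have : 0 < 1 / c := by positivity
    have h1 : 1 / c * c = 1 := by field_simp
    nlinarith
  obtain ⟨r, hr0, hr1, hry⟩ := exists_scale2 y γ
  have hw : (Real.sqrt r) ^ 2 = r := Real.sq_sqrt hr0.le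
  have hY : ∑ j, ((Fin.cons (Real.sqrt r) (Fin.cons (r * γ) fun j => r * y j) :
      Fin (m + 2) → ℝ) j) ^ 2 < 1 := by
    rw [Fin.sum_univ_succ, Fin.sum_univ_succ]
    simp only [Fin.cons_zero, Fin.cons_succ]
    rw [hw]
    exact hry
  obtain ⟨U, hU, hPhi⟩ := h _ hY
  have e0 : (Fin.cons (Real.sqrt r) (Fin.cons (r * γ) fun j => r * y j) :
      Fin (m + 2) → ℝ) 1 = r * γ := rfl
  have e3 : (fun j : Fin m => (Fin.cons (Real.sqrt r) (Fin.cons (r * γ) fun j => r * y j) :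
      Fin (m + 2) → ℝ) j.succ.succ) = fun j => r * y j := rfl
  rw [e0, e3, Fin.cons_zero, hw] at hPhi
  have e2 : x = fun j => σ * (σ⁻¹ * x j) := by
    funext j
    rw [← mul_assoc, mul_inv_cancel₀ h0.ne', one_mul]
  rw [e2, Phi_scale, Phi_unscale] at hPhi
  have h4 : 0 < σ ^ 4 := by positivity
  have h6 := nonpos_of_mul_nonpos_right hPhi h4
  have ht0 : 0 ≤ (U 0) ^ 2 := sq_nonneg _
  have ht1 : (U 0) ^ 2 ≤ 1 := by
    have := hU 0
    rw [← sq_abs]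
    nlinarith [abs_nonneg (U 0)]
  have h7 := hc (fun j => U j.succ) (fun j => hU j.succ) ((U 0) ^ 2) ht0 ht1
  set A := qsum (pick loc (fun j => U 0 ^ 2 * (σ⁻¹ * x j)) (fun j => U 0 ^ 2 * y j)
    fun j => U j.succ) (U 0 ^ 2) S with hA
  have h8 : ((U 0) ^ 2) ^ (2 ^ kap l S.length) ≤ (1 + γ ^ 2) * A := by
    have h9 : (1 + γ ^ 2) * (c * ((U 0) ^ 2) ^ (2 ^ kap l S.length)) ≤ (1 + γ ^ 2) * A :=
      mul_le_mul_of_nonneg_left h7 (by positivity)
    have h10 : 0 ≤ ((U 0) ^ 2) ^ (2 ^ kap l S.length) := by positivity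
    nlinarith
  have h11 : 0 < σ * r ^ 2 ^ kap' m l S.length := by positivity
  have h12 : 0 < r ^ 6 := by positivity
  nlinarith

/-! ### From the sentence to zeros -/

/-- The value of `Φ` at the point. -/
noncomputable def PhiV (p : Inp) (x : Fin (dn p) → ℝ) (Y : Fin (dm p + 2) → ℝ)
    (U : Fin (dl p + 1) → ℝ) : ℝ :=
  Phi (loc p) (nS p) ((1 / 2) ^ (2 ^ dk'' p)) ((Y 0) ^ 2) (Y 1) ((U 0) ^ 2)
    (((U 0) ^ 2) ^ (2 ^ dk p)) (((Y 0) ^ 2) ^ (2 ^ dk' p)) x (fun j => Y j.succ.succ)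
    (fun j => U j.succ)

theorem facts (p : Inp) (x : Fin (dn p) → ℝ) (Y : Fin (dm p + 2) → ℝ)
    (U : Fin (dl p + 1) → ℝ) (v : ℕ → ℝ) (vX : ∀ j (hj : j < dn p), v j = x ⟨j, hj⟩)
    (vY : ∀ j (hj : j < dm p + 2), v (dn p + j) = Y ⟨j, hj⟩)
    (vZ : ∀ j < dL p, v (dn p + (dm p + 2) + j) = zval p Y U j) :
    (v (bW p) = (v (dn p + dm p + 2)) ^ 2 ∧ ∀ j < dk p, v (bW p + j + 1) = v (bW p + j) ^ 2) ∧
    (v (bR p) = (v (dn p)) ^ 2 ∧ ∀ j < dk' p, v (bR p + j + 1) = v (bR p + j) ^ 2) ∧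
    (v (bS p) + v (bS p) = 1 ∧ ∀ j < dk'' p, v (bS p + j + 1) = v (bS p + j) ^ 2) ∧
    (tPhi p).eval v = PhiV p x Y U := by
  have hw : v (dn p + dm p + 2) = U 0 := by
    have h1 := vZ 0 (by unfold dL; omega)
    rw [show dn p + dm p + 2 = dn p + (dm p + 2) + 0 by ring, h1]
    unfold zval
    rw [dif_pos (by omega)]
    rfl
  have hρ : v (dn p) = Y 0 := by
    have h1 := vY 0 (by omega)
    rw [show dn p = dn p + 0 by ring, h1]
    rfl
  have hγ : v (dn p + 1) = Y 1 := by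
    rw [vY 1 (by omega)]
    rfl
  have vW : ∀ j ≤ dk p, v (bW p + j) = ((U 0) ^ 2) ^ (2 ^ j) := by
    intro j hj
    have h1 := vZ (dl p + 1 + j) (by unfold dL; omega)
    have e : bW p + j = dn p + (dm p + 2) + (dl p + 1 + j) := by unfold bW; ring
    rw [e, h1]
    unfold zval
    rw [dif_neg (by omega), if_pos (by omega)]
    congr 2
    omega
  have vR : ∀ j ≤ dk' p, v (bR p + j) = ((Y 0) ^ 2) ^ (2 ^ j) := by
    intro j hj
    have h1 := vZ (dl p + 1 + (dk p + 1) + j) (by unfold dL; omega)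
    have e : bR p + j = dn p + (dm p + 2) + (dl p + 1 + (dk p + 1) + j) := by
      unfold bR bW; ring
    rw [e, h1]
    unfold zval
    rw [dif_neg (by omega), if_neg (by omega), if_pos (by omega)]
    congr 2
    omega
  have vS : ∀ j ≤ dk'' p, v (bS p + j) = (1 / 2) ^ (2 ^ j) := by
    intro j hj
    have h1 := vZ (dl p + 1 + (dk p + 1) + (dk' p + 1) + j) (by unfold dL; omega)
    have e : bS p + j = dn p + (dm p + 2) + (dl p + 1 + (dk p + 1) + (dk' p + 1) + j) := by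
      unfold bS bR bW; ring
    rw [e, h1]
    unfold zval
    rw [dif_neg (by omega), if_neg (by omega), if_neg (by omega)]
    congr 2
    omega
  have chn : ∀ (a : ℝ) (b k : ℕ), (∀ j ≤ k, v (b + j) = a ^ (2 ^ j)) →
      ∀ j < k, v (b + j + 1) = v (b + j) ^ 2 := by
    intro a b k hk j hj
    rw [show b + j + 1 = b + (j + 1) by ring, hk (j + 1) (by omega), hk j (by omega),
      ← pow_mul]
    congr 1
  refine ⟨⟨?_, chn _ _ _ vW⟩, ⟨?_, chn _ _ _ vR⟩, ⟨?_, chn _ _ _ vS⟩, ?_⟩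
  · have := vW 0 (by omega)
    simp only [add_zero, pow_zero, pow_one] at this
    rw [this, hw]
  · have := vR 0 (by omega)
    simp only [add_zero, pow_zero, pow_one] at this
    rw [this, hρ]
  · have := vS 0 (by omega)
    simp only [add_zero, pow_zero, pow_one] at this
    rw [this]
    norm_num
  · rw [eval_tPhi, vW _ (le_refl _), vR _ (le_refl _), vS _ (le_refl _), hw, hρ, hγ]
    have f4 : (fun j : Fin (dn p) => v j) = x := by
      funext j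
      rw [vX j j.2]
    have f3 : (fun j : Fin (dm p) => v (dn p + 2 + j)) = fun j => Y j.succ.succ := by
      funext j
      rw [show dn p + 2 + (j : ℕ) = dn p + (j + 2) by ring, vY (j + 2) (by
        have := j.2; omega)]
      rfl
    have f5 : (fun j : Fin (dl p) => v (dn p + dm p + 3 + j)) = fun j => U j.succ := by
      funext j
      have h1 := vZ (j + 1) (by have := j.2; unfold dL; omega)
      rw [show dn p + dm p + 3 + (j : ℕ) = dn p + (dm p + 2) + (j + 1) by ring, h1]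
      unfold zval
      rw [dif_pos (by have := j.2; omega)]
      rfl
    rw [f3, f4, f5]
    rfl

theorem PhiV_ge (p : Inp) (x : Fin (dn p) → ℝ) (Y : Fin (dm p + 2) → ℝ)
    (U : Fin (dl p + 1) → ℝ) (hY : Y ∈ cube (dm p + 2)) (hU : U ∈ cube (dl p + 1)) :
    -1 ≤ PhiV p x Y U := by
  unfold PhiV Phi
  have hσ0 : 0 ≤ (1 / 2 : ℝ) ^ (2 ^ dk'' p) := by positivity
  have hσ1 : (1 / 2 : ℝ) ^ (2 ^ dk'' p) ≤ 1 := pow_le_one₀ (by norm_num) (by norm_num)
  generalize (1 / 2 : ℝ) ^ (2 ^ dk'' p) = σ at *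
  generalize 2 ^ dk p = κ at *
  generalize 2 ^ dk' p = κ' at *
  have hY1 : Y 0 ^ 2 ≤ 1 := sq_le_one_iff'.2 (hY 0)
  have hU1 : U 0 ^ 2 ≤ 1 := sq_le_one_iff'.2 (hU 0)
  have h1 : (Y 0 ^ 2) ^ 6 ≤ 1 := pow_le_one₀ (sq_nonneg _) hY1
  have h2 : (U 0 ^ 2) ^ κ ≤ 1 := pow_le_one₀ (sq_nonneg _) hU1
  have h3 : σ ^ 4 ≤ 1 := pow_le_one₀ hσ0 hσ1
  have h4 : 0 ≤ (Y 0 ^ 2) ^ 6 := by positivity
  have h5 : 0 ≤ (U 0 ^ 2) ^ κ := by positivity
  have h6 : 0 ≤ σ ^ 4 := by positivity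
  have h7 : σ ^ 4 * (Y 0 ^ 2) ^ 6 * (U 0 ^ 2) ^ κ ≤ 1 := by
    have h8 : σ ^ 4 * (Y 0 ^ 2) ^ 6 ≤ 1 := mul_le_one₀ h3 h4 h1
    exact mul_le_one₀ h8 h5 h2
  have h9 : 0 ≤ σ ^ 5 * (Y 0 ^ 2) ^ κ' := by positivity
  have h10 := qsum_nonneg (pick (loc p) (fun j => Y 0 ^ 2 * U 0 ^ 2 * x j)
    (fun j => σ * U 0 ^ 2 * Y j.succ.succ)
    (fun j => σ * Y 0 ^ 2 * U j.succ))
    (σ * Y 0 ^ 2 * U 0 ^ 2) (nS p)
  have h11 : 0 ≤ ((Y 0 ^ 2) ^ 2 + Y 1 ^ 2) := by positivity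
  have h12 := mul_nonneg h11 h10
  linarith

theorem sum_sq_cube {N : ℕ} (Y : Fin N → ℝ) (h : ∑ j, Y j ^ 2 < 1) : Y ∈ cube N := by
  intro j
  have h1 : Y j ^ 2 ≤ ∑ j, Y j ^ 2 :=
    Finset.single_le_sum (f := fun j => Y j ^ 2) (fun _ _ => sq_nonneg _) (mem_univ j)
  exact sq_le_one_iff'.1 (by linarith)

theorem dn_pI : dn (pI I) = 0 := rfl

theorem zero_of_sent (h : Sent (loc (pI I)) (nS (pI I))) (Y : Fin (ik I) → ℝ) (hY : sx Y < 1) :
    ∃ z : Fin (iM I) → ℝ, q (hkI I) (pp I) Y z = 0 := by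
  obtain ⟨x, hx, hx2⟩ := good_of_sent_eff (loc (pI I)) (nS (pI I)) h
  have hYc : (Y : Fin (dm (pI I) + 2) → ℝ) ∈ cube (dm (pI I) + 2) := sum_sq_cube _ hY
  obtain ⟨U, hU, hPhi⟩ := hx2 Y hYc
  have hPhi' : PhiV (pI I) x Y U ≤ 0 := hPhi
  have hge := PhiV_ge (pI I) x Y U hYc hU
  have hdn := dn_pI I
  -- the values of the first half
  let u : ℕ → ℝ := fun i =>
    if h : i < dm (pI I) + 2 then Y ⟨i, h⟩
    else if i < dm (pI I) + 2 + dL (pI I) then zval (pI I) Y U (i - (dm (pI I) + 2))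
    else Real.sqrt (-PhiV (pI I) x Y U)
  have hu : ∀ i, |u i| ≤ 1 := by
    intro i
    simp only [u]
    split_ifs with h1 h2
    · exact hYc _
    · exact zval_le _ _ _ hYc hU _
    · rw [abs_of_nonneg (Real.sqrt_nonneg _)]
      exact Real.sqrt_le_one.2 (by linarith)
  let v : ℕ → ℝ := fun i => if i < iM0 I then u i else Real.sqrt (1 - u (i - iM0 I) ^ 2)
  have hb : bS (pI I) + dk'' (pI I) + 1 = dm (pI I) + 2 + dL (pI I) := by
    unfold bS bR bW dL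
    rw [hdn]
    ring
  have hM0 : iM0 I = dm (pI I) + 2 + dL (pI I) + 1 := by
    unfold iM0
    omega
  have vu : ∀ i < iM0 I, v i = u i := by
    intro i hi
    simp only [v]
    rw [if_pos hi]
  have vX : ∀ j (hj : j < dn (pI I)), v j = x ⟨j, hj⟩ := by
    intro j hj
    rw [hdn] at hj
    omega
  have vY : ∀ j (hj : j < dm (pI I) + 2), v (dn (pI I) + j) = Y ⟨j, hj⟩ := by
    intro j hj
    rw [hdn, zero_add, vu j (by omega)]
    simp only [u]
    rw [dif_pos hj]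
  have vZ : ∀ j < dL (pI I), v (dn (pI I) + (dm (pI I) + 2) + j) = zval (pI I) Y U j := by
    intro j hj
    rw [hdn, zero_add, vu _ (by omega)]
    simp only [u]
    rw [dif_neg (by omega), if_pos (by omega)]
    congr 1
    omega
  obtain ⟨h1, h2, h3, h4⟩ := facts (pI I) x Y U v vX vY vZ
  refine ⟨fun l => v l, (q_zero_iff I Y v).2 ⟨fun j => ?_, (pT_zero_iff I v).2
    ⟨fun i hi => ?_, h1, h2, h3, ?_⟩⟩⟩
  · have := vY j j.2
    rw [hdn, zero_add] at this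
    exact this
  · rw [vu i hi]
    have e : v (iM0 I + i) = Real.sqrt (1 - u i ^ 2) := by
      simp only [v]
      rw [if_neg (by omega)]
      congr 4
      omega
    rw [e, Real.sq_sqrt]
    · ring
    · have := sq_le_one_iff'.2 (hu i)
      linarith
  · rw [h4, hb, vu _ (by omega)]
    simp only [u]
    rw [dif_neg (by omega), if_neg (by omega), Real.sq_sqrt (by linarith)]
    ring

theorem sent_of_zero (h : ∀ Y : Fin (ik I) → ℝ, sx Y < 1 →
    ∃ z : Fin (iM I) → ℝ, q (hkI I) (pp I) Y z = 0) : Sent (loc (pI I)) (nS (pI I)) := by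
  have hdn := dn_pI I
  have key : ∀ Y : Fin (ik I) → ℝ, sx Y < 1 → ∃ v : ℕ → ℝ, (∀ j : Fin (ik I), v j = Y j) ∧
      (pT I).eval v = 0 := by
    intro Y hY
    obtain ⟨z, hz⟩ := h Y hY
    obtain ⟨v, hv⟩ : ∃ v, v = ext0 z := ⟨_, rfl⟩
    have hz' : z = fun l : Fin (iM I) => v l := by rw [hv, ext0_val]
    rw [hz', q_zero_iff] at hz
    exact ⟨v, hz⟩
  refine sent_of_ball (loc (pI I)) (nS (pI I)) (σ := (1 / 2) ^ (2 ^ dk'' (pI I)))
    (by positivity) (fun j => 0) fun Y hY => ?_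
  obtain ⟨v, hYv, hz⟩ := key Y hY
  rw [pT_zero_iff] at hz
  obtain ⟨hs, ⟨a1, a2⟩, ⟨b1, b2⟩, ⟨c1, c2⟩, hPhi⟩ := hz
  have va := chain_val v (bW (pI I)) (dk (pI I)) a2 _ (le_refl _)
  have vb := chain_val v (bR (pI I)) (dk' (pI I)) b2 _ (le_refl _)
  have vc := chain_val v (bS (pI I)) (dk'' (pI I)) c2 _ (le_refl _)
  have hc0 : v (bS (pI I)) = 1 / 2 := by linarith
  rw [a1] at va
  rw [b1] at vb
  rw [hc0] at vc
  have hPhi0 : (tPhi (pI I)).eval v ≤ 0 := by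
    have := sq_nonneg (v (bS (pI I) + dk'' (pI I) + 1))
    linarith
  rw [eval_tPhi, va, vb, vc] at hPhi0
  have hM0 : dm (pI I) + 2 + (dl (pI I) + 1) ≤ iM0 I := by
    unfold iM0 bS bR bW
    omega
  refine ⟨fun j => v (dn (pI I) + (dm (pI I) + 2) + j), ?_, ?_⟩
  · intro j
    have h1 := hs (dn (pI I) + (dm (pI I) + 2) + j) (by have := j.2; omega)
    have h2 := sq_nonneg (v (iM0 I + (dn (pI I) + (dm (pI I) + 2) + j)))
    exact sq_le_one_iff'.1 (by linarith)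
  · have hYv' : ∀ j (hj : j < dm (pI I) + 2), v j = Y ⟨j, hj⟩ := fun j hj => hYv ⟨j, hj⟩
    have f1 : v (dn (pI I)) = Y 0 := by
      have := hYv' 0 (by omega)
      rw [hdn]
      simpa using this
    have f2 : v (dn (pI I) + 1) = Y 1 := by
      have := hYv' 1 (by omega)
      rw [hdn, zero_add, this]
      rfl
    have f3 : (fun j : Fin (dm (pI I)) => v (dn (pI I) + 2 + j)) =
        fun j => Y j.succ.succ := by
      funext j
      have := hYv' (j + 2) (by have := j.2; omega)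
      rw [hdn, show 0 + 2 + (j : ℕ) = j + 2 by ring, this]
      rfl
    have f4 : (fun j : Fin (dn (pI I)) => v j) = fun j => 0 := by
      funext j
      have h7 : (j : ℕ) < dn (pI I) := j.2
      omega
    have f5 : (fun j : Fin (dl (pI I)) => v (dn (pI I) + dm (pI I) + 3 + j)) =
        fun j => v (dn (pI I) + (dm (pI I) + 2) + (j.succ : Fin (dl (pI I) + 1))) := by
      funext j
      congr 1
      simp only [Fin.val_succ]
      ring
    have f6 : v (dn (pI I) + dm (pI I) + 2) =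
        v (dn (pI I) + (dm (pI I) + 2) + ((0 : Fin (dl (pI I) + 1)) : ℕ)) := by
      congr 1
    rw [f1, f2, f3, f4, f5, f6] at hPhi0
    exact hPhi0

end NFL

/-- [NF] -/
theorem nf : S_NF := by
  intro I
  refine ⟨NFL.vlt_pT I, ?_⟩
  rw [NFL.ear_iff]
  constructor
  · intro h
    by_contra h1
    push Not at h1
    refine h (NFL.sent_of_zero I fun Y hY => ?_)
    obtain ⟨z, hz⟩ := h1 Y hY
    exact ⟨z, le_antisymm hz (NFL.q_nonneg I Y z)⟩
  · rintro ⟨Y, hY, h1⟩ h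
    obtain ⟨z, hz⟩ := NFL.zero_of_sent I h Y hY
    exact (h1 z).ne' hz

end Pool.Agent.Helper97K9.IP
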