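import Pool.Agent.Helper97K9.IP.Basic

/-!
# Rigid witnesses: ring homomorphisms and norms
-/

set_option autoImplicit false

namespace Pool.Agent.Helper97K9.IP

open Finset Filter Topology Pool.Agent.H612 Pool.Agent.R537.RN

variable {R : Type} [CommRing R] {R' : Type} [CommRing R'] {k M : ℕ} (hk : k ≤ M)
  (p : MvPolynomial (Fin M) ℤ)

theorem pe_map (f : R →+* R') (z : Fin M → R) : f (pe p z) = pe p (fun l => f (z l)) := by
  unfold pe
  rw [MvPolynomial.eval₂_eq', MvPolynomial.eval₂_eq', map_sum]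
  refine Finset.sum_congr rfl fun d _ => ?_
  rw [map_mul, map_prod]
  congr 1
  · simp
  · exact Finset.prod_congr rfl fun i _ => map_pow _ _ _

theorem sx_map (f : R →+* R') (x : Fin k → R) : f (sx x) = sx (fun j => f (x j)) := by
  unfold sx
  rw [map_sum]
  exact Finset.sum_congr rfl fun j _ => map_pow _ _ _

theorem q_map (f : R →+* R') (x : Fin k → R) (z : Fin M → R) :
    f (q hk p x z) = q hk p (fun j => f (x j)) (fun l => f (z l)) := by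
  unfold q
  rw [map_add, map_sum, pe_map]
  congr 1
  refine Finset.sum_congr rfl fun j _ => ?_
  rw [map_pow, map_sub]

theorem gg_map (f : R →+* R') (x : Fin k → R) (z : Fin M → R) :
    f (gg hk p x z) = gg hk p (fun j => f (x j)) (fun l => f (z l)) := by
  unfold gg
  rw [map_mul, q_map, map_sub, map_one, sx_map]

theorem dq_map (f : R →+* R') (l : Fin M) (x : Fin k → R) (z : Fin M → R) :
    f (dq p l x z) = dq p l (fun j => f (x j)) (fun l => f (z l)) := by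
  unfold dq
  rw [map_add, pe_map]
  congr 1
  split_ifs with h
  · rw [map_mul, map_sub, map_ofNat]
  · exact map_zero f

theorem Ceq_map (f : R →+* R') (w : ℕ → R) (j : Fin k) :
    f (Ceq hk w j) = Ceq hk (fun i => f (w i)) j := by
  simp only [Ceq, map_sub, map_mul, map_sum, map_one, sx_map, xw, μw, zw, map_pow, map_ofNat]
  rfl

theorem Eeq_map (f : R →+* R') (w : ℕ → R) : f (Eeq k w) = Eeq k (fun i => f (w i)) := by
  simp only [Eeq, map_sub, map_mul, map_one, sx_map, xw]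
  rfl

theorem Fsq_map (f : R →+* R') (A : R) (β : Fin k → R) (w : ℕ → R) :
    f (Fsq hk p A β w) = Fsq hk p (f A) (fun j => f (β j)) (fun i => f (w i)) := by
  simp only [Fsq, map_add, map_mul, map_pow, map_sum, map_sub, map_one, dq_map, q_map, Ceq_map,
    Eeq_map, xw, μw, zw]
  rfl

/-! ### Norms -/

variable (nr : RNorm R)

theorem ν_int (c : ℤ) : nr.ν (Int.castRingHom R c) ≤ c.natAbs := by
  rcases Int.natAbs_eq c with h | h
  · rw [h]
    simp only [map_natCast, Int.natAbs_natCast]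
    exact nr.natCast _
  · rw [h]
    simp only [map_neg, map_natCast, Int.natAbs_neg, Int.natAbs_natCast]
    exact (nr.neg _).trans (nr.natCast _)

theorem pe_ν {D : ℕ} (hD : DegLE p D) {a : ℕ} (ha : 1 ≤ a) (z : Fin M → R)
    (hz : ∀ l, nr.ν (z l) ≤ a) : nr.ν (pe p z) ≤ RNorm.int.mν p * a ^ D := by
  unfold pe
  rw [MvPolynomial.eval₂_eq', RNorm.mν, Finset.sum_mul]
  refine (nr.sum _ _).trans (Finset.sum_le_sum fun d hd => ?_)
  refine (nr.mul _ _).trans (Nat.mul_le_mul (ν_int nr _) ?_)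
  refine (nr.prod _ _).trans ?_
  calc ∏ i, nr.ν (z i ^ d i) ≤ ∏ i, a ^ d i :=
        Finset.prod_le_prod (fun _ _ => Nat.zero_le _) fun i _ => ν_pow nr _ _ _ (hz i)
    _ = a ^ ∑ i, d i := Finset.prod_pow_eq_pow_sum _ _ _
    _ ≤ a ^ D := Nat.pow_le_pow_right ha (hD d hd)

theorem sum_sq_ν {N : ℕ} {a : ℕ} (y : Fin N → R) (hy : ∀ j, nr.ν (y j) ≤ a) :
    nr.ν (∑ j, y j ^ 2) ≤ N * a ^ 2 := by
  refine (nr.sum _ _).trans ?_
  calc ∑ j, nr.ν (y j ^ 2) ≤ ∑ _j : Fin N, a ^ 2 :=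
        Finset.sum_le_sum fun j _ => ν_pow nr _ _ _ (hy j)
    _ = N * a ^ 2 := by simp

theorem sx_ν {a : ℕ} (x : Fin k → R) (hx : ∀ j, nr.ν (x j) ≤ a) : nr.ν (sx x) ≤ k * a ^ 2 :=
  sum_sq_ν nr x hx

theorem q_ν (hD : DegLE p 48) {s : ℕ} (hs : RNorm.int.mν p ≤ 2 ^ 2 ^ s) {a : ℕ} (ha : 1 ≤ a)
    (x : Fin k → R) (z : Fin M → R) (hx : ∀ j, nr.ν (x j) ≤ a) (hz : ∀ l, nr.ν (z l) ≤ a) :
    nr.ν (q hk p x z) ≤ 2 ^ 2 ^ s * a ^ 48 * (4 * k + 1) := by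
  unfold q
  refine (nr.add _ _).trans ?_
  have h1 : nr.ν (∑ j, (z (Fin.castLE hk j) - x j) ^ 2) ≤ k * (2 * a) ^ 2 :=
    sum_sq_ν nr _ fun j => (nr.sub _ _).trans (by have := hx j; have := hz (Fin.castLE hk j); omega)
  have h2 := (pe_ν p nr hD ha z hz).trans (Nat.mul_le_mul_right _ hs)
  have h3 : a ^ 2 ≤ 2 ^ 2 ^ s * a ^ 48 := by
    calc a ^ 2 ≤ 1 * a ^ 48 := by rw [one_mul]; exact Nat.pow_le_pow_right ha (by norm_num)
      _ ≤ _ := Nat.mul_le_mul_right _ Nat.one_le_two_pow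
  have h4 : k * (2 * a) ^ 2 = (4 * k) * a ^ 2 := by ring
  rw [h4] at h1
  have h5 := Nat.mul_le_mul_left (4 * k) h3
  calc _ ≤ (4 * k) * (2 ^ 2 ^ s * a ^ 48) + 2 ^ 2 ^ s * a ^ 48 := by omega
    _ = _ := by ring

theorem gg_ν (hD : DegLE p 48) {s : ℕ} (hs : RNorm.int.mν p ≤ 2 ^ 2 ^ s) {a : ℕ} (ha : 1 ≤ a)
    (x : Fin k → R) (z : Fin M → R) (hx : ∀ j, nr.ν (x j) ≤ a) (hz : ∀ l, nr.ν (z l) ≤ a) :
    nr.ν (gg hk p x z) ≤ 2 ^ 2 ^ s * a ^ 50 * ((4 * k + 1) * (k + 1)) := by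
  unfold gg
  refine (nr.mul _ _).trans ?_
  have h1 := q_ν hk p nr hD hs ha x z hx hz
  have h2 : nr.ν (1 - sx x) ≤ (k + 1) * a ^ 2 := by
    refine (nr.sub _ _).trans ?_
    have h3 := sx_ν nr x hx
    have h4 := nr.one
    have h5 : 1 ≤ a ^ 2 := Nat.one_le_pow _ _ ha
    calc _ ≤ 1 + k * a ^ 2 := by omega
      _ ≤ a ^ 2 + k * a ^ 2 := by omega
      _ = _ := by ring
  calc _ ≤ (2 ^ 2 ^ s * a ^ 48 * (4 * k + 1)) * ((k + 1) * a ^ 2) := Nat.mul_le_mul h1 h2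
    _ = _ := by ring

/-- The norm of `q(x, z) (1 - |x|²)` for the variables `x_j`, `z_l / (k + 2)`. -/
theorem gg_ν' (hD : DegLE p 48) {s : ℕ} (hs : RNorm.int.mν p ≤ 2 ^ 2 ^ s)
    (x : Fin k → R) (z : Fin M → R) (hx : ∀ j, nr.ν (x j) ≤ 2)
    (hz : ∀ l, nr.ν (z l) ≤ 2) :
    nr.ν (gg hk p x (fun l => ((k + 2 : ℕ) : R) * z l)) ≤ 2 ^ (2 ^ (s + k) * 1000) := by
  have hk2 : k + 2 ≤ 2 ^ (k + 1) := by
    have h2 : k + 1 ≤ 2 ^ k := Nat.lt_two_pow_self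
    rw [pow_succ]
    omega
  have ha : (k + 2) * 2 ≤ 2 ^ (k + 2) := by
    rw [pow_succ]
    exact Nat.mul_le_mul_right 2 hk2
  have h1 := gg_ν hk p nr hD hs (a := 2 ^ (k + 2)) Nat.one_le_two_pow x
    (fun l => ((k + 2 : ℕ) : R) * z l)
    (fun j => (hx j).trans (by omega)) (fun l => by
      refine (nr.mul _ _).trans ?_
      exact (Nat.mul_le_mul (nr.natCast _) (hz l)).trans ha)
  refine h1.trans ?_
  have h3 : (4 * k + 1) * (k + 1) ≤ 2 ^ (k + 2) * 2 ^ k := by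
    have h2 : k + 1 ≤ 2 ^ k := Nat.lt_two_pow_self
    refine Nat.mul_le_mul ?_ h2
    rw [pow_add]
    omega
  calc 2 ^ 2 ^ s * (2 ^ (k + 2)) ^ 50 * ((4 * k + 1) * (k + 1))
      ≤ 2 ^ 2 ^ s * (2 ^ (k + 2)) ^ 50 * (2 ^ (k + 2) * 2 ^ k) := Nat.mul_le_mul_left _ h3
    _ = 2 ^ (2 ^ s + (k + 2) * 50 + (k + 2 + k)) := by rw [← pow_mul, ← pow_add, ← pow_add,
        ← pow_add]
    _ ≤ 2 ^ (2 ^ (s + k) * 1000) := by
      refine Nat.pow_le_pow_right (by norm_num) ?_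
      have h5 : k + 1 ≤ 2 ^ k := Nat.lt_two_pow_self
      have h6 : 1 ≤ 2 ^ s := Nat.one_le_two_pow
      have h7 : 2 ^ s * 2 ^ k = 2 ^ (s + k) := (pow_add _ _ _).symm
      have h8 : 2 ^ s ≤ 2 ^ (s + k) := Nat.pow_le_pow_right (by norm_num) (by omega)
      have h9 : 2 ^ k ≤ 2 ^ (s + k) := Nat.pow_le_pow_right (by norm_num) (by omega)
      omega

end Pool.Agent.Helper97K9.IP
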