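import Pool.Agent.Helper97K9.IP.Ptm
import Pool.Agent.R537.HD.PolyT

/-!
# Rigid witnesses: the reduction is computable in polynomial time [PT]
-/

set_option autoImplicit false

namespace Pool.Agent.Helper97K9.IP

open Pool.Agent.NPC Pool.Agent.NPC.ER Pool.Agent.NPC.H612 Pool.Agent.NPC.R537HD
open Pool.Agent.R537.RN (Gx)

namespace PTR

section

variable {α : Type} [TEnc α] {I : α → In} (hI : Poly I)

include hI

theorem poly_pI : Poly (fun a => pI (I a)) :=
  NPC.Poly.pair (NPC.Poly.const []) (NPC.Poly.pair (NPC.Poly.fst hI) (poly_fnot (NPC.Poly.snd hI)))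

theorem u_ik : UPoly (fun a => ik (I a)) := UPoly.add (upoly_dm (poly_pI hI)) (UPoly.const 2)

theorem u_iM0 : UPoly (fun a => iM0 (I a)) :=
  UPoly.add (UPoly.add (upoly_bS (poly_pI hI)) (upoly_dk'' (poly_pI hI))) (UPoly.const 2)

theorem u_iM : UPoly (fun a => iM (I a)) := UPoly.add (u_iM0 hI) (u_iM0 hI)

omit hI in
theorem poly_chq {b k : α → ℕ} (hb : Poly b) (hk : UPoly k) : Poly (fun a => chq (b a) (k a)) := by
  refine NPC.Poly.map (F := fun a j => sqT (subT (Tm.var (b a + j + 1)) (sqT (Tm.var (b a + j)))))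
    hk.range ?_
  have h1 : Poly (fun q : α × ℕ => b q.1 + q.2) :=
    NPC.Poly.add (hb.comp (NPC.Poly.fst NPC.Poly.id)) (NPC.Poly.snd NPC.Poly.id)
  exact poly_sqT (poly_subT (poly_tvar (NPC.Poly.add h1 (NPC.Poly.const 1))) (poly_sqT (poly_tvar h1)))

theorem poly_ltT : Poly (fun a => ltT (I a)) := by
  have hp := poly_pI hI
  have hW := (upoly_bW hp).toPoly
  have hR := (upoly_bR hp).toPoly
  have hS := (upoly_bS hp).toPoly
  refine NPC.Poly.append ?_ (NPC.Poly.append ?_ (NPC.Poly.append (poly_chq hW (upoly_dk hp))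
    (NPC.Poly.append (poly_chq hR (upoly_dk' hp)) (poly_chq hS (upoly_dk'' hp)))))
  · refine NPC.Poly.map (F := fun a i => sqT (subT (Tm.add (sqT (Tm.var i))
      (sqT (Tm.var (iM0 (I a) + i)))) Tm.one)) (u_iM0 hI).range ?_
    refine poly_sqT (poly_subT (poly_tadd (poly_sqT (poly_tvar (NPC.Poly.snd NPC.Poly.id)))
      (poly_sqT (poly_tvar (NPC.Poly.add ?_ (NPC.Poly.snd NPC.Poly.id))))) (NPC.Poly.const _))
    exact (u_iM0 (hI.comp (NPC.Poly.fst NPC.Poly.id))).toPoly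
  · refine NPC.Poly.cons (poly_sqT (poly_subT (poly_tvar hW) (poly_tt' hp))) (NPC.Poly.cons
      (poly_sqT (poly_subT (poly_tvar hR) (poly_tr hp))) (NPC.Poly.cons
        (poly_sqT (poly_subT (poly_tadd (poly_tvar hS) (poly_tvar hS)) (NPC.Poly.const _)))
          (NPC.Poly.cons ?_ (NPC.Poly.const _))))
    exact poly_sqT (poly_tadd (poly_tPhi hp) (poly_sqT (poly_tvar
      (NPC.Poly.add (NPC.Poly.add hS (upoly_dk'' hp).toPoly) (NPC.Poly.const 1)))))

theorem poly_pT : Poly (fun a => pT (I a)) := poly_sumT (poly_ltT hI)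

theorem u_is : UPoly (fun a => is' (I a)) := UPoly.length (tm_toks (poly_pT hI))

theorem u_K3 : UPoly (fun a => K3 (ik (I a)) (iM (I a)) (is' (I a))) :=
  upoly_Gx (u_ik hI) (upoly_Gx (u_iM hI) (UPoly.add (UPoly.add (u_is hI) (u_ik hI))
    (UPoly.const 20)))

theorem u_K1 : UPoly (fun a => K1 (ik (I a)) (iM (I a)) (is' (I a))) :=
  upoly_Gx (UPoly.add (u_ik hI) (u_ik hI))
    (upoly_Gx (UPoly.add (UPoly.add (u_iM hI) (u_iM hI)) (u_ik hI))
      (upoly_Gx (u_iM hI) (UPoly.add (UPoly.add (u_is hI) (u_ik hI)) (UPoly.const 20))))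

theorem u_iea {i : α → ℕ} (hi : UPoly i) : UPoly (fun a => iea (I a) (i a)) :=
  UPoly.add (UPoly.add (UPoly.add (UPoly.add (u_K1 hI) (u_K3 hI)) (u_ik hI)) (UPoly.const 10))
    (UPoly.mul hi (UPoly.add (u_K1 hI) (UPoly.const 1)))

theorem poly_iea {i : α → ℕ} (hi : Poly i) : Poly (fun a => iea (I a) (i a)) :=
  NPC.Poly.add (NPC.Poly.add (NPC.Poly.add (NPC.Poly.add (u_K1 hI).toPoly (u_K3 hI).toPoly) (u_ik hI).toPoly)
    (NPC.Poly.const 10)) (NPC.Poly.mul hi (NPC.Poly.add (u_K1 hI).toPoly (NPC.Poly.const 1)))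

theorem u_iN : UPoly (fun a => iN (I a)) :=
  UPoly.add (UPoly.add (UPoly.mul (UPoly.const 2) (u_ik hI)) (UPoly.const 3))
    (UPoly.mul (UPoly.add (u_ik hI) (UPoly.const 1)) (u_iM hI))

theorem u_K5 {c : α → ℕ} (hc : UPoly c) :
    UPoly (fun a => K5 (ik (I a)) (iM (I a)) (is' (I a)) (c a)) :=
  upoly_Gx (u_iN hI) (UPoly.add (UPoly.add (UPoly.add (UPoly.add (u_is hI) hc) (u_ik hI))
    (u_iM hI)) (UPoly.const 30))

theorem u_iL : UPoly (fun a => iL (I a)) := by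
  have h1 : UPoly (fun a => iea (I a) (ik (I a))) := u_iea hI (u_ik hI)
  refine UPoly.add (UPoly.add (UPoly.add ?_ (u_iN hI)) (u_ik hI)) (UPoly.const 20)
  exact UPoly.add (UPoly.add (UPoly.add (UPoly.add h1 (UPoly.const 2)) h1)
    (UPoly.mul (UPoly.const 2) (u_K5 hI h1))) (UPoly.const 10)

theorem poly_o {j : α → ℕ} (hj : Poly j) : Poly (fun a => o (I a) (j a)) :=
  NPC.Poly.add (NPC.Poly.add (u_iL hI).toPoly (NPC.Poly.const 1)) (NPC.Poly.mul hj (u_iN hI).toPoly)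

theorem u_bX : UPoly (fun a => bX (I a)) :=
  UPoly.add (UPoly.add (u_iL hI) (UPoly.const 1))
    (UPoly.mul (UPoly.add (u_ik hI) (UPoly.const 1)) (u_iN hI))

theorem u_bZ : UPoly (fun a => bZ (I a)) := UPoly.add (u_bX hI) (u_ik hI)

theorem poly_zp {j i : α → ℕ} (hj : Poly j) (hi : Poly i) :
    Poly (fun a => o (I a) (j a) + 2 * ik (I a) + 3 + i a * iM (I a)) :=
  NPC.Poly.add (NPC.Poly.add (NPC.Poly.add (poly_o hI hj) (NPC.Poly.mul (NPC.Poly.const 2) (u_ik hI).toPoly))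
    (NPC.Poly.const 3)) (NPC.Poly.mul hi (u_iM hI).toPoly)

theorem poly_tz {j i l : α → ℕ} (hj : Poly j) (hi : Poly i) (hl : Poly l) :
    Poly (fun a => tz (I a) (j a) (i a) (l a)) :=
  poly_tvar (NPC.Poly.add (poly_zp hI hj hi) hl)

theorem poly_tx {j l : α → ℕ} (hj : Poly j) (hl : Poly l) :
    Poly (fun a => tx (I a) (j a) (l a)) := poly_tvar (NPC.Poly.add (poly_o hI hj) hl)

theorem poly_tμ {j i : α → ℕ} (hj : Poly j) (hi : Poly i) :
    Poly (fun a => tμ (I a) (j a) (i a)) :=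
  poly_tvar (NPC.Poly.add (NPC.Poly.add (NPC.Poly.add (poly_o hI hj) (u_ik hI).toPoly) (NPC.Poly.const 2)) hi)

omit hI in
theorem poly_dbl {t : α → Tm} (ht : Poly t) : Poly (fun a => dbl (t a)) := poly_tadd ht ht

theorem poly_tq {j i : α → ℕ} (hj : Poly j) (hi : Poly i) :
    Poly (fun a => tq (I a) (j a) (i a)) := by
  refine poly_tadd (poly_sumT ?_) (PTL.poly_shT (poly_zp hI hj hi) (poly_pT hI))
  have f : Poly (fun q : α × ℕ => q.1) := NPC.Poly.fst NPC.Poly.id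
  refine NPC.Poly.map (F := fun a l => sqT (subT (tz (I a) (j a) (i a) l) (tx (I a) (j a) l)))
    (u_ik hI).range ?_
  exact poly_sqT (poly_subT (poly_tz (hI.comp f) (hj.comp f) (hi.comp f) (NPC.Poly.snd NPC.Poly.id))
    (poly_tx (hI.comp f) (hj.comp f) (NPC.Poly.snd NPC.Poly.id)))

theorem poly_tdq {j i l : α → ℕ} (hj : Poly j) (hi : Poly i) (hl : Poly l) :
    Poly (fun a => tdq (I a) (j a) (i a) (l a)) := by
  refine poly_tadd (NPC.Poly.ite (NPC.Poly.decide_lt hl (u_ik hI).toPoly) (poly_dbl (poly_subT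
    (poly_tz hI hj hi hl) (poly_tx hI hj hl))) (NPC.Poly.const _)) ?_
  exact PTL.poly_shT (poly_zp hI hj hi) (ptm.2 hl (poly_pT hI))

theorem poly_tsx {j : α → ℕ} (hj : Poly j) : Poly (fun a => tsx (I a) (j a)) := by
  refine poly_subT (NPC.Poly.const _) (poly_sumT ?_)
  have f : Poly (fun q : α × ℕ => q.1) := NPC.Poly.fst NPC.Poly.id
  refine NPC.Poly.map (F := fun a l => sqT (tx (I a) (j a) l)) (u_ik hI).range ?_
  exact poly_sqT (poly_tx (hI.comp f) (hj.comp f) (NPC.Poly.snd NPC.Poly.id))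

theorem poly_tC {j l : α → ℕ} (hj : Poly j) (hl : Poly l) :
    Poly (fun a => tC (I a) (j a) (l a)) := by
  refine poly_subT (poly_tmul (poly_tsx hI hj) (poly_sumT ?_)) (poly_tmul (poly_dbl
    (poly_tvar (NPC.Poly.add (poly_o hI hj) (u_ik hI).toPoly))) (poly_tx hI hj hl))
  have f : Poly (fun q : α × ℕ => q.1) := NPC.Poly.fst NPC.Poly.id
  refine NPC.Poly.map (F := fun a i => Tm.mul (sqT (tμ (I a) (j a) i))
    (dbl (subT (tx (I a) (j a) (l a)) (tz (I a) (j a) i (l a)))))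
    (UPoly.add (u_ik hI) (UPoly.const 1)).range ?_
  exact poly_tmul (poly_sqT (poly_tμ (hI.comp f) (hj.comp f) (NPC.Poly.snd NPC.Poly.id)))
    (poly_dbl (poly_subT (poly_tx (hI.comp f) (hj.comp f) (hl.comp f))
      (poly_tz (hI.comp f) (hj.comp f) (NPC.Poly.snd NPC.Poly.id) (hl.comp f))))

theorem poly_tE {j : α → ℕ} (hj : Poly j) : Poly (fun a => tE (I a) (j a)) := by
  have h1 := NPC.Poly.add (poly_o hI hj) (u_ik hI).toPoly
  exact poly_subT (poly_tmul (poly_tvar h1) (poly_tsx hI hj))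
    (poly_tvar (NPC.Poly.add h1 (NPC.Poly.const 1)))

theorem poly_tb {j l : α → ℕ} (hj : Poly j) (hl : Poly l) :
    Poly (fun a => tb (I a) (j a) (l a)) :=
  NPC.Poly.ite (NPC.Poly.decide_lt hl hj) (poly_tvar (poly_iea hI (NPC.Poly.add hl (NPC.Poly.const 1))))
    (NPC.Poly.const _)

omit hI in
theorem poly_p128 {t : α → Tm} (ht : Poly t) : Poly (fun a => p128 (t a)) :=
  poly_sqT (poly_sqT (poly_sqT (poly_sqT (poly_sqT (poly_sqT (poly_sqT ht))))))

theorem poly_tF {j : α → ℕ} (hj : Poly j) : Poly (fun a => tF (I a) (j a)) := by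
  have f : Poly (fun q : α × ℕ => q.1) := NPC.Poly.fst NPC.Poly.id
  have s : Poly (fun q : α × ℕ => q.2) := NPC.Poly.snd NPC.Poly.id
  have hk1 := (UPoly.add (u_ik hI) (UPoly.const 1)).range
  refine poly_sumT (NPC.Poly.append ?_ (NPC.Poly.append ?_ (NPC.Poly.append ?_ (NPC.Poly.cons ?_
    (NPC.Poly.cons ?_ (NPC.Poly.const _))))))
  · refine NPC.Poly.flatMap (F := fun a i => (List.range (iM (I a))).map fun l =>
      sqT (tdq (I a) (j a) i l)) hk1 ?_
    have hI1 := hI.comp f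
    have g : Poly (fun q : (α × ℕ) × ℕ => q.1) := NPC.Poly.fst NPC.Poly.id
    refine NPC.Poly.map (F := fun (q : α × ℕ) l => sqT (tdq (I q.1) (j q.1) q.2 l)) (u_iM hI1).range ?_
    exact poly_sqT (poly_tdq (hI1.comp g) ((hj.comp f).comp g) (s.comp g) (NPC.Poly.snd NPC.Poly.id))
  · refine NPC.Poly.map (F := fun a i => sqT (subT (tq (I a) (j a) i)
      (Tm.var (o (I a) (j a) + ik (I a))))) hk1 ?_
    exact poly_sqT (poly_subT (poly_tq (hI.comp f) (hj.comp f) s) (poly_tvar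
      (NPC.Poly.add (poly_o (hI.comp f) (hj.comp f)) (u_ik (hI.comp f)).toPoly)))
  · refine NPC.Poly.map (F := fun a l => sqT (subT (tC (I a) (j a) l) (tb (I a) (j a) l)))
      (u_ik hI).range ?_
    exact poly_sqT (poly_subT (poly_tC (hI.comp f) (hj.comp f) s)
      (poly_tb (hI.comp f) (hj.comp f) s))
  · refine poly_sqT (poly_subT (poly_sumT ?_) (NPC.Poly.const _))
    refine NPC.Poly.map (F := fun a i => sqT (tμ (I a) (j a) i)) hk1 ?_
    exact poly_sqT (poly_tμ (hI.comp f) (hj.comp f) s)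
  · refine poly_sqT (poly_subT (poly_tE hI hj) (poly_sumT ?_))
    refine NPC.Poly.map (F := fun a l => Tm.mul (tb (I a) (j a) l) (tx (I a) (j a) l))
      (u_ik hI).range ?_
    exact poly_tmul (poly_tb (hI.comp f) (hj.comp f) s) (poly_tx (hI.comp f) (hj.comp f) s)

theorem poly_tTh {j : α → ℕ} (hj : Poly j) : Poly (fun a => tTh (I a) (j a)) := by
  have f : Poly (fun q : α × ℕ => q.1) := NPC.Poly.fst NPC.Poly.id
  refine poly_tadd (poly_tF hI hj) (poly_tmul (poly_tvar (u_iL hI).toPoly) (poly_sumT ?_))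
  refine NPC.Poly.map (F := fun a i => p128 (Tm.var (o (I a) (j a) + i))) (u_iN hI).range ?_
  exact poly_p128 (poly_tvar (NPC.Poly.add (poly_o (hI.comp f) (hj.comp f)) (NPC.Poly.snd NPC.Poly.id)))

theorem poly_fBase : Poly (fun a => fBase (I a)) := by
  have f : Poly (fun q : α × ℕ => q.1) := NPC.Poly.fst NPC.Poly.id
  have s : Poly (fun q : α × ℕ => q.2) := NPC.Poly.snd NPC.Poly.id
  refine NPC.Poly.cons (poly_feq (NPC.Poly.const _) (NPC.Poly.const _)) (NPC.Poly.append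
    (poly_chain (NPC.Poly.const 0) (u_iL hI)) (NPC.Poly.append ?_ (NPC.Poly.append ?_ (NPC.Poly.cons ?_
      (NPC.Poly.const _)))))
  · refine NPC.Poly.flatMap (F := fun a j => (List.range (iN (I a))).map fun i =>
      Fm.eq (dT (o (I a) j + i) (tTh (I a) j)) Tm.zero)
      (UPoly.add (u_ik hI) (UPoly.const 1)).range ?_
    have hI1 := hI.comp f
    have g : Poly (fun q : (α × ℕ) × ℕ => q.1) := NPC.Poly.fst NPC.Poly.id
    refine NPC.Poly.map (F := fun (q : α × ℕ) i =>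
      Fm.eq (dT (o (I q.1) q.2 + i) (tTh (I q.1) q.2)) Tm.zero) (u_iN hI1).range ?_
    exact poly_feq (ptm.2 (NPC.Poly.add (poly_o (hI1.comp g) (s.comp g)) (NPC.Poly.snd NPC.Poly.id))
      (poly_tTh (hI1.comp g) (s.comp g))) (NPC.Poly.const _)
  · refine NPC.Poly.map (F := fun a l => Fm.eq (Tm.mul (Tm.var (iea (I a) (l + 1)))
      (Tm.var (bX (I a) + l))) (subT (Tm.var (o (I a) l + ik (I a) + 1))
        (Tm.var (o (I a) (l + 1) + ik (I a) + 1)))) (u_ik hI).range ?_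
    have hI1 := hI.comp f
    have s1 := NPC.Poly.add s (NPC.Poly.const 1)
    refine poly_feq (poly_tmul (poly_tvar (poly_iea hI1 s1)) (poly_tvar
      (NPC.Poly.add (u_bX hI1).toPoly s))) (poly_subT (poly_tvar ?_) (poly_tvar ?_))
    · exact NPC.Poly.add (NPC.Poly.add (poly_o hI1 s) (u_ik hI1).toPoly) (NPC.Poly.const 1)
    · exact NPC.Poly.add (NPC.Poly.add (poly_o hI1 s1) (u_ik hI1).toPoly) (NPC.Poly.const 1)
  · refine poly_flt (poly_sumT ?_) (NPC.Poly.const _)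
    refine NPC.Poly.map (F := fun a l => sqT (Tm.var (bX (I a) + l))) (u_ik hI).range ?_
    exact poly_sqT (poly_tvar (NPC.Poly.add (u_bX (hI.comp f)).toPoly s))

theorem poly_rS : Poly (fun a => rS (I a)) :=
  poly_sysOf (poly_feq (poly_pT hI) (NPC.Poly.const _))

theorem poly_rV : Poly (fun a => rV (I a)) := by
  refine NPC.Poly.append ?_ (NPC.Poly.flatMap (F := fun _ c => Con.vars c) (poly_rS hI)
    (poly_con_vars' (NPC.Poly.snd NPC.Poly.id)))
  exact NPC.Poly.map (F := fun _ i => 2 * i) (u_ik hI).range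
    (NPC.Poly.mul (NPC.Poly.const 2) (NPC.Poly.snd NPC.Poly.id))

theorem poly_rX {i : α → ℕ} (hi : Poly i) : Poly (fun a => rX (I a) (i a)) :=
  poly_tvar (NPC.Poly.add (NPC.Poly.add (u_bZ hI).toPoly (NPC.Poly.const 1)) (poly_idxOf (poly_rV hI) hi))

theorem poly_rC {c : α → ER.Con} (hc : Poly c) : Poly (fun a => rC (I a) (c a)) := by
  have h0 : Poly (fun a => (c a).code) := poly_con_code hc
  have d0 : Poly (fun a => decide ((c a).code.1 = 0)) :=
    NPC.Poly.decide_eq (NPC.Poly.fst h0) (NPC.Poly.const 0)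
  have d1 : Poly (fun a => decide ((c a).code.1 = 1)) :=
    NPC.Poly.decide_eq (NPC.Poly.fst h0) (NPC.Poly.const 1)
  have e1 := poly_rX hI (NPC.Poly.fst (NPC.Poly.snd h0))
  have e2 := poly_rX hI (NPC.Poly.fst (NPC.Poly.snd (NPC.Poly.snd h0)))
  have e3 := poly_rX hI (NPC.Poly.snd (NPC.Poly.snd (NPC.Poly.snd h0)))
  have hz := poly_tvar (u_bZ hI).toPoly
  exact NPC.Poly.ite d0 (poly_feq e1 hz) (NPC.Poly.ite d1 (poly_feq (poly_tadd e1 e2) e3)
    (poly_feq (poly_tmul e1 e2) (poly_tmul hz e3)))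

theorem poly_fRay : Poly (fun a => fRay (I a)) := by
  have f : Poly (fun q : α × ℕ => q.1) := NPC.Poly.fst NPC.Poly.id
  have s : Poly (fun q : α × ℕ => q.2) := NPC.Poly.snd NPC.Poly.id
  refine NPC.Poly.cons (poly_flt (NPC.Poly.const _) (poly_tvar (u_bZ hI).toPoly)) (NPC.Poly.append ?_ ?_)
  · exact NPC.Poly.map (F := fun a c => rC (I a) c) (poly_rS hI)
      (poly_rC (hI.comp (NPC.Poly.fst NPC.Poly.id)) (NPC.Poly.snd NPC.Poly.id))
  · refine NPC.Poly.map (F := fun a l => Fm.eq (rX (I a) (2 * l)) (Tm.mul (Tm.var (bZ (I a)))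
      (Tm.var (bX (I a) + l)))) (u_ik hI).range ?_
    have hI1 := hI.comp f
    exact poly_feq (poly_rX hI1 (NPC.Poly.mul (NPC.Poly.const 2) s)) (poly_tmul
      (poly_tvar (u_bZ hI1).toPoly) (poly_tvar (NPC.Poly.add (u_bX hI1).toPoly s)))

theorem poly_fml : Poly (fun a => fml (I a)) :=
  poly_fand (poly_conj (poly_fBase hI)) (poly_for (poly_zer (u_bZ hI).toPoly
    (UPoly.add (UPoly.length (poly_rV hI)) (UPoly.const 2))) (poly_conj (poly_fRay hI)))

theorem u_iD : UPoly (fun a => iD (I a)) :=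
  UPoly.add (UPoly.add (u_bZ hI) (UPoly.const 1)) (UPoly.add (UPoly.length (poly_rV hI))
    (UPoly.const 1))

theorem poly_red : Poly (fun a => red (I a)) := NPC.Poly.pair (u_iD hI) (poly_fml hI)

end

end PTR

/-- [PT] -/
theorem pt : S_PT := fun _ => PTR.poly_red NPC.Poly.id

end Pool.Agent.Helper97K9.IP
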