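import Pool.Agent.Helper97K9.IP.Tms
import Pool.Agent.ER.ToSysPoly

/-!
# Rigid witnesses: shift and derivative of terms in polynomial time [PTM]
-/

set_option autoImplicit false

namespace Pool.Agent.Helper97K9.IP

open Pool.Agent.NPC Pool.Agent.NPC.ER Pool.Agent.NPC.H612 Pool.Agent.NPC.R537HD

namespace PTL

/-! ### The shift -/

/-- The shift of a symbol. -/
def shTok (c : ℕ) : Tok → Tok
  | Tok.var i => Tok.var (i + c)
  | t => t

theorem toks_shT (c : ℕ) (t : Tm) : (shT c t).toks = t.toks.map (shTok c) := by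
  induction t with
  | var i => rfl
  | zero => rfl
  | one => rfl
  | add s t h1 h2 => simp [shT, Tm.toks, h1, h2, shTok]
  | neg s h1 => simp [shT, Tm.toks, h1, shTok]
  | mul s t h1 h2 => simp [shT, Tm.toks, h1, h2, shTok]

theorem shTok_code (c : ℕ) (t : Tok) : (shTok c t).code =
    if t.code.1 = 0 then (0, t.code.2 + c) else t.code := by
  cases t <;> simp [shTok, Tok.code]

section

variable {α : Type} [TEnc α]

theorem poly_shTok {c : α → ℕ} {t : α → Tok} (hc : Poly c) (ht : Poly t) :
    Poly (fun a => shTok (c a) (t a)) := by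
  refine poly_tok_of_code' ?_
  have h1 := NPC.Poly.ite (NPC.Poly.decide_eq (NPC.Poly.fst (poly_tok_code ht)) (NPC.Poly.const 0))
    ((NPC.Poly.const 0).pair (NPC.Poly.add (NPC.Poly.snd (poly_tok_code ht)) hc)) (poly_tok_code ht)
  exact h1.congr fun a => (shTok_code _ _).symm

theorem poly_shT {c : α → ℕ} {t : α → Tm} (hc : Poly c) (ht : Poly t) :
    Poly (fun a => shT (c a) (t a)) := by
  refine tm_of_toks (NPC.Poly.congr (f := fun a => (t a).toks.map (shTok (c a))) ?_
    fun a => (toks_shT _ _).symm)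
  exact NPC.Poly.map (F := fun a s => shTok (c a) s) (tm_toks ht)
    (poly_shTok (hc.comp (NPC.Poly.fst NPC.Poly.id)) (NPC.Poly.snd NPC.Poly.id))

end

/-! ### The derivative -/

/-- The stacks: pairs (notation of a term, notation of its derivative). -/
abbrev Stk : Type := List (List Tok × List Tok)

/-- The top of a stack. -/
def tp (s : Stk) : List Tok × List Tok := s.head?.getD ([], [])

/-- A step of the stack machine. -/
def dstep (i : ℕ) (s : Stk) (t : Tok) : Stk :=
  if t.code.1 = 0 then ([t], if t.code.2 = i then [Tok.one] else [Tok.zero]) :: s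
  else if t.code.1 = 1 then ([t], [Tok.zero]) :: s
  else if t.code.1 = 2 then ([t], [Tok.zero]) :: s
  else if t.code.1 = 4 then ((tp s).1 ++ [t], (tp s).2 ++ [t]) :: s.tail
  else if t.code.1 = 3 then
    ((tp s.tail).1 ++ (tp s).1 ++ [t], (tp s.tail).2 ++ (tp s).2 ++ [t]) :: s.tail.tail
  else ((tp s.tail).1 ++ (tp s).1 ++ [t],
    (tp s.tail).2 ++ (tp s).1 ++ [t] ++ ((tp s.tail).1 ++ (tp s).2 ++ [t]) ++ [Tok.add]) ::
      s.tail.tail

theorem foldl_dstep (i : ℕ) (t : Tm) : ∀ s : Stk,
    t.toks.foldl (dstep i) s = (t.toks, (dT i t).toks) :: s := by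
  induction t with
  | var j =>
    intro s
    by_cases h : j = i
    · simp [Tm.toks, dT, dstep, Tok.code, h]
    · simp [Tm.toks, dT, dstep, Tok.code, h]
  | zero => intro s; rfl
  | one => intro s; rfl
  | add a b h1 h2 =>
    intro s
    simp only [Tm.toks, dT, List.foldl_append, h1, h2, List.foldl_cons, List.foldl_nil]
    simp [dstep, Tok.code, tp]
  | neg a h1 =>
    intro s
    simp only [Tm.toks, dT, List.foldl_append, h1, List.foldl_cons, List.foldl_nil]
    simp [dstep, Tok.code, tp]
  | mul a b h1 h2 =>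
    intro s
    simp only [Tm.toks, dT, List.foldl_append, h1, h2, List.foldl_cons, List.foldl_nil]
    simp [dstep, Tok.code, tp]

section

variable {α : Type} [TEnc α]

theorem poly_tp {s : α → Stk} (hs : Poly s) : Poly (fun a => tp (s a)) :=
  NPC.Poly.head?_getD hs ([], [])

theorem poly_dstep {i : α → ℕ} {s : α → Stk} {t : α → Tok} (hi : Poly i) (hs : Poly s)
    (ht : Poly t) : Poly (fun a => dstep (i a) (s a) (t a)) := by
  have hc : Poly (fun a => (t a).code.1) := NPC.Poly.fst (poly_tok_code ht)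
  have hc2 : Poly (fun a => (t a).code.2) := NPC.Poly.snd (poly_tok_code ht)
  have h1 := NPC.Poly.tail hs
  have h2 := NPC.Poly.tail h1
  have a1 := NPC.Poly.fst (poly_tp hs)
  have a2 := NPC.Poly.snd (poly_tp hs)
  have b1 := NPC.Poly.fst (poly_tp h1)
  have b2 := NPC.Poly.snd (poly_tp h1)
  have ht1 : Poly (fun a => [t a]) := NPC.Poly.cons ht (NPC.Poly.const [])
  have hcode : ∀ k : ℕ, Poly (fun a => decide ((t a).code.1 = k)) := fun k =>
    NPC.Poly.decide_eq hc (NPC.Poly.const k)
  have g0 := NPC.Poly.cons (ht1.pair (NPC.Poly.ite (NPC.Poly.decide_eq hc2 hi) (NPC.Poly.const [Tok.one])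
    (NPC.Poly.const [Tok.zero]))) hs
  have g1 := NPC.Poly.cons (ht1.pair (NPC.Poly.const [Tok.zero])) hs
  have g4 := NPC.Poly.cons ((NPC.Poly.append a1 ht1).pair (NPC.Poly.append a2 ht1)) h1
  have g3 := NPC.Poly.cons ((NPC.Poly.append (NPC.Poly.append b1 a1) ht1).pair
    (NPC.Poly.append (NPC.Poly.append b2 a2) ht1)) h2
  have g5 := NPC.Poly.cons ((NPC.Poly.append (NPC.Poly.append b1 a1) ht1).pair
    (NPC.Poly.append (NPC.Poly.append (NPC.Poly.append (NPC.Poly.append b2 a1) ht1)
      (NPC.Poly.append (NPC.Poly.append b1 a2) ht1)) (NPC.Poly.const [Tok.add]))) h2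
  exact NPC.Poly.ite (hcode 0) g0 (NPC.Poly.ite (hcode 1) g1 (NPC.Poly.ite (hcode 2) g1
    (NPC.Poly.ite (hcode 4) g4 (NPC.Poly.ite (hcode 3) g3 g5))))

end

/-! ### Size bounds -/

/-- The total length of the first components. -/
def wt (s : Stk) : ℕ := (s.map fun e => e.1.length).sum

theorem wt_tail (s : Stk) : (tp s).1.length + wt s.tail = wt s := by
  cases s with
  | nil => simp [tp, wt]
  | cons a s => simp [tp, wt]

/-- Bounded entries. -/
def EB (M : ℕ) (e : List Tok × List Tok) : Prop :=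
  e.2.length ≤ 3 * e.1.length ^ 2 ∧ (∀ t ∈ e.1, sz t ≤ M) ∧ ∀ t ∈ e.2, sz t ≤ M

/-- Bounded states. -/
def DB (M k : ℕ) (s : Stk) : Prop := s.length ≤ k ∧ wt s ≤ k ∧ ∀ e ∈ s, EB M e

theorem EB_tp {M : ℕ} {s : Stk} (h : ∀ e ∈ s, EB M e) : EB M (tp s) := by
  cases s with
  | nil => exact ⟨by simp [tp], by simp [tp], by simp [tp]⟩
  | cons a s => exact h a (by simp)

theorem sz_tok_small (t : Tok) (h : t.code.1 ≤ 12) (h2 : t.code.2 = 0) : sz t ≤ 19 := by
  have e : sz t = sz t.code := rfl
  have e2 : t.code = (t.code.1, t.code.2) := rfl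
  rw [e, e2, sz_pair, h2]
  have h1 := sz_small t.code.1 h
  have h3 : sz 0 = 1 := rfl
  omega

theorem DB_step {M k i : ℕ} {s : Stk} {t : Tok} (hM : 19 ≤ M) (ht : sz t ≤ M) (h : DB M k s) :
    DB M (k + 1) (dstep i s t) := by
  obtain ⟨h1, h2, h3⟩ := h
  have s0 : sz Tok.zero ≤ M := (sz_tok_small Tok.zero (by simp [Tok.code]) rfl).trans hM
  have s1 : sz Tok.one ≤ M := (sz_tok_small Tok.one (by simp [Tok.code]) rfl).trans hM
  have s2 : sz Tok.add ≤ M := (sz_tok_small Tok.add (by simp [Tok.code]) rfl).trans hM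
  have h3' : ∀ e ∈ s.tail, EB M e := fun e he => h3 e (List.mem_of_mem_tail he)
  have h3'' : ∀ e ∈ s.tail.tail, EB M e := fun e he => h3' e (List.mem_of_mem_tail he)
  obtain ⟨a1, a2, a3⟩ := EB_tp h3
  obtain ⟨b1, b2, b3⟩ := EB_tp h3'
  have w1 := wt_tail s
  have w2 := wt_tail s.tail
  have l1 : s.tail.length ≤ s.length := by simp
  have l2 : s.tail.tail.length ≤ s.length := by simp; omega
  have wc : ∀ (e : List Tok × List Tok) (r : Stk), wt (e :: r) = e.1.length + wt r := by
    intro e r
    simp [wt]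
  unfold dstep
  split_ifs with c0 c1 c2 c3 c4 c5
  · refine ⟨by simp; omega, by rw [wc]; simp; omega, ?_⟩
    rw [List.forall_mem_cons]
    exact ⟨⟨by simp, by simpa using ht, by simpa using s1⟩, h3⟩
  · refine ⟨by simp; omega, by rw [wc]; simp; omega, ?_⟩
    rw [List.forall_mem_cons]
    exact ⟨⟨by simp, by simpa using ht, by simpa using s0⟩, h3⟩
  · refine ⟨by simp; omega, by rw [wc]; simp; omega, ?_⟩
    rw [List.forall_mem_cons]
    exact ⟨⟨by simp, by simpa using ht, by simpa using s0⟩, h3⟩
  · refine ⟨by simp; omega, by rw [wc]; simp; omega, ?_⟩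
    rw [List.forall_mem_cons]
    exact ⟨⟨by simp, by simpa using ht, by simpa using s0⟩, h3⟩
  · refine ⟨by simp only [List.length_cons]; omega, by rw [wc]; simp; omega, ?_⟩
    rw [List.forall_mem_cons]
    refine ⟨⟨?_, ?_, ?_⟩, h3'⟩
    · simp only [List.length_append, List.length_cons, List.length_nil]
      nlinarith
    · intro x hx
      rw [List.mem_append, List.mem_singleton] at hx
      rcases hx with hx | rfl
      · exact a2 x hx
      · exact ht
    · intro x hx
      rw [List.mem_append, List.mem_singleton] at hx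
      rcases hx with hx | rfl
      · exact a3 x hx
      · exact ht
  · refine ⟨by simp only [List.length_cons]; omega, by rw [wc]; simp; omega, ?_⟩
    rw [List.forall_mem_cons]
    refine ⟨⟨?_, ?_, ?_⟩, h3''⟩
    · simp only [List.length_append, List.length_cons, List.length_nil]
      nlinarith [Nat.zero_le ((tp s.tail).1.length * (tp s).1.length)]
    · intro x hx
      simp only [List.mem_append, List.mem_singleton] at hx
      rcases hx with (hx | hx) | rfl
      · exact b2 x hx
      · exact a2 x hx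
      · exact ht
    · intro x hx
      simp only [List.mem_append, List.mem_singleton] at hx
      rcases hx with (hx | hx) | rfl
      · exact b3 x hx
      · exact a3 x hx
      · exact ht
  · refine ⟨by simp only [List.length_cons]; omega, by rw [wc]; simp; omega, ?_⟩
    rw [List.forall_mem_cons]
    refine ⟨⟨?_, ?_, ?_⟩, h3''⟩
    · simp only [List.length_append, List.length_cons, List.length_nil]
      nlinarith [Nat.zero_le ((tp s.tail).1.length * (tp s).1.length)]
    · intro x hx
      simp only [List.mem_append, List.mem_singleton] at hx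
      rcases hx with (hx | hx) | rfl
      · exact b2 x hx
      · exact a2 x hx
      · exact ht
    · intro x hx
      simp only [List.mem_append, List.mem_singleton] at hx
      rcases hx with (((hx | hx) | rfl) | ((hx | hx) | rfl)) | rfl
      · exact b3 x hx
      · exact a2 x hx
      · exact ht
      · exact b2 x hx
      · exact a3 x hx
      · exact ht
      · exact s2

theorem DB_fold {M i : ℕ} (hM : 19 ≤ M) : ∀ (l : List Tok) (k : ℕ) (s : Stk),
    (∀ t ∈ l, sz t ≤ M) → DB M k s → DB M (k + l.length) (l.foldl (dstep i) s) := by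
  intro l
  induction l with
  | nil => intro k s _ h; exact h
  | cons t l ih =>
    intro k s ht h
    have h1 := DB_step (i := i) hM (ht t (by simp)) h
    have h2 := ih (k + 1) _ (fun t' ht' => ht t' (List.mem_cons_of_mem _ ht')) h1
    have e : k + (t :: l).length = k + 1 + l.length := by simp only [List.length_cons]; omega
    rw [e]
    exact h2

theorem le_wt {s : Stk} {e : List Tok × List Tok} (h : e ∈ s) : e.1.length ≤ wt s :=
  List.le_sum_of_mem (List.mem_map.2 ⟨e, h, rfl⟩)

theorem DB_sz {M k : ℕ} {s : Stk} (h : DB M k s) :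
    sz s ≤ k * ((k * (M + 1) + 1) + ((3 * k ^ 2) * (M + 1) + 1) + 1 + 1) + 1 := by
  obtain ⟨h1, h2, h3⟩ := h
  refine (sz_le_length_mul s ((k * (M + 1) + 1) + ((3 * k ^ 2) * (M + 1) + 1) + 1) ?_).trans ?_
  · intro e he
    obtain ⟨a1, a2, a3⟩ := h3 e he
    have h4 := le_wt he
    have h5 : e.1.length ≤ k := h4.trans h2
    have h6 := (sz_le_length_mul e.1 M a2).trans
      (Nat.add_le_add_right (Nat.mul_le_mul_right (M + 1) h5) 1)
    have h7 : e.2.length ≤ 3 * k ^ 2 :=
      a1.trans (Nat.mul_le_mul_left _ (Nat.pow_le_pow_left h5 2))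
    have h8 := (sz_le_length_mul e.2 M a3).trans
      (Nat.add_le_add_right (Nat.mul_le_mul_right (M + 1) h7) 1)
    obtain ⟨x, y⟩ := e
    simp only [sz_pair] at *
    omega
  · exact Nat.add_le_add_right (Nat.mul_le_mul_right _ h1) 1

theorem poly_dT0 : Poly (fun p : ℕ × Tm => dT p.1 p.2) := by
  have h1 : Poly (fun p : ℕ × Tm => p.2.toks) := tm_toks (NPC.Poly.snd NPC.Poly.id)
  have h2 : Poly (fun p : ℕ × Tm => p.2.toks.foldl (dstep p.1) ([] : Stk)) := by
    let X : Polynomial ℕ := Polynomial.X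
    let M : Polynomial ℕ := X + Polynomial.C 19
    refine NPC.Poly.foldl (F := fun (p : ℕ × Tm) (s : Stk) t => dstep p.1 s t) h1 (NPC.Poly.const _)
      (poly_dstep (NPC.Poly.fst (NPC.Poly.fst NPC.Poly.id)) (NPC.Poly.fst (NPC.Poly.snd NPC.Poly.id))
        (NPC.Poly.snd (NPC.Poly.snd NPC.Poly.id)))
      (X * ((X * (M + Polynomial.C 1) + Polynomial.C 1) +
        ((Polynomial.C 3 * X ^ 2) * (M + Polynomial.C 1) + Polynomial.C 1) + Polynomial.C 1 +
          Polynomial.C 1) + Polynomial.C 1) ?_
    intro p k hk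
    have e0 : sz p = sz p.1 + sz p.2 + 1 := sz_pair p.1 p.2
    have e1 : sz p.2 = sz p.2.toks := rfl
    have hlen := length_lt_sz p.2.toks
    have hB : DB (sz p + 19) 0 ([] : Stk) := ⟨by simp, by simp [wt], by simp⟩
    have h3 := DB_fold (i := p.1) (by omega : 19 ≤ sz p + 19) (p.2.toks.take k) 0 []
      (by
        intro t ht
        have h4 := sz_le_of_mem (List.mem_of_mem_take ht)
        omega) hB
    have h4 : DB (sz p + 19) (sz p) ((p.2.toks.take k).foldl (dstep p.1) []) := by
      obtain ⟨a1, a2, a3⟩ := h3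
      have h5 : 0 + (List.take k p.2.toks).length ≤ sz p := by
        simp only [List.length_take]; omega
      exact ⟨a1.trans h5, a2.trans h5, a3⟩
    have h5 := DB_sz h4
    simp only [Polynomial.eval_add, Polynomial.eval_mul, Polynomial.eval_C, Polynomial.eval_X,
      Polynomial.eval_pow, M, X]
    exact h5
  refine tm_of_toks (NPC.Poly.congr (NPC.Poly.snd (poly_tp h2)) fun p => ?_)
  rw [foldl_dstep]
  rfl

end PTL

/-- [PTM] -/
theorem ptm : S_PTM :=
  ⟨fun hc ht => PTL.poly_shT hc ht, fun hc ht => NPC.Poly.comp PTL.poly_dT0 (hc.pair ht)⟩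

end Pool.Agent.Helper97K9.IP
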