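import Pool.Agent.Helper97K9.IP.Defs

/-!
# Rigid witnesses: the second differences of `V`, definitions
-/

set_option autoImplicit false

namespace Pool.Agent.Helper97K9.IP

open Finset Pool.Agent.H612 Pool.Agent.R537.RN

variable {k M : ℕ}

/-- The vector `(t_1, …, t_j, c h, 0, …, 0)`, where `h = t_{j+1}`. -/
def bv {k : ℕ} (j : Fin k) (t : Fin (j + 2) → ℝ) (c : ℝ) : Fin k → ℝ :=
  fun i => if h : (i : ℕ) < j then t ⟨i + 1, by omega⟩
    else if i = j then c * t (Fin.last (j + 1)) else 0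

/-- The second difference of `V` in the direction `e_j` minus `t_0 h`. -/
noncomputable def FF (hk : k ≤ M) (p : MvPolynomial (Fin M) ℤ) (j : Fin k)
    (t : Fin (j + 2) → ℝ) : ℝ :=
  Vf hk p (k + 2) (bv j t 2) - 2 * Vf hk p (k + 2) (bv j t 1) + Vf hk p (k + 2) (bv j t 0) -
    t 0 * t (Fin.last (j + 1))

/-- [SD1] The second difference satisfies a polynomial relation. -/
def S_SD1 : Prop := ∀ (k M s : ℕ) (hk : k ≤ M) (p : MvPolynomial (Fin M) ℤ), Adm k M s hk p →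
  ∀ j : Fin k, ∃ Q : Polynomial (MvPolynomial (Fin (j + 2)) ℤ), Q ≠ 0 ∧
    (wm RNorm.int (j + 2)).poly.ν Q ≤ 2 ^ 2 ^ K1 k M s ∧
    ∀ t : Fin (j + 2) → ℝ,
      Q.eval₂ (MvPolynomial.eval₂Hom (Int.castRingHom ℝ) t) (FF hk p j t) = 0

end Pool.Agent.Helper97K9.IP
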