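import Pool.Agent.Helper97K9.IP.Lac
import Pool.Agent.Helper97K9.IP.SDdefs

/-!
# Rigid witnesses: the second differences of `V` are small
-/

set_option autoImplicit false

namespace Pool.Agent.Helper97K9.IP

open Finset Filter Topology Pool.Agent.H612 Pool.Agent.R537.RN

variable {k M : ℕ}

theorem cont_bv (j : Fin k) (c : ℝ) : Continuous (fun t : Fin (j + 2) → ℝ => bv j t c) := by
  refine continuous_pi fun i => ?_
  unfold bv
  split_ifs
  · exact continuous_apply _
  · exact continuous_const.mul (continuous_apply _)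
  · exact continuous_const

theorem cont_FF (hk : k ≤ M) (p : MvPolynomial (Fin M) ℤ) (j : Fin k) :
    Continuous (FF hk p j) := by
  unfold FF
  have h : ∀ c, Continuous (fun t : Fin (j + 2) → ℝ => Vf hk p (k + 2) (bv j t c)) :=
    fun c => (cont_Vf hk p (k + 2)).comp (cont_bv j c)
  exact (((h 2).sub (continuous_const.mul (h 1))).add (h 0)).sub
    ((continuous_apply _).mul (continuous_apply _))

/-- The lowest coefficient of the relation vanishes at the zeros of the second difference. -/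
theorem low_coeff (hk : k ≤ M) (p : MvPolynomial (Fin M) ℤ) (j : Fin k)
    (Q : Polynomial (MvPolynomial (Fin (j + 2)) ℤ)) (hQ0 : Q ≠ 0)
    (hQ : ∀ t : Fin (j + 2) → ℝ,
      Q.eval₂ (MvPolynomial.eval₂Hom (Int.castRingHom ℝ) t) (FF hk p j t) = 0) :
    ∃ c : MvPolynomial (Fin (j + 2)) ℤ, c ≠ 0 ∧
      (wm RNorm.int (j + 2)).ν c ≤ (wm RNorm.int (j + 2)).poly.ν Q ∧
      ∀ t : Fin (j + 2) → ℝ, FF hk p j t = 0 → t (Fin.last (j + 1)) ≠ 0 →
        MvPolynomial.eval₂ (Int.castRingHom ℝ) t c = 0 := by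
  obtain ⟨r, Q', hQ', hc0, hcr⟩ := exists_trailing Q hQ0
  refine ⟨Q'.coeff 0, hc0, ?_, ?_⟩
  · rw [hcr]
    exact (wm RNorm.int (j + 2)).ν_coeff_le Q r
  · intro t hF hh0
    obtain ⟨td, htd⟩ : ∃ td : ℝ → Fin (j + 2) → ℝ,
        ∀ δ i, td δ i = if i = 0 then t i + δ else t i := ⟨_, fun δ i => rfl⟩
    have htdc : Continuous td := by
      refine continuous_pi fun i => ?_
      simp_rw [htd]
      split_ifs
      · fun_prop
      · fun_prop
    have htd0 : td 0 = t := by
      funext i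
      rw [htd]
      split_ifs <;> simp
    have hl : (Fin.last ((j : ℕ) + 1) : Fin (j + 2)) ≠ 0 := by
      intro h
      have := congrArg Fin.val h
      simp at this
    have hbv : ∀ δ c, bv j (td δ) c = bv j t c := by
      intro δ c
      funext i
      unfold bv
      split_ifs with h1 h2
      · rw [htd, if_neg]
        intro h
        have := congrArg Fin.val h
        simp at this
      · rw [htd, if_neg hl]
      · rfl
    have hFF : ∀ δ, FF hk p j (td δ) = -δ * t (Fin.last (j + 1)) := by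
      intro δ
      have h1 : FF hk p j (td δ) = FF hk p j t - δ * t (Fin.last (j + 1)) := by
        unfold FF
        rw [hbv, hbv, hbv, htd, htd, if_pos rfl, if_neg hl]
        ring
      rw [h1, hF]
      ring
    obtain ⟨g, hg⟩ : ∃ g : ℝ → ℝ, ∀ δ, g δ = Q'.eval₂
        (MvPolynomial.eval₂Hom (Int.castRingHom ℝ) (td δ)) (FF hk p j (td δ)) :=
      ⟨_, fun δ => rfl⟩
    have hgc : Continuous g := by
      have h1 : Continuous (fun s : Unit × (Fin (j + 2) → ℝ) =>
          Q'.eval₂ ((Lvl.int.ext (j + 2)).φ s) (FF hk p j s.2)) :=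
        (Lvl.int.ext (j + 2)).cont_eval Q' ((cont_FF hk p j).comp continuous_snd)
      have h2 : Continuous (fun δ : ℝ => (((), td δ) : Unit × (Fin (j + 2) → ℝ))) :=
        continuous_const.prodMk htdc
      have h3 := h1.comp h2
      have h4 : g = (fun s : Unit × (Fin (j + 2) → ℝ) =>
          Q'.eval₂ ((Lvl.int.ext (j + 2)).φ s) (FF hk p j s.2)) ∘
            (fun δ : ℝ => (((), td δ) : Unit × (Fin (j + 2) → ℝ))) := by
        funext δ
        rw [hg]
        rfl
      rw [h4]
      exact h3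
    have hg0 : ∀ δ, δ ≠ 0 → g δ = 0 := by
      intro δ hδ
      have h1 := hQ (td δ)
      rw [hQ', Polynomial.eval₂_mul, Polynomial.eval₂_pow, Polynomial.eval₂_X] at h1
      rw [hg]
      refine (mul_eq_zero.1 h1).resolve_left (pow_ne_zero _ ?_)
      rw [hFF]
      exact mul_ne_zero (neg_ne_zero.2 hδ) hh0
    have h1 : g = fun _ => 0 := hgc.ext_on (dense_compl_singleton (0 : ℝ)) continuous_const
      fun δ hδ => hg0 δ hδ
    have h2 : g 0 = 0 := by rw [h1]
    rw [hg, htd0, hF, Polynomial.eval₂_at_zero] at h2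
    exact h2

/-- A Lipschitz function has small second differences at some small scale. -/
theorem exists_small (f : ℝ → ℝ) (hf : ∀ x y, |f x - f y| ≤ |x - y|) (t0 h : ℝ) (ht0 : 0 < t0)
    (hh : 0 < h) : ∃ x, 0 < x ∧ x ≤ h ∧ f (2 * x) - 2 * f x + f 0 < t0 * x := by
  by_contra hcon
  push Not at hcon
  have key : ∀ n : ℕ, f (h / 2 ^ n) - f 0 ≤ (1 - (n + 1) * t0 / 2) * (h / 2 ^ n) := by
    intro n
    induction n with
    | zero =>
      have h1 := hcon h hh le_rfl
      have h2 := (abs_le.1 (hf (2 * h) 0)).2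
      rw [sub_zero, abs_of_pos (by linarith : (0 : ℝ) < 2 * h)] at h2
      simp only [pow_zero, div_one, Nat.cast_zero, zero_add, one_mul]
      nlinarith
    | succ n ih =>
      have hp : 0 < h / 2 ^ (n + 1) := by positivity
      have h1 := hcon (h / 2 ^ (n + 1)) hp (by
        rw [div_le_iff₀ (by positivity)]
        exact le_mul_of_one_le_right hh.le (one_le_pow₀ (by norm_num)))
      have h2 : 2 * (h / 2 ^ (n + 1)) = h / 2 ^ n := by
        rw [pow_succ]
        field_simp
      rw [h2] at h1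
      have h3 : h / 2 ^ n = 2 * (h / 2 ^ (n + 1)) := h2.symm
      have h4 : (1 - (n + 1) * t0 / 2) * (h / 2 ^ n) =
          2 * ((1 - (n + 1) * t0 / 2) * (h / 2 ^ (n + 1))) := by rw [h3]; ring
      rw [h4] at ih
      push_cast
      nlinarith
  obtain ⟨n, hn⟩ := exists_nat_gt (4 / t0)
  have hp : 0 < h / 2 ^ n := by positivity
  have h1 := key n
  have h2 := (abs_le.1 (hf (h / 2 ^ n) 0)).1
  rw [sub_zero, abs_of_pos hp] at h2
  have h3 : 4 < n * t0 := by
    rw [div_lt_iff₀ ht0] at hn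
    exact hn
  nlinarith

/-- `2 · 2^(2^K) · 2^(-2^b) ≤ (2^(-2^a))^(2^K)` when `b ≥ a + K + 1`, `a ≥ 1`. -/
theorem hh_step (K a b : ℕ) (ha : 1 ≤ a) (hb : a + K + 1 ≤ b) :
    2 * 2 ^ 2 ^ K * hh b ≤ hh a ^ (2 ^ K) := by
  rw [← hh_add]
  have h1 : 2 ^ K + 1 + 2 ^ (a + K) ≤ 2 ^ b := by
    have h2 : 2 ^ (a + K + 1) ≤ 2 ^ b := Nat.pow_le_pow_right (by norm_num) hb
    have h3 : 2 ^ (1 + K) ≤ 2 ^ (a + K) := Nat.pow_le_pow_right (by norm_num) (by omega)
    have h4 : 1 ≤ 2 ^ K := Nat.one_le_two_pow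
    rw [pow_add 2 1 K] at h3
    rw [pow_succ] at h2
    omega
  have h2 : hh b ≤ (1 / 2) ^ (2 ^ K + 1 + 2 ^ (a + K)) := by
    unfold hh
    exact pow_le_pow_of_le_one (by norm_num) (by norm_num) h1
  calc 2 * 2 ^ 2 ^ K * hh b ≤ 2 * 2 ^ 2 ^ K * (1 / 2) ^ (2 ^ K + 1 + 2 ^ (a + K)) :=
        mul_le_mul_of_nonneg_left h2 (by positivity)
    _ = (2 * (1 / 2)) * (2 ^ 2 ^ K * (1 / 2) ^ 2 ^ K) * (1 / 2) ^ 2 ^ (a + K) := by
        rw [pow_add, pow_add]; ring
    _ = hh (a + K) := by
        rw [← mul_pow]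
        unfold hh
        norm_num

/-- `2 · 2^(2^K) · 2^(-2^a) ≤ 1` when `a ≥ K + 1`. -/
theorem hh_first (K a : ℕ) (ha : K + 1 ≤ a) : 2 * 2 ^ 2 ^ K * hh a ≤ 1 := by
  have h1 : 2 ^ K + 1 ≤ 2 ^ a := by
    have h2 : 2 ^ (K + 1) ≤ 2 ^ a := Nat.pow_le_pow_right (by norm_num) ha
    have h4 : 1 ≤ 2 ^ K := Nat.one_le_two_pow
    rw [pow_succ] at h2
    omega
  have h2 : hh a ≤ (1 / 2) ^ (2 ^ K + 1) := by
    unfold hh
    exact pow_le_pow_of_le_one (by norm_num) (by norm_num) h1
  calc 2 * 2 ^ 2 ^ K * hh a ≤ 2 * 2 ^ 2 ^ K * (1 / 2) ^ (2 ^ K + 1) :=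
        mul_le_mul_of_nonneg_left h2 (by positivity)
    _ = (2 * (1 / 2)) * (2 ^ 2 ^ K * (1 / 2) ^ 2 ^ K) := by rw [pow_add]; ring
    _ ≤ 1 := by
        rw [← mul_pow]
        norm_num

/-- [SD], from the polynomial relation. -/
theorem sd_of_sd1 (hsd1 : S_SD1) : S_SD := by
  intro k M s hk p hadm a ha0 hai j
  obtain ⟨Q, hQ0, hQν, hQ⟩ := hsd1 k M s hk p hadm j
  obtain ⟨c, hc0, hcν, hc⟩ := low_coeff hk p j Q hQ0 hQ
  obtain ⟨K, hK⟩ : ∃ K, K = K1 k M s := ⟨_, rfl⟩
  rw [← hK] at ha0 hai hQν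
  -- the indices increase
  have hamono : ∀ n, K + 1 ≤ a n := by
    intro n
    induction n with
    | zero => exact ha0
    | succ n ih => have := hai n; omega
  obtain ⟨tt, htt⟩ : ∃ tt : ℝ → Fin (j + 2) → ℝ,
      ∀ x i, tt x i = if i = Fin.last (j + 1) then x else hh (a i) := ⟨_, fun x i => rfl⟩
  have httc : Continuous tt := by
    refine continuous_pi fun i => ?_
    simp_rw [htt]
    split_ifs
    · exact continuous_id
    · exact continuous_const
  have hl : (0 : Fin (j + 2)) ≠ Fin.last ((j : ℕ) + 1) := by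
    intro h
    have := congrArg Fin.val h
    simp at this
  have hbv : ∀ x c, bv j (tt x) c = bb k a j + Pi.single j (c * x) := by
    intro x c
    funext i
    rw [Pi.add_apply]
    unfold bv bb
    by_cases h1 : (i : ℕ) < j
    · have h2 : i ≠ j := fun h => by rw [h] at h1; exact lt_irrefl _ h1
      rw [dif_pos h1, if_pos h1, htt, if_neg, Pi.single_eq_of_ne h2, add_zero]
      intro h
      have := congrArg Fin.val h
      simp only [Fin.val_last] at this
      omega
    · rw [dif_neg h1, if_neg h1, zero_add]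
      by_cases h2 : i = j
      · rw [if_pos h2, htt, if_pos rfl, h2, Pi.single_eq_same]
      · rw [if_neg h2, Pi.single_eq_of_ne h2]
  have hbb : bb k a (j + 1) = bb k a j + Pi.single j (hh (a (j + 1))) := by
    funext i
    rw [Pi.add_apply]
    unfold bb
    by_cases h1 : (i : ℕ) < j
    · have h2 : i ≠ j := fun h => by rw [h] at h1; exact lt_irrefl _ h1
      rw [if_pos (by omega), if_pos h1, Pi.single_eq_of_ne h2, add_zero]
    · by_cases h2 : i = j
      · rw [if_neg h1, h2, if_pos (by omega), Pi.single_eq_same, zero_add]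
      · have h3 : ¬ (i : ℕ) < j + 1 := by
          intro h4
          apply h2
          apply Fin.ext
          omega
        rw [if_neg h1, if_neg h3, Pi.single_eq_of_ne h2, add_zero]
  obtain ⟨v, hv⟩ : ∃ v : ℝ → ℝ, ∀ y, v y = Vf hk p (k + 2) (bb k a j + Pi.single j y) :=
    ⟨_, fun y => rfl⟩
  have hFFv : ∀ x, FF hk p j (tt x) = v (2 * x) - 2 * v x + v 0 - hh (a 0) * x := by
    intro x
    unfold FF
    rw [hbv, hbv, hbv, hv, hv, hv, one_mul, zero_mul, htt, htt, if_neg hl, if_pos rfl]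
    rfl
  have hvlip : ∀ x y, |v x - v y| ≤ |x - y| := by
    intro x y
    have h1 : ∀ x y, v x ≤ v y + |x - y| := by
      intro x y
      have h2 := Vf_lip hk p (k + 2) (bb k a j + Pi.single j x) (bb k a j + Pi.single j y)
      have h3 : ∑ i, |(bb k a j + Pi.single j x : Fin k → ℝ) i -
          (bb k a j + Pi.single j y : Fin k → ℝ) i| = |x - y| := by
        rw [Finset.sum_eq_single j]
        · simp
        · intro i _ hi
          simp [Pi.single_eq_of_ne hi]
        · intro h
          exact absurd (mem_univ j) h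
      rw [h3, ← hv, ← hv] at h2
      exact h2
    rw [abs_le]
    have h4 := h1 x y
    have h5 := h1 y x
    rw [abs_sub_comm y x] at h5
    constructor <;> linarith
  -- the second difference does not vanish
  have hne : ∀ x, 0 < x → x ≤ hh (a (j + 1)) → FF hk p j (tt x) ≠ 0 := by
    intro x hx hx2 hF
    have h1 := hc (tt x) hF (by rw [htt, if_pos rfl]; exact hx.ne')
    revert h1
    refine lac_ne c hc0 K (hcν.trans hQν) (tt x) (fun i => ?_) (fun i => ?_) (fun i hi => ?_)
      (fun i i' hii => ?_)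
    · rw [htt]
      split_ifs
      · exact hx
      · exact hh_pos _
    · rw [htt]
      split_ifs
      · exact hx2.trans (hh_le_one _)
      · exact hh_le_one _
    · have h2 : i = 0 := Fin.ext hi
      rw [h2, htt, if_neg hl]
      exact hh_first K _ ha0
    · have h3 : i ≠ Fin.last ((j : ℕ) + 1) := by
        intro h
        have h4 := i'.2
        rw [h, Fin.val_last] at hii
        omega
      have h5 : tt x i = hh (a i) := by rw [htt, if_neg h3]
      have h6 : tt x i' ≤ hh (a (i + 1)) := by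
        rw [htt]
        split_ifs with h7
        · have h8 : (i : ℕ) + 1 = j + 1 := by rw [hii, h7, Fin.val_last]
          rw [h8]
          exact hx2
        · rw [hii]
      rw [h5]
      refine (mul_le_mul_of_nonneg_left h6 (by positivity)).trans ?_
      exact hh_step K _ _ (by have := hamono i; omega) (hai i)
  rw [hbb]
  by_contra hcon
  push Not at hcon
  have e0 : v 0 = Vf hk p (k + 2) (bb k a j) := by rw [hv, Pi.single_zero, add_zero]
  rw [← hv, ← hv, ← e0] at hcon
  have hHp := hh_pos (a (j + 1))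
  obtain ⟨x, hx0, hx1, hx2⟩ := exists_small v hvlip (hh (a 0)) (hh (a (j + 1))) (hh_pos _) hHp
  have h1 : FF hk p j (tt x) ≤ 0 := by rw [hFFv]; linarith
  have h2 : 0 ≤ FF hk p j (tt (hh (a (j + 1)))) := by rw [hFFv]; linarith
  obtain ⟨y, hy, hy2⟩ := intermediate_value_Icc hx1
    (f := fun x => FF hk p j (tt x)) ((cont_FF hk p j).comp httc).continuousOn ⟨h1, h2⟩
  exact hne y (lt_of_lt_of_le hx0 hy.1) hy.2 hy2

end Pool.Agent.Helper97K9.IP
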