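import Pool.Agent.Helper97K9.IP.SD1
import Pool.Agent.Helper97K9.IP.SD2

/-!
# Rigid witnesses: the second differences of `V` are small [SD]
-/

set_option autoImplicit false

namespace Pool.Agent.Helper97K9.IP

/-- [SD] -/
theorem sd : S_SD := sd_of_sd1 sd1

end Pool.Agent.Helper97K9.IP
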