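import Pool.Agent.Helper97K9.IP.SDdefs
import Pool.Agent.Helper97K9.IP.Nrm

/-!
# Rigid witnesses: the relation for the second differences of `V` [SD1]
-/

set_option autoImplicit false

namespace Pool.Agent.Helper97K9.IP

open Finset Filter Topology Pool.Agent.H612 Pool.Agent.R537.RN

section ring

variable {R : Type} [CommRing R] {R' : Type} [CommRing R'] {k M : ℕ}

/-- The vector `bv` over every commutative ring. -/
def bvR {k : ℕ} (j : Fin k) (t : Fin (j + 2) → R) (c : ℕ) : Fin k → R :=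
  fun i => if h : (i : ℕ) < j then t ⟨i + 1, by omega⟩
    else if i = j then (c : R) * t (Fin.last (j + 1)) else 0

theorem bvR_map (f : R →+* R') (j : Fin k) (t : Fin (j + 2) → R) (c : ℕ) (i : Fin k) :
    f (bvR j t c i) = bvR j (fun l => f (t l)) c i := by
  unfold bvR
  split_ifs <;> simp

/-- The function whose max-min-max is the second difference. -/
noncomputable def FR (hk : k ≤ M) (p : MvPolynomial (Fin M) ℤ) (j : Fin k) (t : Fin (j + 2) → R)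
    (x1 x2 x0 : Fin k → R) (z1 z2 z0 : Fin M → R) : R :=
  gg hk p x1 (fun l => ((k + 2 : ℕ) : R) * z1 l) +
    gg hk p x2 (fun l => ((k + 2 : ℕ) : R) * z2 l) -
    2 * gg hk p x0 (fun l => ((k + 2 : ℕ) : R) * z0 l) -
    ∑ i, bvR j t 2 i * x1 i - ∑ i, bvR j t 0 i * x2 i + 2 * ∑ i, bvR j t 1 i * x0 i -
    t 0 * t (Fin.last (j + 1))

theorem FR_map (f : R →+* R') (hk : k ≤ M) (p : MvPolynomial (Fin M) ℤ) (j : Fin k)
    (t : Fin (j + 2) → R) (x1 x2 x0 : Fin k → R) (z1 z2 z0 : Fin M → R) :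
    f (FR hk p j t x1 x2 x0 z1 z2 z0) = FR hk p j (fun i => f (t i)) (fun i => f (x1 i))
      (fun i => f (x2 i)) (fun i => f (x0 i)) (fun i => f (z1 i)) (fun i => f (z2 i))
      (fun i => f (z0 i)) := by
  simp only [FR, map_sub, map_add, map_mul, map_sum, map_ofNat, gg_map, bvR_map, map_natCast]

variable (nr : RNorm R)

theorem bvR_ν {j : Fin k} {t : Fin (j + 2) → R} (ht : ∀ i, nr.ν (t i) ≤ 2) {c : ℕ} (hc : c ≤ 2)
    (i : Fin k) : nr.ν (bvR j t c i) ≤ 4 := by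
  unfold bvR
  split_ifs with h1 h2
  · exact (ht _).trans (by norm_num)
  · refine (nr.mul _ _).trans ?_
    exact (Nat.mul_le_mul ((nr.natCast _).trans hc) (ht _))
  · rw [nr.zero]
    norm_num

theorem bvR_sum_ν {j : Fin k} {t : Fin (j + 2) → R} (ht : ∀ i, nr.ν (t i) ≤ 2) {c : ℕ}
    (hc : c ≤ 2) (x : Fin k → R) (hx : ∀ i, nr.ν (x i) ≤ 2) :
    nr.ν (∑ i, bvR j t c i * x i) ≤ 8 * k := by
  refine (nr.sum _ _).trans ?_
  calc ∑ i, nr.ν (bvR j t c i * x i) ≤ ∑ _i : Fin k, 4 * 2 :=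
        Finset.sum_le_sum fun i _ => (nr.mul _ _).trans
          (Nat.mul_le_mul (bvR_ν nr ht hc i) (hx i))
    _ = 8 * k := by simp [mul_comm]

theorem FR_ν (hk : k ≤ M) (p : MvPolynomial (Fin M) ℤ) (hD : DegLE p 48) {s : ℕ}
    (hs : RNorm.int.mν p ≤ 2 ^ 2 ^ s) (j : Fin k)
    (t : Fin (j + 2) → R) (x1 x2 x0 : Fin k → R) (z1 z2 z0 : Fin M → R)
    (ht : ∀ i, nr.ν (t i) ≤ 2) (hx1 : ∀ i, nr.ν (x1 i) ≤ 2) (hx2 : ∀ i, nr.ν (x2 i) ≤ 2)
    (hx0 : ∀ i, nr.ν (x0 i) ≤ 2) (hz1 : ∀ i, nr.ν (z1 i) ≤ 2) (hz2 : ∀ i, nr.ν (z2 i) ≤ 2)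
    (hz0 : ∀ i, nr.ν (z0 i) ≤ 2) :
    1 + nr.ν (FR hk p j t x1 x2 x0 z1 z2 z0) ≤ 2 ^ 2 ^ (s + k + 20) := by
  have a1 := gg_ν' hk p nr hD hs x1 z1 hx1 hz1
  have a2 := gg_ν' hk p nr hD hs x2 z2 hx2 hz2
  have a0 := gg_ν' hk p nr hD hs x0 z0 hx0 hz0
  have b1 := bvR_sum_ν nr (j := j) ht (c := 2) (by norm_num) x1 hx1
  have b2 := bvR_sum_ν nr (j := j) ht (c := 0) (by norm_num) x2 hx2
  have b0 := bvR_sum_ν nr (j := j) ht (c := 1) (by norm_num) x0 hx0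
  have two : nr.ν (2 : R) ≤ 2 := by
    have := nr.natCast 2
    simpa using this
  have a0' : nr.ν (2 * gg hk p x0 (fun l => ((k + 2 : ℕ) : R) * z0 l)) ≤
      2 * 2 ^ (2 ^ (s + k) * 1000) := (nr.mul _ _).trans (Nat.mul_le_mul two a0)
  have b0' : nr.ν (2 * ∑ i, bvR j t 1 i * x0 i) ≤ 2 * (8 * k) :=
    (nr.mul _ _).trans (Nat.mul_le_mul two b0)
  have c0 : nr.ν (t 0 * t (Fin.last (j + 1))) ≤ 2 * 2 :=
    (nr.mul _ _).trans (Nat.mul_le_mul (ht _) (ht _))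
  have h : nr.ν (FR hk p j t x1 x2 x0 z1 z2 z0) ≤
      4 * 2 ^ (2 ^ (s + k) * 1000) + 32 * k + 4 := by
    unfold FR
    refine (nr.sub _ _).trans ?_
    refine (Nat.add_le_add ((nr.add _ _).trans (Nat.add_le_add ((nr.sub _ _).trans
      (Nat.add_le_add ((nr.sub _ _).trans (Nat.add_le_add ((nr.sub _ _).trans
        (Nat.add_le_add ((nr.add _ _).trans (Nat.add_le_add a1 a2)) a0')) b1)) b2)) b0')) c0).trans
      ?_
    omega
  have e1 : 2 ^ k ≤ 2 ^ (2 ^ (s + k) * 1000) := by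
    refine Nat.pow_le_pow_right (by norm_num) ?_
    have h5 : k + 1 ≤ 2 ^ k := Nat.lt_two_pow_self
    have h9 : 2 ^ k ≤ 2 ^ (s + k) := Nat.pow_le_pow_right (by norm_num) (by omega)
    omega
  have e2 : k + 1 ≤ 2 ^ k := Nat.lt_two_pow_self
  calc 1 + nr.ν (FR hk p j t x1 x2 x0 z1 z2 z0) ≤ 2 ^ (2 ^ (s + k) * 1000) * 2 ^ 6 := by
        norm_num
        omega
    _ = 2 ^ (2 ^ (s + k) * 1000 + 6) := (pow_add _ _ _).symm
    _ ≤ 2 ^ 2 ^ (s + k + 20) := by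
      refine Nat.pow_le_pow_right (by norm_num) ?_
      have h4 : 1 ≤ 2 ^ (s + k) := Nat.one_le_two_pow
      have h5 : 2 ^ (s + k + 20) = 2 ^ (s + k) * 2 ^ 20 := pow_add _ _ _
      omega

end ring

variable {k M : ℕ} (hk : k ≤ M) (p : MvPolynomial (Fin M) ℤ)

theorem exists_Hf' (ρ : ℕ) (x : Fin k → ℝ) :
    ∃ z ∈ cube M, gg hk p x (fun l => (ρ : ℝ) * z l) = Hf hk p ρ x := by
  obtain ⟨z, hz, h⟩ := exists_bmax (cont_gint hk p ρ) x
  refine ⟨z, hz, ?_⟩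
  unfold Hf
  rw [← h]
  ring

theorem Hf_le' (ρ : ℕ) (x : Fin k → ℝ) {z : Fin M → ℝ} (hz : z ∈ cube M) :
    Hf hk p ρ x ≤ gg hk p x (fun l => (ρ : ℝ) * z l) := by
  have h2 := le_bmax (cont_gint hk p ρ) x hz
  unfold Hf
  linarith

theorem append_cube {a b : ℕ} {x : Fin a → ℝ} {y : Fin b → ℝ} (hx : x ∈ cube a)
    (hy : y ∈ cube b) : Fin.append x y ∈ cube (a + b) := by
  intro i
  refine Fin.addCases (fun i => ?_) (fun i => ?_) i
  · rw [Fin.append_left]; exact hx i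
  · rw [Fin.append_right]; exact hy i

theorem bv_two (j : Fin k) (t : Fin (j + 2) → ℝ) : bv j t 2 = bvR j t 2 := by
  funext i
  unfold bv bvR
  split_ifs <;> simp

theorem bv_one (j : Fin k) (t : Fin (j + 2) → ℝ) : bv j t 1 = bvR j t 1 := by
  funext i
  unfold bv bvR
  split_ifs <;> simp

theorem bv_zero (j : Fin k) (t : Fin (j + 2) → ℝ) : bv j t 0 = bvR j t 0 := by
  funext i
  unfold bv bvR
  split_ifs <;> simp

/-- The relation over every level. -/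
theorem sd_step {K : Type} [CommRing K] [Nontrivial K] {T : Type} [TopologicalSpace T]
    (L : Lvl K T) (nr : RNorm K) (hpos : ∀ c : K, c ≠ 0 → 1 ≤ nr.ν c) {s : ℕ}
    (ha : Adm k M s hk p) (j : Fin k) (τ : Fin (j + 2) → K) (hτ : ∀ i, nr.ν (τ i) ≤ 2) :
    ∃ Q : Polynomial K, Q ≠ 0 ∧ nr.poly.ν Q ≤ 2 ^ 2 ^ K1 k M s ∧
      ∀ u, Q.eval₂ (L.φ u) (FF hk p j (fun i => L.φ u (τ i))) = 0 := by
  obtain ⟨F, hFdef⟩ : ∃ F : MvPolynomial (Fin M) (MvPolynomial (Fin (M + M + k))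
      (MvPolynomial (Fin (k + k)) K)), F =
      FR hk p j
        (fun i => MvPolynomial.C (MvPolynomial.C (MvPolynomial.C (τ i))))
        (fun i => MvPolynomial.C (MvPolynomial.C (MvPolynomial.X (Fin.castAdd k i))))
        (fun i => MvPolynomial.C (MvPolynomial.C (MvPolynomial.X (Fin.natAdd k i))))
        (fun i => MvPolynomial.C (MvPolynomial.X (Fin.natAdd (M + M) i)))
        (fun l => MvPolynomial.C (MvPolynomial.X (Fin.castAdd k (Fin.castAdd M l))))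
        (fun l => MvPolynomial.C (MvPolynomial.X (Fin.castAdd k (Fin.natAdd M l))))
        (fun l => MvPolynomial.X l) := ⟨_, rfl⟩
  have hF : ∀ u, (((L.ext (k + k)).ext (M + M + k)).ext M).φ u F =
      FR hk p j (fun i => L.φ u.1.1.1 (τ i)) (fun i => u.1.1.2 (Fin.castAdd k i))
        (fun i => u.1.1.2 (Fin.natAdd k i))
        (fun i => u.1.2 (Fin.natAdd (M + M) i))
        (fun l => u.1.2 (Fin.castAdd k (Fin.castAdd M l)))
        (fun l => u.1.2 (Fin.castAdd k (Fin.natAdd M l))) (fun l => u.2 l) := by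
    intro u
    rw [hFdef, FR_map]
    simp only [ext_φ_C, ext_φ_X]
  have hFν : 1 + (wm (wm (wm nr (k + k)) (M + M + k)) M).ν F ≤ 2 ^ 2 ^ (s + k + 20) := by
    rw [hFdef]
    refine FR_ν _ hk p ha.deg ha.norm j _ _ _ _ _ _ _ ?_ ?_ ?_ ?_ ?_ ?_ ?_
    · intro i
      rw [wm_C, wm_C, wm_C]; exact hτ i
    · intro i
      rw [wm_C, wm_C]; exact wm_X _ _
    · intro i
      rw [wm_C, wm_C]; exact wm_X _ _
    · intro i
      rw [wm_C]; exact wm_X _ _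
    · intro i
      rw [wm_C]; exact wm_X _ _
    · intro i
      rw [wm_C]; exact wm_X _ _
    · intro i
      exact wm_X _ _
  obtain ⟨h3, hh3⟩ : ∃ h3 : ((T × (Fin (k + k) → ℝ)) ×
      (Fin (M + M + k) → ℝ)) × (Fin M → ℝ) → ℝ, ∀ u, h3 u =
        (((L.ext (k + k)).ext (M + M + k)).ext M).φ u F :=
    ⟨_, fun u => rfl⟩
  have hc3 : Continuous h3 := by
    have : h3 = fun u => (((L.ext (k + k)).ext (M + M + k)).ext M).φ u F :=
      funext hh3
    rw [this]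
    exact (((L.ext (k + k)).ext (M + M + k)).ext M).cont F
  have hP0 : Polynomial.X + Polynomial.C (-F) ≠ 0 := (Polynomial.monic_X_add_C (-F)).ne_zero
  have hB : (wm (wm (wm nr (k + k)) (M + M + k)) M).poly.ν
      (Polynomial.X + Polynomial.C (-F)) ≤ 2 ^ 2 ^ (s + k + 20) := by
    refine (ν_X_add_C _ (-F)).trans ?_
    refine le_trans ?_ hFν
    exact Nat.add_le_add_left ((wm (wm (wm nr (k + k)) (M + M + k)) M).neg F) 1
  have p2 := wm_pos nr hpos (N := k + k)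
  have p3 := wm_pos (wm nr (k + k)) p2 (N := M + M + k)
  obtain ⟨Q, hQ0, hQν, hQ⟩ := ((L.ext (k + k)).ext (M + M + k)).step
    (wm (wm nr (k + k)) (M + M + k)) p3
    (Polynomial.X + Polynomial.C (-F)) hP0 _ hB Nat.one_le_two_pow h3 hc3 (fun u => by
      rw [Polynomial.eval₂_add, Polynomial.eval₂_X, Polynomial.eval₂_C, hh3, map_neg]; ring)
  have hQν' := (flip_ν (wm (wm nr (k + k)) (M + M + k)) Q).trans
    (hQν.trans (bndL_le M (s + k + 20) _ (le_refl _)))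
  obtain ⟨h2, hh2⟩ : ∃ h2 : (T × (Fin (k + k) → ℝ)) ×
      (Fin (M + M + k) → ℝ) → ℝ, ∀ u, h2 u = -bmax h3 u := ⟨_, fun u => rfl⟩
  have hc2 : Continuous h2 := by
    have : h2 = fun u => -bmax h3 u := funext hh2
    rw [this]
    exact (continuous_bmax hc3).neg
  obtain ⟨Q1, hQ10, hQ1ν, hQ1⟩ := (L.ext (k + k)).step
    (wm nr (k + k)) p2 (flip Q) (flip_ne_zero Q hQ0) _
    hQν' Nat.one_le_two_pow h2 hc2 (fun u => by
      rw [flip_eval, hh2, neg_neg]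
      exact hQ u)
  have hQ1ν' := (flip_ν (wm nr (k + k)) Q1).trans
    (hQ1ν.trans (bndL_le (M + M + k) _ _ (le_refl _)))
  obtain ⟨h1, hh1⟩ : ∃ h1 : T × (Fin (k + k) → ℝ) → ℝ,
      ∀ u, h1 u = -bmax h2 u := ⟨_, fun u => rfl⟩
  have hc1 : Continuous h1 := by
    have : h1 = fun u => -bmax h2 u := funext hh1
    rw [this]
    exact (continuous_bmax hc2).neg
  obtain ⟨Q2, hQ20, hQ2ν, hQ2⟩ := L.step
    nr hpos (flip Q1) (flip_ne_zero Q1 hQ10) _
    hQ1ν' Nat.one_le_two_pow h1 hc1 (fun u => by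
      rw [flip_eval, hh1, neg_neg]
      exact hQ1 u)
  have hQ2ν' : nr.poly.ν Q2 ≤ 2 ^ 2 ^ K1 k M s :=
    hQ2ν.trans (bndL_le (k + k) _ _ (le_refl _))
  refine ⟨Q2, hQ20, hQ2ν', fun u => ?_⟩
  obtain ⟨t, htd⟩ : ∃ t : Fin (j + 2) → ℝ, t = fun i => L.φ u (τ i) := ⟨_, rfl⟩
  rw [← htd]
  have key : bmax h1 u = FF hk p j t := by
    have hG : ∀ (X : Fin (k + k) → ℝ) (Y : Fin (M + M + k) → ℝ) (Z : Fin M → ℝ),
        h3 (((u, X), Y), Z) = FR hk p j t (fun i => X (Fin.castAdd k i))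
          (fun i => X (Fin.natAdd k i)) (fun i => Y (Fin.natAdd (M + M) i))
          (fun l => Y (Fin.castAdd k (Fin.castAdd M l)))
          (fun l => Y (Fin.castAdd k (Fin.natAdd M l))) Z := by
      intro X Y Z
      rw [hh3, hF, htd]
    unfold FF
    rw [bv_two, bv_one, bv_zero]
    refine le_antisymm ?_ ?_
    · obtain ⟨X, hX, hX2⟩ := exists_bmax hc1 u
      rw [← hX2, hh1]
      obtain ⟨x1, hx1d⟩ : ∃ x1 : Fin k → ℝ, x1 = fun i => X (Fin.castAdd k i) := ⟨_, rfl⟩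
      obtain ⟨x2, hx2d⟩ : ∃ x2 : Fin k → ℝ, x2 = fun i => X (Fin.natAdd k i) := ⟨_, rfl⟩
      have hx1 : ∀ i, |x1 i| ≤ 1 := fun i => by rw [hx1d]; exact hX _
      have hx2 : ∀ i, |x2 i| ≤ 1 := fun i => by rw [hx2d]; exact hX _
      obtain ⟨z1, hz1, hz1'⟩ := exists_Hf' hk p (k + 2) x1
      obtain ⟨z2, hz2, hz2'⟩ := exists_Hf' hk p (k + 2) x2
      obtain ⟨x0, hx0, hx0'⟩ := exists_Vf hk p (k + 2) (bvR j t 1)
      have hY := append_cube (append_cube hz1 hz2) (show x0 ∈ cube k from hx0)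
      have e1 := le_bmax hc2 (u, X) hY
      rw [hh2] at e1
      obtain ⟨Z, hZ, hZ2⟩ := exists_bmax hc3 ((u, X), Fin.append (Fin.append z1 z2) x0)
      rw [← hZ2, hG] at e1
      simp only [Fin.append_left, Fin.append_right, ← hx1d, ← hx2d] at e1
      unfold FR at e1
      have f0 := Hf_le' hk p (k + 2) x0 hZ
      have f1 := le_Vf hk p (k + 2) (bvR j t 2) hx1
      have f2 := le_Vf hk p (k + 2) (bvR j t 0) hx2
      linarith
    · obtain ⟨x1, hx1, hx1'⟩ := exists_Vf hk p (k + 2) (bvR j t 2)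
      obtain ⟨x2, hx2, hx2'⟩ := exists_Vf hk p (k + 2) (bvR j t 0)
      have hX := append_cube (show x1 ∈ cube k from hx1) (show x2 ∈ cube k from hx2)
      refine le_trans ?_ (le_bmax hc1 u hX)
      rw [hh1]
      obtain ⟨Y, hY, hY2⟩ := exists_bmax hc2 (u, Fin.append x1 x2)
      rw [← hY2, hh2, neg_neg]
      obtain ⟨x0, hx0d⟩ : ∃ x0 : Fin k → ℝ, x0 = fun i => Y (Fin.natAdd (M + M) i) := ⟨_, rfl⟩
      obtain ⟨z1, hz1d⟩ : ∃ z1 : Fin M → ℝ, z1 = fun l => Y (Fin.castAdd k (Fin.castAdd M l)) :=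
        ⟨_, rfl⟩
      obtain ⟨z2, hz2d⟩ : ∃ z2 : Fin M → ℝ, z2 = fun l => Y (Fin.castAdd k (Fin.natAdd M l)) :=
        ⟨_, rfl⟩
      have hx0 : ∀ i, |x0 i| ≤ 1 := fun i => by rw [hx0d]; exact hY _
      have hz1 : z1 ∈ cube M := fun i => by rw [hz1d]; exact hY _
      have hz2 : z2 ∈ cube M := fun i => by rw [hz2d]; exact hY _
      obtain ⟨z0, hz0, hz0'⟩ := exists_Hf' hk p (k + 2) x0
      refine le_trans ?_ (le_bmax hc3 ((u, Fin.append x1 x2), Y) hz0)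
      rw [hG]
      simp only [Fin.append_left, Fin.append_right]
      rw [← hx0d, ← hz1d, ← hz2d]
      unfold FR
      have f0 := le_Vf hk p (k + 2) (bvR j t 1) hx0
      have f1 := Hf_le' hk p (k + 2) x1 hz1
      have f2 := Hf_le' hk p (k + 2) x2 hz2
      linarith
  have h5 := hQ2 u
  rw [key] at h5
  exact h5

/-- [SD1] -/
theorem sd1 : S_SD1 := by
  intro k M s hk p ha j
  obtain ⟨Q, hQ0, hQν, hQ⟩ := sd_step hk p (Lvl.int.ext (j + 2)) (wm RNorm.int (j + 2))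
    (wm_pos RNorm.int int_pos) ha j (fun i => MvPolynomial.X i) (fun i => wm_X _ i)
  refine ⟨Q, hQ0, hQν, fun t => ?_⟩
  have h := hQ ((), t)
  simp only [ext_φ_X] at h
  exact h

end Pool.Agent.Helper97K9.IP
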