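import Pool.Agent.Helper97K9.IP.Defs

/-!
# There are only finitely many KKT values
-/

set_option autoImplicit false

namespace Pool.Agent.Helper97K9.IP

open Finset

namespace SardL

open IntermediateField

universe u

/-- a derivation of a separable algebraic extension is zero if it kills the base field -/
theorem deriv_zero {E L : Type u} [Field E] [Field L] [Algebra E L] [Algebra.IsAlgebraic E L]
    [CharZero E] (D : Derivation E L L) (x : L) : D x = 0 := by
  have h1 : Algebra.FormallyUnramified E L := Algebra.FormallyUnramified.of_isSeparable E L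
  have h2 : KaehlerDifferential.D E L x = 0 := Subsingleton.elim _ _
  rw [← Derivation.liftKaehlerDifferential_comp_D D x, h2, map_zero]

/-- if all derivations kill `v` then `v` is algebraic -/
theorem isAlgebraic_of_derivation {K L : Type u} [Field K] [CharZero K] [Field L] [Algebra K L]
    [Algebra.EssFiniteType K L] (v : L) (hv : ∀ D : Derivation K L L, D v = 0) :
    IsAlgebraic K v := by
  by_contra htr
  have hind : AlgebraicIndepOn K id ({v} : Set L) :=
    (algebraicIndependent_singleton_iff (⟨v, rfl⟩ : ({v} : Set L))).2 htr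
  obtain ⟨s, hs, hB⟩ := exists_isTranscendenceBasis_superset hind
  have hvs : v ∈ s := hs rfl
  let F : IntermediateField K L := IntermediateField.adjoin K (s \ {v})
  have h1 : Transcendental F v := by
    rw [transcendental_adjoin_iff]
    have := hB.1.transcendental_adjoin (s := {i | i ≠ ⟨v, hvs⟩}) (i := ⟨v, hvs⟩) (by simp)
    have he : (Subtype.val '' {i : s | i ≠ ⟨v, hvs⟩}) = s \ {v} := by
      ext x
      constructor
      · rintro ⟨⟨y, hy⟩, hyv, rfl⟩
        exact ⟨hy, fun h => hyv (Subtype.ext h)⟩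
      · rintro ⟨hx, hxv⟩
        exact ⟨⟨x, hx⟩, fun h => hxv (congrArg Subtype.val h), rfl⟩
    rwa [he] at this
  let E : IntermediateField K L := IntermediateField.adjoin K s
  have h2 : Algebra.IsAlgebraic E L := by
    have := hB.isAlgebraic_field
    rwa [Subtype.range_coe] at this
  have h3 : ∀ (D : Derivation F L L) (x : L), D x = 0 := by
    intro D
    have hE : ∀ a ∈ E, D a = 0 := by
      intro a ha
      induction ha using IntermediateField.adjoin_induction with
      | mem x hx =>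
        by_cases hxv : x = v
        · subst hxv
          exact hv (D.restrictScalars K)
        · have hxF : x ∈ F := IntermediateField.subset_adjoin _ _ ⟨hx, hxv⟩
          exact D.map_algebraMap ⟨x, hxF⟩
      | algebraMap x =>
        exact D.map_algebraMap (algebraMap K F x)
      | add x y _ _ hx hy => rw [map_add, hx, hy, add_zero]
      | inv x _ hx => rw [Derivation.leibniz_inv, hx, smul_zero]
      | mul x y _ _ hx hy => rw [Derivation.leibniz, hx, hy, smul_zero, smul_zero, add_zero]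
    let D' : Derivation E L L := Derivation.mk'
      { toFun := D
        map_add' := map_add D
        map_smul' := by
          rintro ⟨a, ha⟩ x
          show D (a * x) = a * D x
          rw [Derivation.leibniz, hE a ha, smul_zero, add_zero, smul_eq_mul] }
      (fun a b => D.leibniz a b)
    intro x
    exact deriv_zero D' x
  have h4 : Algebra.FormallyUnramified F L := by
    refine ⟨?_⟩
    by_contra hne
    rw [not_subsingleton_iff_nontrivial] at hne
    have h5 : ∀ x, KaehlerDifferential.D F L x = 0 := by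
      intro x
      rw [← Module.forall_dual_apply_eq_zero_iff L]
      intro φ
      exact h3 (φ.compDer (KaehlerDifferential.D F L)) x
    have h6 := KaehlerDifferential.span_range_derivation F L
    have h7 : Submodule.span L (Set.range (KaehlerDifferential.D F L)) ≤ ⊥ := by
      rw [Submodule.span_le]
      rintro _ ⟨x, rfl⟩
      exact h5 x
    rw [h6] at h7
    exact top_ne_bot (le_bot_iff.1 h7)
  have h5 : Algebra.EssFiniteType F L := Algebra.EssFiniteType.of_comp K F L
  have h6 : Algebra.IsSeparable F L := Algebra.FormallyUnramified.isSeparable F L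
  exact h1 (Algebra.IsAlgebraic.isAlgebraic v)

section nat

variable {R S : Type} [CommRing R] [CommRing S] {k M : ℕ} (φ : R →+* S)

theorem pe_map (p : MvPolynomial (Fin M) ℤ) (z : Fin M → R) :
    φ (pe p z) = pe p (fun l => φ (z l)) := by
  rw [pe, MvPolynomial.eval₂_comp_left φ]
  rw [pe]
  congr 1
  exact RingHom.ext_int _ _

theorem q_map (hk : k ≤ M) (p : MvPolynomial (Fin M) ℤ) (x : Fin k → R) (z : Fin M → R) :
    φ (q hk p x z) = q hk p (fun j => φ (x j)) (fun l => φ (z l)) := by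
  simp only [q, map_add, map_sum, map_pow, map_sub, pe_map]

theorem sx_map (x : Fin k → R) : φ (sx x) = sx (fun j => φ (x j)) := by
  simp only [sx, map_sum, map_pow]

theorem dq_map (p : MvPolynomial (Fin M) ℤ) (l : Fin M) (x : Fin k → R) (z : Fin M → R) :
    φ (dq p l x z) = dq p l (fun j => φ (x j)) (fun l => φ (z l)) := by
  simp only [dq, map_add, pe_map]
  split_ifs
  · simp only [map_mul, map_sub, map_ofNat]
  · rw [map_zero]

theorem Ceq_map (hk : k ≤ M) (w : ℕ → R) (j : Fin k) :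
    φ (Ceq hk w j) = Ceq hk (fun i => φ (w i)) j := by
  simp only [Ceq, map_sub, map_mul, map_sum, map_pow, map_one, map_ofNat, sx_map]
  rfl

theorem Eeq_map (k : ℕ) (w : ℕ → R) : φ (Eeq k w) = Eeq k (fun i => φ (w i)) := by
  simp only [Eeq, map_sub, map_mul, map_one, sx_map]
  rfl

end nat

section der

variable {L : Type} [Field L] [Algebra ℝ L] {k M : ℕ} (D : Derivation ℝ L L)

theorem D_pe (p : MvPolynomial (Fin M) ℤ) (z : Fin M → L) :
    D (pe p z) = ∑ l, pe (MvPolynomial.pderiv l p) z * D (z l) := by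
  classical
  induction p using MvPolynomial.induction_on with
  | C a =>
    have h1 : pe (MvPolynomial.C a : MvPolynomial (Fin M) ℤ) z = algebraMap ℝ L (a : ℝ) := by
      rw [pe, MvPolynomial.eval₂_C, map_intCast]
      rfl
    rw [h1, Derivation.map_algebraMap]
    symm
    refine Finset.sum_eq_zero fun l _ => ?_
    rw [MvPolynomial.pderiv_C]
    have : pe (0 : MvPolynomial (Fin M) ℤ) z = 0 := MvPolynomial.eval₂_zero _ _
    rw [this, zero_mul]
  | add p q hp hq =>
    have h : ∀ p q : MvPolynomial (Fin M) ℤ, pe (p + q) z = pe p z + pe q z := fun p q =>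
      MvPolynomial.eval₂_add _ _
    rw [h, map_add, hp, hq, ← Finset.sum_add_distrib]
    refine Finset.sum_congr rfl fun l _ => ?_
    rw [map_add, h, add_mul]
  | mul_X p n hp =>
    have hm : ∀ p q : MvPolynomial (Fin M) ℤ, pe (p * q) z = pe p z * pe q z := fun p q =>
      MvPolynomial.eval₂_mul _ _
    have ha : ∀ p q : MvPolynomial (Fin M) ℤ, pe (p + q) z = pe p z + pe q z := fun p q =>
      MvPolynomial.eval₂_add _ _
    have hX : ∀ i, pe (MvPolynomial.X i : MvPolynomial (Fin M) ℤ) z = z i := fun i =>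
      MvPolynomial.eval₂_X _ _ _
    rw [hm, hX, Derivation.leibniz, hp, smul_eq_mul, smul_eq_mul, Finset.mul_sum]
    have h2 : pe p z * D (z n) = ∑ l, (if l = n then pe p z * D (z l) else 0) := by
      rw [Finset.sum_ite_eq' Finset.univ n]
      simp
    rw [h2, ← Finset.sum_add_distrib]
    refine Finset.sum_congr rfl fun l _ => ?_
    rw [Derivation.leibniz, smul_eq_mul, smul_eq_mul, ha, hm, hm, hX]
    split_ifs with h
    · subst h
      rw [MvPolynomial.pderiv_X_self]
      have : pe (1 : MvPolynomial (Fin M) ℤ) z = 1 := MvPolynomial.eval₂_one _ _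
      rw [this]; ring
    · rw [MvPolynomial.pderiv_X_of_ne (Ne.symm h)]
      have : pe (0 : MvPolynomial (Fin M) ℤ) z = 0 := MvPolynomial.eval₂_zero _ _
      rw [this]; ring

omit [Algebra ℝ L] in
theorem sum_dite (hk : k ≤ M) (g : Fin k → Fin M → L) :
    ∑ l : Fin M, (if h : (l : ℕ) < k then g ⟨l, h⟩ l else 0) = ∑ j, g j (Fin.castLE hk j) := by
  obtain ⟨m, rfl⟩ := Nat.exists_eq_add_of_le hk
  rw [Fin.sum_univ_add]
  have h1 : ∑ i : Fin m, (if h : ((Fin.natAdd k i : Fin (k + m)) : ℕ) < k then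
      g ⟨(Fin.natAdd k i : Fin (k + m)), h⟩ (Fin.natAdd k i) else 0) = 0 := by
    refine Finset.sum_eq_zero fun i _ => ?_
    rw [dif_neg]
    simp
  rw [h1, add_zero]
  refine Finset.sum_congr rfl fun i _ => ?_
  rw [dif_pos (by simp)]
  rfl

theorem D_q (hk : k ≤ M) (p : MvPolynomial (Fin M) ℤ) (x : Fin k → L) (z : Fin M → L) :
    D (q hk p x z) = ∑ l, dq p l x z * D (z l) -
      ∑ j, 2 * (z (Fin.castLE hk j) - x j) * D (x j) := by
  have h1 : ∑ l, dq p l x z * D (z l) =
      ∑ j, 2 * (z (Fin.castLE hk j) - x j) * D (z (Fin.castLE hk j)) +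
        ∑ l, pe (MvPolynomial.pderiv l p) z * D (z l) := by
    rw [← sum_dite hk (fun j l => 2 * (z l - x j) * D (z l)), ← Finset.sum_add_distrib]
    refine Finset.sum_congr rfl fun l _ => ?_
    rw [dq, add_mul]
    split_ifs <;> simp
  rw [h1, q, map_add, D_pe, map_sum, add_sub_right_comm, ← Finset.sum_sub_distrib]
  congr 1
  refine Finset.sum_congr rfl fun j _ => ?_
  rw [Derivation.leibniz_pow, map_sub]
  simp only [nsmul_eq_mul, smul_eq_mul]
  push_cast
  ring

theorem D_v (hk : k ≤ M) (p : MvPolynomial (Fin M) ℤ) (b : Fin k → ℝ) (W : ℕ → L)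
    (h1 : ∀ i l, dq p l (xw k W) (zw k M W i) = 0)
    (h2 : ∀ i, q hk p (xw k W) (zw k M W i) = W k)
    (h3 : ∑ i, μw k W i ^ 2 = 1)
    (h4 : ∀ j, Ceq hk W j = algebraMap ℝ L (b j))
    (h5 : Eeq k W = ∑ j, algebraMap ℝ L (b j) * xw k W j) : D (W (k + 1)) = 0 := by
  have hu : ∀ i, D (W k) = ∑ j, 2 * (xw k W j - zw k M W i (Fin.castLE hk j)) * D (xw k W j) := by
    intro i
    rw [← h2 i, D_q]
    have : ∑ l, dq p l (xw k W) (zw k M W i) * D (zw k M W i l) = 0 :=
      Finset.sum_eq_zero fun l _ => by rw [h1, zero_mul]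
    rw [this, zero_sub, ← Finset.sum_neg_distrib]
    refine Finset.sum_congr rfl fun j _ => ?_
    ring
  have hu2 : D (W k) = ∑ j, (∑ i, μw k W i ^ 2 *
      (2 * (xw k W j - zw k M W i (Fin.castLE hk j)))) * D (xw k W j) := by
    calc D (W k) = (∑ i, μw k W i ^ 2) * D (W k) := by rw [h3, one_mul]
      _ = ∑ i, μw k W i ^ 2 * ∑ j, 2 * (xw k W j - zw k M W i (Fin.castLE hk j)) *
          D (xw k W j) := by
        rw [Finset.sum_mul]
        exact Finset.sum_congr rfl fun i _ => by rw [← hu i]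
      _ = _ := by
        simp only [Finset.mul_sum, Finset.sum_mul]
        rw [Finset.sum_comm]
        refine Finset.sum_congr rfl fun j _ => Finset.sum_congr rfl fun i _ => ?_
        ring
  have hsx : D (sx (xw k W)) = ∑ j, 2 * xw k W j * D (xw k W j) := by
    rw [sx, map_sum]
    refine Finset.sum_congr rfl fun j _ => ?_
    rw [Derivation.leibniz_pow]
    simp only [nsmul_eq_mul, smul_eq_mul]
    push_cast
    ring
  have hv : W (k + 1) = W k * (1 - sx (xw k W)) - ∑ j, algebraMap ℝ L (b j) * xw k W j := by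
    rw [← h5, Eeq]; ring
  have hb : D (∑ j, algebraMap ℝ L (b j) * xw k W j) =
      ∑ j, algebraMap ℝ L (b j) * D (xw k W j) := by
    rw [map_sum]
    refine Finset.sum_congr rfl fun j _ => ?_
    rw [Derivation.leibniz, Derivation.map_algebraMap, smul_zero, add_zero, smul_eq_mul]
  rw [hv, map_sub, Derivation.leibniz, hb, map_sub, Derivation.map_one_eq_zero, hsx, zero_sub,
    smul_eq_mul, smul_eq_mul, hu2, mul_neg, Finset.mul_sum, Finset.mul_sum, neg_add_eq_sub,
    ← Finset.sum_sub_distrib, ← Finset.sum_sub_distrib]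
  refine Finset.sum_eq_zero fun j _ => ?_
  rw [← h4 j, Ceq]
  ring

end der

section ideal

variable {k M : ℕ}

theorem Fsq_zero (hk : k ≤ M) (p : MvPolynomial (Fin M) ℤ) (b : Fin k → ℝ) (w : ℕ → ℝ)
    (h : Fsq hk p 1 b w = 0) :
    (∀ i l, dq p l (xw k w) (zw k M w i) = 0) ∧
    (∀ i, q hk p (xw k w) (zw k M w i) = w k) ∧
    (∑ i, μw k w i ^ 2 = 1) ∧ (∀ j, Ceq hk w j = b j) ∧
    (Eeq k w = ∑ j, b j * xw k w j) := by
  simp only [Fsq, one_pow, one_mul] at h
  have a1 : 0 ≤ ∑ i, ∑ l, dq p l (xw k w) (zw k M w i) ^ 2 :=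
    Finset.sum_nonneg fun i _ => Finset.sum_nonneg fun l _ => sq_nonneg _
  have a2 : 0 ≤ ∑ i, (q hk p (xw k w) (zw k M w i) - w k) ^ 2 :=
    Finset.sum_nonneg fun i _ => sq_nonneg _
  have a3 : 0 ≤ (∑ i, μw k w i ^ 2 - 1) ^ 2 := sq_nonneg _
  have a4 : 0 ≤ ∑ j, (Ceq hk w j - b j) ^ 2 := Finset.sum_nonneg fun i _ => sq_nonneg _
  have a5 : 0 ≤ (Eeq k w - ∑ j, b j * xw k w j) ^ 2 := sq_nonneg _
  refine ⟨fun i l => ?_, fun i => ?_, ?_, fun j => ?_, ?_⟩
  · have : ∑ i, ∑ l, dq p l (xw k w) (zw k M w i) ^ 2 = 0 := by linarith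
    have h1 := (Finset.sum_eq_zero_iff_of_nonneg (fun i _ =>
      Finset.sum_nonneg fun l _ => sq_nonneg _)).1 this i (Finset.mem_univ _)
    have h2 := (Finset.sum_eq_zero_iff_of_nonneg (fun l _ => sq_nonneg _)).1 h1 l
      (Finset.mem_univ _)
    exact pow_eq_zero_iff two_ne_zero |>.1 h2
  · have : ∑ i, (q hk p (xw k w) (zw k M w i) - w k) ^ 2 = 0 := by linarith
    have h2 := (Finset.sum_eq_zero_iff_of_nonneg (fun l _ => sq_nonneg _)).1 this i
      (Finset.mem_univ _)
    exact sub_eq_zero.1 (pow_eq_zero_iff two_ne_zero |>.1 h2)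
  · have : (∑ i, μw k w i ^ 2 - 1) ^ 2 = 0 := by linarith
    exact sub_eq_zero.1 (pow_eq_zero_iff two_ne_zero |>.1 this)
  · have : ∑ j, (Ceq hk w j - b j) ^ 2 = 0 := by linarith
    have h2 := (Finset.sum_eq_zero_iff_of_nonneg (fun l _ => sq_nonneg _)).1 this j
      (Finset.mem_univ _)
    exact sub_eq_zero.1 (pow_eq_zero_iff two_ne_zero |>.1 h2)
  · have : (Eeq k w - ∑ j, b j * xw k w j) ^ 2 = 0 := by linarith
    exact sub_eq_zero.1 (pow_eq_zero_iff two_ne_zero |>.1 this)

/-- the generic point -/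
noncomputable def W0 (N : ℕ) : ℕ → MvPolynomial (Fin N) ℝ :=
  fun i => if h : i < N then MvPolynomial.X ⟨i, h⟩ else 0

/-- the evaluation -/
noncomputable def ev (N : ℕ) (w : ℕ → ℝ) : MvPolynomial (Fin N) ℝ →+* ℝ :=
  MvPolynomial.eval fun i => w i

theorem ev_W0 {N : ℕ} (w : ℕ → ℝ) {i : ℕ} (hi : i < N) : ev N w (W0 N i) = w i := by
  rw [W0, dif_pos hi, ev, MvPolynomial.eval_X]

theorem ev_x (w : ℕ → ℝ) : (fun j => ev (dN k M) w (xw k (W0 (dN k M)) j)) = xw k w := by
  funext j
  exact ev_W0 w (by rw [dN]; have := j.2; omega)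

theorem ev_z (w : ℕ → ℝ) (i : Fin (k + 1)) :
    (fun l => ev (dN k M) w (zw k M (W0 (dN k M)) i l)) = zw k M w i := by
  funext l
  refine ev_W0 w ?_
  rw [dN]
  have h1 := l.2
  have h2 : (i : ℕ) * M + M ≤ (k + 1) * M := by
    calc (i : ℕ) * M + M = (i + 1) * M := by ring
      _ ≤ (k + 1) * M := Nat.mul_le_mul_right _ i.2
  omega

theorem ev_μ (w : ℕ → ℝ) (i : Fin (k + 1)) :
    ev (dN k M) w (μw k (W0 (dN k M)) i) = μw k w i :=
  ev_W0 w (by rw [dN]; have := i.2; omega)

theorem key (hk : k ≤ M) (p : MvPolynomial (Fin M) ℤ) (b : Fin k → ℝ)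
    (P : Ideal (MvPolynomial (Fin (dN k M)) ℝ)) [P.IsPrime]
    (hP : ∀ f, (∀ w : ℕ → ℝ, Fsq hk p 1 b w = 0 → ev (dN k M) w f = 0) → f ∈ P) :
    ∃ g : Polynomial ℝ, g ≠ 0 ∧ Polynomial.aeval (W0 (dN k M) (k + 1)) g ∈ P := by
  let A := MvPolynomial (Fin (dN k M)) ℝ ⧸ P
  let L := FractionRing A
  let ψ : MvPolynomial (Fin (dN k M)) ℝ →ₐ[ℝ] L :=
    (IsScalarTower.toAlgHom ℝ A L).comp (Ideal.Quotient.mkₐ ℝ _)
  have hψ0 : ∀ f, ψ f = algebraMap A L (Ideal.Quotient.mk _ f) := fun f => rfl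
  have hψ : ∀ f, ψ f = 0 ↔ f ∈ P := by
    intro f
    rw [hψ0, FaithfulSMul.algebraMap_eq_zero_iff, Ideal.Quotient.eq_zero_iff_mem]
  have hψ' : ∀ f, (∀ w : ℕ → ℝ, Fsq hk p 1 b w = 0 → ev (dN k M) w f = 0) → ψ f = 0 :=
    fun f hf => (hψ f).2 (hP f hf)
  let W : ℕ → L := fun i => ψ (W0 (dN k M) i)
  have hk1 : k < dN k M := by rw [dN]; omega
  have hk2 : k + 1 < dN k M := by rw [dN]; omega
  have hCeq : ∀ (w : ℕ → ℝ) j, ev (dN k M) w (Ceq hk (W0 (dN k M)) j) = Ceq hk w j := by
    intro w j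
    rw [Ceq_map, Ceq, Ceq]
    have e1 : xw k (fun i => ev (dN k M) w (W0 (dN k M) i)) = xw k w := ev_x w
    have e2 : ∀ i, zw k M (fun i => ev (dN k M) w (W0 (dN k M) i)) i = zw k M w i := ev_z w
    have e3 : ∀ i, μw k (fun i => ev (dN k M) w (W0 (dN k M) i)) i = μw k w i := ev_μ w
    rw [e1, ev_W0 w hk1]
    simp only [e2, e3]
  have hEeq : ∀ (w : ℕ → ℝ), ev (dN k M) w (Eeq k (W0 (dN k M))) = Eeq k w := by
    intro w
    rw [Eeq_map, Eeq, Eeq]
    have e1 : xw k (fun i => ev (dN k M) w (W0 (dN k M) i)) = xw k w := ev_x w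
    rw [e1, ev_W0 w hk1, ev_W0 w hk2]
  have h : IsAlgebraic ℝ (W (k + 1)) := by
    apply isAlgebraic_of_derivation
    intro D
    refine D_v D hk p b W ?_ ?_ ?_ ?_ ?_
    · intro i l
      have := hψ' (dq p l (xw k (W0 (dN k M))) (zw k M (W0 (dN k M)) i)) (by
        intro w hw
        rw [dq_map, ev_x, ev_z]
        exact (Fsq_zero hk p b w hw).1 i l)
      have h2 := dq_map (ψ : MvPolynomial (Fin (dN k M)) ℝ →+* L) p l (xw k (W0 (dN k M)))
        (zw k M (W0 (dN k M)) i)
      exact h2.symm.trans this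
    · intro i
      have := hψ' (q hk p (xw k (W0 (dN k M))) (zw k M (W0 (dN k M)) i) - W0 (dN k M) k) (by
        intro w hw
        rw [map_sub, q_map, ev_x, ev_z, ev_W0 w hk1]
        exact sub_eq_zero.2 ((Fsq_zero hk p b w hw).2.1 i))
      rw [map_sub, sub_eq_zero] at this
      have h2 := q_map (ψ : MvPolynomial (Fin (dN k M)) ℝ →+* L) hk p (xw k (W0 (dN k M)))
        (zw k M (W0 (dN k M)) i)
      exact h2.symm.trans this
    · have := hψ' (∑ i, μw k (W0 (dN k M)) i ^ 2 - 1) (by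
        intro w hw
        rw [map_sub, map_sum, map_one, sub_eq_zero, ← (Fsq_zero hk p b w hw).2.2.1]
        refine Finset.sum_congr rfl fun i _ => ?_
        rw [map_pow, ev_μ])
      rw [map_sub, sub_eq_zero, map_sum, map_one] at this
      rw [← this]
      refine Finset.sum_congr rfl fun i _ => ?_
      rw [map_pow]
      rfl
    · intro j
      have := hψ' (Ceq hk (W0 (dN k M)) j - MvPolynomial.C (b j)) (by
        intro w hw
        rw [map_sub, hCeq, (Fsq_zero hk p b w hw).2.2.2.1 j, ev, MvPolynomial.eval_C, sub_self])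
      rw [map_sub, sub_eq_zero, MvPolynomial.algHom_C] at this
      have h2 := Ceq_map (ψ : MvPolynomial (Fin (dN k M)) ℝ →+* L) hk (W0 (dN k M)) j
      exact h2.symm.trans this
    · have := hψ' (Eeq k (W0 (dN k M)) - ∑ j, MvPolynomial.C (b j) * xw k (W0 (dN k M)) j) (by
        intro w hw
        rw [map_sub, hEeq, (Fsq_zero hk p b w hw).2.2.2.2, sub_eq_zero, map_sum]
        refine Finset.sum_congr rfl fun j _ => ?_
        rw [map_mul]
        have e1 := congrFun (ev_x (k := k) (M := M) w) j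
        rw [e1, ev, MvPolynomial.eval_C])
      rw [map_sub, sub_eq_zero, map_sum] at this
      have h2 := Eeq_map (ψ : MvPolynomial (Fin (dN k M)) ℝ →+* L) k (W0 (dN k M))
      refine (h2.symm.trans this).trans ?_
      refine Finset.sum_congr rfl fun j _ => ?_
      rw [map_mul, MvPolynomial.algHom_C]
      rfl
  obtain ⟨g, hg0, hg⟩ := h
  refine ⟨g, hg0, ?_⟩
  rw [← hψ, ← Polynomial.aeval_algHom_apply]
  exact hg

end ideal

end SardL

open SardL in
/-- `S_SARD` -/
theorem sard : S_SARD := by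
  intro k M hk p b
  let Z : Set (ℕ → ℝ) := {w | Fsq hk p 1 b w = 0}
  let I : Ideal (MvPolynomial (Fin (dN k M)) ℝ) := ⨅ w ∈ Z, RingHom.ker (ev (dN k M) w)
  have hI : ∀ f, (∀ w : ℕ → ℝ, Fsq hk p 1 b w = 0 → ev (dN k M) w f = 0) → f ∈ I := by
    intro f hf
    simp only [I, Submodule.mem_iInf]
    intro w hw
    exact hf w hw
  have hfin := I.finite_minimalPrimes_of_isNoetherianRing
  have hkey : ∀ P ∈ I.minimalPrimes,
      ∃ g : Polynomial ℝ, g ≠ 0 ∧ Polynomial.aeval (W0 (dN k M) (k + 1)) g ∈ P := by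
    intro P hP
    have : P.IsPrime := hP.1.1
    exact key hk p b P fun f hf => hP.1.2 (hI f hf)
  choose! g hg0 hg using hkey
  refine (hfin.biUnion fun P _ => (g P).roots.toFinset.finite_toSet).subset ?_
  rintro v ⟨w, hw, rfl⟩
  have hle : I ≤ RingHom.ker (ev (dN k M) w) := iInf₂_le w hw
  have : (RingHom.ker (ev (dN k M) w)).IsPrime := RingHom.ker_isPrime _
  obtain ⟨P, hP, hPle⟩ := Ideal.exists_minimalPrimes_le hle
  refine Set.mem_biUnion hP ?_
  rw [Finset.mem_coe, Multiset.mem_toFinset, Polynomial.mem_roots (hg0 P hP), Polynomial.IsRoot]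
  have h1 : ev (dN k M) w (Polynomial.aeval (W0 (dN k M) (k + 1)) (g P)) = 0 := hPle (hg P hP)
  rw [Polynomial.aeval_def, Polynomial.hom_eval₂, ev_W0 w (by rw [dN]; omega)] at h1
  rw [← h1, Polynomial.eval, Polynomial.eval₂_congr ?_ rfl rfl]
  ext a
  show a = ev (dN k M) w (MvPolynomial.C a)
  rw [ev, MvPolynomial.eval_C]

end Pool.Agent.Helper97K9.IP
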