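import Pool.Agent.Helper97K9.IP.Tm

/-!
# Rigid witnesses: the values of the terms of the reduction
-/

set_option autoImplicit false

namespace Pool.Agent.Helper97K9.IP

open Finset Pool.Agent.H612 Pool.Agent.R537.RN
open Pool.Agent.NPC Pool.Agent.NPC.ER Pool.Agent.NPC.H612 Pool.Agent.NPC.R537HD

theorem rsum (n : ℕ) (f : ℕ → ℝ) : ((List.range n).map f).sum = ∑ i : Fin n, f i := by
  rw [← Finset.sum_range]
  rfl

theorem eval_sumT_range (v : ℕ → ℝ) (n : ℕ) (f : ℕ → Tm) :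
    (sumT ((List.range n).map f)).eval v = ∑ i : Fin n, (f i).eval v := by
  rw [eval_sumT, List.map_map, rsum]
  rfl

theorem sum_map_flatMap {α : Type} (l : List α) (f : α → List Tm) (v : ℕ → ℝ) :
    ((l.flatMap f).map (Tm.eval v)).sum = (l.map fun a => ((f a).map (Tm.eval v)).sum).sum := by
  induction l with
  | nil => simp
  | cons a l ih => simp [ih]

@[simp] theorem eval_dbl (v : ℕ → ℝ) (t : Tm) : (dbl t).eval v = 2 * t.eval v := by
  simp [dbl, Tm.eval, two_mul]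

@[simp] theorem eval_p128 (v : ℕ → ℝ) (t : Tm) : (p128 t).eval v = t.eval v ^ 128 := by
  simp only [p128, eval_sqT, ← pow_mul]

variable (I : In)

/-- The block. -/
def wb (v : ℕ → ℝ) (j : ℕ) : ℕ → ℝ := fun i => v (o I j + i)

theorem eval_tx (v : ℕ → ℝ) (j : ℕ) (l : Fin (ik I)) :
    (tx I j l).eval v = xw (ik I) (wb I v j) l := rfl

theorem eval_tμ (v : ℕ → ℝ) (j : ℕ) (i : Fin (ik I + 1)) :
    (tμ I j i).eval v = μw (ik I) (wb I v j) i := by
  simp only [tμ, Tm.eval, μw, wb]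
  exact congrArg v (by omega)

theorem eval_tz (v : ℕ → ℝ) (j : ℕ) (i : Fin (ik I + 1)) (l : Fin (iM I)) :
    (tz I j i l).eval v = zw (ik I) (iM I) (wb I v j) i l := by
  simp only [tz, Tm.eval, zw, wb]
  exact congrArg v (by omega)

theorem zw_eq (v : ℕ → ℝ) (j : ℕ) (i : Fin (ik I + 1)) :
    (fun l : Fin (iM I) => v (l + (o I j + 2 * ik I + 3 + i * iM I))) =
      zw (ik I) (iM I) (wb I v j) i := by
  funext l
  simp only [zw, wb]
  exact congrArg v (by omega)

theorem eval_tq (hv : vlt (iM I) (pT I)) (v : ℕ → ℝ) (j : ℕ) (i : Fin (ik I + 1)) :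
    (tq I j i).eval v = q (hkI I) (pp I) (xw (ik I) (wb I v j))
      (zw (ik I) (iM I) (wb I v j) i) := by
  unfold tq q
  rw [Tm.eval, eval_sumT_range, eval_shT, ← pe_pol (iM I) (pT I) hv, zw_eq]
  refine congrArg₂ (· + ·) (Finset.sum_congr rfl fun l _ => ?_) rfl
  rw [eval_sqT, eval_subT, eval_tx]
  have h1 : (tz I j i l).eval v = zw (ik I) (iM I) (wb I v j) i (Fin.castLE (hkI I) l) :=
    eval_tz I v j i (Fin.castLE (hkI I) l)
  rw [h1]

theorem eval_tdq (hv : vlt (iM I) (pT I)) (v : ℕ → ℝ) (j : ℕ) (i : Fin (ik I + 1))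
    (l : Fin (iM I)) : (tdq I j i l).eval v = dq (pp I) l (xw (ik I) (wb I v j))
      (zw (ik I) (iM I) (wb I v j) i) := by
  unfold tdq dq
  rw [Tm.eval, eval_shT, ← pe_pderiv (iM I) (pT I) hv, zw_eq]
  refine congrArg₂ (· + ·) ?_ rfl
  by_cases h : (l : ℕ) < ik I
  · rw [if_pos h, dif_pos h, eval_dbl, eval_subT, eval_tz]
    rfl
  · rw [if_neg h, dif_neg h]
    rfl

theorem eval_tsx (v : ℕ → ℝ) (j : ℕ) :
    (tsx I j).eval v = 1 - sx (xw (ik I) (wb I v j)) := by
  unfold tsx sx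
  rw [eval_subT, eval_sumT_range]
  refine congrArg₂ (· - ·) rfl (Finset.sum_congr rfl fun l _ => ?_)
  rw [eval_sqT, eval_tx]

theorem eval_tC (v : ℕ → ℝ) (j : ℕ) (l : Fin (ik I)) :
    (tC I j l).eval v = Ceq (hkI I) (wb I v j) l := by
  unfold tC Ceq
  have h0 : Tm.eval v (Tm.var (o I j + ik I)) = wb I v j (ik I) := rfl
  have h2 : ∀ a b : Tm, Tm.eval v (Tm.mul a b) = a.eval v * b.eval v := fun _ _ => rfl
  rw [eval_subT, h2, h2, eval_tsx, eval_sumT_range, eval_dbl, eval_tx, h0]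
  have h3 : ∀ i : Fin (ik I + 1), (Tm.mul (sqT (tμ I j i)) (dbl (subT (tx I j l)
      (tz I j i l)))).eval v = μw (ik I) (wb I v j) i ^ 2 * (2 * (xw (ik I) (wb I v j) l -
        zw (ik I) (iM I) (wb I v j) i (Fin.castLE (hkI I) l))) := by
    intro i
    have h1 : (tz I j i l).eval v = zw (ik I) (iM I) (wb I v j) i (Fin.castLE (hkI I) l) :=
      eval_tz I v j i (Fin.castLE (hkI I) l)
    rw [h2, eval_sqT, eval_dbl, eval_subT, eval_tμ, eval_tx, h1]
  rw [Finset.sum_congr rfl (fun i _ => h3 i)]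

theorem eval_tE (v : ℕ → ℝ) (j : ℕ) : (tE I j).eval v = Eeq (ik I) (wb I v j) := by
  unfold tE Eeq
  have h1 : v (o I j + ik I + 1) = wb I v j (ik I + 1) := congrArg v (by omega)
  have h2 : v (o I j + ik I) = wb I v j (ik I) := rfl
  simp only [eval_subT, Tm.eval, eval_tsx, h1, h2]

theorem eval_tb {v : ℕ → ℝ} (hv : ∀ t ≤ iL I, v t = hh t) {j : ℕ} (hj : j ≤ ik I)
    (l : Fin (ik I)) : (tb I j l).eval v = bb (ik I) (iea I) j l := by
  unfold tb bb
  by_cases h : (l : ℕ) < j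
  · rw [if_pos h, if_pos h, Tm.eval, hv]
    have h1 : iea I (l + 1) ≤ iea I (ik I) := by
      unfold iea ea
      have h2 : (l : ℕ) + 1 ≤ ik I := by omega
      have := Nat.mul_le_mul_right (K1 (ik I) (iM I) (is' I) + 1) h2
      omega
    refine h1.trans ?_
    unfold iL ae ac iea
    omega
  · rw [if_neg h, if_neg h, Tm.eval]

theorem eval_tF (hV : vlt (iM I) (pT I)) {v : ℕ → ℝ} (hv : ∀ t ≤ iL I, v t = hh t) {j : ℕ}
    (hj : j ≤ ik I) :
    (tF I j).eval v = Fsq (hkI I) (pp I) 1 (bb (ik I) (iea I) j) (wb I v j) := by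
  unfold tF Fsq
  rw [eval_sumT, List.map_append, List.map_append, List.map_append, List.sum_append,
    List.sum_append, List.sum_append, sum_map_flatMap]
  simp only [List.map_map, rsum, Function.comp_apply, List.map_cons, List.map_nil,
    List.sum_cons, List.sum_nil, eval_sqT, eval_subT, eval_sumT_range, eval_tdq I hV, eval_tq I hV,
    eval_tC, eval_tE, eval_tb I hv hj, eval_tμ, eval_tx, Tm.eval, one_mul, one_pow, add_zero]
  have h1 : v (o I j + ik I) = wb I v j (ik I) := rfl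
  rw [h1]
  ring

theorem th (hnf : S_NF) : S_TH := by
  intro I v hv j hj
  unfold tTh Th
  rw [Tm.eval, Tm.eval, eval_tF I (hnf I).1 hv hj, Tm.eval, hv _ le_rfl, eval_sumT_range,
    Finset.sum_range]
  refine congrArg₂ (· + ·) rfl (congrArg₂ (· * ·) rfl (Finset.sum_congr rfl fun i _ => ?_))
  rw [eval_p128]
  rfl

end Pool.Agent.Helper97K9.IP
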