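import Pool.Agent.Helper97K9.IP.Tms

/-!
# Rigid witnesses: operations on terms
-/

set_option autoImplicit false

namespace Pool.Agent.Helper97K9.IP

open Finset Pool.Agent.H612 Pool.Agent.R537.RN
open Pool.Agent.NPC Pool.Agent.NPC.ER Pool.Agent.NPC.H612 Pool.Agent.NPC.R537HD

theorem eval_dT (t : Tm) (i : ℕ) (v : ℕ → ℝ) :
    HasDerivAt (fun s => t.eval (Function.update v i s)) ((dT i t).eval v) (v i) := by
  induction t with
  | var j =>
    simp only [Tm.eval, dT]
    by_cases h : j = i
    · subst h
      simp only [Function.update_self, if_true, Tm.eval]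
      exact hasDerivAt_id' _
    · simp only [Function.update_of_ne h, if_neg h, Tm.eval]
      exact hasDerivAt_const _ _
  | zero =>
    simp only [Tm.eval, dT]
    exact hasDerivAt_const _ _
  | one =>
    simp only [Tm.eval, dT]
    exact hasDerivAt_const _ _
  | add s t hs ht =>
    simp only [Tm.eval, dT]
    exact hs.add ht
  | neg s hs =>
    simp only [Tm.eval, dT]
    exact hs.neg
  | mul s t hs ht =>
    simp only [Tm.eval, dT]
    have := hs.mul ht
    simp only [Function.update_eq_self] at this
    exact this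

section

variable {R : Type} [CommRing R] {M : ℕ}

@[simp] theorem pe_zero (z : Fin M → R) : pe 0 z = 0 := by simp [pe]
@[simp] theorem pe_one (z : Fin M → R) : pe 1 z = 1 := by simp [pe]
@[simp] theorem pe_X (z : Fin M → R) (i : Fin M) : pe (MvPolynomial.X i) z = z i := by simp [pe]
@[simp] theorem pe_add (a b : MvPolynomial (Fin M) ℤ) (z : Fin M → R) :
    pe (a + b) z = pe a z + pe b z := by simp [pe, MvPolynomial.eval₂_add]
@[simp] theorem pe_mul (a b : MvPolynomial (Fin M) ℤ) (z : Fin M → R) :
    pe (a * b) z = pe a z * pe b z := by simp [pe, MvPolynomial.eval₂_mul]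
@[simp] theorem pe_neg (a : MvPolynomial (Fin M) ℤ) (z : Fin M → R) :
    pe (-a) z = -pe a z := by
  have := pe_add a (-a) z
  rw [add_neg_cancel, pe_zero] at this
  exact (neg_eq_of_add_eq_zero_right this.symm).symm

end

theorem pe_pol (M : ℕ) (t : Tm) (h : vlt M t) (v : ℕ → ℝ) :
    pe (pol M t) (fun l : Fin M => v l) = t.eval v := by
  induction t with
  | var i =>
    have h' : i < M := h
    simp [pol, h', Tm.eval]
  | zero => simp [pol, Tm.eval]
  | one => simp [pol, Tm.eval]
  | add s t hs ht => simp [pol, Tm.eval, hs h.1, ht h.2]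
  | neg s hs => simp [pol, Tm.eval, hs h]
  | mul s t hs ht => simp [pol, Tm.eval, hs h.1, ht h.2]

theorem pe_pderiv (M : ℕ) (t : Tm) (h : vlt M t) (l : Fin M) (v : ℕ → ℝ) :
    pe (MvPolynomial.pderiv l (pol M t)) (fun l : Fin M => v l) = (dT l t).eval v := by
  induction t with
  | var i =>
    have h' : i < M := h
    simp only [pol, h', dif_pos, dT]
    by_cases hi : i = l
    · subst hi
      simp [Tm.eval]
    · rw [MvPolynomial.pderiv_X_of_ne (by intro hh; exact hi (by rw [← hh]))]
      simp [hi, Tm.eval]
  | zero => simp [pol, dT, Tm.eval]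
  | one => simp [pol, dT, Tm.eval]
  | add s t hs ht => simp [pol, dT, Tm.eval, hs h.1, ht h.2]
  | neg s hs => simp [pol, dT, Tm.eval, hs h]
  | mul s t hs ht =>
    have e1 := pe_pol M s h.1 v
    have e2 := pe_pol M t h.2 v
    simp only [pol, dT, Tm.eval, MvPolynomial.pderiv_mul, pe_add, pe_mul, hs h.1, ht h.2, e1, e2]

theorem deg_pol (M : ℕ) (t : Tm) : DegLE (pol M t) (dg t) := by
  induction t with
  | var i =>
    simp only [pol, dg]
    split_ifs
    · exact degLE_X _
    · exact degLE_zero _
  | zero => exact degLE_zero _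
  | one =>
    simp only [pol]
    rw [← map_one MvPolynomial.C]
    exact degLE_C _ _
  | add s t hs ht => exact (hs.mono (le_max_left _ _)).add (ht.mono (le_max_right _ _))
  | neg s hs => exact hs.neg
  | mul s t hs ht => exact hs.mul ht

theorem norm_pol (M : ℕ) (t : Tm) : RNorm.int.mν (pol M t) ≤ 2 ^ t.toks.length := by
  induction t with
  | var i =>
    simp only [pol]
    split_ifs
    · exact (RNorm.int.mν_X _).trans (by simp [Tm.toks])
    · rw [RNorm.mν_zero]; exact Nat.zero_le _
  | zero => simp [pol, RNorm.mν_zero]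
  | one => exact (RNorm.int.mν_one).trans (Nat.one_le_two_pow)
  | add s t hs ht =>
    simp only [pol, Tm.toks, List.length_append, List.length_singleton]
    refine (RNorm.int.mν_add _ _).trans ?_
    have h1 : 2 ^ s.toks.length ≤ 2 ^ (s.toks.length + t.toks.length) :=
      Nat.pow_le_pow_right (by norm_num) (by omega)
    have h2 : 2 ^ t.toks.length ≤ 2 ^ (s.toks.length + t.toks.length) :=
      Nat.pow_le_pow_right (by norm_num) (by omega)
    rw [pow_succ]
    omega
  | neg s hs =>
    simp only [pol, Tm.toks, List.length_append, List.length_singleton]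
    refine (RNorm.int.mν_neg _).trans (hs.trans ?_)
    exact Nat.pow_le_pow_right (by norm_num) (by omega)
  | mul s t hs ht =>
    simp only [pol, Tm.toks, List.length_append, List.length_singleton]
    refine (RNorm.int.mν_mul _ _).trans ((Nat.mul_le_mul hs ht).trans ?_)
    rw [← pow_add]
    exact Nat.pow_le_pow_right (by norm_num) (by omega)

theorem eval_shT (c : ℕ) (t : Tm) (v : ℕ → ℝ) : (shT c t).eval v = t.eval (fun i => v (i + c)) := by
  induction t with
  | var i => rfl
  | zero => rfl
  | one => rfl
  | add s t hs ht => simp [shT, Tm.eval, hs, ht]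
  | neg s hs => simp [shT, Tm.eval, hs]
  | mul s t hs ht => simp [shT, Tm.eval, hs, ht]

theorem tm : S_TM :=
  ⟨eval_dT, pe_pol, pe_pderiv, deg_pol, norm_pol, eval_shT⟩

end Pool.Agent.Helper97K9.IP
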