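import Pool.Agent.R537.HD.Corr
import Pool.Agent.Helper97K9.IP.Defs

/-!
# Rigid witnesses: terms and the instance of the reduction
-/

set_option autoImplicit false

namespace Pool.Agent.Helper97K9.IP

open Finset Pool.Agent.H612 Pool.Agent.R537.RN
open Pool.Agent.NPC Pool.Agent.NPC.ER Pool.Agent.NPC.H612 Pool.Agent.NPC.R537HD

/-! ### Operations on terms -/

/-- The polynomial of a term in the variables `0, …, M - 1` (the other variables are replaced by
`0`). -/
noncomputable def pol (M : ℕ) : Tm → MvPolynomial (Fin M) ℤ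
  | Tm.var i => if h : i < M then MvPolynomial.X ⟨i, h⟩ else 0
  | Tm.zero => 0
  | Tm.one => 1
  | Tm.add s t => pol M s + pol M t
  | Tm.neg s => -pol M s
  | Tm.mul s t => pol M s * pol M t

/-- A bound for the degree. -/
def dg : Tm → ℕ
  | Tm.var _ => 1
  | Tm.zero => 0
  | Tm.one => 0
  | Tm.add s t => max (dg s) (dg t)
  | Tm.neg s => dg s
  | Tm.mul s t => dg s + dg t

/-- All variables are smaller than `M`. -/
def vlt (M : ℕ) : Tm → Prop
  | Tm.var i => i < M
  | Tm.zero => True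
  | Tm.one => True
  | Tm.add s t => vlt M s ∧ vlt M t
  | Tm.neg s => vlt M s
  | Tm.mul s t => vlt M s ∧ vlt M t

/-- The shift of the variables by `c`. -/
def shT (c : ℕ) : Tm → Tm
  | Tm.var i => Tm.var (i + c)
  | Tm.zero => Tm.zero
  | Tm.one => Tm.one
  | Tm.add s t => Tm.add (shT c s) (shT c t)
  | Tm.neg s => Tm.neg (shT c s)
  | Tm.mul s t => Tm.mul (shT c s) (shT c t)

/-- The derivative with respect to the variable `i`. -/
def dT (i : ℕ) : Tm → Tm
  | Tm.var j => if j = i then Tm.one else Tm.zero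
  | Tm.zero => Tm.zero
  | Tm.one => Tm.zero
  | Tm.add s t => Tm.add (dT i s) (dT i t)
  | Tm.neg s => Tm.neg (dT i s)
  | Tm.mul s t => Tm.add (Tm.mul (dT i s) t) (Tm.mul s (dT i t))

/-- [TM] -/
def S_TM : Prop :=
  (∀ (t : Tm) (i : ℕ) (v : ℕ → ℝ),
    HasDerivAt (fun s => t.eval (Function.update v i s)) ((dT i t).eval v) (v i)) ∧
  (∀ (M : ℕ) (t : Tm), vlt M t → ∀ v : ℕ → ℝ, pe (pol M t) (fun l : Fin M => v l) = t.eval v) ∧
  (∀ (M : ℕ) (t : Tm), vlt M t → ∀ (l : Fin M) (v : ℕ → ℝ),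
    pe (MvPolynomial.pderiv l (pol M t)) (fun l : Fin M => v l) = (dT l t).eval v) ∧
  (∀ (M : ℕ) (t : Tm), DegLE (pol M t) (dg t)) ∧
  (∀ (M : ℕ) (t : Tm), RNorm.int.mν (pol M t) ≤ 2 ^ t.toks.length) ∧
  (∀ (c : ℕ) (t : Tm) (v : ℕ → ℝ), (shT c t).eval v = t.eval (fun i => v (i + c)))

/-- [PTM] -/
def S_PTM : Prop :=
  (∀ {α : Type} [TEnc α] {c : α → ℕ} {t : α → Tm}, Poly c → Poly t →
    Poly (fun a => shT (c a) (t a))) ∧
  (∀ {α : Type} [TEnc α] {c : α → ℕ} {t : α → Tm}, Poly c → Poly t →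
    Poly (fun a => dT (c a) (t a)))

/-! ### The polynomial `p` -/

/-- An input `(E, φ)` of the problem of the truth of `∃ x ∀ y, φ`. -/
abbrev In : Type := List ℕ × Fm

section inst

variable (I : In)

/-- The negated sentence `∀ x ∃ y, ¬ φ`. -/
def pI : Inp := ([], I.1, Fm.not I.2)

/-- The number of the variables `x`. -/
def ik : ℕ := dm (pI I) + 2

/-- Half of the number of the variables `z`. -/
def iM0 : ℕ := bS (pI I) + dk'' (pI I) + 2

/-- The number of the variables `z`. -/
def iM : ℕ := iM0 I + iM0 I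

/-- The squares of the equations of a chain of squares. -/
def chq (b k : ℕ) : List Tm :=
  (List.range k).map fun j => sqT (subT (Tm.var (b + j + 1)) (sqT (Tm.var (b + j))))

/-- The list of the squares whose sum is `p`. -/
def ltT : List Tm :=
  (List.range (iM0 I)).map (fun i =>
    sqT (subT (Tm.add (sqT (Tm.var i)) (sqT (Tm.var (iM0 I + i)))) Tm.one)) ++
  ([sqT (subT (Tm.var (bW (pI I))) (tt' (pI I))), sqT (subT (Tm.var (bR (pI I))) (tr (pI I))),
    sqT (subT (Tm.add (Tm.var (bS (pI I))) (Tm.var (bS (pI I)))) Tm.one),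
    sqT (Tm.add (tPhi (pI I)) (sqT (Tm.var (bS (pI I) + dk'' (pI I) + 1))))] ++
  (chq (bW (pI I)) (dk (pI I)) ++ (chq (bR (pI I)) (dk' (pI I)) ++
    chq (bS (pI I)) (dk'' (pI I)))))

/-- The term of `p`. -/
def pT : Tm := sumT (ltT I)

/-- The polynomial `p`. -/
noncomputable def pp : MvPolynomial (Fin (iM I)) ℤ := pol (iM I) (pT I)

theorem hkI : ik I ≤ iM I := by
  unfold ik iM iM0 bS bR bW
  omega

/-- The bound for the norm. -/
def is' : ℕ := (pT I).toks.length

/-- [NF] -/
def S_NF : Prop := ∀ I : In, vlt (iM I) (pT I) ∧ (EAR I ↔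
  ∃ x : Fin (ik I) → ℝ, sx x < 1 ∧ ∀ z : Fin (iM I) → ℝ, 0 < q (hkI I) (pp I) x z)

/-- [ADM] -/
def S_ADM : Prop := ∀ I : In, Adm (ik I) (iM I) (is' I) (hkI I) (pp I)

/-! ### The formula of the reduction

The coordinates are: the chain `0, …, L` (with the values `hh 0, …, hh L`), the blocks `j ≤ k` of
`dN k M` coordinates from the position `o j`, the `k` coordinates of `x` from the position `bX`,
the coordinate `ζ` at the position `bZ`, and the homogenised variables. -/

/-- The exponents of the small numbers. -/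
def iea (i : ℕ) : ℕ := ea (ik I) (iM I) (is' I) i

/-- The length of the chain of squares. -/
def iL : ℕ := ae (ik I) (iM I) (is' I)

/-- The number of the coordinates of a block. -/
def iN : ℕ := dN (ik I) (iM I)

/-- The first position of the block `j`. -/
def o (j : ℕ) : ℕ := iL I + 1 + j * iN I

/-- The first position of `x`. -/
def bX : ℕ := iL I + 1 + (ik I + 1) * iN I

/-- The position of `ζ`. -/
def bZ : ℕ := bX I + ik I

/-- The coordinate `z^i_l` of the block `j`. -/
def tz (j i l : ℕ) : Tm := Tm.var (o I j + 2 * ik I + 3 + i * iM I + l)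

/-- The coordinate `x_l` of the block `j`. -/
def tx (j l : ℕ) : Tm := Tm.var (o I j + l)

/-- The coordinate `μ_i` of the block `j`. -/
def tμ (j i : ℕ) : Tm := Tm.var (o I j + ik I + 2 + i)

/-- `2 t`. -/
def dbl (t : Tm) : Tm := Tm.add t t

/-- `q(x, z^i)` in the block `j`. -/
def tq (j i : ℕ) : Tm :=
  Tm.add (sumT ((List.range (ik I)).map fun l => sqT (subT (tz I j i l) (tx I j l))))
    (shT (o I j + 2 * ik I + 3 + i * iM I) (pT I))

/-- `∂q/∂z_l` at `(x, z^i)` in the block `j`. -/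
def tdq (j i l : ℕ) : Tm :=
  Tm.add (if l < ik I then dbl (subT (tz I j i l) (tx I j l)) else Tm.zero)
    (shT (o I j + 2 * ik I + 3 + i * iM I) (dT l (pT I)))

/-- `1 - |x|²` in the block `j`. -/
def tsx (j : ℕ) : Tm := subT Tm.one (sumT ((List.range (ik I)).map fun l => sqT (tx I j l)))

/-- The equation of the multipliers. -/
def tC (j l : ℕ) : Tm :=
  subT (Tm.mul (tsx I j) (sumT ((List.range (ik I + 1)).map fun i =>
    Tm.mul (sqT (tμ I j i)) (dbl (subT (tx I j l) (tz I j i l))))))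
    (Tm.mul (dbl (Tm.var (o I j + ik I))) (tx I j l))

/-- The equation of the value. -/
def tE (j : ℕ) : Tm :=
  subT (Tm.mul (Tm.var (o I j + ik I)) (tsx I j)) (Tm.var (o I j + ik I + 1))

/-- The number `b_l` of the block `j`. -/
def tb (j l : ℕ) : Tm := if l < j then Tm.var (iea I (l + 1)) else Tm.zero

/-- `t ^ 128`. -/
def p128 (t : Tm) : Tm := sqT (sqT (sqT (sqT (sqT (sqT (sqT t))))))

/-- The sum of squares `F²` of the block `j`. -/
def tF (j : ℕ) : Tm :=
  sumT ((List.range (ik I + 1)).flatMap (fun i =>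
      (List.range (iM I)).map fun l => sqT (tdq I j i l)) ++
    ((List.range (ik I + 1)).map (fun i => sqT (subT (tq I j i) (Tm.var (o I j + ik I)))) ++
    ((List.range (ik I)).map (fun l => sqT (subT (tC I j l) (tb I j l))) ++
    [sqT (subT (sumT ((List.range (ik I + 1)).map fun i => sqT (tμ I j i))) Tm.one),
      sqT (subT (tE I j) (sumT ((List.range (ik I)).map fun l =>
        Tm.mul (tb I j l) (tx I j l))))])))

/-- The function `Th` of the block `j`. -/
def tTh (j : ℕ) : Tm :=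
  Tm.add (tF I j) (Tm.mul (Tm.var (iL I))
    (sumT ((List.range (iN I)).map fun i => p128 (Tm.var (o I j + i)))))

/-- [TH] The values of the terms. -/
def S_TH : Prop := ∀ (I : In) (v : ℕ → ℝ), (∀ t ≤ iL I, v t = hh t) → ∀ j ≤ ik I,
  (tTh I j).eval v =
    Th (hkI I) (pp I) (bb (ik I) (iea I) j) (hh (iL I)) (fun i => v (o I j + i))

/-- The conditions on the rigid part. -/
def fBase : List Fm :=
  Fm.eq (dbl (Tm.var 0)) Tm.one :: (chain 0 (iL I) ++
    ((List.range (ik I + 1)).flatMap (fun j => (List.range (iN I)).map fun i =>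
      Fm.eq (dT (o I j + i) (tTh I j)) Tm.zero) ++
    ((List.range (ik I)).map (fun l =>
      Fm.eq (Tm.mul (Tm.var (iea I (l + 1))) (Tm.var (bX I + l)))
        (subT (Tm.var (o I l + ik I + 1)) (Tm.var (o I (l + 1) + ik I + 1)))) ++
    [Fm.lt (sumT ((List.range (ik I)).map fun l => sqT (Tm.var (bX I + l)))) Tm.one])))

/-- The system of constraints for `p(z) = 0`. -/
def rS : List ER.Con := sysOf (Fm.eq (pT I) Tm.zero)

/-- The list of its variables. -/
def rV : List ℕ := (List.range (ik I)).map (2 * ·) ++ (rS I).flatMap Con.vars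

/-- The homogenised variable. -/
def rX (i : ℕ) : Tm := Tm.var (bZ I + 1 + (rV I).idxOf i)

/-- The homogenised constraint. -/
def rC (c : ER.Con) : Fm :=
  if c.code.1 = 0 then Fm.eq (rX I c.code.2.1) (Tm.var (bZ I))
  else if c.code.1 = 1 then
    Fm.eq (Tm.add (rX I c.code.2.1) (rX I c.code.2.2.1)) (rX I c.code.2.2.2)
  else Fm.eq (Tm.mul (rX I c.code.2.1) (rX I c.code.2.2.1))
    (Tm.mul (Tm.var (bZ I)) (rX I c.code.2.2.2))

/-- The cone over the solutions of `p(z) = 0`, `z_l = x_l`. -/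
def fRay : List Fm :=
  Fm.lt Tm.zero (Tm.var (bZ I)) ::
    ((rS I).map (rC I) ++ (List.range (ik I)).map fun l =>
      Fm.eq (rX I (2 * l)) (Tm.mul (Tm.var (bZ I)) (Tm.var (bX I + l))))

/-- The dimension. -/
def iD : ℕ := bZ I + 1 + ((rV I).length + 1)

/-- The formula. -/
def fml : Fm :=
  Fm.and (conj (fBase I)) (Fm.or (zer (bZ I) ((rV I).length + 2)) (conj (fRay I)))

end inst

/-! ### The problem -/

/-- The set `S ⊆ ℝⁿ` has an isolated point. -/
def HasIso (n : ℕ) (φ : Fm) : Prop :=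
  ∃ x ∈ semi n φ, ∃ ε > 0, ∀ y ∈ semi n φ, dist y x < ε → y = x

/-- The instances: the dimension (in unary) and a quantifier-free formula. -/
def Iso (J : List Unit × Fm) : Prop := HasIso J.1.length J.2

/-- The instance of the reduction. -/
def red (I : In) : List Unit × Fm := (List.replicate (iD I) (), fml I)

/-- [COR] -/
def S_COR : Prop := S_TM → S_NF → S_ADM → S_TH → S_FIN → S_MAIN → ∀ I : In, EAR I ↔ Iso (red I)

/-- [PT] -/
def S_PT : Prop := S_PTM → Poly red

/-- [MEM] -/
def S_MEM : Prop := InEAR (lang Iso)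

end Pool.Agent.Helper97K9.IP
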