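import Pool.Agent.Helper97K9.IP.CG
import Pool.Agent.Helper97K9.IP.Slab
import Pool.Agent.Helper97K9.IP.Main
import Pool.Agent.Helper97K9.IP.Gap
import Pool.Agent.Helper97K9.IP.SD
import Pool.Agent.Helper97K9.IP.KKT
import Pool.Agent.Helper97K9.IP.Sard
import Pool.Agent.Helper97K9.IP.Fin
import Pool.Agent.Helper97K9.IP.Tm
import Pool.Agent.Helper97K9.IP.Th
import Pool.Agent.Helper97K9.IP.NF
import Pool.Agent.Helper97K9.IP.Adm
import Pool.Agent.Helper97K9.IP.Cor
import Pool.Agent.Helper97K9.IP.Ptm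
import Pool.Agent.Helper97K9.IP.PT
import Pool.Agent.Helper97K9.IP.Mem

/-!
# The isolated point problem is `∃∀ℝ`-complete
-/

set_option autoImplicit false

namespace Pool.Agent.Helper97K9.IP

open Pool.Agent.NPC Pool.Agent.NPC.ER Pool.Agent.NPC.H612 Pool.Agent.NPC.R537HD

theorem smain : S_MAIN := main gap sd kkt sard cg slab

theorem correct (I : In) : EAR I ↔ Iso (red I) :=
  cor tm nf (adm tm) (th nf) fin smain I

/-! ### Formulas in the variables `x_0, …, x_{n-1}` -/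

/-- All variables of the formula are smaller than `n`. -/
def fvlt (n : ℕ) : Fm → Prop
  | Fm.eq s t => vlt n s ∧ vlt n t
  | Fm.lt s t => vlt n s ∧ vlt n t
  | Fm.le s t => vlt n s ∧ vlt n t
  | Fm.not φ => fvlt n φ
  | Fm.and φ ψ => fvlt n φ ∧ fvlt n ψ
  | Fm.or φ ψ => fvlt n φ ∧ fvlt n ψ

theorem vlt_sbT (n : ℕ) (t : Tm) : vlt n (MML.sbT n 0 t) := by
  induction t with
  | var i =>
    unfold MML.sbT
    split_ifs with h
    · exact h
    · exact trivial
  | zero => exact trivial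
  | one => exact trivial
  | add s t h1 h2 => exact ⟨h1, h2⟩
  | neg s h1 => exact h1
  | mul s t h1 h2 => exact ⟨h1, h2⟩

theorem fvlt_sbF (n : ℕ) (φ : Fm) : fvlt n (MML.sbF n 0 φ) := by
  induction φ with
  | eq s t => exact ⟨vlt_sbT n s, vlt_sbT n t⟩
  | lt s t => exact ⟨vlt_sbT n s, vlt_sbT n t⟩
  | le s t => exact ⟨vlt_sbT n s, vlt_sbT n t⟩
  | not φ h1 => exact h1
  | and φ ψ h1 h2 => exact ⟨h1, h2⟩
  | or φ ψ h1 h2 => exact ⟨h1, h2⟩

theorem sbT_eq {n : ℕ} {t : Tm} (h : vlt n t) : MML.sbT n 0 t = t := by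
  induction t with
  | var i =>
    unfold MML.sbT
    rw [if_pos (show i < n from h)]
    rfl
  | zero => rfl
  | one => rfl
  | add s t h1 h2 => simp only [MML.sbT, h1 h.1, h2 h.2]
  | neg s h1 => simp only [MML.sbT, h1 h]
  | mul s t h1 h2 => simp only [MML.sbT, h1 h.1, h2 h.2]

theorem sbF_eq {n : ℕ} {φ : Fm} (h : fvlt n φ) : MML.sbF n 0 φ = φ := by
  induction φ with
  | eq s t => simp only [MML.sbF, sbT_eq h.1, sbT_eq h.2]
  | lt s t => simp only [MML.sbF, sbT_eq h.1, sbT_eq h.2]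
  | le s t => simp only [MML.sbF, sbT_eq h.1, sbT_eq h.2]
  | not φ h1 => simp only [MML.sbF, h1 h]
  | and φ ψ h1 h2 => simp only [MML.sbF, h1 h.1, h2 h.2]
  | or φ ψ h1 h2 => simp only [MML.sbF, h1 h.1, h2 h.2]

theorem fvlt_iff {n : ℕ} {φ : Fm} : fvlt n φ ↔ MML.sbF n 0 φ = φ :=
  ⟨sbF_eq, fun h => by rw [← h]; exact fvlt_sbF n φ⟩

theorem semi_sbF (n : ℕ) (φ : Fm) : semi n (MML.sbF n 0 φ) = semi n φ := by
  ext x
  change (MML.sbF n 0 φ).Holds (asg x) ↔ φ.Holds (asg x)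
  rw [MML.holds_sbF]
  have h : (fun i => if i < n then asg x (i + 0) else 0) = asg x := by
    funext i
    unfold asg
    by_cases hi : i < n
    · rw [if_pos hi]
      rfl
    · rw [if_neg hi, dif_neg hi]
  rw [h]

theorem hasIso_sbF (n : ℕ) (φ : Fm) : HasIso n (MML.sbF n 0 φ) ↔ HasIso n φ := by
  unfold HasIso
  rw [semi_sbF]

/-- The isolated point problem, for formulas in the variables `x_0, …, x_{n-1}`. -/
def IsoV (J : List Unit × Fm) : Prop := fvlt J.1.length J.2 ∧ HasIso J.1.length J.2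

theorem poly_red' : NPC.Poly (fun I : In => (((red I).1, MML.sbF (red I).1.length 0 (red I).2) :
    List Unit × Fm)) := by
  have h := pt ptm
  have h1 : NPC.Poly (fun I : In => (red I).1) := NPC.Poly.fst h
  have h2 : NPC.Poly (fun I : In => (red I).2) := NPC.Poly.snd h
  exact NPC.Poly.pair h1 (MML.poly_sbF (UPoly.length h1).toPoly (NPC.Poly.const 0) h2)

theorem hardV : EARHard (lang IsoV) := by
  refine EARHard.of_poly poly_red' fun I => ?_
  unfold IsoV
  rw [correct, hasIso_sbF]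
  exact ⟨fun h => ⟨fvlt_sbF _ _, h⟩, fun h => h.2⟩

theorem memV : InEAR (lang IsoV) := by
  have hU : UPoly (fun J : List Unit × Fm => J.1.length) :=
    UPoly.length (NPC.Poly.fst NPC.Poly.id)
  have hn : NPC.Poly (fun J : List Unit × Fm => J.1.length) := hU.toPoly
  have hφ : NPC.Poly (fun J : List Unit × Fm => J.2) := NPC.Poly.snd NPC.Poly.id
  have h1 : NPC.Poly (fun J : List Unit × Fm =>
      if MML.sbF J.1.length 0 J.2 = J.2 then MML.iF J else (([] : List ℕ), Fm.ff)) :=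
    NPC.Poly.ite (NPC.Poly.decide_eq (MML.poly_sbF hn (NPC.Poly.const 0) hφ) hφ) MML.poly_iF
      (NPC.Poly.const _)
  refine InEAR.of_poly h1 fun J => ?_
  unfold IsoV
  rw [fvlt_iff]
  by_cases h : MML.sbF J.1.length 0 J.2 = J.2
  · rw [if_pos h, ← MML.iF_spec]
    exact ⟨fun h' => h'.2, fun h' => ⟨h, h'⟩⟩
  · rw [if_neg h]
    refine ⟨fun h' => absurd h'.1 h, ?_⟩
    rintro ⟨x, h'⟩
    exact absurd (h' x) (lt_irrefl _)

theorem completeV : EARComplete (lang IsoV) := ⟨memV, hardV⟩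

theorem complete : EARComplete (lang Iso) :=
  ⟨mem, EARHard.of_poly (pt ptm) correct⟩

end Pool.Agent.Helper97K9.IP
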